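import Pool.Agent.MP_09973c_nt.H31.A13b

/-!
The size lemma for two algebraically independent entry points.
-/

set_option autoImplicit false

namespace Pool.Agent.MP_09973c_nt.H31

open Polynomial Finset Filter Classical Pool.Agent.MP_09973c_nt.H58

theorem tr_le {p q : ℕ} (hpq : p ≤ q) (j : ℕ) : ∀ k, tr p q j k ≤ q := by
  induction j with
  | zero => exact fun _ => le_rfl
  | succ j ih =>
    intro k
    cases k with
    | zero => exact hpq
    | succ k => exact ih k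

theorem mono_Sz {p q j m T d e : ℕ} {H : ℝ} (hpq : p ≤ q) (hH : 1 ≤ H) {u t : ℕ → Qb}
    (hu : ∀ i ≤ m, Sz (u i) d H) (ht : ∀ i ≤ j, Sz (t i) d H) (he : T + (m + j) * q ≤ e)
    (k : PK p q j m T) : Sz (mono k u t) (d ^ e) (H ^ e) := by
  have h1 : ∀ i : Fin (m + j), Sz (pv j u t i) d H := fun i => by
    unfold pv
    split_ifs with h
    · exact ht _ (by omega)
    · exact hu _ (by have := i.2; omega)
  have h2 := ((hu m le_rfl).pow k.1).mul
    (Sz.prod univ fun (i : Fin (m + j)) _ => (h1 i).pow (k.2 i))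
  rw [prod_pow_eq_pow_sum, prod_pow_eq_pow_sum, ← pow_add, ← pow_add] at h2
  have h3 : (k.1 : ℕ) + ∑ i : Fin (m + j), (k.2 i : ℕ) ≤ e := by
    have h4 : ∑ i : Fin (m + j), (k.2 i : ℕ) ≤ (m + j) * q := by
      have := sum_le_card_nsmul univ (fun i : Fin (m + j) => (k.2 i : ℕ)) q
        fun i _ => (k.2 i).2.le.trans (tr_le hpq j i)
      simpa using this
    have := k.1.2
    omega
  exact h2.mono (pow_dvd_pow _ h3) (pow_le_pow_right₀ hH h3)

theorem dat_Sz {p q : ℕ} (hp : 0 < p) (hpq : p < q) {d : ℕ} (hd : 0 < d) {Ca : ℝ} (hCa : 0 ≤ Ca)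
    (J : ℕ) : ∃ d₁ : ℕ, 0 < d₁ ∧ ∃ H₁ : ℝ, 1 ≤ H₁ ∧ ∀ c : Qb, Sz c d Ca → ∀ D : Dat p q c,
      (∀ i, Sz (D.u i) d₁ H₁) ∧ ∀ i ≤ J, i ≤ D.n → Sz (D.t i) d₁ H₁ := by
  have hΛ := log_one_add_nonneg hCa
  have hθ := (theta_gt hp hpq).le
  have h1 : (1 : ℝ) ≤ ((q : ℝ) / p) ^ J := one_le_pow₀ hθ
  refine ⟨d ^ dn p q J, pow_pos hd _, Real.exp (((q : ℝ) / p) ^ J * (2 * Real.log (1 + Ca))),
    Real.one_le_exp (by positivity), fun c hc D => ⟨fun i => ?_, fun i hi hn => ?_⟩⟩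
  · refine (D.u_Sz hp hpq hc i).mono (dvd_pow_self _ (dn_pos p q J).ne') ?_
    rw [← Real.log_le_iff_le_exp (by linarith)]
    nlinarith
  · refine (D.t_Sz hp hpq hc hn).mono (pow_dvd_pow _ (dn_mono hp hpq hi)) ?_
    gcongr

theorem okP_gal {p q : ℕ} (hp : 0 < p) (hpq : p < q) {a : Qb} {d : ℕ} {Ca : ℝ} (hc : Sz a d Ca)
    (D : Dat p q a) {g : Gal} (hg : g ∈ GK p q a a) {j : ℕ} (hj : j ≤ D.n) (m : ℕ) :
    OkP p q a D.ξ (2 + Ca) j m (fun i => (g (D.u i) : Qb), fun i => (g (D.t i) : Qb)) := by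
  let φ : Qb →+* ℂ := (algebraMap Qb ℂ).comp g.toRingEquiv.toRingHom
  have ha : φ a = a := congrArg (algebraMap Qb ℂ) (GK_left hg)
  refine ⟨ha ▸ Bwd.map φ (D.bwd_u m), fun i _ => ?_, ?_, ha ▸ Bwd.map φ (bwd_le D.ht hj)⟩
  · exact ((D.u_Sz hp hpq hc i).2 g).trans (by linarith)
  · simp only [D.ht0, map_mul, GK_p hg D.hξ]
    rfl

theorem mono_gal {p q j m T : ℕ} (k : PK p q j m T) (u t : ℕ → Qb) (g : Gal) :
    mono k (fun i => ((g (u i) : Qb) : ℂ)) (fun i => ((g (t i) : Qb) : ℂ)) =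
      (g (mono k u t) : Qb) :=
  (mono_map ((algebraMap Qb ℂ).comp g.toRingEquiv.toRingHom) k u t).symm

theorem card_prod_frac {κ κ' : Type} [Fintype κ] [Fintype κ'] {K : ℕ} (P : κ × κ' → Prop)
    (h : ∀ y, Fintype.card κ ≤ K * (univ.filter fun x => P (x, y)).card) :
    Fintype.card (κ × κ') ≤ K * (univ.filter P).card := by
  rw [card_filter, Fintype.sum_prod_type_right, mul_sum, Fintype.card_prod, mul_comm,
    ← card_univ (α := κ'), ← smul_eq_mul]
  refine card_nsmul_le_sum _ _ _ fun y _ => ?_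
  rw [← card_filter]
  exact h y

theorem const_root {p q : ℕ} (hp : 0 < p) {a : Qb} (U : Ultrafilter ℕ) (D : ℕ → Dat p q a) :
    ∃ ξ : Qb, ξ ^ p = 1 ∧ ξ ≠ 1 ∧ ∀ᶠ ν in (U : Filter ℕ), (D ν).ξ = ξ := by
  obtain ⟨ξ, hξ, h⟩ := (Ultrafilter.eventually_exists_mem_iff (f := U)
    (P := fun ξ ν => (D ν).ξ = ξ) (finite_roots_one hp)).1
    (Eventually.of_forall fun ν => ⟨_, (D ν).hξ, rfl⟩)
  obtain ⟨ν, hν⟩ := h.exists
  exact ⟨ξ, hξ, hν ▸ (D ν).hξ1, h⟩

theorem card_PK_pos {p q j m T : ℕ} (hp : 0 < p) (hq : 0 < q) (hT : 0 < T) :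
    0 < Fintype.card (PK p q j m T) :=
  Fintype.card_pos_iff.2 ⟨(⟨0, hT⟩, fun k => ⟨0, tr_pos hp hq j k⟩)⟩

theorem numeric {N M T m q d₁ I Y J : ℕ} {B B' H₁ : ℝ} (hN : 0 < N) (hM : 0 < M) (hB : 1 ≤ B)
    (hB' : 1 ≤ B') (hq : 0 < q) (hd : 0 < d₁) (hH : 1 ≤ H₁)
    (hY : 8 + 2 * I + 4 * q * I * (Real.log d₁ + Real.log H₁) ≤ Y)
    (h1 : (Y : ℝ) * (Real.log B + Real.log N + T + m + 1) ≤ J)
    (h2 : (Y : ℝ) * (Real.log B' + Real.log M + T + m + 1) ≤ J) :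
    4 * Real.log (2 * (N * M : ℕ)) + 2 * Real.log (B * B') +
      I * (Real.log (d₁ ^ (T + 2 * m * q) * d₁ ^ (T + 2 * m * q) : ℕ) +
        Real.log (H₁ ^ (T + 2 * m * q) * H₁ ^ (T + 2 * m * q)) + Real.log (N * M : ℕ)) ≤ J := by
  have hN' : (0 : ℝ) < N := by exact_mod_cast hN
  have hM' : (0 : ℝ) < M := by exact_mod_cast hM
  have hd' : (0 : ℝ) < d₁ := by exact_mod_cast hd
  have hq' : (1 : ℝ) ≤ q := by exact_mod_cast hq
  have a1 := Real.log_natCast_nonneg N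
  have a2 := Real.log_natCast_nonneg M
  have a3 := Real.log_natCast_nonneg d₁
  have a4 := Real.log_nonneg hH
  have a5 := Real.log_nonneg hB
  have a6 := Real.log_nonneg hB'
  have a7 : Real.log 2 ≤ 1 := by linarith [Real.log_two_lt_d9]
  have hI : (0 : ℝ) ≤ I := Nat.cast_nonneg I
  have hT : (0 : ℝ) ≤ T := Nat.cast_nonneg T
  have hm : (0 : ℝ) ≤ m := Nat.cast_nonneg m
  push_cast
  rw [Real.log_mul two_ne_zero (by positivity), Real.log_mul hN'.ne' hM'.ne',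
    Real.log_mul (by positivity) (by positivity), Real.log_mul (by positivity) (by positivity),
    Real.log_mul (by positivity) (by positivity), Real.log_pow, Real.log_pow]
  push_cast
  set L := Real.log d₁ + Real.log H₁ with hL
  have hL0 : 0 ≤ L := by positivity
  have b0 : 0 ≤ 4 * q * I * L := by positivity
  have b1 : (8 + 2 * I) * (Real.log B + Real.log N + Real.log B' + Real.log M) ≤
      Y * (Real.log B + Real.log N + Real.log B' + Real.log M) :=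
    mul_le_mul_of_nonneg_right (by linarith) (by positivity)
  have b2 : (4 * q * I * L) * (T + m) ≤ Y * (T + m) :=
    mul_le_mul_of_nonneg_right (by linarith) (by positivity)
  have b3 : I * L * (2 * T) ≤ I * L * (4 * q * T) :=
    mul_le_mul_of_nonneg_left (by nlinarith) (by positivity)
  have b4 : 0 ≤ I * (Real.log B + Real.log B') := by positivity
  have e1 : I * ((T + 2 * m * q) * Real.log d₁ + (T + 2 * m * q) * Real.log d₁ +
      ((T + 2 * m * q) * Real.log H₁ + (T + 2 * m * q) * Real.log H₁) +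
      (Real.log N + Real.log M)) =
      I * L * (2 * T) + 4 * q * I * L * m + I * (Real.log N + Real.log M) := by
    rw [hL]; ring
  rw [e1]
  nlinarith

theorem sz2 (hSP : SPStmt) (hD : DetAStmt) (hP : ProdStmt) (hG : SelGStmt) (hS : SizeStmt)
    (hEA : EAStmt) (hAC : ACStmt) : Sz2Stmt := by
  intro p q a b hp hpq h ha hb U D D' o o' C₁ hM hind
  have hp0 : 0 < p := by omega
  have hq0 : 0 < q := by omega
  obtain ⟨d, hd, Ca, hCa, hSz⟩ := exists_Sz_finset {a, b}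
  have hSa : Sz a d Ca := hSz a (by simp)
  have hSb : Sz b d Ca := hSz b (by simp)
  obtain ⟨ξ, hξ, hξ1, hξU⟩ := const_root hp0 U D
  obtain ⟨ξ', hξ', hξ1', hξU'⟩ := const_root hp0 U D'
  obtain ⟨m₁, K₀, hK₀, hg⟩ := grid_frac hEA hAC hp hpq h (a := (a : ℂ)) (by exact_mod_cast ha)
    (2 + Ca)
  obtain ⟨j, hj⟩ := hg (2 * K₀ * (C₁ + 6) + 1)
  obtain ⟨d₁, hd₁, H₁, hH₁, hDS⟩ := dat_Sz hp0 hpq hd (Ca := Ca) (by linarith) (j + o + o')
  have hI := GK_index (mul_pos hp0 hq0) a b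
  obtain ⟨Y, hY⟩ := exists_nat_ge
    (8 + 2 * (GK p q a b).index + 4 * q * (GK p q a b).index * (Real.log d₁ + Real.log H₁))
  have hY1 : (1 : ℝ) ≤ Y := by
    have : 0 ≤ 4 * q * (GK p q a b).index * (Real.log d₁ + Real.log H₁) := by
      have := Real.log_natCast_nonneg d₁
      have := Real.log_nonneg hH₁
      positivity
    have : (0 : ℝ) ≤ (GK p q a b).index := Nat.cast_nonneg _
    linarith
  obtain ⟨C, hC⟩ := hSP p q (2 + Ca) hp hpq h
  obtain ⟨m₀, hm₀, -, hC⟩ := hC (j + o + o') 0 2 K₀ Y two_pos hK₀ (by exact_mod_cast hY1)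
  obtain ⟨m, hmm₀, hmm₁⟩ : ∃ m, m₀ ≤ m ∧ m₁ ≤ m := ⟨max m₀ m₁, le_max_left _ _, le_max_right _ _⟩
  obtain ⟨T, T', J, hT, -, hC⟩ := hC m hmm₀
  have hξc : (ξ : ℂ) ^ p = 1 := by exact_mod_cast hξ
  obtain ⟨S, hok, he, hgr, hfr, hnum, hmul, -⟩ := hC a ξ (j + o) ∅
    (by have := hSa.norm_le; exact add_le_add le_rfl this) hξc (by omega) (by simp)
  obtain ⟨S', hok', he', -, hfr', hnum', hmul', -⟩ := hC b ξ' (j + o') ∅
    (by have := hSb.norm_le; exact add_le_add le_rfl this) (by exact_mod_cast hξ') (by omega)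
    (by simp)
  obtain ⟨W, hWok, hWe, hWR, hWB, hWmul⟩ := hP _ _ _ _ _ _ S S'
  have hN := card_PK_pos (j := j + o) (m := m) hp0 hq0 hT
  have hN' := card_PK_pos (j := j + o') (m := m) hp0 hq0 hT
  have hlong := hM.long (j + o + o')
  have hES : ∀ᶠ ν in (U : Filter ℕ), ∀ k : PK p q (j + o) m T × PK p q (j + o') m T,
      Sz (mono k.1 (D ν).u (D ν).t * mono k.2 (D' ν).u (D' ν).t)
        (d₁ ^ (T + 2 * m * q) * d₁ ^ (T + 2 * m * q))
        (H₁ ^ (T + 2 * m * q) * H₁ ^ (T + 2 * m * q)) := by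
    refine hlong.mono fun ν hν k => Sz.mul ?_ ?_
    · exact mono_Sz hpq.le hH₁ (fun i _ => (hDS a hSa _).1 i)
        (fun i hi => (hDS a hSa _).2 i (by omega) (by omega))
        (add_le_add le_rfl (Nat.mul_le_mul_right _ (by omega))) _
    · exact mono_Sz hpq.le hH₁ (fun i _ => (hDS b hSb _).1 i)
        (fun i hi => (hDS b hSb _).2 i (by omega) (by omega))
        (add_le_add le_rfl (Nat.mul_le_mul_right _ (by omega))) _
  have hsel := hG _ (GK p q a b) _ _ U _ hI (by positivity) hES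
    (two_indep_ultra hp hpq h ha hb hξ hξ1 hξ' hξ1' U
      ((hlong.and (hξU.and hξU')).mono fun ν hν =>
        ⟨⟨(D ν).bwd_u m, hν.2.1 ▸ (D ν).ht0, bwd_le (D ν).ht (by omega)⟩,
          (D' ν).bwd_u m, hν.2.2 ▸ (D' ν).ht0, bwd_le (D' ν).ht (by omega)⟩) (hind m))
  obtain ⟨ν, ⟨g₀, hg₀, hdet⟩, hEν, hlν, hsν, hξν, hξν'⟩ :=
    (hsel.and (hES.and (hlong.and ((hM.size j).and (hξU.and hξU'))))).exists
  have hJ : 0 < J := by
    have a1 := Real.log_natCast_nonneg (Fintype.card (PK p q (j + o) m T))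
    have a2 := Real.log_nonneg S.hB
    have a3 : (0 : ℝ) ≤ T := Nat.cast_nonneg T
    have a4 : (0 : ℝ) ≤ m := Nat.cast_nonneg m
    have : (1 : ℝ) ≤ J := by nlinarith
    exact_mod_cast this
  obtain ⟨g, -, hEQ⟩ := hD _ _ _ ((Fin 3 → ℂ) × (Fin 3 → ℂ)) W (GK p q a b)
    (fun g => ((fun i => (g ((D ν).u i) : Qb), fun i => (g ((D ν).t i) : Qb)),
      (fun i => (g ((D' ν).u i) : Qb), fun i => (g ((D' ν).t i) : Qb)))) _ _ _ g₀
    (fun l x => (∑ i, l.1 i * ![1, x.1.2 (j + o), x.2.2 (j + o')] i) *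
      ∑ i, l.2 i * ![1, x.1.2 (j + o), x.2.2 (j + o')] i) J hI
    (fun g hg => ⟨(hWok _).2 ⟨(hok _).2 (hξν ▸ okP_gal hp0 hpq hSa _ (GK_le_left _ _ _ _ hg)
      (by omega) m), (hok' _).2 (hξν' ▸ okP_gal hp0 hpq hSb _
        (GK_le_left _ _ _ _ (GK_comm p q a b ▸ hg)) (by omega) m)⟩, fun k => by
      rw [hWe, he, he', mono_gal, mono_gal, map_mul]; rfl⟩)
    (by positivity) (one_le_mul_of_one_le_of_one_le (one_le_pow₀ hH₁) (one_le_pow₀ hH₁)) hEν hg₀
    hdet hJ (fun l => hWmul _ _ (2 * J) hmul hmul' J l.1 l.2 le_rfl)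
    (by
      rw [hWB, Fintype.card_prod]
      exact numeric hN hN' S.hB S'.hB hq0 hd₁ hH₁ hY hnum hnum')
  haveI : Nonempty (PK p q (j + o) m T × PK p q (j + o') m T) :=
    Fintype.card_pos_iff.1 (by rw [Fintype.card_prod]; positivity)
  have := hS _ _ K₀ (fun l => ![1, ((g * g₀ l) ((D ν).t (j + o)) : Qb),
      ((g * g₀ l) ((D' ν).t (j + o')) : Qb)])
    (fun l => ![1, (W.R l).1.2 (j + o), (W.R l).2.2 (j + o')]) C₁ (2 * K₀ * (C₁ + 6) + 1) hEQ
    (fun l => by simp) (fun l => by simp) (fun l => ?_) ?_ ?_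
  · linarith
  · simpa only [Matrix.cons_val_zero, Matrix.cons_val_one, Matrix.cons_val, div_one, lp_coe]
      using hsν (g * g₀ l)
  · refine card_prod_frac _ fun y => ?_
    simpa only [Matrix.cons_val_zero, Matrix.cons_val_one, Matrix.cons_val, div_one, hWR]
      using hj (j + o) (by omega) m hmm₁ ξ hξc (by exact_mod_cast hξ1) _ S.R hgr
        (lp ((S'.R y).2 (j + o')))
  · have a1 := frac_of_log 4 (by norm_num) le_rfl hfr
    have a2 := frac_of_log 4 (by norm_num) le_rfl hfr'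
    have a3 : (Fintype.card (PK p q (j + o) m T') : ℝ) ≤ Fintype.card (PK p q (j + o) m T) := by
      exact_mod_cast Fintype.card_le_of_embedding S.lo
    have a4 : (Fintype.card (PK p q (j + o') m T') : ℝ) ≤ Fintype.card (PK p q (j + o') m T) := by
      exact_mod_cast Fintype.card_le_of_embedding S'.lo
    rw [Fintype.card_prod (PK p q (j + o) m T), Fintype.card_prod (PK p q (j + o) m T')]
    push_cast
    generalize (Fintype.card (PK p q (j + o) m T') : ℝ) = x₀ at *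
    generalize (Fintype.card (PK p q (j + o') m T') : ℝ) = y₀ at *
    have b1 : (0 : ℝ) ≤ Fintype.card (PK p q (j + o) m T) := Nat.cast_nonneg _
    have b2 : (0 : ℝ) ≤ Fintype.card (PK p q (j + o') m T) := Nat.cast_nonneg _
    generalize (Fintype.card (PK p q (j + o) m T) : ℝ) = x at *
    generalize (Fintype.card (PK p q (j + o') m T) : ℝ) = y at *
    have b3 : (0 : ℝ) ≤ K₀ := Nat.cast_nonneg _
    have c1 := mul_le_mul_of_nonneg_right a1 b2
    have c2 := mul_le_mul_of_nonneg_left a2 b1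
    have c3 := mul_nonneg b3 (mul_nonneg (sub_nonneg.2 a3) (sub_nonneg.2 a4))
    nlinarith

end Pool.Agent.MP_09973c_nt.H31
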