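import Pool.Agent.MP_09973c_nt.H58.SpecA

/-!
The grid lemma and the size lemma for one orbit.
-/

set_option autoImplicit false

namespace Pool.Agent.MP_09973c_nt.H31

open Polynomial Finset Filter Classical Pool.Agent.MP_09973c_nt.H58

theorem bwd_le {A : Type} [CommRing A] {p q n m : ℕ} {c : A} {u : ℕ → A} (h : Bwd p q c n u)
    (hm : m ≤ n) : Bwd p q c m u := fun k hk => h k (by omega)

theorem theta_gt {p q : ℕ} (hp : 0 < p) (hpq : p < q) : 1 < (q : ℝ) / p := by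
  rw [one_lt_div (by exact_mod_cast hp)]
  exact_mod_cast hpq

/-- The size of the end of a tail is bounded in terms of the end of the chain. -/
theorem lp_tail_le {p q m j : ℕ} (hp : 0 < p) (hpq : p < q) {a ξ : ℂ} (hξ : ξ ^ p = 1)
    {u t : ℕ → ℂ} (hu : Bwd p q a m u) (h0 : t 0 = ξ * u 0) (ht : Bwd p q a j t) :
    lp (t j) ≤ ((q : ℝ) / p) ^ j * (lp (u m) + 2 * Real.log (1 + ‖a‖)) := by
  have h1 := esc_low hp hpq (le_refl ‖a‖) hu m le_rfl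
  have h2 := esc_up hp hpq (le_refl ‖a‖) ht j le_rfl
  have hΛ := log_one_add_nonneg (norm_nonneg a)
  have hθ := (theta_gt hp hpq).le
  have h3 : lp (t 0) = lp (u 0) := by rw [h0, lp_unit_mul (norm_root hp hξ)]
  have h4 : lp (u 0) ≤ lp (u m) + Real.log (1 + ‖a‖) := by
    rcases le_total (lp (u 0)) (Real.log (1 + ‖a‖)) with h | h
    · linarith [lp_nonneg (u m)]
    · have := one_le_pow₀ (n := m) hθ
      nlinarith
  have h5 : (0 : ℝ) ≤ ((q : ℝ) / p) ^ j := by positivity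
  rw [h3] at h2
  nlinarith

/-- For every real `s` a fixed fraction of the grid has size far from `s`. -/
theorem grid_frac (hEA : EAStmt) (hAC : ACStmt) {p q : ℕ} (hp : 2 ≤ p) (hpq : p < q)
    (h : p.Coprime q) {a : ℂ} (ha : a ≠ 0) (C₀ : ℝ) :
    ∃ m₁ K₀ : ℕ, 0 < K₀ ∧ ∀ A : ℝ, ∃ j₀ : ℕ, ∀ j, j₀ ≤ j → ∀ m, m₁ ≤ m → ∀ ξ : ℂ, ξ ^ p = 1 →
      ξ ≠ 1 → ∀ (κ : Type) [Fintype κ] (R : κ → (ℕ → ℂ) × (ℕ → ℂ)), Grid p q a ξ C₀ j m R →
      ∀ s : ℝ, Fintype.card κ ≤ K₀ * (univ.filter fun x => A ≤ |lp ((R x).2 j) - s|).card := by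
  obtain ⟨δ, hδ, m₁, hE⟩ := hEA p q a hp hpq h ha
  obtain ⟨A₀, hA⟩ := hAC p q a hp hpq h ha
  have hp0 : 0 < p := by omega
  have hθ := theta_gt hp0 hpq
  obtain ⟨j₁, hj₁⟩ := pow_unbounded_of_one_lt (A₀ / δ) hθ
  have hj₁' : A₀ ≤ δ * ((q : ℝ) / p) ^ j₁ := by
    rw [div_lt_iff₀ hδ] at hj₁; linarith
  refine ⟨m₁, q ^ (m₁ + (j₁ + 2)), pow_pos (by omega) _, fun A => ?_⟩
  obtain ⟨J₁, hJ⟩ := hA (((q : ℝ) / p) ^ j₁ * (lp (C₀ : ℝ) + 2 * Real.log (1 + ‖a‖))) A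
  refine ⟨j₁ + 2 + J₁, fun j hj m hm ξ hξ hξ1 κ _ R hR s => ?_⟩
  refine hR.frac m₁ hm (j₁ + 2) (by omega) _ fun x => ?_
  obtain ⟨u, t, hu, hum, ht0, ht, hl⟩ := hE m₁ le_rfl ξ ((R x).1 m₁) j₁ hξ hξ1
  have hW : lp (t j₁) ≤ ((q : ℝ) / p) ^ j₁ * (lp (C₀ : ℝ) + 2 * Real.log (1 + ‖a‖)) := by
    refine (lp_tail_le hp0 hpq hξ hu ht0 ht).trans ?_
    have : lp (u m₁) ≤ lp (C₀ : ℝ) := by
      refine lp_mono ?_
      rw [hum]
      exact ((hR.ok x).2.1 m₁ hm).trans (le_abs_self _)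
    gcongr
  obtain ⟨w₁, w₂, hw₁, hw₂, hz⟩ := hJ (j - (j₁ + 2)) (by omega) (t j₁) s (hj₁'.trans hl) hW
  refine ⟨u, fun i => if i ≤ j₁ then t i else if i = j₁ + 1 then w₁ else w₂, hu, hum, ?_, ?_, ?_⟩
  · simpa using ht0
  · intro k hk
    rcases lt_trichotomy k j₁ with h1 | h1 | h1
    · simpa [show k + 1 ≤ j₁ from h1, h1.le] using ht k h1
    · subst h1; simpa using hw₁
    · obtain rfl : k = j₁ + 1 := by omega
      simpa [show ¬ (j₁ + 1 + 1 ≤ j₁) by omega] using hw₂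
  · intro y _ hy
    rw [mem_filter]
    refine ⟨mem_univ _, ?_⟩
    have := hz (fun k => (R y).2 (j₁ + 2 + k)) ?_
      (Bwd.shift (hR.ok y).2.2.2 (i := j₁ + 2) (m := j - (j₁ + 2)) (by omega))
    · rwa [show j₁ + 2 + (j - (j₁ + 2)) = j by omega] at this
    · simpa [show ¬ (j₁ + 2 ≤ j₁) by omega] using hy (j₁ + 2) le_rfl

theorem EQ_comp {τ τ' κ : Type} [Fintype κ] {N' : ℕ} {a b : τ → κ → ℝ} {a' b' : τ' → κ → ℝ}
    (h : EQ N' a b) (φ : τ' → τ) (ha : ∀ f l, a' f l = a (φ f) l)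
    (hb : ∀ f l, b' f l = b (φ f) l) : EQ N' a' b' := by
  intro w hw
  obtain ⟨S₁, h1, hS₁⟩ := h w hw
  refine ⟨S₁, h1, fun f => ?_⟩
  obtain ⟨S, h2, hS⟩ := hS₁ (φ f)
  refine ⟨S, h2, fun f' => ?_⟩
  obtain ⟨S₂, h3, hS₂⟩ := hS (φ f')
  exact ⟨S₂, h3, by simpa only [ha, hb] using hS₂⟩

theorem EQq_of_EQp {κ : Type} [Fintype κ] {N' : ℕ} {x y : κ → ℂ} (h : EQp N' 2 x y) (c : ℂ) :
    EQq N' (fun l => ![1, x l, c]) fun l => ![1, y l, c] := by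
  refine EQ_comp h (fun f => ⟨(C (f.1 1) * X + C (f.1 0 + f.1 2 * c)) *
    (C (f.2 1) * X + C (f.2 0 + f.2 2 * c)), ?_⟩) ?_ ?_
  · refine natDegree_mul_le.trans ?_
    exact add_le_add (natDegree_linear_le) (natDegree_linear_le)
  · intro f l
    congr 1
    simp [Fin.sum_univ_three]
    ring
  · intro f l
    congr 1
    simp [Fin.sum_univ_three]
    ring

theorem lp_exp {s : ℝ} (hs : 0 ≤ s) : lp ((Real.exp s : ℝ) : ℂ) = s := by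
  have : ‖((Real.exp s : ℝ) : ℂ)‖ = Real.exp s := by
    rw [Complex.norm_real, Real.norm_of_nonneg (Real.exp_pos s).le]
  rw [lp_eq_log (by rw [this]; exact Real.one_le_exp hs), this, Real.log_exp]

theorem frac_of_log {K N N' : ℕ} (c : ℝ) (hc0 : 0 ≤ c) (hc : c ≤ 4)
    (h : (K : ℝ) * (Real.log N + 4) * ((N : ℝ) - N') ≤ N) : c * K * ((N : ℝ) - N') ≤ N := by
  have h0 := Real.log_natCast_nonneg N
  have hK : (0 : ℝ) ≤ K := Nat.cast_nonneg K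
  rcases le_total 0 ((N : ℝ) - N') with h1 | h1
  · have := mul_nonneg hK h1
    nlinarith
  · have hN : (0 : ℝ) ≤ N := Nat.cast_nonneg N
    have := mul_nonpos_of_nonneg_of_nonpos (mul_nonneg hc0 hK) h1
    linarith

theorem szH (hDP : DPStmt) (hS : SizeStmt) (hEA : EAStmt) (hAC : ACStmt) : SzHStmt := by
  intro p q a C₁ hp hpq h ha
  obtain ⟨d, hd, Ca, hCa, hSz⟩ := exists_Sz a
  have hp0 : 0 < p := by omega
  have ha' : (a : ℂ) ≠ 0 := by exact_mod_cast ha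
  obtain ⟨m₁, K₀, hK₀, hg⟩ := grid_frac hEA hAC hp hpq h ha' (2 + Ca)
  obtain ⟨j₀, hj₀⟩ := hg (2 * K₀ * (C₁ + 6) + 1)
  refine ⟨j₀, fun j hj G hG hGK => ?_⟩
  obtain ⟨C, hC⟩ := hDP p q a G (2 + Ca) d hp hpq h ha hG hGK
    (by linarith [hSz.norm_le]) hd hSz.1
  obtain ⟨m, hm, hC⟩ := hC j 2 K₀ m₁ two_pos hK₀
  refine ⟨(2 ^ (j + m₁ + 1) * 2 * K₀) ^ C, fun D s hjn hs => ?_⟩
  by_contra hlt
  obtain ⟨N, N', R, g, hKN, -, hR, hgG, -, hfr, hEQ⟩ := hC D.ξ D.u D.t D.hξ D.hξ1 (D.bwd_u m)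
    (fun i _ => (D.u_Sz hp0 hpq hSz i).mono dvd_rfl (by linarith)) D.ht0 (bwd_le D.ht hjn)
    (not_le.1 hlt)
  haveI : Nonempty (Fin N) := ⟨⟨0, by omega⟩⟩
  have hs0 : 0 ≤ max s 0 := le_max_right _ _
  have hξ : (D.ξ : ℂ) ^ p = 1 := by exact_mod_cast D.hξ
  have hξ1 : (D.ξ : ℂ) ≠ 1 := by exact_mod_cast D.hξ1
  have hcount := hj₀ j hj m hm D.ξ hξ hξ1 (Fin N) R hR (max s 0)
  have := hS (Fin N) N' K₀ _ _ C₁ (2 * K₀ * (C₁ + 6) + 1)
    (EQq_of_EQp hEQ ((Real.exp (max s 0) : ℝ) : ℂ)) (fun l => by simp) (fun l => by simp)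
    (fun l => ?_) ?_ ?_
  · linarith
  · have h1 := hs (g l) (hgG l)
    have h2 := lp_nonneg (g l (D.t j))
    simp only [Matrix.cons_val_zero, Matrix.cons_val_one, Matrix.cons_val, div_one, lp_exp hs0,
      lp_coe]
    rw [abs_le] at h1 ⊢
    rcases le_total s 0 with h3 | h3
    · rw [max_eq_right h3]; constructor <;> linarith
    · rwa [max_eq_left h3]
  · simpa only [Matrix.cons_val_zero, Matrix.cons_val_one, Matrix.cons_val, div_one,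
      lp_exp hs0] using hcount
  · rw [Fintype.card_fin]
    exact frac_of_log 2 (by norm_num) (by norm_num) hfr

end Pool.Agent.MP_09973c_nt.H31
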