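import Pool.Agent.MP_09973c_nt.H31.A13a

/-!
Independence of products of monomials in two chains with independent ends.
-/

set_option autoImplicit false

namespace Pool.Agent.MP_09973c_nt.H31

open Polynomial Finset Filter Classical Pool.Agent.MP_09973c_nt.H58

theorem pv_succ {A : Type} (j : ℕ) (u t : ℕ → A) :
    pv (j + 1) u t = cons0 (t (j + 1)) (pv j u t) := by
  funext k
  cases k with
  | zero => simp [pv]
  | succ k => simp [pv]

theorem pv_end {A : Type} (j m : ℕ) (u t : ℕ → A) : pv j u t (m + j) = u m := by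
  simp [pv]

theorem pv_path {A : Type} [CommRing A] [Algebra ℂ A] {p q : ℕ} {a ξ : ℂ} {m : ℕ} {u t : ℕ → A}
    (hu : Bwd p q (algebraMap ℂ A a) m u) (h0 : t 0 = algebraMap ℂ A ξ * u 0) (j : ℕ)
    (ht : Bwd p q (algebraMap ℂ A a) j t) :
    IsPathA (tr p q j) (tr q p j) (tα (ξ ^ q) j) (tβ a j) (m + j) (pv j u t) := by
  induction j with
  | zero =>
    intro k hk
    simpa [pv, tr, tα, tβ] using (hu k hk).symm
  | succ j ih =>
    rw [pv_succ]
    refine isPath_cons0 (n := m + j) ?_ (ih (bwd_le ht (by omega)))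
    have h1 := ht j (by omega)
    rcases Nat.eq_zero_or_pos j with rfl | hj
    · simp only [tr, tα, tβ, cons0_zero, top, if_true, pv, lt_irrefl, if_false, map_pow, map_neg]
      rw [h0, mul_pow] at h1
      linear_combination h1
    · simp only [tr, tα, tβ, cons0_zero, top, hj.ne', if_false, pv, hj, if_true, map_one, map_neg,
        Nat.sub_zero]
      linear_combination h1

theorem mono_map {A B : Type} [CommRing A] [CommRing B] (φ : A →+* B) {p q j m T : ℕ}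
    (k : PK p q j m T) (u t : ℕ → A) :
    φ (mono k u t) = mono k (fun i => φ (u i)) fun i => φ (t i) := by
  simp [mono, bas, pv, apply_ite φ]

theorem mono_congr {A : Type} [CommRing A] {p q j m T : ℕ} (k : PK p q j m T)
    {u t u' t' : ℕ → A} (hu : ∀ i ≤ m, u i = u' i) (ht : ∀ i ≤ j, t i = t' i) :
    mono k u t = mono k u' t' := by
  unfold mono bas
  rw [hu m le_rfl]
  congr 1
  refine prod_congr rfl fun i _ => ?_
  congr 1
  unfold pv
  split_ifs with h
  · exact ht _ (by omega)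
  · exact hu _ (by have := i.2; omega)

/-- A nontrivial relation between the monomials forces a polynomial relation on the end. -/
theorem mono_norm {p q : ℕ} (hp : 2 ≤ p) (hpq : p < q) (h : p.Coprime q) {a ξ : ℂ} (ha : a ≠ 0)
    (hξ : ξ ^ p = 1) (hξ1 : ξ ≠ 1) {j m T : ℕ} (c : PK p q j m T → ℂ) (hc : c ≠ 0) :
    ∃ D : ℂ[X], D ≠ 0 ∧ ∀ (A : Type) [CommRing A] [IsDomain A] [Algebra ℂ A] (u t : ℕ → A),
      Bwd p q (algebraMap ℂ A a) m u → t 0 = algebraMap ℂ A ξ * u 0 →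
      Bwd p q (algebraMap ℂ A a) j t → ∑ k, algebraMap ℂ A (c k) * mono k u t = 0 →
      aeval (u m) D = 0 := by
  have hr := tr_pos (p := p) (q := q) (by omega) (by omega) j
  have hξq : (ξ ^ q) ^ p = 1 := by rw [← pow_mul, mul_comm, pow_mul, hξ, one_pow]
  have hξq1 : ξ ^ q ≠ 1 := fun h1 => hξ1 (eq_one_of_coprime h hξ h1)
  obtain ⟨g, hg, hgn⟩ := exists_path (m + j) tt (tr p q j) (tr q p j)
    (fun k => algebraMap ℂ FF (tα (ξ ^ q) j k)) (fun k => algebraMap ℂ FF (tβ a j k)) hr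
  have hi := tail_uind hp hpq h hξq hξq1 ha m j FF g hg (hgn ▸ tt_transcendental)
  obtain ⟨D, hD, hz⟩ := exists_norm hr g hg hi
    (fun l => ∑ i : Fin T, monomial (i : ℕ) (c (i, l))) (fun h0 => hc (by
      funext k
      have := congrArg (fun f => coeff f (k.1 : ℕ)) (congrFun h0 k.2)
      simpa [coeff_monomial, Fin.val_inj] using this))
  refine ⟨D, hD, fun A _ _ _ u t hu h0 ht hs => ?_⟩
  have := hz A (pv j u t) (pv_path hu h0 j ht) ?_
  · rwa [pv_end] at this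
  · rw [← hs, Fintype.sum_prod_type, sum_comm]
    refine sum_congr rfl fun l _ => ?_
    rw [map_sum, sum_mul, pv_end]
    refine sum_congr rfl fun i _ => ?_
    rw [aeval_monomial, mono, mul_assoc]

/-- Chains with an end in a root closed subring lie in it. -/
theorem lift_chain {B A : Type} [CommRing B] [CommRing A] (f : B →+* A)
    (hf : Function.Injective f)
    (hB : ∀ (x : A) (n : ℕ), 0 < n → x ^ n ∈ Set.range f → x ∈ Set.range f)
    {p q j m : ℕ} (hp : 0 < p) (hq : 0 < q) {a ξ : B} {u t : ℕ → A} (hu : Bwd p q (f a) m u)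
    (h0 : t 0 = f ξ * u 0) (ht : Bwd p q (f a) j t) (hm : u m ∈ Set.range f) :
    ∃ u' t' : ℕ → B, Bwd p q a m u' ∧ t' 0 = ξ * u' 0 ∧ Bwd p q a j t' ∧ f (u' m) = u m ∧
      ∀ (T : ℕ) (k : PK p q j m T), f (mono k u' t') = mono k u t := by
  have ha : f a ∈ f.range := ⟨a, rfl⟩
  replace hB : ∀ (x : A) (n : ℕ), 0 < n → x ^ n ∈ f.range → x ∈ f.range := hB
  have h1 : ∀ i ≤ m, u (m - i) ∈ f.range := by
    intro i
    induction i with
    | zero => exact fun _ => hm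
    | succ i ih =>
      intro hi
      refine hB _ q hq ?_
      rw [← hu _ (by omega), show m - (i + 1) + 1 = m - i by omega]
      exact add_mem (pow_mem (ih (by omega)) _) ha
  have h2 : ∀ i, ∃ x : B, i ≤ m → f x = u i := fun i => by
    by_cases hi : i ≤ m
    · obtain ⟨x, hx⟩ := h1 (m - i) (by omega)
      exact ⟨x, fun _ => by rwa [show m - (m - i) = i by omega] at hx⟩
    · exact ⟨0, fun h => absurd h hi⟩
  choose u' hu' using h2
  have h3 : ∀ i ≤ j, t i ∈ f.range := by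
    intro i
    induction i with
    | zero => exact fun _ => ⟨ξ * u' 0, by rw [map_mul, hu' 0 (by omega), h0]⟩
    | succ i ih =>
      intro hi
      refine hB _ p hp ?_
      rw [eq_sub_of_add_eq (ht i (by omega))]
      exact sub_mem (pow_mem (ih (by omega)) _) ha
  have h4 : ∀ i, ∃ x : B, i ≤ j → f x = t i := fun i => by
    by_cases hi : i ≤ j
    · obtain ⟨x, hx⟩ := h3 i hi
      exact ⟨x, fun _ => hx⟩
    · exact ⟨0, fun h => absurd h hi⟩
  choose t' ht' using h4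
  refine ⟨u', t', fun k hk => hf ?_, hf ?_, fun k hk => hf ?_, hu' m le_rfl, fun T k => ?_⟩
  · rw [map_add, map_pow, map_pow, hu' _ (by omega), hu' _ (by omega), hu k hk]
  · rw [map_mul, hu' 0 (by omega), ht' 0 (by omega), h0]
  · rw [map_add, map_pow, map_pow, ht' _ (by omega), ht' _ (by omega), ht k hk]
  · rw [mono_map]
    exact mono_congr k hu' ht'

/-- A homomorphism to an algebraically closed field extends along an integral ring map. -/
theorem ext_hom' {A B F : Type} [CommRing A] [CommRing B] [Algebra A B] [Algebra.IsIntegral A B]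
    [Field F] [IsAlgClosed F] (θ : A →+* F)
    (hker : RingHom.ker (algebraMap A B) ≤ RingHom.ker θ) :
    ∃ φ : B →+* F, ∀ x, φ (algebraMap A B x) = θ x := by
  haveI : (RingHom.ker θ).IsPrime := RingHom.ker_isPrime θ
  obtain ⟨Q, -, hQ, hQP⟩ := Ideal.exists_ideal_over_prime_of_isIntegral (S := B)
    (RingHom.ker θ) ⊥ (by rw [← RingHom.ker_eq_comap_bot]; exact hker)
  haveI := hQ
  haveI : Q.LiesOver (RingHom.ker θ) := ⟨hQP.symm⟩
  letI : Algebra (A ⧸ RingHom.ker θ) F := (RingHom.kerLift θ).toAlgebra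
  haveI : FaithfulSMul (A ⧸ RingHom.ker θ) F :=
    (faithfulSMul_iff_algebraMap_injective _ _).2 (RingHom.kerLift_injective θ)
  haveI : FaithfulSMul (A ⧸ RingHom.ker θ) (B ⧸ Q) := inferInstance
  haveI : Module.IsTorsionFree (A ⧸ RingHom.ker θ) (B ⧸ Q) :=
    Module.isTorsionFree_iff_faithfulSMul.2 inferInstance
  haveI : Algebra.IsIntegral (A ⧸ RingHom.ker θ) (B ⧸ Q) := inferInstance
  haveI : Algebra.IsAlgebraic (A ⧸ RingHom.ker θ) (B ⧸ Q) := inferInstance
  let f : (B ⧸ Q) →ₐ[A ⧸ RingHom.ker θ] F := IsAlgClosed.lift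
  refine ⟨f.toRingHom.comp (Ideal.Quotient.mk Q), fun x => ?_⟩
  have h1 : Ideal.Quotient.mk Q (algebraMap A B x)
      = algebraMap (A ⧸ RingHom.ker θ) (B ⧸ Q) (Ideal.Quotient.mk _ x) := rfl
  simp only [RingHom.coe_comp, Function.comp_apply, h1]
  have := f.commutes (Ideal.Quotient.mk _ x)
  exact this.trans (RingHom.kerLift_mk θ x)

theorem range_of_pow (x : FF) (n : ℕ) (hn : 0 < n) (hx : x ^ n ∈ Set.range (algebraMap ℂ FF)) :
    x ∈ Set.range (algebraMap ℂ FF) := by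
  obtain ⟨y, hy⟩ := hx
  have hi : IsIntegral ℂ x := IsIntegral.of_pow hn (hy ▸ isIntegral_algebraMap)
  exact minpoly.mem_range_of_degree_eq_one ℂ x
    (IsAlgClosed.degree_eq_one_of_irreducible ℂ (minpoly.irreducible hi))

/-- Products of monomials in two chains with algebraically independent ends are independent. -/
theorem two_indep {p q : ℕ} (hp : 2 ≤ p) (hpq : p < q) (h : p.Coprime q) {a b ξ ξ' : Qb}
    (ha : a ≠ 0) (hb : b ≠ 0) (hξ : ξ ^ p = 1) (hξ1 : ξ ≠ 1) (hξ' : ξ' ^ p = 1) (hξ1' : ξ' ≠ 1)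
    {j j' m T : ℕ} {A : Type} [CommRing A] (ι : Qb →+* A) {u t u' t' : ℕ → A}
    (hu : Bwd p q (ι a) m u) (h0 : t 0 = ι ξ * u 0) (ht : Bwd p q (ι a) j t)
    (hu' : Bwd p q (ι b) m u') (h0' : t' 0 = ι ξ' * u' 0) (ht' : Bwd p q (ι b) j' t')
    (hind : ∀ P : Qb[X][X], ev2 ι P (u m) (u' m) = 0 → P = 0)
    (c : PK p q j m T × PK p q j' m T → Qb)
    (hc : ∑ k, ι (c k) * (mono k.1 u t * mono k.2 u' t') = 0) : c = 0 := by
  have hp0 : 0 < p := by omega
  have hq0 : 0 < q := by omega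
  by_contra hne
  obtain ⟨k₀, hk₀⟩ := Function.ne_iff.1 hne
  obtain ⟨D, hD, hz⟩ := mono_norm hp hpq h (a := (b : ℂ)) (ξ := (ξ' : ℂ)) (by exact_mod_cast hb)
    (by exact_mod_cast hξ') (by exact_mod_cast hξ1') (fun k => ((c (k₀.1, k) : Qb) : ℂ))
    (fun h1 => hk₀ (by simpa using congrFun h1 k₀.2))
  obtain ⟨y, hy⟩ : ∃ y : ℂ, D.eval y ≠ 0 := by
    by_contra h1
    push Not at h1
    exact hD (Polynomial.funext fun y => by simpa using h1 y)
  letI : Algebra Qb[X][X] A := (eval₂RingHom (eval₂RingHom ι (u m)) (u' m)).toAlgebra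
  let B := integralClosure Qb[X][X] A
  let f : B →+* A := B.val.toRingHom
  have hf : Function.Injective f := Subtype.val_injective
  have hmem : ∀ x : A, x ∈ Set.range f ↔ IsIntegral Qb[X][X] x := fun x =>
    ⟨by rintro ⟨z, rfl⟩; exact z.2, fun hx => ⟨(⟨x, hx⟩ : B), rfl⟩⟩
  have hB : ∀ (x : A) (n : ℕ), 0 < n → x ^ n ∈ Set.range f → x ∈ Set.range f := by
    intro x n hn hx
    exact (hmem x).2 (IsIntegral.of_pow hn ((hmem _).1 hx))
  have hfa : ∀ P : Qb[X][X], f (algebraMap Qb[X][X] B P) = ev2 ι P (u m) (u' m) := fun P => rfl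
  let ιB : Qb →+* B := (algebraMap Qb[X][X] B).comp (C.comp C)
  have hι : ∀ x, f (ιB x) = ι x := fun x => (hfa (C (C x))).trans (by simp [ev2])
  have hX : f (algebraMap Qb[X][X] B (C X)) = u m := (hfa _).trans (by simp [ev2])
  have hY : f (algebraMap Qb[X][X] B X) = u' m := (hfa _).trans (by simp [ev2])
  obtain ⟨v, s, hv, hs0, hs, hvm, hmo⟩ := lift_chain f hf hB hp0 hq0 (a := ιB a) (ξ := ιB ξ)
    (by rwa [hι]) (by rwa [hι]) (by rwa [hι]) ⟨_, hX⟩
  obtain ⟨v', s', hv', hs0', hs', hvm', hmo'⟩ := lift_chain f hf hB hp0 hq0 (a := ιB b)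
    (ξ := ιB ξ') (by rwa [hι]) (by rwa [hι]) (by rwa [hι]) ⟨_, hY⟩
  have hcB : ∑ k, ιB (c k) * (mono k.1 v s * mono k.2 v' s') = 0 := by
    apply hf
    simp only [map_sum, map_mul, map_zero, hι, hmo, hmo']
    exact hc
  obtain ⟨φ, hφ⟩ := ext_hom' (B := B) (eval₂RingHom (eval₂RingHom
    ((algebraMap ℂ FF).comp (algebraMap Qb ℂ)) tt) (algebraMap ℂ FF y)) (fun P hP => by
      rw [RingHom.mem_ker] at hP ⊢
      rw [hind P (by rw [← hfa, hP, map_zero]), map_zero])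
  have hφι : ∀ x, φ (ιB x) = algebraMap ℂ FF x := fun x => (hφ (C (C x))).trans (by simp)
  have hφX : φ (v m) = tt := by
    rw [hf (hvm.trans hX.symm), hφ]; simp
  have hφY : φ (v' m) = algebraMap ℂ FF y := by
    rw [hf (hvm'.trans hY.symm), hφ]; simp
  obtain ⟨w, z, hw, hz0, hzz, hwm, hmo''⟩ := lift_chain (algebraMap ℂ FF)
    (algebraMap ℂ FF).injective range_of_pow hp0 hq0 (a := (b : ℂ)) (ξ := (ξ' : ℂ))
    (u := fun i => φ (v' i)) (t := fun i => φ (s' i)) (hφι b ▸ Bwd.map φ hv')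
    (by simp only [hs0', map_mul, hφι]) (hφι b ▸ Bwd.map φ hs') ⟨y, hφY.symm⟩
  have hwy : w m = y := (algebraMap ℂ FF).injective (hwm.trans hφY)
  have he : (fun k₁ => ∑ k₂, ((c (k₁, k₂) : Qb) : ℂ) * mono k₂ w z) = 0 := by
    by_contra h1
    obtain ⟨D', hD', hz'⟩ := mono_norm hp hpq h (a := (a : ℂ)) (ξ := (ξ : ℂ))
      (by exact_mod_cast ha) (by exact_mod_cast hξ) (by exact_mod_cast hξ1) _ h1
    refine tt_transcendental ⟨D', hD', ?_⟩
    rw [← hφX]
    refine hz' FF (fun i => φ (v i)) (fun i => φ (s i)) (hφι a ▸ Bwd.map φ hv)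
      (by simp only [hs0, map_mul, hφι]) (hφι a ▸ Bwd.map φ hs) ?_
    have := congrArg φ hcB
    rw [map_sum, map_zero, Fintype.sum_prod_type] at this
    rw [← this]
    refine sum_congr rfl fun k₁ _ => ?_
    rw [map_sum, sum_mul]
    refine sum_congr rfl fun k₂ _ => ?_
    simp only [map_mul, hφι, hmo'', mono_map φ]
    ring
  have := hz ℂ w z hw hz0 hzz (congrFun he k₀.1)
  rw [hwy, coe_aeval_eq_eval] at this
  exact hy this

theorem ev2_map {A B B' : Type} [CommRing A] [CommRing B] [CommRing B'] (ι : A →+* B)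
    (φ : B →+* B') (P : A[X][X]) (x y : B) :
    φ (ev2 ι P x y) = ev2 (φ.comp ι) P (φ x) (φ y) := by
  unfold ev2
  rw [hom_eval₂]
  congr 1
  ext <;> simp

/-- The independence along an ultrafilter. -/
theorem two_indep_ultra {p q : ℕ} (hp : 2 ≤ p) (hpq : p < q) (h : p.Coprime q) {a b ξ ξ' : Qb}
    (ha : a ≠ 0) (hb : b ≠ 0) (hξ : ξ ^ p = 1) (hξ1 : ξ ≠ 1) (hξ' : ξ' ^ p = 1) (hξ1' : ξ' ≠ 1)
    {j j' m T : ℕ} (U : Ultrafilter ℕ) {u t u' t' : ℕ → ℕ → Qb}
    (hc : ∀ᶠ ν in (U : Filter ℕ), (Bwd p q a m (u ν) ∧ t ν 0 = ξ * u ν 0 ∧ Bwd p q a j (t ν)) ∧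
      Bwd p q b m (u' ν) ∧ t' ν 0 = ξ' * u' ν 0 ∧ Bwd p q b j' (t' ν))
    (hind : ∀ P : Qb[X][X], P ≠ 0 → ∀ᶠ ν in (U : Filter ℕ),
      ev2 (RingHom.id Qb) P (u ν m) (u' ν m) ≠ 0)
    (c : PK p q j m T × PK p q j' m T → Qb) (hc0 : c ≠ 0) : ∀ᶠ ν in (U : Filter ℕ),
      ∑ k, c k * (mono k.1 (u ν) (t ν) * mono k.2 (u' ν) (t' ν)) ≠ 0 := by
  rw [Ultrafilter.eventually_not]
  intro hz
  let γ := Germ.coeRingHom (R := Qb) (U : Filter ℕ)
  let κ := Pi.constRingHom ℕ Qb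
  have hγ : ∀ x y : ℕ → Qb, γ x = γ y ↔ ∀ᶠ ν in (U : Filter ℕ), x ν = y ν := fun x y =>
    Germ.coe_eq
  have hB : ∀ (c : Qb) (n : ℕ) (x : ℕ → ℕ → Qb), (∀ᶠ ν in (U : Filter ℕ), Bwd p q c n (x ν)) →
      Bwd p q ((γ.comp κ) c) n fun i => γ fun ν => x ν i := by
    intro c n x hx k hk
    rw [RingHom.comp_apply, ← map_pow, ← map_pow, ← map_add, hγ]
    exact hx.mono fun ν hν => hν k hk
  have h0 : ∀ (c : Qb) (x y : ℕ → ℕ → Qb), (∀ᶠ ν in (U : Filter ℕ), y ν 0 = c * x ν 0) →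
      γ (fun ν => y ν 0) = (γ.comp κ) c * γ fun ν => x ν 0 := by
    intro c x y hx
    rw [RingHom.comp_apply, ← map_mul, hγ]
    exact hx
  refine hc0 (two_indep hp hpq h ha hb hξ hξ1 hξ' hξ1' (γ.comp κ)
    (hB a m u (hc.mono fun ν hν => hν.1.1)) (h0 ξ u t (hc.mono fun ν hν => hν.1.2.1))
    (hB a j t (hc.mono fun ν hν => hν.1.2.2)) (hB b m u' (hc.mono fun ν hν => hν.2.1))
    (h0 ξ' u' t' (hc.mono fun ν hν => hν.2.2.1)) (hB b j' t' (hc.mono fun ν hν => hν.2.2.2))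
    (fun P hP => ?_) c ?_)
  · by_contra hP0
    rw [← ev2_map, ← map_zero γ, hγ] at hP
    obtain ⟨ν, h1, h2⟩ := (hP.and (hind P hP0)).exists
    refine h2 (Eq.trans ?_ h1)
    exact (ev2_map κ (Pi.evalRingHom (fun _ => Qb) ν) P (fun ν => u ν m) fun ν => u' ν m).symm
  · simp only [RingHom.comp_apply, ← mono_map γ, ← map_mul, ← map_sum]
    rw [← map_zero γ, hγ]
    refine hz.mono fun ν hν => Eq.trans ?_ hν
    rw [Finset.sum_apply]
    refine sum_congr rfl fun k _ => ?_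
    rw [Pi.mul_apply, Pi.mul_apply]
    congr 2
    · exact mono_map (Pi.evalRingHom (fun _ => Qb) ν) k.1 (fun i ν => u ν i) fun i ν => t ν i
    · exact mono_map (Pi.evalRingHom (fun _ => Qb) ν) k.2 (fun i ν => u' ν i) fun i ν => t' ν i

end Pool.Agent.MP_09973c_nt.H31
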