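import Mathlib

/-!
The orbit graph of the unicritical correspondence `z ↦ z ^ (p / q) + c` on the Riemann sphere.
-/

set_option autoImplicit false

namespace Pool.Agent.MP_09973c_nt.H31

/-- An edge `y → y'` of the orbit graph: some point `x` of the sphere has `x ^ q = y` and
`x ^ p + c = y'`, both maps sending infinity to infinity. -/
def Edge (p q : ℕ) (c : ℂ) (y y' : OnePoint ℂ) : Prop :=
  ∃ x : OnePoint ℂ, OnePoint.map (fun z : ℂ => z ^ q) x = y ∧
    OnePoint.map (fun z : ℂ => z ^ p + c) x = y'

/-- `y` is constrained: some infinite path from `y` has a finite vertex set. -/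
def Constrained (p q : ℕ) (c : ℂ) (y : OnePoint ℂ) : Prop :=
  ∃ path : ℕ → OnePoint ℂ, path 0 = y ∧ (∀ i, Edge p q c (path i) (path (i + 1))) ∧
    (Set.range path).Finite

/-- Some path from `y` reaches a vertex of a directed cycle after at most `n` edges. -/
def ReachesCycleWithin (p q : ℕ) (c : ℂ) (n : ℕ) (y : OnePoint ℂ) : Prop :=
  ∃ path : ℕ → OnePoint ℂ, path 0 = y ∧ (∀ i, Edge p q c (path i) (path (i + 1))) ∧
    ∃ i j, i ≤ n ∧ i < j ∧ path i = path j

end Pool.Agent.MP_09973c_nt.H31
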