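import Pool.Agent.MP_09973c_nt.H31.Pure
import Pool.Agent.MP_09973c_nt.H31.Defs

/-!
The cases `q < p` and `p = 1`.
-/

set_option autoImplicit false

namespace Pool.Agent.MP_09973c_nt.H31

open Polynomial

theorem lift_path {p q : ℕ} {c y : ℂ} (path : ℕ → OnePoint ℂ) (h0 : path 0 = y)
    (h : ∀ i, Edge p q c (path i) (path (i + 1))) :
    ∃ x : ℕ → ℂ, (∀ i, path i = (x i ^ q : ℂ)) ∧ ∀ i, x i ^ p + c = x (i + 1) ^ q := by
  have h1 : ∀ i, ∃ z : ℂ, path i = z := by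
    intro i
    induction i with
    | zero => exact ⟨y, h0⟩
    | succ i ih =>
      obtain ⟨z, hz⟩ := ih
      obtain ⟨x, hx1, hx2⟩ := h i
      induction x using OnePoint.rec with
      | infty => rw [hz] at hx1; simp at hx1
      | coe x => exact ⟨_, hx2.symm⟩
  have h2 : ∀ i, ∃ x : ℂ, path i = (x ^ q : ℂ) ∧ path (i + 1) = (x ^ p + c : ℂ) := by
    intro i
    obtain ⟨z, hz⟩ := h1 i
    obtain ⟨x, hx1, hx2⟩ := h i
    induction x using OnePoint.rec with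
    | infty => rw [hz] at hx1; simp at hx1
    | coe x => exact ⟨x, hx1.symm, hx2.symm⟩
  choose x hx1 hx2 using h2
  exact ⟨x, hx1, fun i => OnePoint.coe_injective ((hx2 i).symm.trans (hx1 (i + 1)))⟩

theorem finite_of_finite_coe {Z : Set (OnePoint ℂ)} (h : {y : ℂ | (y : OnePoint ℂ) ∈ Z}.Finite) :
    Z.Finite := by
  refine ((h.image (fun y : ℂ => (y : OnePoint ℂ))).insert OnePoint.infty).subset fun y hy => ?_
  induction y using OnePoint.rec with
  | infty => exact Set.mem_insert _ _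
  | coe y => exact Set.mem_insert_of_mem _ ⟨y, hy, rfl⟩

theorem chain_of_constrained {p q : ℕ} (hq : 0 < q) {c y : ℂ} (h : Constrained p q c y) :
    ∃ x, Chain p q (-c) x ∧ x 0 ^ q = y := by
  obtain ⟨path, h0, he, hf⟩ := h
  obtain ⟨x, hx1, hx2⟩ := lift_path path h0 he
  refine ⟨x, ⟨fun k => by rw [← hx2 k]; ring, ?_⟩, OnePoint.coe_injective ((hx1 0).symm.trans h0)⟩
  refine (finite_roots hq (hf.preimage OnePoint.coe_injective.injOn)).subset ?_
  rintro _ ⟨k, rfl⟩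
  exact ⟨k, hx1 k⟩

theorem Chain.shift {F : Type} [Field F] {P Q : ℕ} {c : F} {v : ℕ → F} (h : Chain P Q c v) :
    Chain P Q c fun k => v (k + 1) :=
  ⟨fun k => h.1 (k + 1), h.2.subset (by rintro _ ⟨k, rfl⟩; exact ⟨k + 1, rfl⟩)⟩

theorem chain_of_closed {F : Type} [Field F] {P Q : ℕ} {c : F} {Z : Set F} (hZ : Z.Finite)
    (h : ∀ z ∈ Z, ∃ z' ∈ Z, z ^ P = z' ^ Q + c) {z : F} (hz : z ∈ Z) :
    ∃ u, Chain P Q c u ∧ u 0 = z := by
  choose! f hf1 hf2 using h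
  have hm : ∀ k, f^[k] z ∈ Z := by
    intro k
    induction k with
    | zero => exact hz
    | succ k ih => rw [Function.iterate_succ_apply']; exact hf1 _ ih
  refine ⟨fun k => f^[k] z, ⟨fun k => ?_, hZ.subset (by rintro _ ⟨k, rfl⟩; exact hm k)⟩, rfl⟩
  simp only [Function.iterate_succ_apply']
  exact hf2 _ (hm k)

/-- Points with a bounded backward path. -/
def Back {F : Type} [Field F] (p q : ℕ) (c : F) : Set F :=
  {y | ∃ u, Chain q p c u ∧ y = u 0 ^ p + c}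

theorem mem_back_of_cycle {p q : ℕ} {c : ℂ} {x : ℕ → ℂ} (hx : ∀ i, x i ^ p + c = x (i + 1) ^ q)
    {i j : ℕ} (hij : i < j) (h : x i ^ q = x j ^ q) : x i ^ q ∈ Back p q c := by
  obtain ⟨j, rfl⟩ : ∃ j', j = j' + 1 := ⟨j - 1, by omega⟩
  obtain ⟨u, hu, h0⟩ := chain_of_closed (P := q) (Q := p) (c := c) (Z := x '' Set.Icc i j)
    ((Set.finite_Icc _ _).image _) (z := x j) (by
      rintro _ ⟨k, ⟨hk1, hk2⟩, rfl⟩
      rcases Nat.eq_or_lt_of_le hk1 with rfl | hk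
      · exact ⟨x j, ⟨j, ⟨by omega, le_rfl⟩, rfl⟩, by rw [h, hx]⟩
      · obtain ⟨k, rfl⟩ : ∃ k', k = k' + 1 := ⟨k - 1, by omega⟩
        exact ⟨x k, ⟨k, ⟨by omega, by omega⟩, rfl⟩, (hx k).symm⟩) ⟨j, ⟨by omega, le_rfl⟩, rfl⟩
  exact ⟨u, hu, by rw [h0, h, hx]⟩

theorem exists_fiber_infinite {X Y : Type} {Z : Set X} (hZ : Z.Infinite) {T : Set Y}
    (hT : T.Finite) (R : X → Y → Prop) (h : ∀ x ∈ Z, ∃ t ∈ T, R x t) :
    ∃ t ∈ T, {x | x ∈ Z ∧ R x t}.Infinite := by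
  by_contra hcon
  push Not at hcon
  refine hZ ((hT.biUnion hcon).subset fun x hx => ?_)
  obtain ⟨t, ht, hR⟩ := h x hx
  exact Set.mem_biUnion ht ⟨hx, hR⟩

theorem finite_root_set {r : ℕ} (hr : 0 < r) (u : ℂ) : {z : ℂ | z ^ r = u}.Finite :=
  finite_roots hr (Set.finite_singleton u)

theorem exists_ratio {r : ℕ} (hr : 0 < r) {x w κ : ℂ} (h : w ^ r = κ * x ^ r) :
    ∃ η, η ^ r = κ ∧ w = η * x := by
  by_cases hx : x = 0
  · obtain ⟨η, hη⟩ := IsAlgClosed.exists_pow_nat_eq κ hr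
    refine ⟨η, hη, ?_⟩
    rw [hx, zero_pow hr.ne', mul_zero] at h
    rw [hx, mul_zero]
    exact pow_eq_zero_iff hr.ne' |>.1 h
  · exact ⟨w / x, by rw [div_pow, h]; field_simp, by field_simp⟩

/-- From an infinite set of points, an infinite set of images under the correspondence. -/
theorem infinite_step {p q : ℕ} (hp : 0 < p) {Z Z' : Set ℂ} (hZ : Z.Infinite) (c : ℂ)
    (h : ∀ y ∈ Z, ∃ x, x ^ q = y ∧ x ^ p + c ∈ Z') : Z'.Infinite := by
  intro hfin
  refine hZ (((finite_roots hp (hfin.image (· - c))).image (· ^ q)).subset fun y hy => ?_)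
  obtain ⟨x, hx1, hx2⟩ := h y hy
  exact ⟨x, ⟨_, hx2, by simp⟩, hx1⟩

theorem pure_step {P Q : ℕ} (hQ : 0 < Q) (hPQ : Q < P) (h : P.Coprime Q) (a b : ℂ) {κ : ℂ}
    {M : ℕ} (hM : 0 < M) (hκ : κ ^ M = 1)
    (hinf : {w | (∃ v, Chain P Q a v ∧ v 0 ^ Q = w) ∧
      ∃ v, Chain P Q b v ∧ v 0 ^ Q = κ * w}.Infinite) :
    ∃ η, η ^ Q = κ ∧ b = η ^ P * a ∧ {w | (∃ v, Chain P Q a v ∧ v 0 ^ Q = w) ∧
      ∃ v, Chain P Q b v ∧ v 0 ^ Q = η ^ P * w}.Infinite := by
  obtain ⟨η, hη, hi⟩ := exists_fiber_infinite hinf (finite_root_set hQ κ)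
    (fun w η => ∃ v v', Chain P Q a v ∧ Chain P Q b v' ∧ v 0 ^ Q = w ∧ v' 0 = η * v 0) (by
      rintro w ⟨⟨v, hv, h1⟩, v', hv', h2⟩
      obtain ⟨η, h3, h4⟩ := exists_ratio hQ (h2.trans (by rw [h1]) : v' 0 ^ Q = κ * v 0 ^ Q)
      exact ⟨η, h3, v, v', hv, hv', h1, h4⟩)
  have hi2 : {w | (∃ v, Chain P Q a v ∧ v 0 ^ Q = w) ∧
      ∃ v, Chain P Q b v ∧ v 0 ^ Q = η ^ P * w + (η ^ P * a - b)}.Infinite := by
    refine infinite_step (p := P) (q := Q) (by omega) hi (-a) ?_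
    rintro w ⟨-, v, v', hv, hv', h1, h2⟩
    refine ⟨v 0, h1, ⟨_, hv.shift, by rw [hv.1 0]; ring⟩, _, hv'.shift, ?_⟩
    have := hv'.1 0
    rw [h2, mul_pow] at this
    linear_combination -this
  have hη' : η ^ Q = κ := hη
  have hd := pure_lemma hQ hPQ h a b (M := Q * M) (Nat.mul_pos hQ hM)
    (by rw [← pow_mul, mul_comm P, pow_mul, pow_mul, hη', hκ, one_pow]) hi2
  refine ⟨η, hη, by linear_combination -hd, ?_⟩
  simpa only [hd, add_zero] using hi2

theorem eq_one_of_pow {F : Type} [Field F] {η : F} {P Q M : ℕ} (hPQ : Q ≤ P)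
    (h : η ^ P = η ^ Q) (hM : η ^ M = 1) (hM0 : 0 < M) (hc : (P - Q).Coprime M) : η = 1 := by
  have hη : η ≠ 0 := by rintro rfl; rw [zero_pow hM0.ne'] at hM; exact zero_ne_one hM
  have h1 : η ^ (P - Q) = 1 := by
    have : η ^ (P - Q) * η ^ Q = 1 * η ^ Q := by
      rw [← pow_add, Nat.sub_add_cancel hPQ, h, one_mul]
    exact mul_right_cancel₀ (pow_ne_zero _ hη) this
  have := (pow_gcd_eq_one.2 ⟨h1, hM⟩)
  rwa [hc, pow_one] at this

theorem pure_pure {P Q : ℕ} (hQ : 0 < Q) (hPQ : Q < P) (h : P.Coprime Q) (a b : ℂ) {κ : ℂ}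
    {M : ℕ} (hM : 0 < M) (hκ : κ ^ M = 1) (hc : (P - Q).Coprime M)
    (hinf : {w | (∃ v, Chain P Q a v ∧ v 0 ^ Q = w) ∧
      ∃ v, Chain P Q b v ∧ v 0 ^ Q = κ * w}.Infinite) : a = b := by
  obtain ⟨η, h1, h2, hi⟩ := pure_step hQ hPQ h a b hM hκ hinf
  have hη : (η ^ P) ^ (Q * M) = 1 := by
    rw [← pow_mul, mul_comm P, pow_mul, pow_mul, h1, hκ, one_pow]
  obtain ⟨η', h3, h4, -⟩ := pure_step hQ hPQ h a b (Nat.mul_pos hQ hM) hη hi
  by_cases ha : a = 0
  · rw [h2, ha, mul_zero]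
  have h5 : η' ^ P = η' ^ Q := by rw [h3]; exact mul_right_cancel₀ ha (h4.symm.trans h2)
  have hcq : (P - Q).Coprime Q := (Nat.coprime_sub_self_left hPQ.le).2 h
  have h6 := eq_one_of_pow hPQ.le h5 (M := Q * (Q * M)) (by rw [pow_mul, h3, hη]) (by positivity)
    (hcq.mul_right (hcq.mul_right hc))
  rw [h4, h6, one_pow, one_mul]

theorem finite_of_lt {p q : ℕ} (hq : 0 < q) (hpq : q < p) (h : p.Coprime q) {a b : ℂ}
    (hab : a ≠ b) : {y | Constrained p q a y ∧ Constrained p q b y}.Finite := by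
  refine finite_of_finite_coe ?_
  by_contra hinf
  refine hab (neg_injective (pure_pure hq hpq h (-a) (-b) (κ := 1) one_pos (one_pow _)
    (Nat.coprime_one_right _) (Set.Infinite.mono ?_ hinf)))
  rintro y ⟨h1, h2⟩
  exact ⟨chain_of_constrained hq h1, by simpa using chain_of_constrained hq h2⟩

theorem back_finite {p q : ℕ} (hp : 0 < p) (hpq : p < q) (h : p.Coprime q) {a b : ℂ}
    (hab : a ≠ b) : {y | y ∈ Back p q a ∧ y ∈ Back p q b}.Finite := by
  by_contra hinf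
  refine hab (sub_eq_zero.1 (pure_lemma hp hpq h.symm a b (κ := 1) one_pos (one_pow _) ?_))
  refine Set.Infinite.mono ?_ (Set.Infinite.image (f := (· - a)) (sub_left_injective.injOn) hinf)
  rintro _ ⟨y, ⟨⟨u, hu, h1⟩, u', hu', h2⟩, rfl⟩
  exact ⟨⟨u, hu, by rw [h1]; ring⟩, u', hu', by linear_combination -h2⟩

theorem exists_repeat {X : Type} {x : ℕ → X} (h : (Set.range x).Finite) :
    ∃ i j, i < j ∧ x i = x j := by
  obtain ⟨i, -, j, -, hij, he⟩ := Set.infinite_univ.exists_lt_map_eq_of_mapsTo (f := x)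
    (fun k _ => Set.mem_range_self k) h
  exact ⟨i, j, hij, he⟩

theorem back_of_one {q : ℕ} (hq : 0 < q) {c y : ℂ} (h : Constrained 1 q c y) : y ∈ Back 1 q c := by
  obtain ⟨x, ⟨hx, hf⟩, rfl⟩ := chain_of_constrained hq h
  obtain ⟨i, j, hij, he⟩ := exists_repeat hf
  have hx' : ∀ i, x i ^ 1 + c = x (i + 1) ^ q := fun i => by rw [hx i]; ring
  have h1 := mem_back_of_cycle hx' hij (by rw [he])
  clear he hij
  induction i with
  | zero => exact h1
  | succ i ih =>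
    obtain ⟨u, hu, h2⟩ := h1
    refine ih ⟨_, hu.shift, ?_⟩
    have : x i = u 0 := by linear_combination hx' i + h2
    rw [this, hu.1 0]

theorem finite_of_one {q : ℕ} (hq : 0 < q) {a b : ℂ} (hab : a ≠ b) :
    {y | Constrained 1 q a y ∧ Constrained 1 q b y}.Finite := by
  refine finite_of_finite_coe ?_
  rcases Nat.eq_or_lt_of_le hq with rfl | hq1
  · have key : ∀ c y : ℂ, Constrained 1 1 c y → c = 0 := by
      intro c y h
      obtain ⟨x, ⟨hx, hf⟩, -⟩ := chain_of_constrained one_pos h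
      obtain ⟨i, j, hij, he⟩ := exists_repeat hf
      have h1 : ∀ k, x k = x 0 + k * c := by
        intro k
        induction k with
        | zero => simp
        | succ k ih => push_cast; linear_combination ih - hx k
      rw [h1 i, h1 j] at he
      by_contra hc
      have : (i : ℂ) = j := mul_right_cancel₀ hc (add_left_cancel he)
      exact hij.ne (by exact_mod_cast this)
    refine Set.finite_empty.subset ?_
    rintro y ⟨h1, h2⟩
    exact hab ((key a y h1).trans (key b y h2).symm)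
  · refine (back_finite one_pos hq1 (Nat.coprime_one_left q) hab).subset ?_
    rintro y ⟨h1, h2⟩
    exact ⟨back_of_one hq h1, back_of_one hq h2⟩

end Pool.Agent.MP_09973c_nt.H31
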