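import Pool.Agent.MP_09973c_nt.H31.F8b

/-!
Matched towers are proportional.
-/

set_option autoImplicit false

namespace Pool.Agent.MP_09973c_nt.H31

open Polynomial Finset IntermediateField Classical Pool.Agent.MP_09973c_nt.H58

variable {k Ω : Type} [Field k] [Field Ω] [Algebra k Ω] [IsAlgClosed k] [CharZero k]
  [IsAlgClosed Ω] {r s J : ℕ} {S₀ : Set Ω}

theorem type_mass (hC : CntStmt) {Δ Pm h : ℕ} {C ρ ε : ℝ} (A B : Tw k r s J S₀) (hr : 2 ≤ r)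
    (hs : 2 ≤ s) (hrs : r.Coprime s) (hB : Bs k S₀ Δ) (hM : MHyp r s A.c C ρ Pm J)
    {l₁ j₁ N : ℕ} (hm : Matched A B l₁ j₁ N) (hj : j₁ ≤ J) {P : Option k → Plc k Ω}
    (hP : Fam k A.b P) {S : Subgroup (Ω ≃ₐ[k] Ω)} {n : ℕ} {γ : Fin n → Ω ≃ₐ[k] Ω}
    (hγ : IsAvg (Fix k {A.b}) S γ) (hS : S ≤ Fix k ({A.b} ∪ lv A.w J)) {lam len : ℕ}
    (h1 : lam ≤ len) (h2 : len ≤ lam + 1) (h3 : len ≤ J) (h4 : l₁ + h + 1 ≤ lam)
    (hε1 : C * ρ ^ h ≤ ε / 2)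
    (hε2 : ((8 * Δ ^ 2 + 2 * s ^ j₁ * Δ : ℕ) : ℝ) * ((s : ℝ) ^ h * Pm) ≤ ε / 2 * (s : ℝ) ^ lam)
    {e : k} (he : e ^ r = A.c) :
    ∃ T : Finset (k × Fin n), (∀ p ∈ T, ∀ Q, Q = (P (some p.1)).act (γ p.2) → Q.Loc A.b ∧
        Q.Loc B.b ∧ (∀ t ≤ N + 1, Q.nz A.w (l₁ + t) = Q.nz B.w (j₁ + t)) ∧ Q.ν (A.w lam) < 1 ∧
        ∀ l, lam < l → l ≤ len → Q.Red (A.w l) e) ∧
      n * (s * ((1 - ε) * (s : ℝ) ^ lam)) ≤
        (r : ℝ) ^ len * ∑ p ∈ T, ((s : ℝ) / r) ^ ((P (some p.1)).act (γ p.2)).nz A.w len := by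
  obtain ⟨Bad, hBad, hgood⟩ := hB.good A.b A.hb
  obtain ⟨V, hV, hV'⟩ := starts (r := r) hs B.c j₁
  choose Zp hZp hZp' using hB.part A.b A.hb B.b B.hb
  obtain ⟨Ch, hCh, hsum⟩ := words hM (h1.trans h3) (by omega) (h := h) (by omega)
    ((Bad ∪ V.biUnion fun y => Zp (B.κ⁻¹ * y)).image fun β => A.κ * β) e
  obtain ⟨T, hT, hmass⟩ := mass hC A hr hs hrs hB hP hγ h3
    (hS.trans (Fix_anti (Set.union_subset_union_right _
      (Set.image_mono (Set.Iic_subset_Iic.2 h3))))) Ch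
    (fun χ hχ l hl => by
      obtain ⟨a1, a2, a3, -⟩ := hCh χ hχ
      rcases lt_or_ge l lam with h0 | h0
      · exact a2 l h0
      · obtain rfl : l = lam := by omega
        rw [a1, a3 _ (by omega), he, zero_pow (by omega), zero_add])
    (fun χ hχ χ' hχ' h0 => funext fun l => by
      rcases le_or_gt l len with h5 | h5
      · exact h0 l h5
      · rw [(hCh χ hχ).2.2.1 l (by omega), (hCh χ' hχ').2.2.1 l (by omega)])
  refine ⟨T, fun p hp Q hQ => ?_, le_trans ?_ hmass⟩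
  · obtain ⟨χ, hχ, hκ, hred⟩ := hT p hp
    rw [← hQ] at hred
    obtain ⟨a1, -, a3, a4, a5⟩ := hCh χ hχ
    have hZ : p.1 ∉ Bad ∪ V.biUnion fun y => Zp (B.κ⁻¹ * y) := fun h0 =>
      a4 (hκ ▸ mem_image_of_mem _ h0)
    rw [mem_union, not_or] at hZ
    have ho : Q.ord (A.b - algebraMap k Ω p.1) = 1 := by
      rw [hQ, Plc.act_ord, map_sub, mem_Fix.1 (hγ.1 p.2) _ rfl, AlgEquiv.commutes]
      exact hP.2 _
    obtain ⟨-, hVG, hloc⟩ := hgood _ hZ.1 Q ho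
    refine ⟨hloc _ A.hb, hloc _ B.hb, hm Q hVG (hloc _ A.hb) (hloc _ B.hb) ?_ ?_,
      (hred lam h1).eq_zero_iff.1 a1, fun l hl hl' => a3 l hl ▸ hred l hl'⟩
    · exact Q.nz_eq_zero.2 fun i _ hi h0 =>
        a5 i (by omega) (by omega) ((hred i (by omega)).eq_zero_iff.2 h0)
    · refine Q.nz_eq_zero.2 fun i _ hi h0 => hZ.2 ?_
      obtain ⟨χ', b1, b2⟩ := tw_res (by omega) B Q (hloc _ B.hb).eq_one.le
      refine mem_biUnion.2 ⟨χ' 0, hV' χ' (fun l hl => b2 l (by omega)) i hi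
        ((b1 i (by omega)).eq_zero_iff.2 h0), hZp' _ _ Q (Plc.red_of_ord (by rw [ho]; simp)) ?_⟩
      have := (Plc.red_const B.κ⁻¹).mul (b1 0 (by omega))
      rwa [B.h0, ← mul_assoc, ← map_mul, inv_mul_cancel₀ B.hκ, map_one, one_mul] at this
  · refine mul_le_mul_of_nonneg_left (le_trans ?_ (hsum.trans (sum_le_sum fun χ _ => ?_)))
      (Nat.cast_nonneg n)
    · refine mul_le_mul_of_nonneg_left ?_ (Nat.cast_nonneg s)
      have a1 : ((Bad ∪ V.biUnion fun y => Zp (B.κ⁻¹ * y)).image fun β => A.κ * β).card ≤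
          8 * Δ ^ 2 + 2 * s ^ j₁ * Δ :=
        card_image_le.trans ((card_union_le _ _).trans (add_le_add hBad
          ((card_biUnion_le_card_mul _ _ _ fun y _ => hZp _).trans
            (Nat.mul_le_mul_right _ (by omega)))))
      have a2 := mul_le_mul_of_nonneg_right (Nat.cast_le (α := ℝ).2 a1)
        (show (0 : ℝ) ≤ (s : ℝ) ^ h * Pm by positivity)
      have a3 := mul_le_mul_of_nonneg_right hε1 (show (0 : ℝ) ≤ (s : ℝ) ^ lam by positivity)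
      linarith
    · exact pow_le_pow_right₀ (by exact_mod_cast (by omega : 1 ≤ s))
        (card_le_card (filter_subset_filter _ (Icc_subset_Icc_right h1)))

theorem phi_zero {Q : Plc k Ω} {Y Y' : Ω} (hY : 1 < Q.ν Y) (hY' : 1 < Q.ν Y') {a₁ a₂ a₃ c c' : k}
    (h1 : a₁ ≠ 0) (hc : c ≠ 0) (ha : a₁ * -c + a₂ * -c' + a₃ * (-c * -c') = 0)
    (h0 : algebraMap k Ω a₁ * Y + algebraMap k Ω a₂ * Y' + algebraMap k Ω a₃ * (Y * Y') = 0) :
    algebraMap k Ω c * Y' = algebraMap k Ω c' * Y := by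
  obtain rfl : a₃ = 0 := by
    by_contra h3
    have e1 : Q.ν (algebraMap k Ω a₃ * (Y * Y')) = Q.ν Y * Q.ν Y' := by
      rw [map_mul, Q.ν_const h3, one_mul, map_mul]
    rw [← neg_eq_of_add_eq_zero_right h0, Valuation.map_neg] at e1
    refine (Q.ν.map_add_lt ?_ ?_).ne e1 <;> rw [map_mul] <;>
      refine (mul_le_of_le_one_left' (Q.triv _)).trans_lt ?_
    · exact lt_mul_of_one_lt_right (one_pos.trans hY) hY'
    · exact lt_mul_of_one_lt_left (one_pos.trans hY') hY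
  have h2 : a₂ ≠ 0 := by
    rintro rfl
    simp [h1, hc] at ha
  have e := congrArg (algebraMap k Ω) ha
  simp only [map_add, map_mul, map_zero, map_neg] at e h0
  refine mul_left_cancel₀ (show algebraMap k Ω a₂ ≠ 0 by simpa using h2) ?_
  linear_combination algebraMap k Ω c * h0 + Y * e

theorem merge1 (hE : PlcExStmt) (hPF : PFStmt) (hT : TowStmt) (hC : CntStmt) {Δ Pm h : ℕ}
    {C ρ : ℝ} (A B : Tw k r s J S₀) (hr : 2 ≤ r) (hs : 2 ≤ s) (hrs : r.Coprime s)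
    (hB : Bs k S₀ Δ) (hM : MHyp r s A.c C ρ Pm J) {l₁ j₁ N t : ℕ} (hm : Matched A B l₁ j₁ N)
    (hl : l₁ + N < J) (hj : j₁ + N < J) (ht : t + 2 ≤ N) (hh : h ≤ t)
    (hε1 : C * ρ ^ h ≤ 1 / (4 * r * s) / 2)
    (hε2 : ((8 * Δ ^ 2 + 2 * s ^ j₁ * Δ : ℕ) : ℝ) * ((s : ℝ) ^ h * Pm) ≤
      1 / (4 * r * s) / 2 * (s : ℝ) ^ (l₁ + t + 1))
    (hπ : ∀ P : Option k → Plc k Ω, Fam k A.b P → ∀ (S : Subgroup (Ω ≃ₐ[k] Ω)) (n : ℕ)
      (γ : Fin n → Ω ≃ₐ[k] Ω), S ≤ Fix k S₀ → IsAvg (Fix k {A.b}) S γ → ∀ B' : Finset (Option k),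
      ∑ β ∈ B', ∑ i, max (-(P β).ord (γ i A.b)) 0 ≤ n ∧
      ((s : ℝ) / r) ^ (j₁ + t + 2) * ∑ β ∈ B', ∑ i, max (-(P β).ord (γ i B.b)) 0 ≤
        n * ((s : ℝ) / r) ^ (l₁ + t + 2))
    (hpole : ∃ P : Plc k Ω, P.ord A.b < 0 ∧ P.ord B.b < 0) :
    algebraMap k Ω A.c * B.w (j₁ + t + 2) ^ s = algebraMap k Ω B.c * A.w (l₁ + t + 2) ^ s := by
  have hr0 : 0 < r := by omega
  have hs0 : 0 < s := by omega
  have hr' : (2 : ℝ) ≤ r := by exact_mod_cast hr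
  have hs' : (2 : ℝ) ≤ s := by exact_mod_cast hs
  by_contra hne
  obtain ⟨htr, halg⟩ := hB.tr A.b A.hb
  obtain ⟨P, hP⟩ := hE k Ω A.b htr halg
  have hfin : (S₀ ∪ lv A.w J ∪ lv B.w J).Finite :=
    (hB.fin.union ((Set.finite_Iic J).image _)).union ((Set.finite_Iic J).image _)
  obtain ⟨γ, hγ⟩ := exists_avg _ _ (relIndex_ne_zero_of_finite halg hfin)
  have hn := hγ.card_pos
  rw [Fintype.card_fin] at hn
  generalize (Fix k (S₀ ∪ lv A.w J ∪ lv B.w J)).relIndex (Fix k {A.b}) = n at γ hγ hn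
  have hS : Fix k (S₀ ∪ lv A.w J ∪ lv B.w J) ≤ Fix k ({A.b} ∪ lv A.w J) :=
    Fix_anti ((Set.union_subset_union_left _ (Set.singleton_subset_iff.2 A.hb)).trans
      Set.subset_union_left)
  obtain ⟨e, he, he'⟩ := exists_hat hr hrs A.hc
  have he0 : e ≠ 0 := by
    rintro rfl
    exact A.hc (by rw [← he, zero_pow hr0.ne'])
  have hε : ∀ lam, l₁ + t + 1 ≤ lam → ((8 * Δ ^ 2 + 2 * s ^ j₁ * Δ : ℕ) : ℝ) *
      ((s : ℝ) ^ h * Pm) ≤ 1 / (4 * r * s) / 2 * (s : ℝ) ^ lam := fun lam h0 =>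
    hε2.trans (mul_le_mul_of_nonneg_left (pow_le_pow_right₀ (by linarith) h0) (by positivity))
  obtain ⟨T₁, hT₁, hM₁⟩ := type_mass hC A B hr hs hrs hB hM hm (by omega) hP hγ hS
    (lam := l₁ + t + 2 + 1) le_rfl (by omega) (by omega) (by omega) hε1 (hε _ (by omega)) he
  obtain ⟨T₂, hT₂, hM₂⟩ := type_mass hC A B hr hs hrs hB hM hm (by omega) hP hγ hS
    (lam := l₁ + t + 2) le_rfl (by omega) (by omega) (by omega) hε1 (hε _ (by omega)) he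
  obtain ⟨T₃, hT₃, hM₃⟩ := type_mass hC A B hr hs hrs hB hM hm (by omega) hP hγ hS
    (lam := l₁ + t + 1) (len := l₁ + t + 2) (by omega) le_rfl (by omega) (by omega) hε1 hε2 he
  have hTO : ∀ (T : Tw k r s J S₀) (Q : Plc k Ω), Q.Loc T.b → TO T Q := fun T Q hQ i hi =>
    ((hT k Ω r s J S₀ Q hr hs hrs).1 T hQ i hi).2
  set Y := A.w (l₁ + t + 2) ^ s with hY
  set Y' := B.w (j₁ + t + 2) ^ s with hY'
  let Q : k × Fin n → Plc k Ω := fun p => (P (some p.1)).act (γ p.2)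
  let o₁ : k × Fin n → ℝ := fun p => (r : ℝ) / s * ((s : ℝ) / r) ^ (Q p).nz A.w (l₁ + t + 2 + 1)
  let o₂ : k × Fin n → ℝ := fun p => ((s : ℝ) / r) ^ (Q p).nz A.w (l₁ + t + 2)
  have ho₁ : ∀ p, 0 < o₁ p := fun p => by positivity
  have ho₂ : ∀ p, 0 < o₂ p := fun p => by positivity
  have v₁ : ∀ p ∈ T₁, Van (Q p) Y (-A.c) (o₁ p) ∧ Van (Q p) Y' (-B.c) (o₁ p) := fun p hp => by
    obtain ⟨a1, a2, a3, a4, -⟩ := hT₁ p hp (Q p) rfl
    refine ⟨(hTO A _ a1).next hr0 hs0 (by omega) a4, ?_⟩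
    have := (hTO B _ a2).next hr0 hs0 (i := j₁ + t + 2) (by omega)
      (zero_transfer (a3 (t + 2) (by omega)) (a3 (t + 3) (by omega)) a4)
    rwa [← show (Q p).nz A.w (l₁ + t + 2 + 1) = (Q p).nz B.w (j₁ + t + 2 + 1) from
      a3 (t + 3) (by omega)] at this
  have v₂ : ∀ p ∈ T₂, Van (Q p) Y 0 (o₂ p) ∧ Van (Q p) Y' 0 (o₂ p) := fun p hp => by
    obtain ⟨a1, a2, a3, a4, -⟩ := hT₂ p hp (Q p) rfl
    refine ⟨(hTO A _ a1).zero hr0 hs0 (by omega) a4, ?_⟩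
    have := (hTO B _ a2).zero hr0 hs0 (i := j₁ + t + 2) (by omega)
      (zero_transfer (a3 (t + 1) (by omega)) (a3 (t + 2) (by omega)) a4)
    rwa [← show (Q p).nz A.w (l₁ + t + 2) = (Q p).nz B.w (j₁ + t + 2) from
      a3 (t + 2) (by omega)] at this
  have v₃ : ∀ p ∈ T₃, Van (Q p) Y (e ^ s) (o₂ p) ∧ ∃ e' ∈ (nthRoots r B.c).toFinset,
      Van (Q p) Y' (e' ^ s) (o₂ p) := fun p hp => by
    obtain ⟨a1, a2, a3, a4, a5⟩ := hT₃ p hp (Q p) rfl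
    refine ⟨(hTO A _ a1).prev hr0 hs0 (by omega) he0 (a5 _ (by omega) le_rfl), ?_⟩
    obtain ⟨χ, b1, b2⟩ := tw_res hr0 B (Q p) a2.eq_one.le
    have b3 : χ (j₁ + t + 1) = 0 := (b1 _ (by omega)).eq_zero_iff.2
      (zero_transfer (a3 t (by omega)) (a3 (t + 1) (by omega)) a4)
    have b4 := b2 (j₁ + t + 1) (by omega)
    rw [b3, zero_pow hs0.ne', zero_add] at b4
    refine ⟨_, Multiset.mem_toFinset.2 ((mem_nthRoots hr0).2 b4), ?_⟩
    have := (hTO B _ a2).prev hr0 hs0 (i := j₁ + t + 2) (by omega)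
      (fun h0 => B.hc (by rw [← b4, h0, zero_pow hr0.ne'])) (b1 _ (by omega))
    rwa [← show (Q p).nz A.w (l₁ + t + 2) = (Q p).nz B.w (j₁ + t + 2) from
      a3 (t + 2) (by omega)] at this
  set X := n * ((s : ℝ) / r) ^ (l₁ + t + 2) with hX
  have hX0 : 0 < X := by positivity
  set ε : ℝ := 1 / (4 * r * s) with hεd
  have m₁ : (1 - ε) * s * X ≤ ∑ p ∈ T₁, o₁ p := by
    rw [← mul_sum]
    refine le_of_mul_le_mul_left ?_ (show (0 : ℝ) < s * (r : ℝ) ^ (l₁ + t + 2) by positivity)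
    refine le_trans (le_of_eq ?_) (hM₁.trans (le_of_eq ?_))
    · rw [hX, div_pow]; field_simp; ring
    · simp only [Q]; field_simp; ring
  have m₂ : (1 - ε) * s * X ≤ ∑ p ∈ T₂, o₂ p := by
    refine le_of_mul_le_mul_left ?_ (show (0 : ℝ) < (r : ℝ) ^ (l₁ + t + 2) by positivity)
    refine le_trans (le_of_eq ?_) hM₂
    rw [hX, div_pow]; field_simp
  have m₃ : (1 - ε) * X ≤ ∑ p ∈ T₃, o₂ p := by
    refine le_of_mul_le_mul_left ?_ (show (0 : ℝ) < (r : ℝ) ^ (l₁ + t + 2) by positivity)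
    refine le_trans (le_of_eq ?_) hM₃
    rw [hX, div_pow]; field_simp; ring
  have key : ∀ e' ∈ (nthRoots r B.c).toFinset,
      ∑ p ∈ T₃.filter fun p => Van (Q p) Y' (e' ^ s) (o₂ p), o₂ p ≤ 2 * ε * s * X := by
    intro e' he''
    have he0' : e' ≠ 0 := by
      rintro rfl
      exact B.hc (by rw [← (mem_nthRoots hr0).1 (Multiset.mem_toFinset.1 he''), zero_pow hr0.ne'])
    obtain ⟨a₁, a₂, a₃, c1, c2, c3⟩ : ∃ a₁ a₂ a₃ : k, a₁ ≠ 0 ∧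
        a₁ * -A.c + a₂ * -B.c + a₃ * (-A.c * -B.c) = 0 ∧
        a₁ * e ^ s + a₂ * e' ^ s + a₃ * (e ^ s * e' ^ s) = 0 :=
      ⟨-B.c * e' ^ s * (e ^ s - -A.c), -A.c * e ^ s * (-B.c - e' ^ s),
        -A.c * e' ^ s - -B.c * e ^ s, mul_ne_zero (mul_ne_zero (neg_ne_zero.2 B.hc)
          (pow_ne_zero _ he0')) (sub_ne_zero.2 he'), by ring, by ring⟩
    set φ := algebraMap k Ω a₁ * Y + algebraMap k Ω a₂ * Y' + algebraMap k Ω a₃ * (Y * Y') with hφ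
    have hφ0 : φ ≠ 0 := fun h0 => by
      obtain ⟨P₀, d1, d2⟩ := hpole
      refine hne (phi_zero (Q := P₀) ?_ ?_ c1 A.hc c2 h0)
      · rw [← P₀.ord_neg_iff, hY, P₀.ord_pow, tw_pole hr0 hs0 A P₀ d1 _ (by omega), ← mul_assoc]
        exact mul_neg_of_pos_of_neg (by positivity) d1
      · rw [← P₀.ord_neg_iff, hY', P₀.ord_pow, tw_pole hr0 hs0 B P₀ d2 _ (by omega), ← mul_assoc]
        exact mul_neg_of_pos_of_neg (by positivity) d2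
    obtain ⟨B', hB'⟩ := zeros_le_poles hPF hP halg hγ hφ0 (fun g hg => by
      have d1 : g (A.w (l₁ + t + 2)) = A.w (l₁ + t + 2) :=
        mem_Fix.1 hg _ (Or.inl (Or.inr ⟨_, show l₁ + t + 2 ≤ J by omega, rfl⟩))
      have d2 : g (B.w (j₁ + t + 2)) = B.w (j₁ + t + 2) :=
        mem_Fix.1 hg _ (Or.inr ⟨_, show j₁ + t + 2 ≤ J by omega, rfl⟩)
      simp only [hφ, hY, hY', map_add, map_mul, map_pow, AlgEquiv.commutes, d1, d2])
      (T₁ ∪ T₂ ∪ T₃.filter fun p => Van (Q p) Y' (e' ^ s) (o₂ p))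
    obtain ⟨p1, p2⟩ := hπ P hP _ n γ (Fix_anti (Set.subset_union_left.trans Set.subset_union_left))
      hγ B'
    have p3 : ∑ β ∈ B', ∑ i, max (-(P β).ord (γ i φ)) 0 ≤ 2 * s * X := by
      calc ∑ β ∈ B', ∑ i, max (-(P β).ord (γ i φ)) 0
          ≤ ∑ β ∈ B', ∑ i, (s * ((s : ℝ) / r) ^ (l₁ + t + 2) * max (-(P β).ord (γ i A.b)) 0 +
            s * ((s : ℝ) / r) ^ (j₁ + t + 2) * max (-(P β).ord (γ i B.b)) 0) :=
            sum_le_sum fun β _ => sum_le_sum fun i _ =>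
              (pole_phi ((P β).act (γ i)) Y Y' a₁ a₂ a₃).trans (add_le_add
                (tw_pole_le hr0 hs0 A ((P β).act (γ i)) (by omega))
                (tw_pole_le hr0 hs0 B ((P β).act (γ i)) (by omega)))
        _ = s * (((s : ℝ) / r) ^ (l₁ + t + 2) * ∑ β ∈ B', ∑ i, max (-(P β).ord (γ i A.b)) 0) +
            s * (((s : ℝ) / r) ^ (j₁ + t + 2) * ∑ β ∈ B', ∑ i, max (-(P β).ord (γ i B.b)) 0) := by
            simp only [sum_add_distrib, ← mul_sum, mul_assoc]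
        _ ≤ s * (((s : ℝ) / r) ^ (l₁ + t + 2) * n) + s * X := by gcongr
        _ = 2 * s * X := by rw [hX]; ring
    have d12 : Disjoint T₁ T₂ := disjoint_left.2 fun p h1 h2 =>
      A.hc (neg_eq_zero.1 (((v₁ p h1).1.red (ho₁ p)).unique ((v₂ p h2).1.red (ho₂ p))))
    have d3 : Disjoint (T₁ ∪ T₂) (T₃.filter fun p => Van (Q p) Y' (e' ^ s) (o₂ p)) :=
      disjoint_left.2 fun p h1 h2 => by
        have h3 := (v₃ p (mem_filter.1 h2).1).1.red (ho₂ p)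
        rcases mem_union.1 h1 with h1 | h1
        · exact he' (h3.unique ((v₁ p h1).1.red (ho₁ p)))
        · exact pow_ne_zero s he0 (h3.unique ((v₂ p h1).1.red (ho₂ p)))
    rw [sum_union d3, sum_union d12] at hB'
    have z₁ : ∑ p ∈ T₁, o₁ p ≤ ∑ p ∈ T₁, (P (some p.1)).ord (γ p.2 φ) :=
      sum_le_sum fun p hp => (van_phi (v₁ p hp).1 (v₁ p hp).2 (ho₁ p) c2).le_ord hφ0
    have z₂ : ∑ p ∈ T₂, o₂ p ≤ ∑ p ∈ T₂, (P (some p.1)).ord (γ p.2 φ) :=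
      sum_le_sum fun p hp => (van_phi (v₂ p hp).1 (v₂ p hp).2 (ho₂ p) (by simp)).le_ord hφ0
    have z₃ : ∑ p ∈ T₃.filter fun p => Van (Q p) Y' (e' ^ s) (o₂ p), o₂ p ≤
        ∑ p ∈ T₃.filter fun p => Van (Q p) Y' (e' ^ s) (o₂ p), (P (some p.1)).ord (γ p.2 φ) :=
      sum_le_sum fun p hp =>
        (van_phi (v₃ p (mem_filter.1 hp).1).1 (mem_filter.1 hp).2 (ho₂ p) c3).le_ord hφ0
    linarith
  have f1 : ∑ p ∈ T₃, o₂ p ≤ ∑ e' ∈ (nthRoots r B.c).toFinset,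
      ∑ p ∈ T₃.filter fun p => Van (Q p) Y' (e' ^ s) (o₂ p), o₂ p := by
    simp only [sum_filter]
    rw [sum_comm]
    refine sum_le_sum fun p hp => ?_
    obtain ⟨e', h1, h2⟩ := (v₃ p hp).2
    have h3 := single_le_sum (f := fun e' => if Van (Q p) Y' (e' ^ s) (o₂ p) then o₂ p else 0)
      (fun x _ => ite_nonneg (ho₂ p).le le_rfl) h1
    rwa [if_pos h2] at h3
  have f2 := sum_le_card_nsmul _ _ _ key
  have f3 : ((nthRoots r B.c).toFinset.card : ℝ) ≤ r :=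
    Nat.cast_le.2 ((Multiset.toFinset_card_le _).trans (card_nthRoots r B.c))
  have hε0 : 0 < ε := by positivity
  have f4 := mul_le_mul_of_nonneg_right f3 (show 0 ≤ 2 * ε * s * X by positivity)
  have f5 : r * (2 * ε * s * X) = X / 2 := by rw [hεd]; field_simp; ring
  have f6 : ε ≤ 1 / 4 := one_div_le_one_div_of_le (by norm_num) (by nlinarith)
  rw [nsmul_eq_mul] at f2
  nlinarith

theorem merge (hE : PlcExStmt) (hPF : PFStmt) (hT : TowStmt) (hDL : DLStmt) (hC : CntStmt) :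
    MergeStmt := by
  intro r s C ρ hr hs hrs hC1 hρ0 hρ1
  have hr0 : 0 < r := by omega
  have hs0 : 0 < s := by omega
  obtain ⟨h, hh⟩ := exists_pow_lt_of_lt_one
    (show 0 < 1 / (4 * (r : ℝ) * s) / 2 / C by positivity) hρ1
  have hε1 : C * ρ ^ h ≤ 1 / (4 * r * s) / 2 := by
    rw [lt_div_iff₀ (by linarith)] at hh; linarith
  refine ⟨h + 8 * r * s + 9, fun k Ω _ _ _ _ _ _ J ℓ Pm E S₀ A B hB hPm hMA hMB hpole l₁ j₁ N
    hlj hjl hl hj hp t ht htN => ?_⟩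
  have hm := matched hDL A B hr hs hrs hB hl hj hp
  obtain ⟨π, hπ0, hπ⟩ := hB.pole
  have hnum : ∀ l₁ j₁ t : ℕ, j₁ ≤ l₁ + E → E + (h + 8 * r * s + 9) * (ℓ + 1) ≤ t + 3 →
      ((8 * (2 ^ ℓ) ^ 2 + 2 * s ^ j₁ * 2 ^ ℓ : ℕ) : ℝ) * ((s : ℝ) ^ h * Pm) ≤
        1 / (4 * r * s) / 2 * (s : ℝ) ^ (l₁ + t + 1) := by
    intro l₁ j₁ t h1 h2
    have a1 : 2 ^ ℓ ≤ s ^ ℓ := Nat.pow_le_pow_left hs _
    have a2 : 8 * r * s ≤ s ^ (8 * r * s) := (Nat.lt_pow_self hs).le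
    have a3 : 1 ≤ s ^ j₁ := Nat.one_le_pow _ _ hs0
    have a4 : 1 ≤ 2 ^ ℓ := Nat.one_le_two_pow
    have a5 : 16 ≤ s ^ 4 := Nat.pow_le_pow_left hs 4
    have a6 : 8 * (2 ^ ℓ) ^ 2 + 2 * s ^ j₁ * 2 ^ ℓ ≤ s ^ 4 * (s ^ j₁ * (s ^ ℓ * s ^ ℓ)) := by
      have b1 : 2 ^ ℓ * 2 ^ ℓ ≤ s ^ ℓ * s ^ ℓ := Nat.mul_le_mul a1 a1
      have b2 : 2 ^ ℓ ≤ s ^ ℓ * s ^ ℓ := le_trans (Nat.le_mul_self _) b1
      have b3 := Nat.mul_le_mul a3 b1
      have b4 := Nat.mul_le_mul_left (s ^ j₁) b2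
      have b5 := Nat.mul_le_mul_right (s ^ j₁ * (s ^ ℓ * s ^ ℓ)) a5
      nlinarith
    have a7 : (8 * (2 ^ ℓ) ^ 2 + 2 * s ^ j₁ * 2 ^ ℓ) * (s ^ h * Pm) * (8 * r * s) ≤
        s ^ (l₁ + t + 1) := by
      refine (Nat.mul_le_mul (Nat.mul_le_mul a6 (Nat.mul_le_mul_left _ (hPm.trans a1))) a2).trans ?_
      simp only [← pow_add]
      refine Nat.pow_le_pow_right hs0 ?_
      generalize 8 * r * s = c at h2 ⊢
      nlinarith [Nat.zero_le ((h + c) * ℓ)]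
    rw [div_div, one_div_mul_eq_div, le_div_iff₀ (by positivity)]
    have a8 := Nat.cast_le (α := ℝ).2 a7
    push_cast at a8 ⊢
    linarith
  have hpo : ∀ (A B : Tw k r s J S₀) (i j : ℕ),
      π B.b * ((s : ℝ) / r) ^ j ≤ π A.b * ((s : ℝ) / r) ^ i →
      ∀ P : Option k → Plc k Ω, Fam k A.b P → ∀ (S : Subgroup (Ω ≃ₐ[k] Ω)) (n : ℕ)
      (γ : Fin n → Ω ≃ₐ[k] Ω), S ≤ Fix k S₀ → IsAvg (Fix k {A.b}) S γ → ∀ B' : Finset (Option k),
      ∑ β ∈ B', ∑ i, max (-(P β).ord (γ i A.b)) 0 ≤ n ∧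
      ((s : ℝ) / r) ^ j * ∑ β ∈ B', ∑ i, max (-(P β).ord (γ i B.b)) 0 ≤
        n * ((s : ℝ) / r) ^ i := by
    intro A B i j h0 P hP S n γ hS hγ B'
    have a1 := hπ _ A.hb _ A.hb P hP S n γ hS hγ B'
    have a2 := hπ _ A.hb _ B.hb P hP S n γ hS hγ B'
    have a3 := hπ0 _ A.hb
    refine ⟨le_of_mul_le_mul_left (a1.trans (le_of_eq (mul_comm _ _))) a3,
      le_of_mul_le_mul_left ?_ a3⟩
    have a4 := mul_le_mul_of_nonneg_left a2 (show 0 ≤ ((s : ℝ) / r) ^ j by positivity)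
    have a5 := mul_le_mul_of_nonneg_left h0 (Nat.cast_nonneg (α := ℝ) n)
    linarith
  have hK : h + 9 ≤ (h + 8 * r * s + 9) * (ℓ + 1) :=
    le_trans (by omega) (Nat.le_mul_of_pos_right _ (Nat.succ_pos ℓ))
  have key : ∀ t, E + (h + 8 * r * s + 9) * (ℓ + 1) ≤ t + 3 → t + 2 ≤ N →
      algebraMap k Ω A.c * B.w (j₁ + t + 2) ^ s = algebraMap k Ω B.c * A.w (l₁ + t + 2) ^ s := by
    intro t h1 h2
    rcases le_total (π B.b * ((s : ℝ) / r) ^ (j₁ + t + 2))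
      (π A.b * ((s : ℝ) / r) ^ (l₁ + t + 2)) with h3 | h3
    · exact merge1 hE hPF hT hC A B hr hs hrs hB hMA hm hl hj h2 (by omega) hε1
        (hnum l₁ j₁ t hjl h1) (hpo A B _ _ h3) hpole
    · exact (merge1 hE hPF hT hC B A hr hs hrs hB hMB hm.symm hj hl h2 (by omega) hε1
        (hnum j₁ l₁ t hlj h1) (hpo B A _ _ h3) (hpole.imp fun _ => And.symm)).symm
  obtain ⟨t, rfl⟩ : ∃ t', t = t' + 3 := ⟨t - 3, by omega⟩
  have k1 := key t ht (by omega)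
  have k2 := key (t + 1) (by omega) htN
  have hw0 : A.w (l₁ + (t + 3)) ≠ 0 := by
    obtain ⟨P₀, d1, -⟩ := hpole
    refine P₀.ne_zero_of_ord (ne_of_lt ?_)
    rw [tw_pole hr0 hs0 A P₀ d1 _ (by omega)]
    exact mul_neg_of_pos_of_neg (by positivity) d1
  have hc : algebraMap k Ω A.c ≠ 0 := by simpa using A.hc
  obtain ⟨μ, hμ⟩ := const_of_pow (x := B.w (j₁ + (t + 3)) / A.w (l₁ + (t + 3))) hs0
    (c := B.c / A.c) (by
      rw [div_pow, map_div₀, div_eq_div_iff (pow_ne_zero _ hw0) hc, mul_comm]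
      exact k2)
  rw [eq_div_iff hw0] at hμ
  have e1 := A.hw (l₁ + t + 2) (by omega)
  have e2 := B.hw (j₁ + t + 2) (by omega)
  refine ⟨μ, (algebraMap k Ω).injective (mul_right_cancel₀ (pow_ne_zero r hw0) ?_),
    (algebraMap k Ω).injective (mul_right_cancel₀ (pow_ne_zero s hw0) ?_), hμ.symm⟩
  · rw [map_mul, map_pow, mul_right_comm, ← mul_pow, hμ]
    change B.w (j₁ + t + 2 + 1) ^ r * _ = _ * A.w (l₁ + t + 2 + 1) ^ r
    rw [e1, e2]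
    linear_combination k1
  · rw [map_mul, map_pow, mul_right_comm, ← mul_pow, hμ, mul_comm]
    exact k2

end Pool.Agent.MP_09973c_nt.H31
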