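import Pool.Agent.MP_09973c_nt.H58.SpecF

/-!
Counting residue chains.
-/

set_option autoImplicit false

namespace Pool.Agent.MP_09973c_nt.H31

open Polynomial Finset Classical Pool.Agent.MP_09973c_nt.H58

theorem pth_pow {k : Type} [Field k] {r s : ℕ} {c ζ : k} {rt : k → k} (hζ : ζ ^ s = 1)
    (hrt : ∀ x, rt x ^ s = x) (dg : ℕ → ℕ) (d : ℕ) :
    pth r c ζ rt dg d ^ r = pth r c ζ rt dg (d + 1) ^ s + c := by
  rw [pth, mul_pow, ← pow_mul, mul_comm (dg d), pow_mul, hζ, one_pow, one_mul, hrt]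
  ring

theorem digit_eq {k : Type} [Field k] {r s i : ℕ} {c ζ : k} {rt : k → k}
    (hζ : IsPrimitiveRoot ζ s) {ω ω' : Fin i → Fin s} (d : Fin i)
    (h0 : pth r c ζ rt (wd ω) d = pth r c ζ rt (wd ω') d)
    (h1 : pth r c ζ rt (wd ω) (d + 1) = pth r c ζ rt (wd ω') (d + 1))
    (h2 : pth r c ζ rt (wd ω') (d + 1) ≠ 0) : ω d = ω' d := by
  rw [pth] at h2
  rw [pth, pth, h0] at h1
  have := mul_right_cancel₀ (right_ne_zero_of_mul h2) h1
  simp only [wd, d.2, dif_pos] at this
  exact Fin.ext (hζ.pow_inj (ω d).2 (ω' d).2 this)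

/-- Weighted count of the residue chains ending at zero. -/
theorem words {k : Type} [Field k] {r s : ℕ} {c : k} {C ρ : ℝ} {Pm J : ℕ}
    (H : MHyp r s c C ρ Pm J) {lam h : ℕ} (hJ : lam ≤ J) (h1 : 1 ≤ lam) (hh : h ≤ lam)
    (Z : Finset k) (e : k) :
    ∃ Ch : Finset (ℕ → k), (∀ χ ∈ Ch, χ lam = 0 ∧ (∀ l < lam, χ (l + 1) ^ r = χ l ^ s + c) ∧
      (∀ l, lam < l → χ l = e) ∧ χ 0 ∉ Z ∧ ∀ l, l < lam → l + h ≤ lam → χ l ≠ 0) ∧
      (s : ℝ) * ((s : ℝ) ^ lam - C * ρ ^ h * (s : ℝ) ^ lam - Z.card * ((s : ℝ) ^ h * Pm)) ≤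
        ∑ χ ∈ Ch, (s : ℝ) ^ ((Icc 1 lam).filter fun l => χ l = 0).card := by
  obtain ⟨ζ, rt, hζ, hrt, H⟩ := H
  obtain ⟨G, hG1, hG2, hG3⟩ := (H lam hJ).2 h
  let ch : (Fin lam → Fin s) → ℕ → k := fun ω l =>
    if l ≤ lam then pth r c ζ rt (wd ω) (lam - l) else e
  let W := G.filter fun ω => pth r c ζ rt (wd ω) lam ∉ Z
  have hprop : ∀ ω ∈ W, ch ω lam = 0 ∧ (∀ l < lam, ch ω (l + 1) ^ r = ch ω l ^ s + c) ∧
      (∀ l, lam < l → ch ω l = e) ∧ ch ω 0 ∉ Z ∧ ∀ l, l < lam → l + h ≤ lam → ch ω l ≠ 0 := by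
    intro ω hω
    rw [mem_filter] at hω
    refine ⟨by simp [ch, pth], fun l hl => ?_, fun l hl => if_neg (by omega),
      by simpa [ch] using hω.2, fun l hl hl' => ?_⟩
    · simp only [ch, hl.le, show l + 1 ≤ lam from hl, if_true]
      rw [show lam - l = lam - (l + 1) + 1 by omega]
      exact pth_pow hζ.pow_eq_one hrt _ _
    · simp only [ch, hl.le, if_true]
      exact hG3 ω hω.1 _ (by omega) (by omega) (by omega)
  refine ⟨W.image ch, fun χ hχ => ?_, ?_⟩
  · obtain ⟨ω, hω, rfl⟩ := mem_image.1 hχ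
    exact hprop ω hω
  have hW : (s : ℝ) ^ lam - C * ρ ^ h * (s : ℝ) ^ lam - Z.card * ((s : ℝ) ^ h * Pm) ≤ W.card := by
    have a1 : G.card + Gᶜ.card = s ^ lam := by rw [card_add_card_compl]; simp
    have a2 : G.card ≤ W.card + Z.card * (s ^ h * Pm) := by
      rw [← card_filter_add_card_filter_not (s := G) fun ω => pth r c ζ rt (wd ω) lam ∉ Z]
      refine add_le_add le_rfl ?_
      rw [mul_comm]
      refine card_le_mul_card_image_of_maps_to (f := fun ω => pth r c ζ rt (wd ω) lam)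
        (fun ω hω => by simpa using (mem_filter.1 hω).2) _ fun β _ => le_trans ?_ (hG2 β)
      refine card_le_card fun ω hω => ?_
      simp only [mem_filter] at hω ⊢
      exact ⟨hω.1.1, hω.2⟩
    have a3 : (G.card : ℝ) + Gᶜ.card = (s : ℝ) ^ lam := by exact_mod_cast a1
    have a4 : (G.card : ℝ) ≤ W.card + Z.card * ((s : ℝ) ^ h * Pm) := by exact_mod_cast a2
    linarith
  refine (mul_le_mul_of_nonneg_left hW (Nat.cast_nonneg s)).trans ?_
  rw [card_eq_sum_card_image ch W]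
  push_cast
  rw [mul_sum]
  refine sum_le_sum fun χ hχ => ?_
  obtain ⟨ω₀, hω₀, rfl⟩ := mem_image.1 hχ
  obtain ⟨b1, -, -, -, b2⟩ := hprop ω₀ hω₀
  have a1 : (W.filter fun ω => ch ω = ch ω₀).card ≤
      s ^ (univ.filter fun d : Fin lam => ch ω₀ (lam - (d + 1)) = 0).card := by
    refine le_trans (card_le_card (t := Fintype.piFinset fun d : Fin lam =>
      if ch ω₀ (lam - (d + 1)) = 0 then univ else {ω₀ d}) fun ω hω => ?_) ?_
    · rw [Fintype.mem_piFinset]
      intro d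
      split_ifs with h0
      · exact mem_univ _
      · have hd := d.2
        have key : ∀ (ω : Fin lam → Fin s), ∀ i ≤ lam, ch ω (lam - i) = pth r c ζ rt (wd ω) i := by
          intro ω i hi
          simp only [ch, Nat.sub_le, if_true]
          rw [show lam - (lam - i) = i by omega]
        have he := (mem_filter.1 hω).2
        rw [mem_singleton]
        refine digit_eq (r := r) (c := c) (rt := rt) hζ d ?_ ?_ ?_
        · rw [← key ω d hd.le, ← key ω₀ d hd.le, he]
        · rw [← key ω (d + 1) hd, ← key ω₀ (d + 1) hd, he]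
        · rwa [← key ω₀ (d + 1) hd]
    · rw [Fintype.card_piFinset]
      simp only [apply_ite Finset.card, card_univ, Fintype.card_fin, card_singleton]
      rw [prod_ite, prod_const, prod_const_one, mul_one]
  have a2 : (univ.filter fun d : Fin lam => ch ω₀ (lam - (d + 1)) = 0).card + 1 ≤
      ((Icc 1 lam).filter fun l => ch ω₀ l = 0).card := by
    rw [← card_erase_add_one (s := (Icc 1 lam).filter fun l => ch ω₀ l = 0) (a := lam)
      (by simp [h1, b1])]
    refine add_le_add (card_le_card_of_injOn (fun d => lam - (d + 1)) (fun d hd => ?_)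
      fun d _ d' _ hd => ?_) le_rfl
    · have h2 := d.2
      have h3 : ch ω₀ (lam - (d + 1)) = 0 := by simpa using hd
      have h4 : lam - (d + 1) ≠ 0 := fun h0 => b2 0 h1 (by omega) (h0 ▸ h3)
      simp only [coe_erase, coe_filter, mem_Icc, Set.mem_sdiff, Set.mem_ofPred_eq,
        Set.mem_singleton_iff]
      exact ⟨⟨⟨by omega, by omega⟩, h3⟩, by omega⟩
    · have := d.2
      have := d'.2
      exact Fin.ext (by simp only at hd; omega)
  have hs : 0 < s := Fin.pos (ω₀ ⟨0, h1⟩)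
  have a3 : s * (W.filter fun ω => ch ω = ch ω₀).card ≤
      s ^ ((Icc 1 lam).filter fun l => ch ω₀ l = 0).card :=
    (Nat.mul_le_mul_left s a1).trans (by rw [← pow_succ']; exact Nat.pow_le_pow_right hs a2)
  exact_mod_cast a3

/-- The starting points of chains with an early zero. -/
theorem starts {k : Type} [Field k] {r s : ℕ} (hs : 2 ≤ s) (c : k) (j : ℕ) :
    ∃ V : Finset k, V.card + 1 ≤ 2 * s ^ j ∧ ∀ χ : ℕ → k,
      (∀ l < j, χ (l + 1) ^ r = χ l ^ s + c) → ∀ l ≤ j, χ l = 0 → χ 0 ∈ V := by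
  induction j with
  | zero =>
    refine ⟨{0}, by simp, fun χ _ l hl h0 => ?_⟩
    obtain rfl : l = 0 := by omega
    simpa using h0
  | succ j ih =>
    obtain ⟨V, h1, h2⟩ := ih
    refine ⟨insert 0 (V.biUnion fun y => (nthRoots s (y ^ r - c)).toFinset), ?_,
      fun χ hχ l hl h0 => ?_⟩
    · have a1 := card_insert_le 0 (V.biUnion fun y => (nthRoots s (y ^ r - c)).toFinset)
      have a2 : (V.biUnion fun y => (nthRoots s (y ^ r - c)).toFinset).card ≤ V.card * s :=
        card_biUnion_le_card_mul _ _ _ fun y _ =>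
          (Multiset.toFinset_card_le _).trans (card_nthRoots _ _)
      rw [pow_succ]
      nlinarith
    · cases l with
      | zero => simp [h0]
      | succ l =>
        refine mem_insert_of_mem (mem_biUnion.2 ⟨χ 1, h2 (fun i => χ (i + 1))
          (fun i hi => hχ (i + 1) (by omega)) l (by omega) h0, ?_⟩)
        rw [Multiset.mem_toFinset, mem_nthRoots (by omega), hχ 0 (by omega)]
        ring

theorem exists_hat {k : Type} [Field k] [IsAlgClosed k] [CharZero k] {r s : ℕ} (hr : 2 ≤ r)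
    (h : r.Coprime s) {c : k} (hc : c ≠ 0) : ∃ e : k, e ^ r = c ∧ e ^ s ≠ -c := by
  obtain ⟨e, he⟩ := IsAlgClosed.exists_pow_nat_eq c (n := r) (by omega)
  by_cases h1 : e ^ s = -c
  · haveI : NeZero (r : k) := ⟨by exact_mod_cast (by omega : r ≠ 0)⟩
    obtain ⟨ω, hω⟩ := HasEnoughRootsOfUnity.exists_primitiveRoot k r
    refine ⟨ω * e, by rw [mul_pow, hω.pow_eq_one, one_mul, he], fun h2 => ?_⟩
    rw [mul_pow, h1] at h2
    exact hω.ne_one hr (eq_one_of_coprime h hω.pow_eq_one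
      (mul_right_cancel₀ (neg_ne_zero.2 hc) (h2.trans (one_mul _).symm)))
  · exact ⟨e, he, h1⟩

theorem const_of_pow {k Ω : Type} [Field k] [IsAlgClosed k] [Field Ω] [Algebra k Ω] {x : Ω}
    {n : ℕ} (hn : 0 < n) {c : k} (hx : x ^ n = algebraMap k Ω c) :
    ∃ μ : k, algebraMap k Ω μ = x := by
  have hi : IsIntegral k x := IsIntegral.of_pow hn (hx ▸ isIntegral_algebraMap)
  exact minpoly.mem_range_of_degree_eq_one k x
    (IsAlgClosed.degree_eq_one_of_irreducible k (minpoly.irreducible hi))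

end Pool.Agent.MP_09973c_nt.H31
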