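import Pool.Agent.MP_09973c_nt.H31.F8a

/-!
Local lemmas for the mass count of zeros and poles.
-/

set_option autoImplicit false

namespace Pool.Agent.MP_09973c_nt.H31

open Polynomial Finset IntermediateField Classical Pool.Agent.MP_09973c_nt.H58

variable {k Ω : Type} [Field k] [Field Ω] [Algebra k Ω]

/-- `y - c` vanishes to order at least `o`. -/
def Van (Q : Plc k Ω) (y : Ω) (c : k) (o : ℝ) : Prop :=
  (Q.ν (y - algebraMap k Ω c) : ℝ) ≤ Real.exp (-o)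

theorem van_of_ord {Q : Plc k Ω} {y : Ω} {c : k} {o : ℝ} (h0 : 0 < o)
    (h : o ≤ Q.ord (y - algebraMap k Ω c)) : Van Q y c o := by
  rw [Van, Q.ν_eq_exp (Q.ne_zero_of_ord (h0.trans_le h).ne')]
  exact Real.exp_le_exp.2 (neg_le_neg h)

theorem Van.red {Q : Plc k Ω} {y : Ω} {c : k} {o : ℝ} (h : Van Q y c o) (h0 : 0 < o) :
    Q.Red y c := by
  have := h.trans_lt (Real.exp_lt_one_iff.2 (neg_lt_zero.2 h0))
  exact_mod_cast this

theorem Van.le_ord {Q : Plc k Ω} {y : Ω} {o : ℝ} (h : Van Q y 0 o) (h0 : y ≠ 0) :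
    o ≤ Q.ord y := by
  rw [Van, map_zero, sub_zero, Q.ν_eq_exp h0, Real.exp_le_exp] at h
  linarith

theorem Van.pow {Q : Plc k Ω} {y : Ω} {c : k} {o : ℝ} (h : Van Q y c o) (h0 : 0 < o) (n : ℕ) :
    Van Q (y ^ n) (c ^ n) o := by
  refine le_trans ?_ h
  rw [map_pow, ← (Commute.all _ _).mul_geom_sum₂, map_mul, NNReal.coe_le_coe]
  refine mul_le_of_le_one_right' (Q.ν.map_sum_le fun i _ => ?_)
  rw [map_mul, map_pow, map_pow]
  exact mul_le_one' (pow_le_one' (h.red h0).le_one _) (pow_le_one' (Q.triv c) _)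

theorem van_phi {Q : Plc k Ω} {Y Y' : Ω} {y y' a₁ a₂ a₃ : k} {o : ℝ} (h : Van Q Y y o)
    (h' : Van Q Y' y' o) (h0 : 0 < o) (ha : a₁ * y + a₂ * y' + a₃ * (y * y') = 0) :
    Van Q (algebraMap k Ω a₁ * Y + algebraMap k Ω a₂ * Y' + algebraMap k Ω a₃ * (Y * Y')) 0 o := by
  have e := congrArg (algebraMap k Ω) ha
  simp only [map_add, map_mul, map_zero] at e
  have e1 : algebraMap k Ω a₁ * Y + algebraMap k Ω a₂ * Y' + algebraMap k Ω a₃ * (Y * Y') =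
      (Y - algebraMap k Ω y) * (algebraMap k Ω a₁ + algebraMap k Ω a₃ * Y') +
      (Y' - algebraMap k Ω y') * algebraMap k Ω (a₂ + a₃ * y) := by
    rw [map_add, map_mul]; linear_combination e
  rw [Van, map_zero, sub_zero, e1]
  have b1 : Q.ν ((Y - algebraMap k Ω y) * (algebraMap k Ω a₁ + algebraMap k Ω a₃ * Y')) ≤
      Q.ν (Y - algebraMap k Ω y) := by
    rw [map_mul]
    refine mul_le_of_le_one_right' (Q.ν.map_add_le (Q.triv _) ?_)
    rw [map_mul]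
    exact mul_le_one' (Q.triv _) (h'.red h0).le_one
  have b2 : Q.ν ((Y' - algebraMap k Ω y') * algebraMap k Ω (a₂ + a₃ * y)) ≤
      Q.ν (Y' - algebraMap k Ω y') := by
    rw [map_mul]
    exact mul_le_of_le_one_right' (Q.triv _)
  rcases le_max_iff.1 (Q.ν.map_add _ _) with h1 | h1
  · exact (NNReal.coe_le_coe.2 (h1.trans b1)).trans h
  · exact (NNReal.coe_le_coe.2 (h1.trans b2)).trans h'

theorem pole_eq (Q : Plc k Ω) (y : Ω) : max (-Q.ord y) 0 = Real.log (max 1 (Q.ν y : ℝ)) := by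
  rw [Plc.ord, neg_neg, ← Real.posLog_eq_log_max_one (NNReal.coe_nonneg _), Real.posLog_apply,
    max_comm]

theorem pole_phi (Q : Plc k Ω) (Y Y' : Ω) (a₁ a₂ a₃ : k) :
    max (-Q.ord (algebraMap k Ω a₁ * Y + algebraMap k Ω a₂ * Y' + algebraMap k Ω a₃ * (Y * Y'))) 0
      ≤ max (-Q.ord Y) 0 + max (-Q.ord Y') 0 := by
  rw [pole_eq, pole_eq, pole_eq, ← Real.log_mul (by positivity) (by positivity)]
  refine Real.log_le_log (by positivity) ?_
  have key : max 1 (Q.ν (algebraMap k Ω a₁ * Y + algebraMap k Ω a₂ * Y' +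
      algebraMap k Ω a₃ * (Y * Y'))) ≤ max 1 (Q.ν Y) * max 1 (Q.ν Y') := by
    have c1 := le_max_left 1 (Q.ν Y)
    have c2 := le_max_left 1 (Q.ν Y')
    have c3 := le_max_right 1 (Q.ν Y)
    have c4 := le_max_right 1 (Q.ν Y')
    refine max_le (one_le_mul c1 c2) (Q.ν.map_add_le (Q.ν.map_add_le ?_ ?_) ?_) <;>
      rw [map_mul] <;> refine (mul_le_of_le_one_left' (Q.triv _)).trans ?_
    · exact c3.trans (le_mul_of_one_le_right' c2)
    · exact c4.trans (le_mul_of_one_le_left' c1)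
    · rw [map_mul]; exact mul_le_mul' c3 c4
  exact_mod_cast key

variable {r s J : ℕ} {S₀ : Set Ω}

theorem tw_pole (hr : 0 < r) (hs : 0 < s) (T : Tw k r s J S₀) (Q : Plc k Ω)
    (h : Q.ord T.b < 0) : ∀ i ≤ J, Q.ord (T.w i) = ((s : ℝ) / r) ^ i * Q.ord T.b := by
  intro i
  induction i with
  | zero =>
    intro _
    rw [T.h0, Q.ord_mul (by simpa using T.hκ) (Q.ne_zero_of_ord h.ne), Q.ord_const]
    simp
  | succ i ih =>
    intro hi
    have h1 := ih (by omega)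
    have h2 : 1 < Q.ν (T.w i) := Q.ord_neg_iff.1 (by
      rw [h1]; exact mul_neg_of_pos_of_neg (by positivity) h)
    have h3 : Q.ν (T.w (i + 1) ^ r) = Q.ν (T.w i ^ s) := by
      rw [T.hw i hi]
      refine Q.ν.map_add_eq_of_lt_left ((Q.triv _).trans_lt ?_)
      rw [map_pow]
      exact one_lt_pow₀ h2 hs.ne'
    have h4 := Q.ord_congr h3
    rw [Q.ord_pow, Q.ord_pow, h1] at h4
    have hr' : (r : ℝ) ≠ 0 := by exact_mod_cast hr.ne'
    rw [pow_succ]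
    field_simp
    linarith

theorem tw_int (hr : 0 < r) (T : Tw k r s J S₀) (Q : Plc k Ω) (h : Q.ν T.b ≤ 1) :
    ∀ i ≤ J, Q.ν (T.w i) ≤ 1 := by
  intro i
  induction i with
  | zero =>
    intro _
    rw [T.h0, map_mul]
    exact mul_le_one' (Q.triv _) h
  | succ i ih =>
    intro hi
    rw [← pow_le_one_iff hr.ne', ← map_pow, T.hw i hi]
    refine Q.ν.map_add_le ?_ (Q.triv _)
    rw [map_pow]
    exact pow_le_one' (ih (by omega)) _

theorem tw_pole_le (hr : 0 < r) (hs : 0 < s) (T : Tw k r s J S₀) (Q : Plc k Ω) {i : ℕ}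
    (hi : i ≤ J) : max (-Q.ord (T.w i ^ s)) 0 ≤ s * ((s : ℝ) / r) ^ i * max (-Q.ord T.b) 0 := by
  rw [Q.ord_pow]
  refine max_le ?_ (by positivity)
  rcases lt_or_ge (Q.ord T.b) 0 with h | h
  · rw [tw_pole hr hs T Q h i hi, max_eq_left (by linarith)]
    exact le_of_eq (by ring)
  · have := Q.ord_nonneg_iff.2 (tw_int hr T Q (Q.ord_nonneg_iff.1 h) i hi)
    exact le_trans (neg_nonpos.2 (by positivity)) (by positivity)

/-- The residues of a tower form a chain. -/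
theorem tw_res (hr : 0 < r) (T : Tw k r s J S₀) (Q : Plc k Ω) (h : Q.ν T.b ≤ 1) :
    ∃ χ : ℕ → k, (∀ l ≤ J, Q.Red (T.w l) (χ l)) ∧ ∀ l < J, χ (l + 1) ^ r = χ l ^ s + T.c := by
  have : ∀ l, ∃ x : k, l ≤ J → Q.Red (T.w l) x := fun l => by
    by_cases hl : l ≤ J
    · obtain ⟨x, hx⟩ := Q.res _ (tw_int hr T Q h l hl)
      exact ⟨x, fun _ => hx⟩
    · exact ⟨0, fun h => absurd h hl⟩
  choose χ hχ using this
  refine ⟨χ, hχ, fun l hl => ((hχ (l + 1) hl).pow r).unique ?_⟩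
  rw [T.hw l hl]
  exact ((hχ l hl.le).pow s).add (Plc.red_const _)

/-- The orders of a tower at a place. -/
def TO (T : Tw k r s J S₀) (Q : Plc k Ω) : Prop :=
  ∀ i ≤ J, ∀ β : k, Q.Red (T.w i) β → Q.ord (T.w i - algebraMap k Ω β) =
    ((s : ℝ) / r) ^ Q.nz T.w i / if β = 0 then (s : ℝ) else 1

theorem TO.zero {T : Tw k r s J S₀} {Q : Plc k Ω} (h : TO T Q) (hr : 0 < r) (hs : 0 < s) {i : ℕ}
    (hi : i ≤ J) (h0 : Q.ν (T.w i) < 1) : Van Q (T.w i ^ s) 0 (((s : ℝ) / r) ^ Q.nz T.w i) := by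
  have := h i hi 0 (Plc.red_zero.2 h0)
  rw [if_pos rfl, map_zero, sub_zero] at this
  refine van_of_ord (by positivity) (le_of_eq ?_)
  rw [map_zero, sub_zero, Q.ord_pow, this]
  field_simp

theorem TO.next {T : Tw k r s J S₀} {Q : Plc k Ω} (h : TO T Q) (hr : 0 < r) (hs : 0 < s) {i : ℕ}
    (hi : i < J) (h0 : Q.ν (T.w (i + 1)) < 1) :
    Van Q (T.w i ^ s) (-T.c) ((r : ℝ) / s * ((s : ℝ) / r) ^ Q.nz T.w (i + 1)) := by
  have := h (i + 1) hi 0 (Plc.red_zero.2 h0)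
  rw [if_pos rfl, map_zero, sub_zero] at this
  refine van_of_ord (by positivity) (le_of_eq ?_)
  rw [map_neg, sub_neg_eq_add, ← T.hw i hi, Q.ord_pow, this]
  field_simp

theorem TO.prev {T : Tw k r s J S₀} {Q : Plc k Ω} (h : TO T Q) (hr : 0 < r) (hs : 0 < s) {i : ℕ}
    (hi : i ≤ J) {β : k} (hβ : β ≠ 0) (h0 : Q.Red (T.w i) β) :
    Van Q (T.w i ^ s) (β ^ s) (((s : ℝ) / r) ^ Q.nz T.w i) := by
  have := h i hi β h0
  rw [if_neg hβ, div_one] at this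
  exact (van_of_ord (by positivity) this.ge).pow (by positivity) s

theorem zero_transfer {Q : Plc k Ω} {w w' : ℕ → Ω} {i j : ℕ} (h : Q.nz w i = Q.nz w' j)
    (h' : Q.nz w (i + 1) = Q.nz w' (j + 1)) (h0 : Q.ν (w (i + 1)) < 1) :
    Q.ν (w' (j + 1)) < 1 := by
  by_contra h1
  rw [Plc.nz_succ, Plc.nz_succ, if_pos h0, if_neg h1] at h'
  omega

/-- The zeros of two towers are matched at all good places. -/
def Matched (A B : Tw k r s J S₀) (l₁ j₁ N : ℕ) : Prop :=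
  ∀ Q : Plc k Ω, Q.VG S₀ 1 → Q.Loc A.b → Q.Loc B.b → Q.nz A.w l₁ = 0 → Q.nz B.w j₁ = 0 →
    ∀ t ≤ N + 1, Q.nz A.w (l₁ + t) = Q.nz B.w (j₁ + t)

theorem Matched.symm {A B : Tw k r s J S₀} {l₁ j₁ N : ℕ} (h : Matched A B l₁ j₁ N) :
    Matched B A j₁ l₁ N := fun Q h1 h2 h3 h4 h5 t ht => (h Q h1 h3 h2 h5 h4 t ht).symm

variable [IsAlgClosed k] [CharZero k] [IsAlgClosed Ω]

theorem matched (hDL : DLStmt) {Δ : ℕ} (A B : Tw k r s J S₀) (hr : 2 ≤ r) (hs : 2 ≤ s)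
    (h : r.Coprime s) (hB : Bs k S₀ Δ) {l₁ j₁ N : ℕ} (hl : l₁ + N < J) (hj : j₁ + N < J)
    (hp : ∀ t ≤ N, dl k S₀ A.w B.w (l₁ + t + 1) (j₁ + t + 1) ≠
          r * dl k S₀ A.w B.w (l₁ + t) (j₁ + t + 1) ∧
        dl k S₀ A.w B.w (l₁ + t + 1) (j₁ + t + 1) ≠ r * dl k S₀ A.w B.w (l₁ + t + 1) (j₁ + t)) :
    Matched A B l₁ j₁ N := by
  intro Q h1 h2 h3 h4 h5 t
  obtain ⟨-, hsym, hA, -⟩ := hDL k Ω r s J Δ S₀ A B hr hs h hB
  obtain ⟨-, -, hB', -⟩ := hDL k Ω r s J Δ S₀ B A hr hs h hB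
  induction t with
  | zero => exact fun _ => h4.trans h5.symm
  | succ t ih =>
    intro ht
    have h6 := ih (by omega)
    have h7 := Q.nz_succ A.w (l₁ + t)
    have h8 := Q.nz_succ B.w (j₁ + t)
    rw [← add_assoc, ← add_assoc]
    split_ifs at h7 h8 with a1 a2 a2
    · omega
    · exact absurd (hA Q h1 h2 h3 (l₁ + t) (by omega) (j₁ + t + 1) (by omega) (by omega) a1)
        (hp t (by omega)).1
    · refine absurd ?_ (hp t (by omega)).2
      rw [hsym, hsym]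
      exact hB' Q h1 h3 h2 (j₁ + t) (by omega) (l₁ + t + 1) (by omega) (by omega) a2
    · omega

theorem zeros_le_poles (hPF : PFStmt) {b : Ω} {P : Option k → Plc k Ω} (hP : Fam k b P)
    (hb : Algebra.IsAlgebraic (adjoin k {b}) Ω) {S : Subgroup (Ω ≃ₐ[k] Ω)} {n : ℕ}
    {γ : Fin n → Ω ≃ₐ[k] Ω} (hγ : IsAvg (Fix k {b}) S γ) {x : Ω} (hx : x ≠ 0)
    (hS : ∀ g ∈ S, g x = x) (T : Finset (k × Fin n)) : ∃ B : Finset (Option k),
      ∑ p ∈ T, (P (some p.1)).ord (γ p.2 x) ≤ ∑ β ∈ B, ∑ i, max (-(P β).ord (γ i x)) 0 := by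
  obtain ⟨B, hB, h0⟩ := (hPF k Ω).2.2.1 b P hP hb S n γ hγ x hx hS (T.image fun p => some p.1)
  refine ⟨B, ?_⟩
  have h1 : ∑ β ∈ B, ∑ i, max (-(P β).ord (γ i x)) 0 =
      ∑ β ∈ B, ∑ i, max ((P β).ord (γ i x)) 0 := by
    rw [← sub_eq_zero, ← sum_sub_distrib]
    refine Eq.trans ?_ (neg_eq_zero.2 h0)
    rw [← sum_neg_distrib]
    refine sum_congr rfl fun β _ => ?_
    rw [← sum_sub_distrib, ← sum_neg_distrib]
    refine sum_congr rfl fun i _ => ?_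
    rcases le_total ((P β).ord (γ i x)) 0 with h | h
    · rw [max_eq_left (by linarith), max_eq_right h, sub_zero]
    · rw [max_eq_right (by linarith), max_eq_left h, zero_sub]
  rw [h1, ← sum_product']
  calc ∑ p ∈ T, (P (some p.1)).ord (γ p.2 x)
      ≤ ∑ p ∈ T, max ((P (some p.1)).ord (γ p.2 x)) 0 := sum_le_sum fun p _ => le_max_left _ _
    _ = ∑ p ∈ T.image fun p => ((some p.1, p.2) : Option k × Fin n),
        max ((P p.1).ord (γ p.2 x)) 0 := by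
      rw [sum_image]
      intro p _ p' _ h
      simp only [Prod.mk.injEq, Option.some.injEq] at h
      exact Prod.ext h.1 h.2
    _ ≤ _ := by
      refine sum_le_sum_of_subset_of_nonneg (fun p hp => ?_) fun p _ _ => le_max_right _ _
      obtain ⟨p', hp', rfl⟩ := mem_image.1 hp
      exact mem_product.2 ⟨hB (mem_image_of_mem _ hp'), mem_univ _⟩

/-- The mass of the pairs (point, conjugate) with residues in a given set of chains. -/
theorem mass (hC : CntStmt) {Δ : ℕ} (A : Tw k r s J S₀) (hr : 2 ≤ r) (hs : 2 ≤ s)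
    (h : r.Coprime s) (hB : Bs k S₀ Δ) {P : Option k → Plc k Ω} (hP : Fam k A.b P)
    {S : Subgroup (Ω ≃ₐ[k] Ω)} {n : ℕ} {γ : Fin n → Ω ≃ₐ[k] Ω} (hγ : IsAvg (Fix k {A.b}) S γ)
    {len : ℕ} (hl : len ≤ J) (hS : S ≤ Fix k ({A.b} ∪ lv A.w len)) (Ch : Finset (ℕ → k))
    (hch : ∀ χ ∈ Ch, ∀ l < len, χ (l + 1) ^ r = χ l ^ s + A.c)
    (hext : ∀ χ ∈ Ch, ∀ χ' ∈ Ch, (∀ l ≤ len, χ l = χ' l) → χ = χ') :
    ∃ T : Finset (k × Fin n), (∀ p ∈ T, ∃ χ ∈ Ch, A.κ * p.1 = χ 0 ∧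
        ∀ l ≤ len, ((P (some p.1)).act (γ p.2)).Red (A.w l) (χ l)) ∧
      n * ∑ χ ∈ Ch, (s : ℝ) ^ ((Icc 1 len).filter fun l => χ l = 0).card ≤
        (r : ℝ) ^ len * ∑ p ∈ T, ((s : ℝ) / r) ^ ((P (some p.1)).act (γ p.2)).nz A.w len := by
  let X : (ℕ → k) → Finset (Fin n) := fun χ =>
    univ.filter fun x => ∀ l ≤ len, (P (some (χ 0 / A.κ))).Red (γ x (A.w l)) (χ l)
  have hκ := A.hκ
  refine ⟨(Ch.sigma X).image fun y => (y.1 0 / A.κ, y.2), fun p hp => ?_, ?_⟩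
  · obtain ⟨y, hy, rfl⟩ := mem_image.1 hp
    rw [mem_sigma] at hy
    exact ⟨y.1, hy.1, by field_simp, fun l hl =>
      (Plc.act_red _ _ _ _).2 ((mem_filter.1 hy.2).2 l hl)⟩
  rw [sum_image, sum_sigma, mul_sum, mul_sum]
  · refine sum_le_sum fun χ hχ => ?_
    have h1 := (hC k Ω r s J Δ S₀ A hr hs h hB (P (some (χ 0 / A.κ))) S n γ hγ len hl χ).1 hS
      (by
        have := (Plc.red_const A.κ).mul (Plc.red_of_ord (by rw [hP.2 (χ 0 / A.κ)]; exact one_pos))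
        rwa [← A.h0, mul_div_cancel₀ _ hκ] at this) (hch χ hχ)
    have h2 : ∀ x ∈ X χ, ((P (some (χ 0 / A.κ))).act (γ x)).nz A.w len =
        ((Icc 1 len).filter fun l => χ l = 0).card := fun x hx => by
      unfold Plc.nz
      congr 1
      refine filter_congr fun l hl => ?_
      exact (((mem_filter.1 hx).2 l (mem_Icc.1 hl).2).eq_zero_iff).symm
    rw [sum_congr rfl fun x hx => by rw [h2 x hx], sum_const, nsmul_eq_mul]
    have h3 : (n : ℝ) * (r : ℝ) ^ ((Icc 1 len).filter fun l => χ l = 0).card ≤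
        (X χ).card * (r : ℝ) ^ len := by exact_mod_cast h1
    have hr' : (0 : ℝ) < r := by positivity
    rw [div_pow, ← mul_assoc, mul_div_assoc', le_div_iff₀ (by positivity), mul_right_comm,
      mul_comm ((r : ℝ) ^ len)]
    exact mul_le_mul_of_nonneg_right h3 (by positivity)
  · rintro ⟨χ, x⟩ hy ⟨χ', x'⟩ hy' he
    simp only [coe_sigma, Set.mem_sigma_iff, mem_coe] at hy hy'
    simp only [Prod.mk.injEq] at he
    obtain ⟨h1, rfl⟩ := he
    obtain rfl : χ = χ' := hext χ hy.1 χ' hy'.1 fun l hl =>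
      ((mem_filter.1 hy.2).2 l hl).unique (h1 ▸ (mem_filter.1 hy'.2).2 l hl)
    rfl

end Pool.Agent.MP_09973c_nt.H31
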