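import Pool.Agent.MP_09973c_nt.H31.Long

/-!
The case `2 ≤ p < q` when `a` or `b` is not integral over the ring generated by `1 / (p q)`.
-/

set_option autoImplicit false

namespace Pool.Agent.MP_09973c_nt.H31

open Polynomial Finset IntermediateField

theorem WS_transfer {F₀ : Type} [Field F₀] [Algebra F₀ ℂ] {p q : ℕ} (hp : 0 < p) (hpq : p < q)
    (c ξ : algebraicClosure F₀ ℂ) (t : ℕ) :
    ∀ y ∈ WS p q (c : ℂ) (ξ : ℂ) t, ∃ y' ∈ WS p q c ξ t, (y' : ℂ) = y := by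
  induction t with
  | zero =>
    rintro y ⟨u, hu, rfl⟩
    have hmem : ∀ k, u k ∈ algebraicClosure F₀ ℂ := by
      intro k
      by_contra hk
      obtain ⟨V, hV, hxV⟩ := Subring.exists_le_valuationSubring_of_isIntegrallyClosedIn
        (x := u k) (R := (integralClosure F₀ ℂ).toSubring)
        (fun h => hk (mem_algebraicClosure_iff'.2 h))
      have h1 := chain_val_le V.valuation hpq hu k
      rw [max_eq_left ((V.valuation_le_one_iff _).2
        (hV (mem_algebraicClosure_iff'.1 c.2)))] at h1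
      exact hxV ((V.valuation_le_one_iff _).1
        ((pow_le_one_iff_of_nonneg zero_le (by omega)).1 h1))
    refine ⟨_, ⟨fun k => ⟨u k, hmem k⟩, ⟨fun k => Subtype.ext (by simpa using hu.1 k), ?_⟩, rfl⟩,
      by simp⟩
    refine (hu.2.preimage Subtype.val_injective.injOn).subset ?_
    rintro _ ⟨k, rfl⟩
    exact ⟨k, rfl⟩
  | succ t ih =>
    rintro y ⟨x, rfl, hx⟩
    obtain ⟨y', hy', h1⟩ := ih _ hx
    have h2 : x ∈ algebraicClosure F₀ ℂ := by
      refine mem_algebraicClosure_iff'.2 (IsIntegral.of_pow hp ?_)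
      have : x ^ p = ((y' - c : algebraicClosure F₀ ℂ) : ℂ) := by
        push_cast; rw [h1]; ring
      rw [this]
      exact mem_algebraicClosure_iff'.1 (y' - c).2
    refine ⟨⟨x, h2⟩ ^ q, ⟨_, rfl, ?_⟩, by simp⟩
    have : (⟨x, h2⟩ : algebraicClosure F₀ ℂ) ^ p + c = y' := Subtype.ext (by simp [h1])
    rwa [this]

theorem long_complex {F₀ Γ : Type} [Field F₀] [Algebra F₀ ℂ] [LinearOrderedCommGroupWithZero Γ]
    (ν : Valuation ℂ Γ) {g : Γ} (hg : 1 < g)
    (h₀ : ∀ z : F₀, z ≠ 0 → ∃ j : ℤ, ν (algebraMap F₀ ℂ z) = g ^ j) {p q : ℕ} (hp : 2 ≤ p)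
    (hpq : p < q) (h : p.Coprime q) (hνp : ν (p : ℂ) = 1) (hνq : ν (q : ℂ) = 1) {a b : ℂ}
    (haa : IsAlgebraic F₀ a) (hba : IsAlgebraic F₀ b) (ha : 1 < ν a) :
    ∃ T, ∀ (ξ ξ' y : ℂ) (t t' : ℕ), T ≤ t → ξ ^ p = 1 → ξ ≠ 1 → ξ' ^ p = 1 →
      (ξ' ≠ 1 ∨ t' = 0) → y ∈ WS p q a ξ t → y ∈ WS p q b ξ' t' → a = b := by
  let E := algebraicClosure F₀ ℂ
  have : IsAlgClosed E := IsAlgClosure.isAlgClosed F₀
  obtain ⟨T, hT⟩ := long_tail_eq (F₀ := F₀) (F := E) (ν.comap (algebraMap E ℂ)) hg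
    (fun z hz => h₀ z hz) hp hpq h (by simpa using hνp) (by simpa using hνq)
    (a := ⟨a, mem_algebraicClosure_iff.2 haa⟩) ⟨b, mem_algebraicClosure_iff.2 hba⟩ ha
  refine ⟨T, fun ξ ξ' y t t' ht hξ hξ1 hξ' hξ1' hy hy' => ?_⟩
  have hr : ∀ ξ : ℂ, ξ ^ p = 1 → ξ ∈ E := fun ξ hξ =>
    mem_algebraicClosure_iff'.2 (IsIntegral.of_pow (show 0 < p by omega) (hξ ▸ isIntegral_one))
  obtain ⟨y₁, h1, e1⟩ := WS_transfer (by omega) hpq ⟨a, mem_algebraicClosure_iff.2 haa⟩
    ⟨ξ, hr ξ hξ⟩ t y hy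
  obtain ⟨y₂, h2, e2⟩ := WS_transfer (by omega) hpq ⟨b, mem_algebraicClosure_iff.2 hba⟩
    ⟨ξ', hr ξ' hξ'⟩ t' y hy'
  obtain rfl : y₁ = y₂ := Subtype.ext (e1.trans e2.symm)
  exact congrArg Subtype.val (hT _ _ _ t t' ht (Subtype.ext (by simpa using hξ))
    (fun h0 => hξ1 (congrArg Subtype.val h0)) (Subtype.ext (by simpa using hξ'))
    (hξ1'.imp_left fun h1 h0 => h1 (congrArg Subtype.val h0)) h1 h2)

theorem finite_of_val {F₀ Γ : Type} [Field F₀] [Algebra F₀ ℂ] [LinearOrderedCommGroupWithZero Γ]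
    (ν : Valuation ℂ Γ) {g : Γ} (hg : 1 < g)
    (h₀ : ∀ z : F₀, z ≠ 0 → ∃ j : ℤ, ν (algebraMap F₀ ℂ z) = g ^ j) {p q : ℕ} (hp : 2 ≤ p)
    (hpq : p < q) (h : p.Coprime q) (hνp : ν (p : ℂ) = 1) (hνq : ν (q : ℂ) = 1) {a b : ℂ}
    (haa : IsAlgebraic F₀ a) (hba : IsAlgebraic F₀ b) (ha : 1 < ν a) (hab : a ≠ b) :
    {y | Constrained p q a y ∧ Constrained p q b y}.Finite := by
  refine finite_of_finite_coe ?_
  have hp0 : 0 < p := by omega
  have hq0 : 0 < q := by omega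
  by_cases hb : 1 < ν b
  · obtain ⟨T, hT⟩ := long_complex ν hg h₀ hp hpq h hνp hνq haa hba ha
    obtain ⟨T', hT'⟩ := long_complex ν hg h₀ hp hpq h hνp hνq hba haa hb
    refine (Ty_inter_finite hp hpq h hab (T + T')).subset ?_
    rintro y ⟨h1, h2⟩
    obtain ⟨_, ξ, t, hξ, hξ1, -, hy⟩ := exists_mem_Ty hp0 hq0 h1
    obtain ⟨_, ξ', t', hξ', hξ1', -, hy'⟩ := exists_mem_Ty hp0 hq0 h2
    refine ⟨⟨ξ, t, hξ, hξ1, not_lt.1 fun hlt => ?_, hy⟩, ξ', t', hξ', hξ1',
      not_lt.1 fun hlt => ?_, hy'⟩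
    · exact hab (hT ξ ξ' y t t' (by omega) hξ (hξ1.resolve_right (by omega)) hξ' hξ1' hy hy')
    · exact hab (hT' ξ' ξ y t' t (by omega) hξ' (hξ1'.resolve_right (by omega)) hξ hξ1 hy' hy).symm
  · refine Set.finite_empty.subset ?_
    rintro y ⟨h1, h2⟩
    obtain ⟨_, ξ, t, hξ, hξ1, -, hy⟩ := exists_mem_Ty hp0 hq0 h1
    obtain ⟨_, ξ', t', hξ', -, -, hy'⟩ := exists_mem_Ty hp0 hq0 h2
    have h3 := WS_val_le_one ν hp0 hpq (not_lt.1 hb) hξ' t' y hy'
    refine absurd (ha.trans_le ?_) (not_lt.2 h3)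
    rcases hξ1 with h4 | rfl
    · exact (WS_val ν hp0 hpq hνp ha hξ h4 t y hy).1
    · exact (WS_val_zero ν hp0 hpq ha hξ hy).ge

theorem val_unit {F Γ : Type} [Field F] [LinearOrderedCommGroupWithZero Γ] (ν : Valuation F Γ)
    {x y : F} (hx : ν x ≤ 1) (hy : ν y ≤ 1) (h : x * y = 1) : ν x = 1 := by
  refine le_antisymm hx ?_
  calc 1 = ν x * ν y := by rw [← map_mul, h, map_one]
    _ ≤ ν x := mul_le_of_le_one_right' hy

theorem finite_of_transcendental {k : Type} [Field k] [Algebra k ℂ] {p q : ℕ} (hp : 2 ≤ p)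
    (hpq : p < q) (h : p.Coprime q) {a b : ℂ} (ha : Transcendental k a)
    (hb : IsAlgebraic k⟮a⟯ b) (hab : a ≠ b) :
    {y | Constrained p q a y ∧ Constrained p q b y}.Finite := by
  obtain ⟨V, hV, haV⟩ := Subring.exists_le_valuationSubring_of_isIntegrallyClosedIn
    (x := a) (R := (integralClosure k ℂ).toSubring) (fun h => ha (IsIntegral.isAlgebraic h))
  have h1 : ∀ c : k, V.valuation (algebraMap k ℂ c) ≤ 1 := fun c =>
    (V.valuation_le_one_iff _).2 (hV ((integralClosure k ℂ).algebraMap_mem c))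
  have h2 : ∀ c : k, c ≠ 0 → V.valuation (algebraMap k ℂ c) = 1 := fun c hc =>
    val_unit _ (h1 c) (h1 c⁻¹) (by rw [← map_mul, mul_inv_cancel₀ hc, map_one])
  have hg : 1 < V.valuation a := not_le.1 fun h => haV ((V.valuation_le_one_iff _).1 h)
  have h3 : ∀ f : k[X], f ≠ 0 → V.valuation (aeval a f) = V.valuation a ^ f.natDegree := by
    intro f hf
    have h4 : V.valuation (f.coeff f.natDegree • a ^ f.natDegree)
        = V.valuation a ^ f.natDegree := by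
      rw [Algebra.smul_def, map_mul, h2 (f.coeff f.natDegree) (leadingCoeff_ne_zero.2 hf), one_mul, map_pow]
    rw [aeval_eq_sum_range, sum_range_succ, Valuation.map_add_eq_of_lt_right, h4]
    rw [h4]
    refine Valuation.map_sum_lt _ (pow_ne_zero _ (zero_lt_one.trans hg).ne') fun i hi => ?_
    rw [Algebra.smul_def, map_mul, map_pow]
    exact (mul_le_of_le_one_left' (h1 _)).trans_lt (pow_lt_pow_right₀ hg (mem_range.1 hi))
  have hnat : ∀ n : ℕ, n ≠ 0 → V.valuation (n : ℂ) = 1 := fun n hn => by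
    have : (n : k) ≠ 0 := fun h0 => by
      have := congrArg (algebraMap k ℂ) h0
      rw [map_natCast, map_zero] at this
      exact hn (by exact_mod_cast this)
    simpa using h2 n this
  refine finite_of_val (F₀ := k⟮a⟯) V.valuation hg (fun z hz => ?_) hp hpq h (hnat p (by omega))
    (hnat q (by omega)) (isAlgebraic_algebraMap (⟨a, mem_adjoin_simple_self k a⟩ : k⟮a⟯)) hb hg hab
  obtain ⟨f, f', he⟩ := (mem_adjoin_simple_iff k (z : ℂ)).1 z.2
  have hz' : (z : ℂ) ≠ 0 := fun h0 => hz (Subtype.ext h0)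
  rw [he, div_ne_zero_iff] at hz'
  refine ⟨(f.natDegree : ℤ) - f'.natDegree, ?_⟩
  change V.valuation (z : ℂ) = _
  rw [he, map_div₀, h3 f (by rintro rfl; simp at hz'), h3 f' (by rintro rfl; simp at hz'),
    zpow_sub₀ (zero_lt_one.trans hg).ne', zpow_natCast, zpow_natCast]

theorem finite_of_algebraic {p q : ℕ} (hp : 2 ≤ p) (hpq : p < q) (h : p.Coprime q) {a b : ℂ}
    (haa : IsAlgebraic ℚ a) (hba : IsAlgebraic ℚ b)
    (ha : ¬ IsIntegral (Subring.closure {((p * q : ℕ) : ℂ)⁻¹}) a) (hab : a ≠ b) :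
    {y | Constrained p q a y ∧ Constrained p q b y}.Finite := by
  obtain ⟨V, hV, haV⟩ := Subring.exists_le_valuationSubring_of_isIntegrallyClosedIn
    (x := a) (R := (integralClosure (Subring.closure {((p * q : ℕ) : ℂ)⁻¹}) ℂ).toSubring) ha
  have hint : ∀ n : ℤ, V.valuation (n : ℂ) ≤ 1 := fun n =>
    (V.valuation_le_one_iff _).2 (intCast_mem V n)
  have hnat : ∀ n : ℕ, V.valuation (n : ℂ) ≤ 1 := fun n => by simp
  have hinv : V.valuation ((p * q : ℕ) : ℂ)⁻¹ ≤ 1 := (V.valuation_le_one_iff _).2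
    (hV ((integralClosure (Subring.closure {((p * q : ℕ) : ℂ)⁻¹}) ℂ).algebraMap_mem
      ⟨_, Subring.subset_closure rfl⟩))
  have hp' : (p : ℂ) ≠ 0 := by exact_mod_cast (show p ≠ 0 by omega)
  have hq' : (q : ℂ) ≠ 0 := by exact_mod_cast (show q ≠ 0 by omega)
  have hνp : V.valuation (p : ℂ) = 1 := val_unit _ (hnat p) (y := q * ((p * q : ℕ) : ℂ)⁻¹)
    (by rw [map_mul]; exact mul_le_one' (hnat q) hinv) (by push_cast; field_simp)
  have hνq : V.valuation (q : ℂ) = 1 := val_unit _ (hnat q) (y := p * ((p * q : ℕ) : ℂ)⁻¹)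
    (by rw [map_mul]; exact mul_le_one' (hnat p) hinv) (by push_cast; field_simp)
  have hva : 1 < V.valuation a := not_le.1 fun h => haV ((V.valuation_le_one_iff _).1 h)
  have hrat : ∀ z : ℚ, V.valuation (algebraMap ℚ ℂ z)
      = V.valuation (z.num.natAbs : ℂ) / V.valuation (z.den : ℂ) := by
    intro z
    have : V.valuation (z.num.natAbs : ℂ) = V.valuation (z.num : ℂ) := by
      rcases Int.natAbs_eq z.num with h1 | h1
      · rw [h1]; simp
      · rw [h1]; simp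
    rw [this, ← map_div₀, eq_ratCast, Rat.cast_def]
  obtain ⟨l, hl, hνl⟩ : ∃ l : ℕ, l.Prime ∧ V.valuation (l : ℂ) < 1 := by
    by_contra hcon
    push Not at hcon
    have h1 : ∀ n : ℕ, n ≠ 0 → V.valuation (n : ℂ) = 1 := by
      intro n
      induction n using induction_on_primes with
      | zero => simp
      | one => simp
      | prime_mul l n hl ih =>
        intro hn
        rw [Nat.cast_mul, map_mul, ih (right_ne_zero_of_mul hn),
          le_antisymm (hnat l) (hcon l hl), one_mul]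
    have h2 : ∀ z : ℚ, algebraMap ℚ ℂ z ∈ V := fun z => by
      rw [← V.valuation_le_one_iff, hrat, h1 _ z.den_nz, div_one]
      exact hnat _
    let _ : Algebra ℚ V := ((algebraMap ℚ ℂ).codRestrict V h2).toAlgebra
    have : IsScalarTower ℚ V ℂ := IsScalarTower.of_algebraMap_eq fun _ => rfl
    obtain ⟨y, hy⟩ := (IsIntegrallyClosed.isIntegral_iff (R := V) (K := ℂ)).1
      (haa.isIntegral.tower_top)
    exact haV (hy ▸ y.2)
  have hl0 : V.valuation (l : ℂ) ≠ 0 :=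
    V.valuation.ne_zero_iff.2 (by exact_mod_cast hl.ne_zero)
  have h1 : ∀ n : ℕ, n ≠ 0 → ∃ e : ℕ, V.valuation (n : ℂ) = V.valuation (l : ℂ) ^ e := by
    intro n hn
    obtain ⟨e, m, hm, rfl⟩ := Nat.exists_eq_pow_mul_and_not_dvd hn l hl.one_lt.ne'
    refine ⟨e, ?_⟩
    have h2 : V.valuation (m : ℂ) = 1 := by
      refine le_antisymm (hnat m) (not_lt.1 fun hlt => ?_)
      obtain ⟨x, y, hxy⟩ := Nat.isCoprime_iff_coprime.2 (hl.coprime_iff_not_dvd.2 hm)
      have h3 : (1 : ℂ) = x * l + y * m := by exact_mod_cast congrArg (Int.cast : ℤ → ℂ) hxy.symm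
      have h4 : V.valuation (x * l + y * m : ℂ) < 1 := by
        refine V.valuation.map_add_lt ?_ ?_
        · rw [map_mul]; exact (mul_le_of_le_one_left' (hint x)).trans_lt hνl
        · rw [map_mul]; exact (mul_le_of_le_one_left' (hint y)).trans_lt hlt
      rw [← h3, map_one] at h4
      exact lt_irrefl _ h4
    rw [Nat.cast_mul, Nat.cast_pow, map_mul, map_pow, h2, mul_one]
  refine finite_of_val (F₀ := ℚ) V.valuation (g := (V.valuation (l : ℂ))⁻¹)
    ((one_lt_inv₀ (zero_lt_iff.2 hl0)).2 hνl) (fun z hz => ?_) hp hpq h hνp hνq haa hba hva hab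
  obtain ⟨e, he⟩ := h1 z.num.natAbs (by simpa using hz)
  obtain ⟨e', he'⟩ := h1 z.den z.den_nz
  refine ⟨(e' : ℤ) - e, ?_⟩
  rw [hrat, he, he', inv_zpow', neg_sub, zpow_sub₀ hl0, zpow_natCast, zpow_natCast]

theorem finite_of_not_integral {p q : ℕ} (hp : 2 ≤ p) (hpq : p < q) (h : p.Coprime q) {a b : ℂ}
    (ha : ¬ IsIntegral (Subring.closure {((p * q : ℕ) : ℂ)⁻¹}) a) (hab : a ≠ b) :
    {y | Constrained p q a y ∧ Constrained p q b y}.Finite := by
  by_cases h1 : IsAlgebraic ℚ⟮b⟯ a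
  · by_cases h2 : IsAlgebraic ℚ⟮a⟯ b
    · by_cases h3 : IsAlgebraic ℚ a
      · have : Algebra.IsAlgebraic ℚ ℚ⟮a⟯ := isAlgebraic_adjoin_simple h3.isIntegral
        exact finite_of_algebraic hp hpq h h3 (h2.restrictScalars ℚ) ha hab
      · exact finite_of_transcendental hp hpq h h3 h2 hab
    · have := finite_of_transcendental (k := ℚ⟮a⟯) (a := b) (b := a) hp hpq h h2
        (isAlgebraic_algebraMap (algebraMap ℚ⟮a⟯ _ ⟨a, mem_adjoin_simple_self ℚ a⟩)) hab.symm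
      simpa only [and_comm] using this
  · exact finite_of_transcendental (k := ℚ⟮b⟯) hp hpq h h1
      (isAlgebraic_algebraMap (algebraMap ℚ⟮b⟯ _ ⟨b, mem_adjoin_simple_self ℚ b⟩)) hab

theorem constrained_of_reaches {p q : ℕ} {c : ℂ} {n : ℕ} {y : OnePoint ℂ}
    (h : ReachesCycleWithin p q c n y) : Constrained p q c y := by
  obtain ⟨path, h0, he, i, j, -, hij, hc⟩ := h
  have h1 : ∀ z ∈ path '' Set.Iio j, ∃ z' ∈ path '' Set.Iio j, Edge p q c z z' := by
    rintro _ ⟨k, hk, rfl⟩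
    refine ⟨path (k + 1), ?_, he k⟩
    rcases Nat.eq_or_lt_of_le (Nat.succ_le_of_lt hk) with h2 | h2
    · exact ⟨i, hij, by rw [hc, ← h2]⟩
    · exact ⟨k + 1, h2, rfl⟩
  choose! f hf1 hf2 using h1
  have hm : ∀ k, f^[k] y ∈ path '' Set.Iio j := by
    intro k
    induction k with
    | zero => exact ⟨0, show 0 < j by omega, h0⟩
    | succ k ih => rw [Function.iterate_succ_apply']; exact hf1 _ ih
  refine ⟨fun k => f^[k] y, rfl, fun k => ?_,
    ((Set.finite_Iio j).image path).subset (by rintro _ ⟨k, rfl⟩; exact hm k)⟩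
  simp only [Function.iterate_succ_apply']
  exact hf2 _ (hm k)

end Pool.Agent.MP_09973c_nt.H31
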