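import Pool.Agent.MP_09973c_nt.H31.Tower

/-!
The fibres of a tower over a generic point, and the one-sided determinant inequality.
-/

set_option autoImplicit false

namespace Pool.Agent.MP_09973c_nt.H31

open Polynomial Finset

def cons0 {A : Type} (x : A) (v : ℕ → A) : ℕ → A := fun k => Nat.casesOn k x v

@[simp] theorem cons0_zero {A : Type} (x : A) (v : ℕ → A) : cons0 x v 0 = x := rfl

@[simp] theorem cons0_succ {A : Type} (x : A) (v : ℕ → A) (k : ℕ) : cons0 x v (k + 1) = v k := rfl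

theorem isPath_cons0 {A : Type} [CommRing A] {r s : ℕ → ℕ} {α β : ℕ → A} {n : ℕ} {x : A}
    {v : ℕ → A} (hx : x ^ r 0 = α 0 * v 0 ^ s 0 + β 0)
    (hv : IsPath (fun k => r (k + 1)) (fun k => s (k + 1)) (fun k => α (k + 1))
      (fun k => β (k + 1)) n v) : IsPath r s α β (n + 1) (cons0 x v) := by
  intro k hk
  cases k with
  | zero => exact hx
  | succ k => exact hv k (by omega)

theorem bas_cons {A : Type} [CommRing A] {r : ℕ → ℕ} {n : ℕ} (a : Fin (r 0))
    (l : Idx (fun k => r (k + 1)) n) (x : A) (v : ℕ → A) :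
    bas (r := r) (n := n + 1) (Fin.consEquiv (fun k : Fin (n + 1) => Fin (r k)) (a, l))
      (cons0 x v) = x ^ (a : ℕ) * bas l v := by
  unfold bas
  rw [Fin.prod_univ_succ]
  rfl

theorem sum_Idx_succ {M : Type} [AddCommMonoid M] {r : ℕ → ℕ} {n : ℕ} (f : Idx r (n + 1) → M) :
    ∑ l, f l = ∑ a : Fin (r 0), ∑ l : Idx (fun k => r (k + 1)) n,
      f (Fin.consEquiv (fun k : Fin (n + 1) => Fin (r k)) (a, l)) := by
  rw [← (Fin.consEquiv (fun k : Fin (n + 1) => Fin (r k))).sum_comp, Fintype.sum_prod_type]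
  rfl

theorem prod_Idx_succ {M : Type} [CommMonoid M] {r : ℕ → ℕ} {n : ℕ} (f : Idx r (n + 1) → M) :
    ∏ l, f l = ∏ l : Idx (fun k => r (k + 1)) n, ∏ a : Fin (r 0),
      f (Fin.consEquiv (fun k : Fin (n + 1) => Fin (r k)) (a, l)) := by
  rw [← (Fin.consEquiv (fun k : Fin (n + 1) => Fin (r k))).prod_comp, Fintype.prod_prod_type_right]
  rfl

theorem prod_rot {r : ℕ} (hr : 2 ≤ r) {ζ : ℂ} (hζ : IsPrimitiveRoot ζ r) (w : ℂ) (ε : ℝ)
    (hε : ε ≤ 1) (hw : ‖w‖ ≤ ε) : (1 - ε ^ 2) ^ r ≤ ∏ a : Fin r, ‖ζ ^ (a : ℕ) * w + 1‖ := by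
  have h := congrArg (eval 1) (X_pow_sub_C_eq_prod hζ (α := -w) (by omega) rfl)
  simp only [eval_sub, eval_pow, eval_X, one_pow, eval_C, eval_prod] at h
  have h0 : 0 ≤ ε := (norm_nonneg _).trans hw
  rw [← norm_prod, Fin.prod_univ_eq_prod_range (fun a => ζ ^ a * w + 1) r]
  have h2 : ∏ a ∈ range r, (ζ ^ a * w + 1) = 1 - (-w) ^ r := by
    rw [h]; exact prod_congr rfl fun a _ => by ring
  rw [h2]
  have h3 : ‖(-w) ^ r‖ ≤ ε ^ 2 := by
    rw [norm_pow, norm_neg]
    exact (pow_le_pow_left₀ (norm_nonneg _) hw r).trans (pow_le_pow_of_le_one h0 hε hr)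
  have h4 : 1 - ε ^ 2 ≤ ‖1 - (-w) ^ r‖ := by
    have := norm_sub_norm_le (1 : ℂ) ((-w) ^ r)
    rw [norm_one] at this
    linarith
  have h5 : 0 ≤ 1 - ε ^ 2 := by nlinarith
  exact (pow_le_of_le_one h5 (by nlinarith) (by omega)).trans h4

theorem leaves (n : ℕ) : ∀ (r s : ℕ → ℕ) (α β : ℕ → ℂ), (∀ k, 0 < r k) → ∀ c : ℂ,
    (∀ v, IsPath r s α β n v → v n = c → ∀ k < n, v k ≠ 0) →
    ∃ Q : Idx r n → ℕ → ℂ, (∀ j, IsPath r s α β n (Q j) ∧ Q j n = c) ∧
      (∀ g : Idx r n → ℂ, (∀ j, ∑ l, g l * bas l (Q j) = 0) → g = 0) ∧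
      (0 < n → 2 ≤ r 0 → ∀ (m : ℕ) (μ : ℂ) (ε : ℝ), m.Coprime (r 0) → ε ≤ 1 →
        (∀ j, ‖μ * Q j 0 ^ m‖ ≤ ε) → (1 - ε ^ 2) ^ lam r n ≤ ∏ j, ‖μ * Q j 0 ^ m + 1‖) := by
  induction n with
  | zero =>
    intro r s α β hr c _
    refine ⟨fun _ _ => c, fun j => ⟨fun k hk => absurd hk (by omega), rfl⟩, fun g hg => ?_,
      fun h => absurd h (by omega)⟩
    funext l
    have := hg l
    rw [Fintype.sum_unique] at this
    simp only [bas, univ_eq_empty, prod_empty, mul_one] at this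
    rw [Subsingleton.elim l default]
    exact this
  | succ n ih =>
    intro r s α β hr c hc
    have hroot : ∀ u : ℂ, ∃ z, z ^ r 0 = u := fun u => IsAlgClosed.exists_pow_nat_eq u (hr 0)
    choose ρ hρ using hroot
    obtain ⟨Q', hQ', hinj, -⟩ := ih (fun k => r (k + 1)) (fun k => s (k + 1)) (fun k => α (k + 1))
      (fun k => β (k + 1)) (fun k => hr (k + 1)) c (fun v hv hvn k hk =>
        hc (cons0 (ρ (α 0 * v 0 ^ s 0 + β 0)) v) (isPath_cons0 (hρ _) hv) hvn (k + 1) (by omega))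
    have hω := Complex.isPrimitiveRoot_exp (r 0) (hr 0).ne'
    set ω := Complex.exp (2 * Real.pi * Complex.I / (r 0 : ℕ))
    let z : Idx (fun k => r (k + 1)) n → ℂ := fun j => ρ (α 0 * Q' j 0 ^ s 0 + β 0)
    have hz : ∀ j, z j ≠ 0 := fun j =>
      hc (cons0 (z j) (Q' j)) (isPath_cons0 (hρ _) (hQ' j).1) (hQ' j).2 0 (by omega)
    let e := Fin.consEquiv (fun k : Fin (n + 1) => Fin (r k))
    let Q : Idx r (n + 1) → ℕ → ℂ := fun j =>
      cons0 (ω ^ ((e.symm j).1 : ℕ) * z (e.symm j).2) (Q' (e.symm j).2)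
    have hQe : ∀ (a : Fin (r 0)) (j : Idx (fun k => r (k + 1)) n),
        Q (e (a, j)) = cons0 (ω ^ (a : ℕ) * z j) (Q' j) := by
      intro a j
      simp only [Q]
      rw [e.symm_apply_apply]
    refine ⟨Q, fun j => ⟨isPath_cons0 ?_ (hQ' _).1, (hQ' _).2⟩, fun g hg => ?_,
      fun _ hr2 m μ ε hm hε hb => ?_⟩
    · rw [mul_pow, ← pow_mul, mul_comm _ (r 0), pow_mul, hω.pow_eq_one, one_pow, one_mul]
      exact hρ _
    · have h1 : ∀ (a : Fin (r 0)) (j : Idx (fun k => r (k + 1)) n),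
          ∑ l : Idx (fun k => r (k + 1)) n, g (e (a, l)) * bas l (Q' j) = 0 := by
        intro a j
        have := Matrix.eq_zero_of_forall_index_sum_mul_pow_eq_zero
          (f := fun i : Fin (r 0) => ω ^ (i : ℕ) * z j)
          (v := fun a : Fin (r 0) =>
            ∑ l : Idx (fun k => r (k + 1)) n, g (e (a, l)) * bas l (Q' j))
          (fun i i' h => Fin.ext (hω.pow_inj i.2 i'.2 (mul_right_cancel₀ (hz j) h)))
          (fun i => by
            have h2 := hg (e (i, j))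
            rw [sum_Idx_succ, hQe] at h2
            rw [← h2]
            refine sum_congr rfl fun a _ => ?_
            rw [sum_mul]
            refine sum_congr rfl fun l _ => ?_
            rw [bas_cons]
            ring)
        exact congrFun this a
      funext l
      obtain ⟨⟨a, l'⟩, rfl⟩ := e.surjective l
      exact congrFun (hinj (fun l => g (e (a, l))) (h1 a)) l'
    · rw [prod_Idx_succ]
      have hl : lam r (n + 1) = r 0 * lam (fun k => r (k + 1)) n := by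
        unfold lam; rw [prod_range_succ', mul_comm]
      rw [hl, pow_mul, ← card_Idx, ← card_univ, ← prod_const]
      have h0 : 0 ≤ ε := (norm_nonneg _).trans (hb fun k => ⟨0, hr k⟩)
      refine prod_le_prod (fun _ _ => pow_nonneg (by nlinarith) _) fun j _ => ?_
      have hb' := hb (e (⟨0, hr 0⟩, j))
      rw [hQe] at hb'
      simp only [cons0_zero, pow_zero, one_mul] at hb'
      refine (prod_rot hr2 (hω.pow_of_coprime m hm) _ ε hε hb').trans (le_of_eq ?_)
      refine prod_congr rfl fun a _ => ?_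
      have := hQe a j
      simp only [e] at this
      rw [this, cons0_zero]
      congr 1
      ring

/-- Lower bound for the norm of `ψ ^ J` over the point `0`. -/
theorem norm_lower {r s : ℕ → ℕ} {α β : ℕ → ℂ} {n : ℕ} (hr : ∀ k, 0 < r k) (hs : ∀ k, 0 < s k)
    (hα : ∀ k, α k ≠ 0) (hn : 0 < n) (hr2 : 2 ≤ r 0) {m J : ℕ} (hm : m.Coprime (r 0)) (μ : ℂ)
    {ε : ℝ} (hε : ε ≤ 1)
    (hleaf : ∀ v, IsPath r s α β n v → ‖v n‖ ≤ 1 → ‖μ * v 0 ^ m‖ ≤ ε)
    (M : Matrix (Idx r n) (Idx r n) ℂ[X])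
    (hM : ∀ v, IsPath r s α β n v → ∀ l,
      (μ * v 0 ^ m + 1) ^ J * bas l v = ∑ l', (M l l').eval (v n) * bas l' v) :
    ((1 - ε ^ 2) ^ lam r n) ^ J ≤ ‖M.det.eval 0‖ := by
  classical
  have hfin := finite_bad (r := r) (β := β) hs hα n
  have hgen : ∀ c : ℂ, ‖c‖ ≤ 1 → (∀ v, IsPath r s α β n v → v n = c → ∀ k < n, v k ≠ 0) →
      ((1 - ε ^ 2) ^ lam r n) ^ J ≤ ‖M.det.eval c‖ := by
    intro c hc1 hc
    obtain ⟨Q, hQ, hinj, hprod⟩ := leaves n r s α β hr c hc
    have hb : ∀ j, ‖μ * Q j 0 ^ m‖ ≤ ε := fun j => hleaf _ (hQ j).1 (by rw [(hQ j).2]; exact hc1)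
    have h1 := hprod hn hr2 m μ ε hm hε hb
    let E : Matrix (Idx r n) (Idx r n) ℂ := Matrix.of fun l j => bas l (Q j)
    have hE : E.det ≠ 0 := by
      intro h0
      obtain ⟨g, hg, hgE⟩ := Matrix.exists_vecMul_eq_zero_iff.2 h0
      refine hg (hinj g fun j => ?_)
      simpa [Matrix.vecMul, dotProduct, E] using congrFun hgE j
    have hmat : (evalRingHom c).mapMatrix M * E
        = E * Matrix.diagonal fun j => (μ * Q j 0 ^ m + 1) ^ J := by
      ext l j
      rw [Matrix.mul_diagonal, Matrix.mul_apply]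
      simp only [E, Matrix.of_apply, RingHom.mapMatrix_apply, Matrix.map_apply, coe_evalRingHom]
      rw [mul_comm, hM _ (hQ j).1 l, (hQ j).2]
    have hdet := congrArg Matrix.det hmat
    rw [Matrix.det_mul, Matrix.det_mul, Matrix.det_diagonal, mul_comm, ← RingHom.map_det] at hdet
    have h2 : M.det.eval c = ∏ j, (μ * Q j 0 ^ m + 1) ^ J := mul_left_cancel₀ hE hdet
    rw [h2, prod_pow, norm_pow, norm_prod]
    have h0 : 0 ≤ ε := (norm_nonneg _).trans (hb fun k => ⟨0, hr k⟩)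
    exact pow_le_pow_left₀ (pow_nonneg (by nlinarith) _) h1 J
  have hcont : Filter.Tendsto (fun c => ‖M.det.eval c‖) (nhdsWithin 0 {0}ᶜ)
      (nhds ‖M.det.eval 0‖) :=
    (M.det.continuous.norm.tendsto 0).mono_left nhdsWithin_le_nhds
  refine ge_of_tendsto hcont ?_
  have h1 : ∀ᶠ c in nhdsWithin (0 : ℂ) {0}ᶜ, ‖c‖ ≤ 1 :=
    nhdsWithin_le_nhds (by
      filter_upwards [Metric.closedBall_mem_nhds (0 : ℂ) one_pos] with c hc using by simpa using hc)
  have h2 : ∀ᶠ c in nhdsWithin (0 : ℂ) {0}ᶜ,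
      c ∉ {c | ¬ ∀ v, IsPath r s α β n v → v n = c → ∀ k < n, v k ≠ 0} := by
    have h3 := (hfin.subset (Set.sdiff_subset (t := {0}))).isClosed.isOpen_compl.mem_nhds
      (x := (0 : ℂ)) (by simp)
    filter_upwards [nhdsWithin_le_nhds h3, self_mem_nhdsWithin] with c hc hc0
    intro h
    exact hc ⟨h, hc0⟩
  filter_upwards [h1, h2] with c hc1 hc2
  exact hgen c hc1 (not_not.1 hc2)

/-- The evaluation matrix of the normal monomials of layer below `T` at `T * lam r n` points. -/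
def evMat {A : Type} [CommRing A] (r : ℕ → ℕ) (n T : ℕ) (P : Fin T × Idx r n → ℕ → A) :
    Matrix (Fin T × Idx r n) (Fin T × Idx r n) A :=
  Matrix.of fun k i => P i n ^ (k.1 : ℕ) * bas k.2 (P i)

theorem norm_det_le {ι : Type} [Fintype ι] [DecidableEq ι] (W : Matrix ι ι ℂ) (B : ℝ)
    (h : ∀ i j, ‖W i j‖ ≤ B) :
    ‖W.det‖ ≤ (Fintype.card ι).factorial * B ^ Fintype.card ι := by
  have := Matrix.det_le (A := W) (abv := NormedField.toAbsoluteValue ℂ) (x := B) h
  rwa [nsmul_eq_mul] at this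

theorem one_side {r s : ℕ → ℕ} {α β : ℕ → ℂ} {n : ℕ} (hr : ∀ k, 0 < r k) (hs : ∀ k, 0 < s k)
    (hα : ∀ k, α k ≠ 0) (hn : 0 < n) (hr2 : 2 ≤ r 0) {m J T₁ T' : ℕ} (hm : m.Coprime (r 0))
    (hw : m * J * wt r s n 0 + ∑ k ∈ range n, (r k - 1) * wt r s n k < (T' + 1) * lam r n)
    (μ : ℂ) {ε B : ℝ} (hε0 : 0 ≤ ε) (hε : ε < 1)
    (hleaf : ∀ v, IsPath r s α β n v → ‖v n‖ ≤ 1 → ‖μ * v 0 ^ m‖ ≤ ε)
    (P : Fin (T₁ + T') × Idx r n → ℕ → ℂ) (hP : ∀ i, IsPath r s α β n (P i))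
    (hPε : ∀ i, ‖μ * P i 0 ^ m‖ ≤ ε) (hB : ∀ k i, ‖evMat r n _ P k i‖ ≤ B) :
    ‖(evMat r n _ P).det‖ * (((1 - ε ^ 2) ^ lam r n) ^ J) ^ T₁ * (((1 - ε) ^ J) ^ lam r n) ^ T'
      ≤ (∏ i, ‖μ * P i 0 ^ m + 1‖) ^ J *
        (((T₁ + T') * lam r n).factorial * B ^ ((T₁ + T') * lam r n)) := by
  classical
  choose M hMd hM using fun l => NF_psi (s := s) (α := α) (β := β) hr T' m J μ hw l
  have hM' : ∀ v, IsPath r s α β n v → ∀ l,
      (μ * v 0 ^ m + 1) ^ J * bas l v = ∑ l', (M l l').eval (v n) * bas l' v := by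
    intro v hv l
    have := hM l ℂ v hv
    rw [map_mul, aeval_bas] at this
    simpa using this
  have hlow := norm_lower hr hs hα hn hr2 hm μ hε.le hleaf (Matrix.of M) hM'
  let A : Matrix (Fin (T₁ + T') × Idx r n) (Fin (T₁ + T') × Idx r n) ℂ := Matrix.of fun k k' =>
    if (k.1 : ℕ) < T₁ then (X ^ (k.1 : ℕ) * M k.2 k'.2).coeff k'.1 else if k = k' then 1 else 0
  have hAt : A.BlockTriangular Prod.fst := by
    intro k k' h
    have h' : (k'.1 : ℕ) < k.1 := h
    simp only [A, Matrix.of_apply]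
    split_ifs with h1 h2
    · rw [coeff_X_pow_mul', if_neg (by omega)]
    · subst h2; omega
    · rfl
  have hdetA : A.det = ((Matrix.of M).det.eval 0) ^ T₁ := by
    rw [hAt.det_fintype]
    have : ∀ i : Fin (T₁ + T'), (A.toSquareBlock Prod.fst i).det
        = if (i : ℕ) < T₁ then (Matrix.of M).det.eval 0 else 1 := by
      intro i
      let e : Idx r n ≃ {a : Fin (T₁ + T') × Idx r n // a.1 = i} :=
        ⟨fun l => ⟨(i, l), rfl⟩, fun a => a.1.2, fun _ => rfl, by rintro ⟨⟨_, _⟩, rfl⟩; rfl⟩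
      rw [← Matrix.det_submatrix_equiv_self e]
      split_ifs with h
      · rw [← coe_evalRingHom, RingHom.map_det]
        congr 1
        ext l l'
        simp [A, e, Matrix.toSquareBlock_def, h, coeff_X_pow_mul', coeff_zero_eq_eval_zero]
      · rw [← Matrix.det_one (n := Idx r n)]
        congr 1
        ext l l'
        simp [A, e, Matrix.toSquareBlock_def, h, Matrix.one_apply]
    simp_rw [this]
    rw [Fin.prod_univ_add]
    simp
  have hψ : ∀ i, 1 - ε ≤ ‖μ * P i 0 ^ m + 1‖ := by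
    intro i
    have := norm_sub_norm_le (1 : ℂ) (-(μ * P i 0 ^ m))
    rw [norm_one, norm_neg, sub_neg_eq_add, add_comm] at this
    linarith [hPε i]
  have hψ0 : ∀ i, μ * P i 0 ^ m + 1 ≠ 0 := fun i h => by
    have := hψ i; rw [h, norm_zero] at this; linarith
  let ρ : Fin (T₁ + T') × Idx r n → ℂ := fun k => if (k.1 : ℕ) < T₁ then 1 else ((1 - ε : ℝ) ^ J)
  let W : Matrix (Fin (T₁ + T') × Idx r n) (Fin (T₁ + T') × Idx r n) ℂ := Matrix.of fun k i =>
    if (k.1 : ℕ) < T₁ then evMat r n _ P k i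
    else ((1 - ε : ℝ) / (μ * P i 0 ^ m + 1)) ^ J * evMat r n _ P k i
  have hmat : Matrix.diagonal ρ * (A * evMat r n _ P)
      = W * Matrix.diagonal fun i => (μ * P i 0 ^ m + 1) ^ J := by
    ext k i
    rw [Matrix.diagonal_mul, Matrix.mul_diagonal, Matrix.mul_apply]
    simp only [ρ, W, A, Matrix.of_apply]
    split_ifs with h
    · rw [one_mul, Fintype.sum_prod_type_right]
      simp only [evMat, Matrix.of_apply]
      rw [mul_assoc, mul_comm (bas _ _), hM' _ (hP i), mul_sum]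
      refine sum_congr rfl fun l _ => ?_
      have hd : (X ^ (k.1 : ℕ) * M k.2 l).natDegree < T₁ + T' := by
        refine natDegree_mul_le.trans_lt ?_
        rw [natDegree_X_pow]
        have := hMd k.2 l
        omega
      have := eval_eq_sum_range' hd (P i n)
      rw [eval_mul, eval_pow, eval_X, ← Fin.sum_univ_eq_sum_range
        (fun j => ((X : ℂ[X]) ^ (k.1 : ℕ) * M k.2 l).coeff j * P i n ^ j) (T₁ + T')] at this
      rw [← mul_assoc, this, sum_mul]
      exact sum_congr rfl fun j _ => by ring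
    · simp only [ite_mul, one_mul, zero_mul, sum_ite_eq, mem_univ, if_true]
      rw [div_pow]
      field_simp [hψ0 i]
  have hW : ∀ k i, ‖W k i‖ ≤ B := by
    intro k i
    simp only [W, Matrix.of_apply]
    split_ifs with h
    · exact hB k i
    · rw [norm_mul, norm_pow, norm_div, Complex.norm_real, Real.norm_of_nonneg (by linarith)]
      have h1 : ((1 - ε) / ‖μ * P i 0 ^ m + 1‖) ^ J ≤ 1 :=
        pow_le_one₀ (div_nonneg (by linarith) (norm_nonneg _))
          (div_le_one_of_le₀ (hψ i) (norm_nonneg _))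
      exact (mul_le_of_le_one_left (norm_nonneg _) h1).trans (hB k i)
  have hdet := congrArg (fun Z => ‖Matrix.det Z‖) hmat
  simp only [Matrix.det_mul, Matrix.det_diagonal, norm_mul, hdetA, norm_pow, prod_pow] at hdet
  have hρ : ‖∏ k, ρ k‖ = (((1 - ε) ^ J) ^ lam r n) ^ T' := by
    rw [Fintype.prod_prod_type]
    simp only [ρ, prod_const, card_univ, card_Idx]
    rw [Fin.prod_univ_add]
    simp only [Fin.val_castAdd, Fin.is_lt, if_true, one_pow, prod_const_one, one_mul,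
      Fin.val_natAdd, add_lt_iff_neg_left, not_lt_zero, if_false, prod_const, card_univ,
      Fintype.card_fin, norm_pow, Complex.norm_real]
    rw [Real.norm_of_nonneg (by linarith), card_Idx]
  have hWd := norm_det_le W B hW
  rw [Fintype.card_prod, Fintype.card_fin, card_Idx] at hWd
  rw [hρ, norm_prod] at hdet
  have h1 : 0 ≤ (((1 - ε) ^ J) ^ lam r n) ^ T' := by
    have : 0 ≤ 1 - ε := by linarith
    positivity
  have h2 : (((1 - ε ^ 2) ^ lam r n) ^ J) ^ T₁ ≤ ‖(Matrix.of M).det.eval 0‖ ^ T₁ :=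
    pow_le_pow_left₀ (pow_nonneg (pow_nonneg (by nlinarith) _) _) hlow _
  calc _ ≤ ‖(evMat r n _ P).det‖ * ‖(Matrix.of M).det.eval 0‖ ^ T₁
        * (((1 - ε) ^ J) ^ lam r n) ^ T' := by gcongr
    _ = ‖W.det‖ * (∏ i, ‖μ * P i 0 ^ m + 1‖) ^ J := by rw [← hdet]; ring
    _ ≤ _ := by
      rw [mul_comm]
      gcongr

end Pool.Agent.MP_09973c_nt.H31
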