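import Mathlib

/-!
Subfields of a valued field that are maximal for a prescribed set of values.
-/

set_option autoImplicit false

namespace Pool.Agent.MP_09973c_nt.H31

open Polynomial Finset

variable {F Γ : Type} [Field F] [LinearOrderedCommGroupWithZero Γ] (ν : Valuation F Γ)

theorem val_sum_distinct {ι : Type} (T : Finset ι) (f : ι → F)
    (h : ∀ i ∈ T, ∀ j ∈ T, f i ≠ 0 → f j ≠ 0 → ν (f i) = ν (f j) → i = j) :
    (∀ i ∈ T, f i = 0) ∨ ∃ i ∈ T, f i ≠ 0 ∧ ν (∑ j ∈ T, f j) = ν (f i) := by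
  classical
  by_cases h0 : ∀ i ∈ T, f i = 0
  · exact Or.inl h0
  push Not at h0
  obtain ⟨i₀, hi₀, hf₀⟩ := h0
  obtain ⟨i, hi, hmax⟩ := exists_max_image T (fun i => ν (f i)) ⟨i₀, hi₀⟩
  have hfi : f i ≠ 0 := by
    intro h1
    have := hmax i₀ hi₀
    rw [h1, map_zero, nonpos_iff_eq_zero] at this
    exact hf₀ (ν.zero_iff.1 this)
  refine Or.inr ⟨i, hi, hfi, ν.map_sum_eq_of_lt hi fun j hj => ?_⟩
  obtain ⟨hj1, hj2⟩ := mem_sdiff.1 hj
  refine lt_of_le_of_ne (hmax j hj1) fun he => ?_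
  by_cases hfj : f j = 0
  · rw [hfj, map_zero] at he
    exact hfi (ν.zero_iff.1 he.symm)
  · exact hj2 (mem_singleton.2 (h j hj1 i hi hfj hfi he))

theorem val_pow_sub_le {z m : F} (hz : ν z ≤ 1) (hm : ν m ≤ 1) (i : ℕ) :
    ν (z ^ i - m ^ i) ≤ ν (z - m) := by
  induction i with
  | zero => simp
  | succ i ih =>
    have : z ^ (i + 1) - m ^ (i + 1) = z * (z ^ i - m ^ i) + (z - m) * m ^ i := by ring
    rw [this]
    refine ν.map_add_le ?_ ?_
    · rw [map_mul]; exact (mul_le_of_le_one_left' hz).trans ih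
    · rw [map_mul, map_pow]; exact mul_le_of_le_one_right' (pow_le_one' hm i)

theorem val_expand {x h : F} (hx : ν x ≤ 1) (hh : ν h ≤ 1) (r : ℕ) :
    ∃ k, ν k ≤ 1 ∧ (x + h) ^ r = x ^ r + r * x ^ (r - 1) * h + k * h ^ 2 := by
  obtain ⟨k, hk⟩ := powAddExpansion (⟨x, hx⟩ : ν.integer) ⟨h, hh⟩ r
  exact ⟨k, k.2, by simpa using congrArg Subtype.val hk⟩

theorem val_eq_one_of_close {z m : F} (hz : ν z = 1) (h : ν (z - m) < 1) : ν m = 1 := by
  have : m = z - (z - m) := by ring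
  rw [this, ν.map_sub_eq_of_lt_left (hz ▸ h), hz]

theorem val_sep {U μ : F} {r : ℕ} (hU : ν U = 1) (h : ν (U - μ) < 1) (hr : ν (r : F) = 1) :
    ν (U ^ r - μ ^ r) = ν (U - μ) := by
  have hμ := val_eq_one_of_close ν hU h
  obtain ⟨k, hk, he⟩ := val_expand ν hμ.le h.le r
  rw [add_sub_cancel] at he
  have : U ^ r - μ ^ r = (U - μ) * (r * μ ^ (r - 1) + k * (U - μ)) := by rw [he]; ring
  have h1 : ν (r * μ ^ (r - 1)) = 1 := by rw [map_mul, map_pow, hr, hμ, one_pow, one_mul]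
  rw [this, map_mul, ν.map_add_eq_of_lt_left (by
    rw [h1, map_mul]; exact (mul_le_of_le_one_left' hk).trans_lt h), h1, mul_one]

theorem exists_close_root [IsAlgClosed F] (f : F[X]) (hf : ν f.leadingCoeff = 1) {z : F}
    (h : ν (f.eval z) < 1) : ∃ w, f.eval w = 0 ∧ ν (z - w) < 1 := by
  by_contra hcon
  push Not at hcon
  rw [(IsAlgClosed.splits f).eval_eq_prod_roots, map_mul, hf, one_mul, map_multiset_prod] at h
  refine absurd h (not_lt.2 (Multiset.one_le_prod_of_one_le fun x hx => ?_))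
  simp only [Multiset.map_map, Multiset.mem_map, Function.comp_apply] at hx
  obtain ⟨w, hw, rfl⟩ := hx
  exact hcon w (isRoot_of_mem_roots hw)

theorem val_lip {M : Subfield F} (f : M[X]) {B : Γ} (hf : ∀ i, ν (f.coeff i : F) ≤ B) {z m : F}
    (hz : ν z ≤ 1) (hm : ν m ≤ 1) : ν (aeval z f - aeval m f) ≤ B * ν (z - m) := by
  rw [aeval_eq_sum_range, aeval_eq_sum_range, ← sum_sub_distrib]
  refine ν.map_sum_le fun i _ => ?_
  rw [← smul_sub, Algebra.smul_def, map_mul]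
  exact mul_le_mul' (hf i) (val_pow_sub_le ν hz hm i)

theorem val_aeval_le {M : Subfield F} (f : M[X]) (hf : ∀ i, ν (f.coeff i : F) ≤ 1) {z : F}
    (hz : ν z ≤ 1) : ν (aeval z f) ≤ 1 := by
  rw [aeval_eq_sum_range]
  refine ν.map_sum_le fun i _ => ?_
  rw [Algebra.smul_def, map_mul, map_pow]
  exact mul_le_one' (hf i) (pow_le_one' hz i)

theorem exists_max_coeff {M : Subfield F} (f : M[X]) (hf : f ≠ 0) :
    ∃ i, f.coeff i ≠ 0 ∧ ∀ j, ν (f.coeff j : F) ≤ ν (f.coeff i : F) := by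
  obtain ⟨i, hi, hmax⟩ := exists_max_image f.support (fun i => ν (f.coeff i : F))
    (support_nonempty.2 hf)
  refine ⟨i, mem_support_iff.1 hi, fun j => ?_⟩
  by_cases hj : j ∈ f.support
  · exact hmax j hj
  · rw [notMem_support_iff.1 hj]; simp

/-- A subfield maximal among those with values in `G`. -/
structure MaxF (G : Set Γ) (M : Subfield F) : Prop where
  one : 1 ∈ G
  mul : ∀ x ∈ G, ∀ y ∈ G, x * y ∈ G
  inv : ∀ x ∈ G, x⁻¹ ∈ G
  val : ∀ z ∈ M, z ≠ 0 → ν z ∈ G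
  max : ∀ M' : Subfield F, M ≤ M' → (∀ z ∈ M', z ≠ 0 → ν z ∈ G) → M' ≤ M
  arch : ∀ x y : F, ν x < 1 → y ≠ 0 → ∃ k, ν x ^ k < ν y

theorem exists_maxF {G : Set Γ} (one : 1 ∈ G) (mul : ∀ x ∈ G, ∀ y ∈ G, x * y ∈ G)
    (inv : ∀ x ∈ G, x⁻¹ ∈ G) (arch : ∀ x y : F, ν x < 1 → y ≠ 0 → ∃ k, ν x ^ k < ν y)
    (K : Subfield F) (hK : ∀ z ∈ K, z ≠ 0 → ν z ∈ G) : ∃ M, K ≤ M ∧ MaxF ν G M := by
  obtain ⟨M, hKM, hM⟩ := zorn_le_nonempty₀ {M : Subfield F | ∀ z ∈ M, z ≠ 0 → ν z ∈ G}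
    (fun c hc hch y hy => ⟨sSup c, fun z hz => by
      obtain ⟨s, hs, hzs⟩ := (Subfield.mem_sSup_of_directedOn ⟨y, hy⟩ hch.directedOn).1 hz
      exact hc hs z hzs, fun z hz => le_sSup hz⟩) K hK
  exact ⟨M, hKM, one, mul, inv, hM.1, fun M' h1 h2 => hM.2 h2 h1, arch⟩

namespace MaxF

variable {ν} {G : Set Γ} {M : Subfield F} (hM : MaxF ν G M)

include hM

theorem pow_mem {x : Γ} (hx : x ∈ G) (n : ℕ) : x ^ n ∈ G := by
  induction n with
  | zero => simpa using hM.one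
  | succ n ih => rw [pow_succ]; exact hM.mul _ ih _ hx

theorem mem_of_aeval {z : F} (h : ∀ f : M[X], aeval z f ≠ 0 → ν (aeval z f) ∈ G) : z ∈ M := by
  refine hM.max (IntermediateField.adjoin M {z}).toSubfield
    (fun x hx => (IntermediateField.adjoin M {z}).algebraMap_mem ⟨x, hx⟩) (fun x hx hx0 => ?_)
    (IntermediateField.mem_adjoin_simple_self M z)
  obtain ⟨f, g, rfl⟩ := (IntermediateField.mem_adjoin_simple_iff M x).1 hx
  rw [div_eq_mul_inv, map_mul, map_inv₀]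
  exact hM.mul _ (h f (div_ne_zero_iff.1 hx0).1) _ (hM.inv _ (h g (div_ne_zero_iff.1 hx0).2))

theorem mem_of_limit {z e : F} (hz : ν z ≤ 1) (he : ν e < 1)
    (h : ∀ k, ∃ m ∈ M, ν (z - m) ≤ ν e ^ k) : z ∈ M := by
  refine hM.mem_of_aeval fun f hf => ?_
  have hf0 : f ≠ 0 := by rintro rfl; simp at hf
  obtain ⟨i, hi, hmax⟩ := exists_max_coeff ν f hf0
  have hi' : (f.coeff i : F) ≠ 0 := fun h0 => hi (Subtype.ext h0)
  obtain ⟨k, hk⟩ := hM.arch e (aeval z f / f.coeff i) he (div_ne_zero hf hi')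
  obtain ⟨m, hm, hzm⟩ := h k
  have hm1 : ν m ≤ 1 := by
    have : m = z - (z - m) := by ring
    rw [this]
    exact ν.map_sub_le hz (hzm.trans (pow_le_one' he.le k))
  have h1 := val_lip ν f hmax hz hm1
  have hc : 0 < ν (f.coeff i : F) := ν.pos_iff.2 hi'
  have h2 : ν (aeval z f - aeval m f) < ν (aeval z f) := by
    refine h1.trans_lt ?_
    rw [map_div₀, lt_div_iff₀ hc, mul_comm] at hk
    exact (mul_le_mul_right hzm _).trans_lt hk
  have h3 : ν (aeval m f) = ν (aeval z f) := by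
    have : aeval m f = aeval z f - (aeval z f - aeval m f) := by ring
    rw [this, ν.map_sub_eq_of_lt_left h2]
  have h4 : aeval m f ∈ M := by
    have := aeval_algebraMap_apply F (⟨m, hm⟩ : M) f
    exact this ▸ (aeval (⟨m, hm⟩ : M) f).2
  rw [← h3]
  refine hM.val _ h4 fun h0 => hf ?_
  rw [h0, map_zero] at h3
  exact ν.zero_iff.1 h3.symm

theorem mem_of_newton {z ρ : F} {r : ℕ} (hw : z ^ r ∈ M) (hz : ν z = 1) (hr : ν (r : F) = 1)
    (hρ : ρ ∈ M) (h : ν (z - ρ) < 1) : z ∈ M := by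
  refine hM.mem_of_limit hz.le h fun k => ?_
  have : ∀ k, ∃ m ∈ M, ν (z - m) ≤ ν (z - ρ) ^ (k + 1) := by
    intro k
    induction k with
    | zero => exact ⟨ρ, hρ, by simp⟩
    | succ k ih =>
      obtain ⟨m, hm, hzm⟩ := ih
      have hle : ν (z - m) ≤ ν (z - ρ) := hzm.trans (pow_le_of_le_one zero_le h.le (by omega))
      have hm1 := val_eq_one_of_close ν hz (hle.trans_lt h)
      obtain ⟨c, hc, he⟩ := val_expand ν hm1.le (hle.trans h.le) r
      rw [add_sub_cancel] at he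
      have h1 : ν (r * m ^ (r - 1)) = 1 := by rw [map_mul, map_pow, hr, hm1, one_pow, one_mul]
      have h2 : (r : F) * m ^ (r - 1) ≠ 0 := fun h0 => by
        rw [h0, map_zero] at h1; exact zero_ne_one h1
      refine ⟨m - (m ^ r - z ^ r) / (r * m ^ (r - 1)), M.sub_mem hm (M.div_mem
        (M.sub_mem (M.pow_mem hm _) hw) (M.mul_mem (natCast_mem M r) (M.pow_mem hm _))), ?_⟩
      have h3 : z - (m - (m ^ r - z ^ r) / (r * m ^ (r - 1)))
          = -(c * (z - m) ^ 2) / (r * m ^ (r - 1)) := by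
        rw [eq_div_iff h2, sub_mul, sub_mul, div_mul_cancel₀ _ h2]
        linear_combination -he
      rw [h3, map_div₀, h1, div_one, ν.map_neg, map_mul, map_pow, pow_succ _ (k + 1), pow_two]
      exact (mul_le_of_le_one_left' hc).trans (mul_le_mul' hzm hle)
  obtain ⟨m, hm, h1⟩ := this k
  exact ⟨m, hm, h1.trans (pow_le_pow_of_le_one zero_le h.le (by omega))⟩

theorem exists_residue [IsAlgClosed F] {z : F} {r : ℕ} (hr : 0 < r) (hw : z ^ r ∈ M)
    (hz : ν z = 1) : ∃ ρ ∈ M, ν (z - ρ) < 1 := by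
  classical
  have hex : ∃ d, ∃ f : M[X], f.natDegree = d ∧ (∀ i, ν (f.coeff i : F) ≤ 1) ∧
      (∃ i, ν (f.coeff i : F) = 1) ∧ ν (aeval z f) < 1 := by
    refine ⟨_, X ^ r - C ⟨_, hw⟩, rfl, fun i => ?_, ⟨r, ?_⟩, ?_⟩
    · rw [coeff_sub, coeff_X_pow, coeff_C]
      push_cast
      refine ν.map_sub_le ?_ ?_ <;> split_ifs <;> simp [hz]
    · rw [coeff_sub, coeff_X_pow, coeff_C, if_pos rfl, if_neg hr.ne']
      simp
    · simp [Subfield.algebraMap_ofSubfield]
  obtain ⟨f, hfd, hf1, ⟨i, hi⟩, hfz⟩ := Nat.find_spec hex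
  have hmin : ∀ g : M[X], g.natDegree < f.natDegree → (∀ i, ν (g.coeff i : F) ≤ 1) →
      (∃ i, ν (g.coeff i : F) = 1) → ν (aeval z g) = 1 := fun g hg h1 h2 =>
    le_antisymm (val_aeval_le ν g h1 hz.le) (not_lt.1 fun h3 =>
      Nat.find_min hex (hfd ▸ hg) ⟨g, rfl, h1, h2, h3⟩)
  have hf0 : f ≠ 0 := by rintro rfl; simp at hi
  have hd0 : 0 < f.natDegree := by
    by_contra h0
    have h1 : f = C (f.coeff 0) := eq_C_of_natDegree_eq_zero (by omega)
    have h2 : i = 0 := by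
      by_contra h3
      rw [h1, coeff_C, if_neg h3] at hi
      simp at hi
    rw [h1, aeval_C] at hfz
    rw [h2] at hi
    exact absurd hfz (not_lt.2 hi.ge)
  have hlc : ν (f.leadingCoeff : F) = 1 := by
    by_contra hne
    have hlt : ν (f.leadingCoeff : F) < 1 := lt_of_le_of_ne (hf1 _) hne
    have hin : i ≠ f.natDegree := by rintro rfl; exact hne hi
    have h1 := hmin f.eraseLead (by have := eraseLead_natDegree_le f; omega)
      (fun j => by
        rw [eraseLead_coeff]; split_ifs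
        · simp
        · exact hf1 j) ⟨i, by rw [eraseLead_coeff_of_ne _ hin]; exact hi⟩
    have h2 : aeval z f.eraseLead = aeval z f - (f.leadingCoeff : F) * z ^ f.natDegree := by
      have := congrArg (aeval z) (eraseLead_add_C_mul_X_pow f)
      rw [map_add, map_mul, aeval_C, map_pow, aeval_X] at this
      rw [← this]
      exact (add_sub_cancel_right _ _).symm
    rw [h2] at h1
    refine absurd (ν.map_sub_lt hfz ?_) (not_lt.2 h1.ge)
    rw [map_mul, map_pow, hz, one_pow, mul_one]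
    exact hlt
  obtain ⟨w, hw0, hzw⟩ := exists_close_root ν (f.map (algebraMap M F))
    (by rw [leadingCoeff_map]; exact hlc) (z := z) (by rw [eval_map_algebraMap]; exact hfz)
  rw [eval_map_algebraMap] at hw0
  have hw1 := val_eq_one_of_close ν hz hzw
  refine ⟨w, hM.mem_of_aeval fun g hg => ?_, hzw⟩
  have he : aeval w g = aeval w (g % f) := by
    conv_lhs => rw [← EuclideanDomain.div_add_mod g f]
    rw [map_add, map_mul, hw0, zero_mul, zero_add]
  rw [he] at hg ⊢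
  have hg0 : g % f ≠ 0 := by intro h0; rw [h0, map_zero] at hg; exact hg rfl
  obtain ⟨j, hj, hmax⟩ := exists_max_coeff ν (g % f) hg0
  have hj' : ((g % f).coeff j : F) ≠ 0 := fun h0 => hj (Subtype.ext h0)
  have hjv : ν ((g % f).coeff j : F) ≠ 0 := ν.ne_zero_iff.2 hj'
  have hc : ∀ i, ν (((C ((g % f).coeff j)⁻¹ * (g % f)).coeff i : M) : F) ≤ 1 := fun i => by
    rw [coeff_C_mul]
    push_cast
    rw [map_mul, map_inv₀, inv_mul_le_iff₀ (zero_lt_iff.2 hjv), mul_one]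
    exact hmax i
  have h1 := hmin (C ((g % f).coeff j)⁻¹ * (g % f))
    ((natDegree_C_mul_le _ _).trans_lt (natDegree_lt_natDegree hg0 (degree_mod_lt g hf0))) hc
    ⟨j, by rw [coeff_C_mul, inv_mul_cancel₀ hj]; simp⟩
  have h2 := val_eq_one_of_close ν h1 ((val_lip ν _ hc hz.le hw1.le).trans_lt
    (by rw [one_mul]; exact hzw))
  rw [map_mul, aeval_C, map_mul, map_inv₀, map_inv₀] at h2
  rw [← (inv_mul_eq_one₀ hjv).1 h2]
  exact hM.val _ ((g % f).coeff j).2 hj'

theorem mem_of_pow [IsAlgClosed F] {z : F} {r : ℕ} (hr0 : 0 < r) (hr : ν (r : F) = 1)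
    (hw : z ^ r ∈ M) (hz : ν z ∈ G) : z ∈ M := by
  classical
  by_cases hz0 : z = 0
  · rw [hz0]; exact M.zero_mem
  have hex : ∃ e, 0 < e ∧ ∃ m ∈ M, m ≠ 0 ∧ ν z ^ e = ν m :=
    ⟨r, hr0, _, hw, pow_ne_zero _ hz0, (map_pow ν z r).symm⟩
  obtain ⟨he0, m, hm, hm0, hme⟩ := Nat.find_spec hex
  set e := Nat.find hex
  have hu : z ^ e / m ∈ M := by
    have h1 : (z ^ e / m) ^ r ∈ M := by
      rw [div_pow, ← pow_mul, mul_comm, pow_mul]
      exact M.div_mem (M.pow_mem hw _) (M.pow_mem hm _)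
    have h2 : ν (z ^ e / m) = 1 := by
      rw [map_div₀, map_pow, hme, div_self (ν.ne_zero_iff.2 hm0)]
    obtain ⟨ρ, hρ, h3⟩ := hM.exists_residue hr0 h1 h2
    exact hM.mem_of_newton h1 h2 hr hρ h3
  have hze : z ^ e ∈ M := by
    have := M.mul_mem hu hm
    rwa [div_mul_cancel₀ _ hm0] at this
  refine hM.mem_of_aeval fun g hg => ?_
  have hf : (X ^ e - C (⟨_, hze⟩ : M)).Monic := monic_X_pow_sub_C _ he0.ne'
  have he : aeval z g = aeval z (g %ₘ (X ^ e - C (⟨_, hze⟩ : M))) :=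
    (aeval_modByMonic_eq_self_of_root (by simp [Subfield.algebraMap_ofSubfield])).symm
  set g' := g %ₘ (X ^ e - C (⟨_, hze⟩ : M))
  have hd : g'.natDegree < e := by
    have := natDegree_modByMonic_lt g hf (fun h1 => by
      have := congrArg natDegree h1
      rw [natDegree_X_pow_sub_C, natDegree_one] at this
      omega)
    rwa [natDegree_X_pow_sub_C] at this
  rw [he, aeval_eq_sum_range' hd] at hg ⊢
  have hzv : ν z ≠ 0 := ν.ne_zero_iff.2 hz0
  have key : ∀ i j, i < j → j < e → g'.coeff i • z ^ i ≠ 0 → g'.coeff j • z ^ j ≠ 0 →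
      ν (g'.coeff i • z ^ i) ≠ ν (g'.coeff j • z ^ j) := by
    intro i j hij hj h1 h2 h3
    rw [Algebra.smul_def] at h1 h2 h3
    rw [Algebra.smul_def, map_mul, map_mul, map_pow, map_pow] at h3
    have h4 := left_ne_zero_of_mul h1
    have h5 : (g'.coeff j : F) ≠ 0 := left_ne_zero_of_mul h2
    refine Nat.find_min hex (m := j - i) (by omega) ⟨by omega, _,
      M.div_mem (g'.coeff i).2 (g'.coeff j).2, div_ne_zero h4 h5, ?_⟩
    rw [map_div₀, eq_div_iff (ν.ne_zero_iff.2 h5)]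
    refine mul_right_cancel₀ (pow_ne_zero i hzv) ?_
    rw [mul_right_comm, ← pow_add, Nat.sub_add_cancel hij.le, mul_comm]
    exact h3.symm
  rcases val_sum_distinct ν (range e) (fun i => g'.coeff i • z ^ i) (fun i hi j hj h1 h2 h3 => by
    rcases lt_trichotomy i j with h | h | h
    · exact absurd h3 (key i j h (mem_range.1 hj) h1 h2)
    · exact h
    · exact absurd h3.symm (key j i h (mem_range.1 hi) h2 h1)) with h | ⟨i, -, h1, h2⟩
  · exact absurd (sum_eq_zero h) hg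
  · rw [h2, Algebra.smul_def, map_mul, map_pow]
    rw [Algebra.smul_def] at h1
    exact hM.mul _ (hM.val _ (g'.coeff i).2 (left_ne_zero_of_mul h1)) _ (hM.pow_mem hz i)

/-- Solutions of a contracting chain of equations lie in `M`. -/
theorem mem_of_chain [IsAlgClosed F] {p q : ℕ} (hq0 : 0 < q) (hq : ν (q : F) = 1) {e : F}
    (heM : e ∈ M) (he : ν e < 1) {U : ℕ → F} (hU : ∀ k, ν (U k) = 1)
    (h : ∀ k, U k ^ q = e * U (k + 1) ^ p + 1) (k : ℕ) : U k ∈ M := by
  refine hM.mem_of_limit (hU k).le he fun N => ?_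
  induction N generalizing k with
  | zero => exact ⟨0, M.zero_mem, by simp [hU]⟩
  | succ N ih =>
    obtain ⟨m, hm, hk⟩ := ih (k + 1)
    have hm1 : ν m ≤ 1 := by
      have : m = U (k + 1) - (U (k + 1) - m) := by ring
      rw [this]
      exact ν.map_sub_le (hU _).le (hk.trans (pow_le_one' he.le N))
    have h1 : ν (U k ^ q - (e * m ^ p + 1)) ≤ ν e ^ (N + 1) := by
      have : U k ^ q - (e * m ^ p + 1) = e * (U (k + 1) ^ p - m ^ p) := by rw [h]; ring
      rw [this, map_mul, pow_succ']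
      exact mul_le_mul_right ((val_pow_sub_le ν (hU _).le hm1 p).trans hk) _
    obtain ⟨μ, hμ, h2⟩ := exists_close_root ν (X ^ q - C (e * m ^ p + 1))
      (by rw [(monic_X_pow_sub_C _ hq0.ne').leadingCoeff, map_one]) (z := U k)
      (by simpa using h1.trans_lt (pow_lt_one₀ zero_le he (by omega)))
    have hμ' : μ ^ q = e * m ^ p + 1 := by simpa [sub_eq_zero] using hμ
    refine ⟨μ, hM.mem_of_pow hq0 hq
      (hμ' ▸ M.add_mem (M.mul_mem heM (M.pow_mem hm _)) M.one_mem) ?_, ?_⟩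
    · rw [val_eq_one_of_close ν (hU k) h2]; exact hM.one
    · rw [← val_sep ν (hU k) h2 hq, hμ']; exact h1

end MaxF

end Pool.Agent.MP_09973c_nt.H31
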