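import Pool.Agent.MP_09973c_nt.H31.Tails
import Pool.Agent.MP_09973c_nt.H31.Val

/-!
Long tails at a tame place of bad reduction.
-/

set_option autoImplicit false

namespace Pool.Agent.MP_09973c_nt.H31

open Polynomial Finset

section ValWS

variable {F Γ : Type} [Field F] [LinearOrderedCommGroupWithZero Γ] (ν : Valuation F Γ)

theorem val_eq_one_of_pow {ξ : F} {r : ℕ} (hr : 0 < r) (h : ν ξ ^ r = 1) : ν ξ = 1 :=
  (pow_left_inj₀ zero_le zero_le hr.ne').1 (by rw [h, one_pow])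

theorem val_root_one {ξ : F} {r : ℕ} (hr : 0 < r) (h : ξ ^ r = 1) : ν ξ = 1 :=
  val_eq_one_of_pow ν hr (by rw [← map_pow, h, map_one])

theorem val_root_sub_one {ξ : F} {p : ℕ} (hp : 0 < p) (hνp : ν (p : F) = 1) (h : ξ ^ p = 1)
    (h1 : ξ ≠ 1) : ν (ξ - 1) = 1 := by
  have h2 := val_root_one ν hp h
  refine le_antisymm (ν.map_sub_le h2.le ν.map_one.le) (not_lt.1 fun hlt => h1 ?_)
  have := val_sep ν h2 hlt hνp
  rw [h, one_pow, sub_self, map_zero] at this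
  exact sub_eq_zero.1 (ν.zero_iff.1 this.symm)

theorem chain_val_le {p q : ℕ} (hpq : p < q) {c : F} {u : ℕ → F} (hu : Chain q p c u) (k : ℕ) :
    ν (u k) ^ q ≤ max 1 (ν c) := by
  obtain ⟨j, -, hmax⟩ := exists_max_tail u hu.2 ν 0
  refine (pow_le_pow_left' (hmax k (Nat.zero_le _)) q).trans (not_lt.1 fun hlt => ?_)
  have h1 : 1 < ν (u j) := by
    by_contra h2
    exact absurd ((le_max_left _ _).trans_lt hlt) (not_lt.2 (pow_le_one' (not_lt.1 h2) q))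
  have h2 : ν (u j) ^ q < ν (u j) ^ q := by
    conv_lhs => rw [← map_pow, hu.1 j]
    refine ν.map_add_lt ?_ ((le_max_right _ _).trans_lt hlt)
    rw [map_pow]
    exact (pow_le_pow_left' (hmax _ (Nat.zero_le _)) p).trans_lt (pow_lt_pow_right₀ h1 hpq)
  exact lt_irrefl _ h2

theorem chain_val_lt {p q : ℕ} (hpq : p < q) {c : F} (hc : 1 < ν c) {u : ℕ → F}
    (hu : Chain q p c u) (k : ℕ) : ν (u k ^ p) < ν c := by
  have h := chain_val_le ν hpq hu k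
  rw [max_eq_right hc.le] at h
  rw [map_pow]
  by_cases h1 : ν (u k) ≤ 1
  · exact (pow_le_one' h1 p).trans_lt hc
  · exact (pow_lt_pow_right₀ (not_le.1 h1) hpq).trans_le h

theorem chain_val {p q : ℕ} (hpq : p < q) {c : F} (hc : 1 < ν c) {u : ℕ → F}
    (hu : Chain q p c u) (k : ℕ) : ν (u k) ^ q = ν c := by
  rw [← map_pow, hu.1 k, ν.map_add_eq_of_lt_right (chain_val_lt ν hpq hc hu _)]

theorem WS_val_zero {p q : ℕ} (hp : 0 < p) (hpq : p < q) {c ξ : F} (hc : 1 < ν c) (hξ : ξ ^ p = 1)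
    {y : F} (hy : y ∈ WS p q c ξ 0) : ν y = ν c := by
  obtain ⟨u, hu, rfl⟩ := hy
  rw [map_mul, val_root_one ν hp hξ, one_mul,
    ν.map_add_eq_of_lt_right (chain_val_lt ν hpq hc hu _)]

theorem WS_val {p q : ℕ} (hp : 0 < p) (hpq : p < q) (hνp : ν (p : F) = 1) {c ξ : F} (hc : 1 < ν c)
    (hξ : ξ ^ p = 1) (hξ1 : ξ ≠ 1) (t : ℕ) : ∀ y ∈ WS p q c ξ t,
      ν c ≤ ν y ∧ ν (y - c) = ν y ∧ ν y ^ p ^ t = ν c ^ q ^ t := by
  induction t with
  | zero =>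
    intro y hy
    have h1 := WS_val_zero ν hp hpq hc hξ hy
    refine ⟨h1.ge, ?_, by simpa using h1⟩
    obtain ⟨u, hu, rfl⟩ := hy
    have : ξ * (u 0 ^ p + c) - c = ξ * u 0 ^ p + (ξ - 1) * c := by ring
    have h2 : ν ((ξ - 1) * c) = ν c := by rw [map_mul, val_root_sub_one ν hp hνp hξ hξ1, one_mul]
    rw [this, h1, ν.map_add_eq_of_lt_right, h2]
    rw [h2, map_mul, val_root_one ν hp hξ, one_mul]
    exact chain_val_lt ν hpq hc hu _
  | succ t ih =>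
    rintro y ⟨x, rfl, hx⟩
    obtain ⟨h1, h2, h3⟩ := ih _ hx
    rw [add_sub_cancel_right, map_pow] at h2
    have h4 : 1 < ν x := by
      by_contra h5
      exact absurd (hc.trans_le (h1.trans h2.ge)) (not_lt.2 (pow_le_one' (not_lt.1 h5) p))
    have h5 : ν c < ν (x ^ q) := by
      rw [map_pow]
      exact (h1.trans h2.ge).trans_lt (pow_lt_pow_right₀ h4 hpq)
    refine ⟨h5.le, ν.map_sub_eq_of_lt_left h5, ?_⟩
    rw [map_pow, ← pow_mul, pow_succ q, pow_mul (ν c), ← h3, ← h2, ← pow_mul, ← pow_mul]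
    congr 1
    ring

theorem WS_val_le_one {p q : ℕ} (hp : 0 < p) (hpq : p < q) {c ξ : F} (hc : ν c ≤ 1)
    (hξ : ξ ^ p = 1) (t : ℕ) : ∀ y ∈ WS p q c ξ t, ν y ≤ 1 := by
  induction t with
  | zero =>
    rintro y ⟨u, hu, rfl⟩
    have h1 := chain_val_le ν hpq hu 0
    rw [max_eq_left hc] at h1
    have h2 : ν (u 0) ≤ 1 := (pow_le_one_iff_of_nonneg zero_le (by omega)).1 h1
    rw [map_mul, val_root_one ν hp hξ, one_mul]
    exact ν.map_add_le (by rw [map_pow]; exact pow_le_one' h2 p) hc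
  | succ t ih =>
    rintro y ⟨x, rfl, hx⟩
    have h1 : ν (x ^ p + c - c) ≤ 1 := ν.map_sub_le (ih _ hx) hc
    rw [add_sub_cancel_right, map_pow] at h1
    rw [map_pow]
    exact pow_le_one' ((pow_le_one_iff_of_nonneg zero_le hp.ne').1 h1) q

variable {ν}

theorem MaxF.WS_mem [IsAlgClosed F] {G : Set Γ} {M : Subfield F} (hM : MaxF ν G M) {p q : ℕ}
    (hp : 0 < p) (hpq : p < q) (hνp : ν (p : F) = 1) (hνq : ν (q : F) = 1)
    (hG : ∀ x, x ^ q ∈ G → x ∈ G) {c ξ : F} (hcM : c ∈ M) (hc : 1 < ν c) (hξ : ξ ^ p = 1)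
    (hξ1 : ξ ≠ 1) (t : ℕ) : ∀ y ∈ WS p q c ξ t, ν y ∈ G → y ∈ M := by
  have hq : 0 < q := by omega
  induction t with
  | zero =>
    rintro y ⟨u, hu, rfl⟩ -
    have hc0 : c ≠ 0 := by rintro rfl; simp at hc
    obtain ⟨A, hA⟩ := IsAlgClosed.exists_pow_nat_eq c hq
    have hA0 : A ≠ 0 := by rintro rfl; rw [zero_pow hq.ne'] at hA; exact hc0 hA.symm
    have hAM : A ∈ M := hM.mem_of_pow hq hνq (hA ▸ hcM)
      (hG _ (by rw [← map_pow, hA]; exact hM.val _ hcM hc0))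
    have hν : ∀ k, ν (u k) = ν A := fun k => (pow_left_inj₀ zero_le zero_le hq.ne').1
      (by rw [chain_val ν hpq hc hu, ← map_pow, hA])
    have h1 := hM.mem_of_chain (p := p) hq hνq (e := A ^ p / c) (U := fun k => u k / A)
      (M.div_mem (M.pow_mem hAM _) hcM)
      (by
        rw [map_div₀, div_lt_one₀ (zero_lt_one.trans hc), map_pow, ← hν 0, ← map_pow]
        exact chain_val_lt ν hpq hc hu 0)
      (fun k => by rw [map_div₀, hν, div_self (ν.ne_zero_iff.2 hA0)])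
      (fun k => by rw [div_pow, div_pow, hA, hu.1 k]; field_simp) 0
    have h2 : u 0 ∈ M := by
      have := M.mul_mem h1 hAM
      rwa [div_mul_cancel₀ _ hA0] at this
    have h3 : ξ ∈ M := hM.mem_of_pow hp hνp (hξ ▸ M.one_mem)
      (by rw [val_root_one ν hp hξ]; exact hM.one)
    exact M.mul_mem h3 (M.add_mem (M.pow_mem h2 _) hcM)
  | succ t ih =>
    rintro y ⟨x, rfl, hx⟩ hy
    have h1 : ν x ∈ G := hG _ (by rwa [← map_pow])
    obtain ⟨-, h2, -⟩ := WS_val ν hp hpq hνp hc hξ hξ1 t _ hx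
    rw [add_sub_cancel_right, map_pow] at h2
    have h3 := M.sub_mem (ih _ hx (h2 ▸ hM.pow_mem h1 p)) hcM
    rw [add_sub_cancel_right] at h3
    exact M.pow_mem (hM.mem_of_pow hp hνp h3 h1) q

/-- Values whose power of exponent `N * l ^ s`, with `N` prime to `l`, is a power of `g`. -/
def GS (g : Γ) (l s : ℕ) : Set Γ := {x | ∃ N, ¬ l ∣ N ∧ ∃ j : ℤ, x ^ (N * l ^ s) = g ^ j}

theorem GS_one {g : Γ} {l : ℕ} (hl : l.Prime) (s : ℕ) : 1 ∈ GS g l s :=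
  ⟨1, fun h => hl.one_lt.ne' (Nat.dvd_one.1 h), 0, by simp⟩

theorem GS_mul {g : Γ} (hg : g ≠ 0) {l : ℕ} (hl : l.Prime) (s : ℕ) :
    ∀ x ∈ GS g l s, ∀ y ∈ GS g l s, x * y ∈ GS g l s := by
  rintro x ⟨N, hN, j, h⟩ y ⟨N', hN', j', h'⟩
  refine ⟨N * N', fun hd => (hl.dvd_mul.1 hd).elim hN hN', j * N' + j' * N, ?_⟩
  rw [mul_pow, zpow_add₀ hg, zpow_mul, zpow_mul, ← h, ← h', zpow_natCast, zpow_natCast, ← pow_mul,
    ← pow_mul]
  congr 2 <;> ring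

theorem GS_inv {g : Γ} {l s : ℕ} : ∀ x ∈ GS g l s, x⁻¹ ∈ GS g l s := by
  rintro x ⟨N, hN, j, h⟩
  exact ⟨N, hN, -j, by rw [inv_pow, h, zpow_neg]⟩

theorem GS_root {g : Γ} {l : ℕ} (hl : l.Prime) {s r : ℕ} (hr : ¬ l ∣ r) (x : Γ)
    (h : x ^ r ∈ GS g l s) : x ∈ GS g l s := by
  obtain ⟨N, hN, j, h⟩ := h
  exact ⟨r * N, fun hd => (hl.dvd_mul.1 hd).elim hr hN, j, by rw [← h, ← pow_mul, mul_assoc]⟩

theorem GS_succ {g : Γ} {l s : ℕ} {x : Γ} (h : x ∈ GS g l (s + 1)) {p : ℕ} (hp : l ∣ p) :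
    x ^ p ∈ GS g l s := by
  obtain ⟨N, hN, j, h⟩ := h
  obtain ⟨p', rfl⟩ := hp
  refine ⟨N, hN, j * p', ?_⟩
  rw [zpow_mul, ← h, zpow_natCast, ← pow_mul, ← pow_mul]
  congr 1
  ring

theorem GS_mono {g : Γ} {l s s' : ℕ} (h : s ≤ s') : GS g l s ⊆ GS g l s' := by
  rintro x ⟨N, hN, j, hx⟩
  obtain ⟨k, rfl⟩ := Nat.exists_eq_add_of_le h
  refine ⟨N, hN, j * (l ^ k : ℕ), ?_⟩
  rw [zpow_mul, ← hx, zpow_natCast, ← pow_mul]
  congr 1
  ring

theorem GS_of_pow {g : Γ} {l : ℕ} (hl : l.Prime) {x : Γ} {N : ℕ} (hN : N ≠ 0) :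
    ∃ s, ∀ j : ℤ, x ^ N = g ^ j → x ∈ GS g l s := by
  obtain ⟨s, N', h1, rfl⟩ := Nat.exists_eq_pow_mul_and_not_dvd hN l hl.one_lt.ne'
  exact ⟨s, fun j h => ⟨N', h1, j, by rw [← h, mul_comm]⟩⟩

theorem not_mem_GS {g : Γ} (hg : 1 < g) {l : ℕ} (hl : l.Prime) {p q : ℕ} (hp : l ∣ p)
    (hq : ¬ l ∣ q) {c : Γ} (hc : 1 < c) {s : ℕ} (hcs : c ∈ GS g l s) :
    ∃ T, ∀ t, T ≤ t → ∀ x : Γ, x ^ p ^ t = c ^ q ^ t → x ∉ GS g l s := by
  obtain ⟨N, hN, j, h⟩ := hcs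
  have hN0 : N ≠ 0 := by rintro rfl; simp at hN
  have hj : j ≠ 0 := by
    rintro rfl
    rw [zpow_zero] at h
    exact absurd h (one_lt_pow₀ hc (mul_ne_zero hN0 (pow_ne_zero _ hl.ne_zero))).ne'
  refine ⟨j.natAbs, fun t ht x hx ⟨N', hN', j', h'⟩ => ?_⟩
  have h1 : g ^ (j' * (p ^ t * N : ℕ)) = g ^ (j * (q ^ t * N' : ℕ)) := by
    rw [zpow_mul, zpow_mul, ← h, ← h', zpow_natCast, zpow_natCast, ← pow_mul, ← pow_mul]
    calc _ = (x ^ p ^ t) ^ (N * l ^ s * N') := by rw [← pow_mul]; congr 1; ring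
      _ = _ := by rw [hx, ← pow_mul]; congr 1; ring
  have h2 := congrArg Int.natAbs (zpow_right_injective₀ (zero_lt_one.trans hg) hg.ne' h1)
  simp only [Int.natAbs_mul, Int.natAbs_natCast] at h2
  have h3 : l ^ t ∣ j.natAbs * (q ^ t * N') := by
    rw [← h2]
    exact Dvd.dvd.mul_left (Dvd.dvd.mul_right (pow_dvd_pow_of_dvd hp t) _) _
  have h4 : (l ^ t).Coprime (q ^ t * N') := Nat.Coprime.pow_left _
    (Nat.Coprime.mul_right (Nat.Coprime.pow_right _ (hl.coprime_iff_not_dvd.2 hq))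
      (hl.coprime_iff_not_dvd.2 hN'))
  have h5 := Nat.le_of_dvd (Int.natAbs_pos.2 hj) (h4.dvd_of_dvd_mul_right h3)
  have h6 := Nat.lt_pow_self hl.one_lt (n := t)
  omega

end ValWS

section Setting

variable {F₀ F Γ : Type} [Field F₀] [Field F] [Algebra F₀ F] [LinearOrderedCommGroupWithZero Γ]
  (ν : Valuation F Γ) {g : Γ}

theorem val_pow_factorial (hg : 1 < g)
    (h₀ : ∀ z : F₀, z ≠ 0 → ∃ j : ℤ, ν (algebraMap F₀ F z) = g ^ j) {z : F} (hz : z ≠ 0)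
    (f : F₀[X]) (hf : f ≠ 0) (hfz : aeval z f = 0) {D : ℕ} (hD : f.natDegree ≤ D) :
    ∃ j : ℤ, ν z ^ D.factorial = g ^ j := by
  have hg0 : g ≠ 0 := (zero_lt_one.trans hg).ne'
  have hzv : ν z ≠ 0 := ν.ne_zero_iff.2 hz
  by_contra hcon
  have key : ∀ i j, i < j → j < f.natDegree + 1 → f.coeff i • z ^ i ≠ 0 → f.coeff j • z ^ j ≠ 0 →
      ν (f.coeff i • z ^ i) ≠ ν (f.coeff j • z ^ j) := by
    intro i j hij hj h1 h2 h3
    obtain ⟨a, ha⟩ := h₀ _ (left_ne_zero_of_smul h1)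
    obtain ⟨b, hb⟩ := h₀ _ (left_ne_zero_of_smul h2)
    rw [Algebra.smul_def, Algebra.smul_def, map_mul, map_mul, map_pow, map_pow, ha, hb] at h3
    have h4 : ν z ^ (j - i) = g ^ (a - b) := by
      rw [zpow_sub₀ hg0, eq_div_iff (zpow_ne_zero _ hg0)]
      refine mul_right_cancel₀ (pow_ne_zero i hzv) ?_
      rw [mul_right_comm, ← pow_add, Nat.sub_add_cancel hij.le, mul_comm]
      exact h3.symm
    obtain ⟨k, hk⟩ : j - i ∣ D.factorial := Nat.dvd_factorial (by omega) (by omega)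
    exact hcon ⟨(a - b) * k, by rw [hk, pow_mul, h4, zpow_mul, zpow_natCast]⟩
  rw [aeval_eq_sum_range] at hfz
  rcases val_sum_distinct ν (range (f.natDegree + 1)) (fun i => f.coeff i • z ^ i)
    (fun i hi j hj h1 h2 h3 => by
      rcases lt_trichotomy i j with h | h | h
      · exact absurd h3 (key i j h (mem_range.1 hj) h1 h2)
      · exact h
      · exact absurd h3.symm (key j i h (mem_range.1 hi) h2 h1)) with h | ⟨i, -, h1, h2⟩
  · have := h f.natDegree (mem_range.2 (by omega))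
    exact smul_ne_zero (leadingCoeff_ne_zero.2 hf) (pow_ne_zero _ hz) this
  · rw [hfz, map_zero] at h2
    exact h1 (ν.zero_iff.1 h2.symm)

theorem val_torsion [Algebra.IsAlgebraic F₀ F] (hg : 1 < g)
    (h₀ : ∀ z : F₀, z ≠ 0 → ∃ j : ℤ, ν (algebraMap F₀ F z) = g ^ j) {z : F} (hz : z ≠ 0) :
    ∃ N : ℕ, N ≠ 0 ∧ ∃ j : ℤ, ν z ^ N = g ^ j := by
  obtain ⟨f, hf, hfz⟩ := Algebra.IsAlgebraic.isAlgebraic (R := F₀) z
  exact ⟨_, Nat.factorial_ne_zero _, val_pow_factorial ν hg h₀ hz f hf hfz le_rfl⟩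

theorem val_arch [Algebra.IsAlgebraic F₀ F] (hg : 1 < g)
    (h₀ : ∀ z : F₀, z ≠ 0 → ∃ j : ℤ, ν (algebraMap F₀ F z) = g ^ j) (x y : F) (hx : ν x < 1)
    (hy : y ≠ 0) : ∃ k, ν x ^ k < ν y := by
  by_cases hx0 : x = 0
  · exact ⟨1, by rw [hx0, map_zero, pow_one]; exact ν.pos_iff.2 hy⟩
  obtain ⟨N, hN, j, h⟩ := val_torsion ν hg h₀ hx0
  obtain ⟨N', hN', j', h'⟩ := val_torsion ν hg h₀ hy
  have hj : j < 0 := by
    have : g ^ j < g ^ (0 : ℤ) := by rw [← h, zpow_zero]; exact pow_lt_one₀ zero_le hx hN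
    exact (zpow_lt_zpow_iff_right₀ hg).1 this
  refine ⟨N * (j'.natAbs + 1), lt_of_pow_lt_pow_left₀ N' zero_le ?_⟩
  rw [h', pow_mul, h, ← zpow_natCast, ← zpow_natCast, ← zpow_mul, ← zpow_mul,
    zpow_lt_zpow_iff_right₀ hg]
  have h1 : (1 : ℤ) ≤ N' := by exact_mod_cast Nat.pos_of_ne_zero hN'
  have h2 : -(j'.natAbs : ℤ) ≤ j' := by omega
  have h3 : (0 : ℤ) ≤ j'.natAbs := by omega
  push_cast at *
  nlinarith [mul_le_mul_of_nonneg_left h1 (by linarith : (0 : ℤ) ≤ |j'| + 1)]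

theorem eventually_growth {p q : ℕ} (hp : 0 < p) (hpq : p < q) (k : ℕ) :
    ∃ T, ∀ t, T ≤ t → k * p ^ t < q ^ t := by
  obtain ⟨n, hn⟩ := growth hp hpq (k + 1)
  have h1 := (Nat.le_div_iff_mul_le (pow_pos hp _)).1 hn
  refine ⟨n + 1, fun t ht => ?_⟩
  induction t, ht using Nat.le_induction with
  | base => nlinarith [pow_pos hp (n + 1), Nat.zero_le (n * (k + 1) * p ^ (n + 1))]
  | succ t _ ih =>
    rw [pow_succ, pow_succ, ← mul_assoc]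
    exact Nat.mul_lt_mul'' ih hpq

theorem long_tail [IsAlgClosed F] [Algebra.IsAlgebraic F₀ F] (hg : 1 < g)
    (h₀ : ∀ z : F₀, z ≠ 0 → ∃ j : ℤ, ν (algebraMap F₀ F z) = g ^ j) {p q : ℕ} (hp : 2 ≤ p)
    (hpq : p < q) (h : p.Coprime q) (hνp : ν (p : F) = 1) (hνq : ν (q : F) = 1) {a : F} (b : F)
    (ha : 1 < ν a) : ∃ T, ∀ (ξ ξ' η y d : F) (t t' r : ℕ), T ≤ t → ξ ^ p = 1 → ξ ≠ 1 →
      ξ' ^ p = 1 → (ξ' ≠ 1 ∨ t' = 0) → η ^ q ^ r = 1 → (d = b - η * a ∨ d = 0) →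
      y ∈ WS p q a ξ t → η * y + d ∈ WS p q b ξ' t' → d = 0 ∧ t' ≠ 0 := by
  classical
  have hp0 : 0 < p := by omega
  have hq0 : 0 < q := by omega
  have hg0 : g ≠ 0 := (zero_lt_one.trans hg).ne'
  have ha0 : a ≠ 0 := by rintro rfl; simp at ha
  obtain ⟨l, hl, hlp⟩ := Nat.exists_prime_and_dvd (n := p) (by omega)
  have hlq : ¬ l ∣ q := fun h1 => hl.one_lt.ne' (Nat.eq_one_of_dvd_coprimes h hlp h1)
  let K := IntermediateField.adjoin F₀ {a, b}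
  have : FiniteDimensional F₀ K := IntermediateField.finiteDimensional_adjoin fun x _ =>
    (Algebra.IsAlgebraic.isAlgebraic x).isIntegral
  obtain ⟨s₀, N₀, hN₀, hs₀⟩ := Nat.exists_eq_pow_mul_and_not_dvd
    (Nat.factorial_ne_zero (Module.finrank F₀ K)) l hl.one_lt.ne'
  have hK : ∀ z ∈ K.toSubfield, z ≠ 0 → ν z ∈ GS g l s₀ := by
    intro z hz hz0
    have hi : IsIntegral F₀ (⟨z, hz⟩ : K) := Algebra.IsIntegral.isIntegral _
    obtain ⟨j, hj⟩ := val_pow_factorial ν hg h₀ hz0 (minpoly F₀ (⟨z, hz⟩ : K)) (minpoly.ne_zero hi)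
      (by
        have := aeval_algebraMap_apply F (⟨z, hz⟩ : K) (minpoly F₀ (⟨z, hz⟩ : K))
        rw [minpoly.aeval, map_zero] at this
        exact this) (minpoly.natDegree_le _)
    exact ⟨N₀, hN₀, j, by rw [← hj, hs₀, mul_comm]⟩
  have haK : a ∈ K.toSubfield := IntermediateField.subset_adjoin F₀ _ (by simp)
  have hbK : b ∈ K.toSubfield := IntermediateField.subset_adjoin F₀ _ (by simp)
  obtain ⟨T₁, hT₁⟩ := not_mem_GS hg hl hlp hlq ha (hK a haK ha0)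
  obtain ⟨k, hk⟩ : ∃ k, ν b ≤ ν a ^ k ∧ 1 ≤ k := by
    by_cases hb : b = 0
    · exact ⟨1, by simp [hb], le_rfl⟩
    obtain ⟨k, hk⟩ := val_arch ν hg h₀ a⁻¹ b⁻¹ (by rw [map_inv₀]; exact inv_lt_one_of_one_lt₀ ha)
      (inv_ne_zero hb)
    rw [map_inv₀, map_inv₀, inv_pow, inv_lt_inv₀ (pow_pos (zero_lt_one.trans ha) _)
      (ν.pos_iff.2 hb)] at hk
    exact ⟨k + 1, hk.le.trans (pow_le_pow_right₀ ha.le (by omega)), by omega⟩
  obtain ⟨T₂, hT₂⟩ := eventually_growth hp0 hpq k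
  refine ⟨max (max T₁ T₂) 1, fun ξ ξ' η y d t t' r ht hξ hξ1 hξ' hξ1' hη hdd hy hy' => ?_⟩
  obtain ⟨-, -, hyv⟩ := WS_val ν hp0 hpq hνp ha hξ hξ1 t y hy
  have hyG : ν y ∉ GS g l s₀ := hT₁ t (le_of_max_le_left (le_of_max_le_left ht)) _ hyv
  have hyk : ν a ^ k < ν y := by
    refine lt_of_pow_lt_pow_left₀ (p ^ t) zero_le ?_
    rw [hyv, ← pow_mul]
    exact pow_lt_pow_right₀ ha (hT₂ t (le_of_max_le_right (le_of_max_le_left ht)))
  have hη1 : ν η = 1 := val_root_one ν (pow_pos hq0 r) hη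
  have hd : ν d < ν y := by
    rcases hdd with rfl | rfl
    · refine lt_of_le_of_lt (ν.map_sub_le hk.1 ?_) hyk
      rw [map_mul, hη1, one_mul]
      exact le_self_pow₀ ha.le (by omega)
    · rw [map_zero]; exact zero_le.trans_lt hyk
  have hy'v : ν (η * y + d) = ν y := by
    rw [ν.map_add_eq_of_lt_left (by rwa [map_mul, hη1, one_mul]), map_mul, hη1, one_mul]
  have hb : 1 < ν b := by
    by_contra hb
    have := WS_val_le_one ν hp0 hpq (not_lt.1 hb) hξ' t' _ hy'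
    rw [hy'v] at this
    exact absurd ((one_le_pow₀ ha.le).trans_lt hyk) (not_lt.2 this)
  have hb0 : b ≠ 0 := by rintro rfl; simp at hb
  have ht' : t' ≠ 0 := by
    rintro rfl
    have := WS_val_zero ν hp0 hpq hb hξ' hy'
    rw [hy'v] at this
    exact hyG (this ▸ hK b hbK hb0)
  refine ⟨?_, ht'⟩
  replace hξ1' := hξ1'.resolve_right ht'
  obtain ⟨t, rfl⟩ : ∃ t₀, t = t₀ + 1 := ⟨t - 1, by have := le_of_max_le_right ht; omega⟩
  obtain ⟨t', rfl⟩ : ∃ t₀, t' = t₀ + 1 := ⟨t' - 1, by omega⟩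
  obtain ⟨x, rfl, hx⟩ := hy
  obtain ⟨w, hw, hw'⟩ := hy'
  have hx0 : x ≠ 0 := by
    rintro rfl
    rw [zero_pow hq0.ne', map_zero] at hyk
    exact absurd hyk (not_lt.2 zero_le)
  have hwx : ν w = ν x := (pow_left_inj₀ zero_le zero_le hq0.ne').1
    (by rw [← map_pow, hw, hy'v, map_pow])
  have hex : ∃ s, ν x ∈ GS g l s := by
    obtain ⟨N, hN, j, hj⟩ := val_torsion ν hg h₀ hx0
    obtain ⟨s, hs⟩ := GS_of_pow (g := g) hl (x := ν x) hN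
    exact ⟨s, hs j hj⟩
  have hlt : s₀ < Nat.find hex := by
    by_contra hle
    have h1 := GS_mono (not_lt.1 hle) (Nat.find_spec hex)
    refine hyG ?_
    rw [map_pow]
    obtain ⟨M, -, hM⟩ := exists_maxF ν (GS_one hl s₀) (GS_mul hg0 hl s₀) GS_inv
      (val_arch ν hg h₀) _ hK
    exact hM.pow_mem h1 q
  obtain ⟨s, hs⟩ : ∃ s, Nat.find hex = s + 1 := ⟨Nat.find hex - 1, by omega⟩
  have hxs : ν x ^ p ∈ GS g l s := GS_succ (hs ▸ Nat.find_spec hex) hlp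
  have hxn : ν x ∉ GS g l s := Nat.find_min hex (by omega)
  obtain ⟨M, hKM, hM⟩ := exists_maxF ν (GS_one hl s) (GS_mul hg0 hl s) GS_inv
    (val_arch ν hg h₀) _ (fun z hz hz0 => GS_mono (by omega) (hK z hz hz0))
  have hpM : ∀ {c ξ x : F} {t : ℕ}, c ∈ M → 1 < ν c → ξ ^ p = 1 → ξ ≠ 1 →
      x ^ p + c ∈ WS p q c ξ t → ν x ^ p ∈ GS g l s → x ^ p ∈ M := by
    intro c ξ x t hc hc1 hξ hξ1 hx hxs
    obtain ⟨-, h2, -⟩ := WS_val ν hp0 hpq hνp hc1 hξ hξ1 t _ hx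
    rw [add_sub_cancel_right, map_pow] at h2
    have h3 := M.sub_mem (hM.WS_mem hp0 hpq hνp hνq (GS_root hl hlq) hc hc1 hξ hξ1 t _ hx
      (h2 ▸ hxs)) hc
    rwa [add_sub_cancel_right] at h3
  have h1 := hpM (hKM haK) ha hξ hξ1 hx hxs
  have h2 := hpM (hKM hbK) hb hξ' hξ1' hw' (hwx ▸ hxs)
  have h3 : w / x ∈ M := hM.mem_of_pow hp0 hνp (by rw [div_pow]; exact M.div_mem h2 h1)
    (by rw [map_div₀, hwx, div_self (ν.ne_zero_iff.2 hx0)]; exact hM.one)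
  have h4 : η ∈ M := hM.mem_of_pow (pow_pos hq0 r)
    (by rw [Nat.cast_pow, map_pow, hνq, one_pow]) (hη ▸ M.one_mem) (hη1 ▸ hM.one)
  by_contra hne
  have hdM : d ∈ M := by
    rcases hdd with rfl | rfl
    · exact M.sub_mem (hKM hbK) (M.mul_mem h4 (hKM haK))
    · exact M.zero_mem
  have h5 : ((w / x) ^ q - η) * x ^ q = d := by
    rw [div_pow, hw]; field_simp; ring
  have h6 : (w / x) ^ q - η ≠ 0 := by
    intro h0
    rw [h0, zero_mul] at h5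
    exact hne h5.symm
  have h7 : x ^ q ∈ M := by
    have := M.div_mem hdM (M.sub_mem (M.pow_mem h3 q) h4)
    rwa [← h5, mul_div_cancel_left₀ _ h6] at this
  exact hxn (GS_root hl hlq _ (by rw [← map_pow]; exact hM.val _ h7 (pow_ne_zero _ hx0)))

theorem long_tail_eq [IsAlgClosed F] [Algebra.IsAlgebraic F₀ F] (hg : 1 < g)
    (h₀ : ∀ z : F₀, z ≠ 0 → ∃ j : ℤ, ν (algebraMap F₀ F z) = g ^ j) {p q : ℕ} (hp : 2 ≤ p)
    (hpq : p < q) (h : p.Coprime q) (hνp : ν (p : F) = 1) (hνq : ν (q : F) = 1) {a : F} (b : F)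
    (ha : 1 < ν a) : ∃ T, ∀ (ξ ξ' y : F) (t t' : ℕ), T ≤ t → ξ ^ p = 1 → ξ ≠ 1 → ξ' ^ p = 1 →
      (ξ' ≠ 1 ∨ t' = 0) → y ∈ WS p q a ξ t → y ∈ WS p q b ξ' t' → a = b := by
  obtain ⟨T, hT⟩ := long_tail ν hg h₀ hp hpq h hνp hνq b ha
  have hq0 : 0 < q := by omega
  have ha0 : a ≠ 0 := by rintro rfl; simp at ha
  refine ⟨T + 2, fun ξ ξ' y t t' ht hξ hξ1 hξ' hξ1' hy hy' => ?_⟩
  obtain ⟨t, rfl⟩ : ∃ t₀, t = t₀ + 2 := ⟨t - 2, by omega⟩
  have hnz : ∀ t, ∀ x : F, x ^ q ∈ WS p q a ξ t → x ≠ 0 := by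
    rintro t x hx rfl
    have := (WS_val ν (by omega) hpq hνp ha hξ hξ1 t _ hx).1
    rw [zero_pow hq0.ne', map_zero] at this
    exact absurd (ha.trans_le this) (not_lt.2 zero_le)
  cases t' with
  | zero =>
    exact absurd rfl (hT ξ ξ' 1 y 0 (t + 2) 0 0 (by omega) hξ hξ1 hξ' hξ1' (one_pow _) (Or.inr rfl)
      hy (by simpa using hy')).2
  | succ t' =>
    replace hξ1' := hξ1'.resolve_right (by omega)
    have hy0 := hy
    obtain ⟨x, rfl, hx⟩ := hy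
    obtain ⟨w, hw, hw'⟩ := hy'
    have hx0 := hnz _ x hy0
    have e1 : (w / x) ^ p * (x ^ p + a) + (b - (w / x) ^ p * a) = w ^ p + b := by
      rw [div_pow]; field_simp; ring
    have r1 : (w / x) ^ q = 1 := by rw [div_pow, hw, div_self (pow_ne_zero _ hx0)]
    obtain ⟨h1, ht'⟩ := hT ξ ξ' ((w / x) ^ p) _ _ (t + 1) t' 1 (by omega) hξ hξ1 hξ' (Or.inl hξ1')
      (by rw [pow_one, ← pow_mul, mul_comm, pow_mul, r1, one_pow]) (Or.inl rfl) hx (e1 ▸ hw')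
    obtain ⟨t', rfl⟩ : ∃ t₀, t' = t₀ + 1 := ⟨t' - 1, by omega⟩
    have hx1 := hx
    obtain ⟨x₁, hx₁, hx'⟩ := hx
    obtain ⟨w₁, hw₁, hw''⟩ := hw'
    have hx10 := hnz _ x₁ (hx₁ ▸ hx1)
    have e2 : (w₁ / x₁) ^ p * (x₁ ^ p + a) + (b - (w₁ / x₁) ^ p * a) = w₁ ^ p + b := by
      rw [div_pow]; field_simp; ring
    have r2 : (w₁ / x₁) ^ q = (w / x) ^ p := by
      rw [div_pow, div_eq_iff (pow_ne_zero _ hx10), hw₁, hx₁, ← e1, h1]; ring
    have r3 : (w₁ / x₁) ^ (q * q) = 1 := by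
      rw [pow_mul, r2, ← pow_mul, mul_comm, pow_mul, r1, one_pow]
    obtain ⟨h2, -⟩ := hT ξ ξ' ((w₁ / x₁) ^ p) _ _ t t' 2 (by omega) hξ hξ1 hξ' (Or.inl hξ1')
      (by rw [pow_two, ← pow_mul, mul_comm, pow_mul, r3, one_pow]) (Or.inl rfl) hx' (e2 ▸ hw'')
    have h3 : (w₁ / x₁) ^ q = (w₁ / x₁) ^ p := by
      rw [r2]; exact mul_right_cancel₀ ha0 (by linear_combination h2 - h1)
    have hcq : (q - p).Coprime q := ((Nat.coprime_self_sub_right hpq.le).2 h.symm).symm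
    have h4 := eq_one_of_pow hpq.le h3 r3 (by positivity) (hcq.mul_right hcq)
    rw [h4] at h2
    linear_combination -h2

end Setting

end Pool.Agent.MP_09973c_nt.H31
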