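import Mathlib

/-!
Specialisation of complex numbers: a subring `O` of the complex numbers with a family of ring
homomorphisms to the complex numbers that plays the role of the product formula.
-/

set_option autoImplicit false

namespace Pool.Agent.MP_09973c_nt.H31

open Polynomial

/-- A homomorphism to the complex numbers extends along an integral ring map. -/
theorem ext_hom {A B : Type} [CommRing A] [CommRing B] [Algebra A B] [Algebra.IsIntegral A B]
    (θ : A →+* ℂ) (hker : RingHom.ker (algebraMap A B) ≤ RingHom.ker θ) :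
    ∃ φ : B →+* ℂ, ∀ x, φ (algebraMap A B x) = θ x := by
  haveI : (RingHom.ker θ).IsPrime := RingHom.ker_isPrime θ
  obtain ⟨Q, -, hQ, hQP⟩ := Ideal.exists_ideal_over_prime_of_isIntegral (S := B)
    (RingHom.ker θ) ⊥ (by rw [← RingHom.ker_eq_comap_bot]; exact hker)
  haveI := hQ
  haveI : Q.LiesOver (RingHom.ker θ) := ⟨hQP.symm⟩
  letI : Algebra (A ⧸ RingHom.ker θ) ℂ := (RingHom.kerLift θ).toAlgebra
  haveI : FaithfulSMul (A ⧸ RingHom.ker θ) ℂ :=
    (faithfulSMul_iff_algebraMap_injective _ _).2 (RingHom.kerLift_injective θ)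
  haveI : FaithfulSMul (A ⧸ RingHom.ker θ) (B ⧸ Q) := inferInstance
  haveI : Module.IsTorsionFree (A ⧸ RingHom.ker θ) (B ⧸ Q) :=
    Module.isTorsionFree_iff_faithfulSMul.2 inferInstance
  haveI : Algebra.IsIntegral (A ⧸ RingHom.ker θ) (B ⧸ Q) := inferInstance
  haveI : Algebra.IsAlgebraic (A ⧸ RingHom.ker θ) (B ⧸ Q) := inferInstance
  let f : (B ⧸ Q) →ₐ[A ⧸ RingHom.ker θ] ℂ := IsAlgClosed.lift
  refine ⟨f.toRingHom.comp (Ideal.Quotient.mk Q), fun x => ?_⟩
  have h1 : Ideal.Quotient.mk Q (algebraMap A B x)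
      = algebraMap (A ⧸ RingHom.ker θ) (B ⧸ Q) (Ideal.Quotient.mk _ x) := rfl
  simp only [RingHom.coe_comp, Function.comp_apply, h1]
  have := f.commutes (Ideal.Quotient.mk _ x)
  exact this.trans (RingHom.kerLift_mk θ x)

theorem exists_circle_of_one_le (G : ℂ[X]) (h : 1 ≤ ‖G.eval 0‖) :
    ∃ z : ℂ, ‖z‖ = 1 ∧ 1 ≤ ‖G.eval z‖ := by
  obtain ⟨z, hz, hmax⟩ := Complex.exists_mem_frontier_isMaxOn_norm (f := fun z => G.eval z)
    (U := Metric.ball (0 : ℂ) 1) Metric.isBounded_ball ⟨0, by simp⟩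
    (G.differentiable.diffContOnCl)
  rw [frontier_ball _ one_ne_zero] at hz
  refine ⟨z, by simpa using hz, h.trans ?_⟩
  exact hmax (subset_closure (by simp))

theorem torus_fin (n : ℕ) (c : MvPolynomial (Fin n) ℤ) (hc : c ≠ 0) :
    ∃ τ : Fin n → ℂ, (∀ i, ‖τ i‖ ≤ 1) ∧ 1 ≤ ‖MvPolynomial.aeval τ c‖ := by
  induction n with
  | zero =>
    obtain ⟨m, rfl⟩ := MvPolynomial.C_surjective (Fin 0) c
    have hm : m ≠ 0 := by rintro rfl; simp at hc
    refine ⟨fun _ => 0, by simp, ?_⟩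
    simp only [eq_intCast, map_intCast, Complex.norm_intCast]
    exact_mod_cast Int.one_le_abs hm
  | succ n ih =>
    set F := MvPolynomial.finSuccEquiv ℤ n c with hF
    have hF0 : F ≠ 0 := by
      intro h; apply hc
      exact (MvPolynomial.finSuccEquiv ℤ n).injective (by rw [← hF, h, map_zero])
    obtain ⟨G, hG, hnd⟩ := exists_eq_pow_rootMultiplicity_mul_and_not_dvd F hF0 0
    have hG0 : G.coeff 0 ≠ 0 := by
      intro h; apply hnd; simpa [X_dvd_iff] using h
    obtain ⟨τ, hτ, h1⟩ := ih _ hG0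
    obtain ⟨z, hz, h2⟩ := exists_circle_of_one_le
      (G.map (MvPolynomial.aeval τ : MvPolynomial (Fin n) ℤ →ₐ[ℤ] ℂ).toRingHom)
      (by rw [← coeff_zero_eq_eval_zero, coeff_map]; exact h1)
    have key : ∀ c : MvPolynomial (Fin (n + 1)) ℤ,
        MvPolynomial.aeval (Fin.cons z τ : Fin (n + 1) → ℂ) c =
        ((MvPolynomial.finSuccEquiv ℤ n c).map
          (MvPolynomial.aeval τ : MvPolynomial (Fin n) ℤ →ₐ[ℤ] ℂ).toRingHom).eval z := by
      intro c
      induction c using MvPolynomial.induction_on with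
      | C a => simp
      | add p q hp hq => simp only [map_add, hp, hq, Polynomial.map_add, eval_add]
      | mul_X p i hp =>
        simp only [map_mul, hp, Polynomial.map_mul, eval_mul]
        congr 1
        refine Fin.cases ?_ (fun j => ?_) i
        · simp [MvPolynomial.finSuccEquiv_X_zero]
        · simp [MvPolynomial.finSuccEquiv_X_succ]
    refine ⟨Fin.cons z τ, fun i => Fin.cases (by simp [hz]) (fun j => by simpa using hτ j) i, ?_⟩
    rw [key, ← hF, hG]
    simp only [Polynomial.map_mul, Polynomial.map_pow, Polynomial.map_sub, map_X, map_C, map_zero,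
      eval_mul, eval_pow, eval_sub, eval_X, eval_C, sub_zero, norm_mul, norm_pow, hz, one_pow,
      one_mul]
    simpa using h2

theorem torus {ι : Type} (c : MvPolynomial ι ℤ) (hc : c ≠ 0) :
    ∃ τ : ι → ℂ, (∀ i, ‖τ i‖ ≤ 1) ∧ 1 ≤ ‖MvPolynomial.aeval τ c‖ := by
  classical
  obtain ⟨n, f, hf, q, rfl⟩ := MvPolynomial.exists_fin_rename c
  have hq : q ≠ 0 := by rintro rfl; simp at hc
  obtain ⟨τ, hτ, h1⟩ := torus_fin n q hq
  refine ⟨Function.extend f τ 0, fun i => ?_, ?_⟩
  · by_cases h : ∃ j, f j = i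
    · obtain ⟨j, rfl⟩ := h
      rw [hf.extend_apply]; exact hτ j
    · rw [Function.extend_apply' _ _ _ h]; simp
  · rw [MvPolynomial.aeval_rename]
    have : Function.extend f τ 0 ∘ f = τ := funext fun j => hf.extend_apply _ _ j
    rw [this]; exact h1

theorem exists_root_one_le (F : ℂ[X]) (hF : F.Monic) (hd : 0 < F.natDegree)
    (h : 1 ≤ ‖F.coeff 0‖) : ∃ z : ℂ, F.eval z = 0 ∧ 1 ≤ ‖z‖ := by
  by_contra hcon
  push Not at hcon
  have hs := IsAlgClosed.splits F
  have h0 := hs.coeff_zero_eq_prod_roots_of_monic hF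
  have hcard : F.roots.card = F.natDegree := hs.natDegree_eq_card_roots.symm
  rw [h0, norm_mul, norm_pow, norm_neg, norm_one, one_pow, one_mul] at h
  have hlt : ∀ s : Multiset ℂ, (∀ z ∈ s, ‖z‖ < 1) → s ≠ 0 → ‖s.prod‖ < 1 := by
    intro s
    induction s using Multiset.induction_on with
    | empty => simp
    | cons a s ih =>
      intro hz _
      have ha : ‖a‖ < 1 := hz a (by simp)
      rw [Multiset.prod_cons, norm_mul]
      by_cases hs0 : s = 0
      · simpa [hs0] using ha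
      · have := ih (fun z hz' => hz z (by simp [hz'])) hs0
        nlinarith [norm_nonneg a, norm_nonneg s.prod]
  have := hlt F.roots (fun z hz => hcon z (isRoot_of_mem_roots hz))
    (by intro h0; rw [h0] at hcard; simp at hcard; omega)
  linarith

theorem norm_root_le (F : ℂ[X]) (hF : F.Monic) (R : ℝ) (hR : ∀ i, ‖F.coeff i‖ ≤ R) (z : ℂ)
    (hz : F.eval z = 0) : ‖z‖ ≤ R + 1 := by
  have := IsRoot.norm_lt_cauchyBound hF.ne_zero hz
  have h2 : (cauchyBound F : ℝ) ≤ R + 1 := by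
    have hR0 : 0 ≤ R := (norm_nonneg _).trans (hR 0)
    unfold cauchyBound
    rw [hF.leadingCoeff, nnnorm_one, div_one]
    have : (Finset.range F.natDegree).sup (fun i => ‖F.coeff i‖₊) ≤ ⟨R, hR0⟩ :=
      Finset.sup_le fun i _ => hR i
    push_cast
    have h3 : (((Finset.range F.natDegree).sup (fun i => ‖F.coeff i‖₊) : NNReal) : ℝ) ≤ R := this
    linarith
  have h4 : ‖z‖ < (cauchyBound F : ℝ) := this
  linarith

/-- The data replacing the product formula. -/
structure SpecData where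
  O : Subring ℂ
  Φ : Set (O →+* ℂ)
  closed : ∀ z : ℂ, IsIntegral O z → z ∈ O
  denom : ∀ s : ℂ, ∃ D : O, D ≠ 0 ∧ (D : ℂ) * s ∈ O
  bdd : ∀ z : O, ∃ R : ℝ, ∀ φ ∈ Φ, ‖φ z‖ ≤ R
  big : ∀ z : O, z ≠ 0 → ∃ φ ∈ Φ, 1 ≤ ‖φ z‖

theorem spec_of {P : Type} [CommRing P] [IsDomain P] [IsIntegrallyClosed P] [Algebra P ℂ]
    [FaithfulSMul P ℂ] [Algebra.IsAlgebraic P ℂ] (Θ : Set (P →+* ℂ))
    (h1 : ∀ c : P, c ≠ 0 → ∃ θ ∈ Θ, 1 ≤ ‖θ c‖) (h2 : ∀ c : P, ∃ R : ℝ, ∀ θ ∈ Θ, ‖θ c‖ ≤ R) :
    Nonempty SpecData := by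
  let B := integralClosure P ℂ
  refine ⟨⟨B.toSubring, {φ | ∃ θ ∈ Θ, ∀ c, φ (algebraMap P B c) = θ c}, ?_, ?_, ?_, ?_⟩⟩
  · intro z hz
    have hz' : IsIntegral B z := hz
    exact isIntegral_trans (R := P) (A := B) z hz'
  · intro s
    obtain ⟨y, hy, hi⟩ := (Algebra.IsAlgebraic.isAlgebraic (R := P) s).exists_integral_multiple
    refine ⟨algebraMap P B y, ?_, ?_⟩
    · intro h
      apply hy
      have : algebraMap P ℂ y = 0 := congrArg Subtype.val h
      exact (FaithfulSMul.algebraMap_injective P ℂ) (by rw [this, map_zero])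
    · rw [Algebra.smul_def] at hi
      exact hi
  · intro z
    have hz : IsIntegral P (show B from z) := integralClosure.isIntegral _
    obtain ⟨F, hF, hFz⟩ := hz
    choose R hR using h2
    refine ⟨(∑ i ∈ Finset.range (F.natDegree + 1), |R (F.coeff i)|) + 1, ?_⟩
    rintro φ ⟨θ, hθ, hφ⟩
    have hc : θ = (show B →+* ℂ from φ).comp (algebraMap P B) := RingHom.ext fun c => (hφ c).symm
    refine norm_root_le (F.map θ) (hF.map θ) _ (fun i => ?_) _ ?_
    · rw [coeff_map]
      by_cases hi : i ≤ F.natDegree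
      · refine (hR _ θ hθ).trans ((le_abs_self _).trans ?_)
        exact Finset.single_le_sum (f := fun i => |R (F.coeff i)|) (fun _ _ => abs_nonneg _)
          (Finset.mem_range.2 (by omega))
      · rw [coeff_eq_zero_of_natDegree_lt (by omega), map_zero, norm_zero]
        positivity
    · rw [eval_map, hc]
      have := hom_eval₂ F (algebraMap P B) (show B →+* ℂ from φ) (show B from z)
      rw [hFz, map_zero] at this
      exact this.symm
  · intro z hz0
    let α : B := z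
    have hα : IsIntegral P α := integralClosure.isIntegral _
    have hα0 : α ≠ 0 := hz0
    have hm := minpoly.monic hα
    have hc0 : (minpoly P α).coeff 0 ≠ 0 := by
      intro h
      obtain ⟨G, hG⟩ := X_dvd_iff.2 h
      have hG0 : aeval α G = 0 := by
        have := minpoly.aeval P α
        rw [hG, map_mul, aeval_X] at this
        exact (mul_eq_zero.1 this).resolve_left hα0
      have hGne : G ≠ 0 := by
        rintro rfl; exact hm.ne_zero (by rw [hG, mul_zero])
      have hd := natDegree_le_of_dvd (minpoly.isIntegrallyClosed_dvd hα hG0) hGne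
      rw [hG, natDegree_X_mul hGne] at hd
      omega
    obtain ⟨θ, hθ, hθ1⟩ := h1 _ hc0
    obtain ⟨ζ, hζ, hζ1⟩ := exists_root_one_le ((minpoly P α).map θ) (hm.map θ)
      (by rw [hm.natDegree_map]; exact minpoly.natDegree_pos hα) (by rw [coeff_map]; exact hθ1)
    letI : Algebra P[X] B := (aeval α : P[X] →ₐ[P] B).toRingHom.toAlgebra
    haveI : IsScalarTower P P[X] B := IsScalarTower.of_algebraMap_eq fun c => by
      change _ = aeval α (C c)
      simp
    haveI : Algebra.IsIntegral P[X] B := ⟨fun x => (integralClosure.isIntegral x).tower_top⟩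
    obtain ⟨φ, hφ⟩ := ext_hom (A := P[X]) (B := B) (eval₂RingHom θ ζ) (by
      intro G hG
      have hG' : aeval α G = 0 := hG
      obtain ⟨H, rfl⟩ := minpoly.isIntegrallyClosed_dvd hα hG'
      rw [RingHom.mem_ker, map_mul]
      have : eval₂RingHom θ ζ (minpoly P α) = 0 := by
        rw [coe_eval₂RingHom, ← eval_map]; exact hζ
      rw [this, zero_mul])
    refine ⟨φ, ⟨θ, hθ, fun c => ?_⟩, ?_⟩
    · have := hφ (C c)
      rw [coe_eval₂RingHom, eval₂_C] at this
      rw [← this]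
      congr 1
      change _ = aeval α (C c)
      simp
    · have := hφ X
      rw [coe_eval₂RingHom, eval₂_X] at this
      have h3 : algebraMap P[X] B X = α := aeval_X α
      rw [h3] at this
      have h4 : φ α = ζ := this
      change 1 ≤ ‖φ α‖
      rw [h4]; exact hζ1

theorem exists_spec : Nonempty SpecData := by
  obtain ⟨ι, x, hx⟩ := exists_isTranscendenceBasis' ℤ ℂ
  letI : Algebra (MvPolynomial ι ℤ) ℂ :=
    (MvPolynomial.aeval x : MvPolynomial ι ℤ →ₐ[ℤ] ℂ).toRingHom.toAlgebra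
  haveI : FaithfulSMul (MvPolynomial ι ℤ) ℂ :=
    (faithfulSMul_iff_algebraMap_injective _ _).2 hx.1
  haveI : Algebra.IsAlgebraic (MvPolynomial ι ℤ) ℂ := ⟨fun z => by
    have h := hx.isAlgebraic.isAlgebraic z
    refine (IsAlgebraic.ringHom_of_comp_eq (f := (hx.1.aevalEquiv.symm : _ →+* _))
      (g := RingHom.id ℂ) h hx.1.aevalEquiv.symm.injective ?_)
    ext y
    obtain ⟨c, rfl⟩ := hx.1.aevalEquiv.surjective y
    simp only [RingHom.coe_comp, RingHom.coe_coe, Function.comp_apply, AlgEquiv.symm_apply_apply,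
      RingHom.id_apply]
    exact (hx.1.algebraMap_aevalEquiv c).symm⟩
  refine spec_of (P := MvPolynomial ι ℤ)
    {θ | ∃ τ : ι → ℂ, (∀ i, ‖τ i‖ ≤ 1) ∧
      θ = (MvPolynomial.aeval τ : MvPolynomial ι ℤ →ₐ[ℤ] ℂ).toRingHom} ?_ ?_
  · intro c hc
    obtain ⟨τ, hτ, h⟩ := torus c hc
    exact ⟨_, ⟨τ, hτ, rfl⟩, h⟩
  · intro c
    induction c using MvPolynomial.induction_on with
    | C a =>
      refine ⟨‖(a : ℂ)‖, ?_⟩
      rintro _ ⟨τ, -, rfl⟩
      simp
    | add p q hp hq =>
      obtain ⟨R, hR⟩ := hp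
      obtain ⟨S, hS⟩ := hq
      refine ⟨R + S, fun θ hθ => ?_⟩
      rw [map_add]
      exact (norm_add_le _ _).trans (add_le_add (hR θ hθ) (hS θ hθ))
    | mul_X p i hp =>
      obtain ⟨R, hR⟩ := hp
      refine ⟨R, fun θ hθ => ?_⟩
      have h := hR θ hθ
      obtain ⟨τ, hτ, rfl⟩ := hθ
      rw [map_mul, norm_mul]
      have : ‖(MvPolynomial.aeval τ : MvPolynomial ι ℤ →ₐ[ℤ] ℂ).toRingHom (MvPolynomial.X i)‖
          ≤ 1 := by simpa using hτ i
      nlinarith [norm_nonneg ((MvPolynomial.aeval τ : MvPolynomial ι ℤ →ₐ[ℤ] ℂ).toRingHom p),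
        norm_nonneg
          ((MvPolynomial.aeval τ : MvPolynomial ι ℤ →ₐ[ℤ] ℂ).toRingHom (MvPolynomial.X i))]

end Pool.Agent.MP_09973c_nt.H31
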