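import Pool.Agent.MP_09973c_nt.H31.Leaves
import Pool.Agent.MP_09973c_nt.H31.Spec

/-!
The main lemma: two towers with infinitely many bounded integral points related by an affine map
have the same centre.
-/

set_option autoImplicit false

namespace Pool.Agent.MP_09973c_nt.H31

open Polynomial Finset

theorem select {S : Type} [Infinite S] (N : ℕ) (u u' : Fin N → S → ℂ)
    (hu : ∀ g : Fin N → ℂ, g ≠ 0 → {x | ∑ k, g k * u k x = 0}.Finite)
    (hu' : ∀ g : Fin N → ℂ, g ≠ 0 → {x | ∑ k, g k * u' k x = 0}.Finite) :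
    ∃ pts : Fin N → S, (Matrix.of fun k i => u k (pts i)).det ≠ 0 ∧
      (Matrix.of fun k i => u' k (pts i)).det ≠ 0 := by
  induction N with
  | zero => exact ⟨Fin.elim0, by simp, by simp⟩
  | succ N ih =>
    have hres : ∀ u : Fin (N + 1) → S → ℂ,
        (∀ g : Fin (N + 1) → ℂ, g ≠ 0 → {x | ∑ k, g k * u k x = 0}.Finite) →
        ∀ g : Fin N → ℂ, g ≠ 0 → {x | ∑ k, g k * u k.succ x = 0}.Finite := by
      intro u hu g hg
      have := hu (Fin.cons 0 g) (fun h => hg (funext fun k => by simpa using congrFun h k.succ))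
      simpa [Fin.sum_univ_succ] using this
    obtain ⟨pts, h1, h2⟩ := ih (fun k => u k.succ) (fun k => u' k.succ) (hres u hu) (hres u' hu')
    have hstep : ∀ u : Fin (N + 1) → S → ℂ,
        (∀ g : Fin (N + 1) → ℂ, g ≠ 0 → {x | ∑ k, g k * u k x = 0}.Finite) →
        (Matrix.of fun k i => u k.succ (pts i)).det ≠ 0 →
        {x | (Matrix.of fun k i => u k ((Fin.cons x pts : Fin (N + 1) → S) i)).det = 0}.Finite := by
      intro u hu h
      refine (hu (fun k => (-1) ^ (k : ℕ) *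
        (Matrix.of fun j i => u (k.succAbove j) (pts i)).det) fun h0 => ?_).subset fun x hx => ?_
      · have := congrFun h0 0
        simp only [Fin.val_zero, pow_zero, Fin.succAbove_zero, one_mul, Pi.zero_apply] at this
        exact h this
      · simp only [Set.mem_ofPred_eq] at hx ⊢
        rw [Matrix.det_succ_column_zero] at hx
        rw [← hx]
        refine sum_congr rfl fun k _ => ?_
        have : (Matrix.of fun k i => u k ((Fin.cons x pts : Fin (N + 1) → S) i)).submatrix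
            k.succAbove Fin.succ = Matrix.of fun j i => u (k.succAbove j) (pts i) := by
          ext j i; simp
        rw [this]
        simp only [Matrix.of_apply, Fin.cons_zero]
        ring
    obtain ⟨x, hx⟩ := ((hstep u hu h1).union (hstep u' hu' h2)).infinite_compl.nonempty
    simp only [Set.mem_compl_iff, Set.mem_union, Set.mem_ofPred_eq, not_or] at hx
    exact ⟨Fin.cons x pts, hx.1, hx.2⟩

theorem map_bas {A B : Type} [CommRing A] [CommRing B] (φ : A →+* B) {r : ℕ → ℕ} {n : ℕ}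
    (l : Idx r n) (v : ℕ → A) : φ (bas l v) = bas l (fun k => φ (v k)) := by
  simp [bas]

theorem IsPath.map {A B : Type} [CommRing A] [CommRing B] (φ : A →+* B) {r s : ℕ → ℕ}
    {α β : ℕ → A} {n : ℕ} {v : ℕ → A} (h : IsPath r s α β n v) :
    IsPath r s (fun k => φ (α k)) (fun k => φ (β k)) n (fun k => φ (v k)) := by
  intro k hk
  have := congrArg φ (h k hk)
  simpa using this

theorem map_evMat_det {A B : Type} [CommRing A] [CommRing B] (φ : A →+* B) (r : ℕ → ℕ) (n T : ℕ)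
    (P : Fin T × Idx r n → ℕ → A) :
    φ (evMat r n T P).det = (evMat r n T fun i k => φ (P i k)).det := by
  classical
  rw [RingHom.map_det]
  congr 1
  ext k i
  simp [evMat, map_bas]

/-- One side of the main lemma. -/
structure Side (σ : SpecData) (S : Type) (Λ J : ℕ → ℕ) where
  r : ℕ → ℕ
  s : ℕ → ℕ
  α : ℕ → σ.O
  β : ℕ → σ.O
  m : ℕ
  P : S → ℕ → σ.O
  dep : ℕ → ℕ
  u : ℕ
  C : ℕ
  T₀ : ℕ
  R : ℝ
  hr : ∀ k, 0 < r k
  hs : ∀ k, 0 < s k
  hr2 : 2 ≤ r 0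
  hm : m.Coprime (r 0)
  path : ∀ x n, IsPath r s α β n (P x)
  hdep : ∀ n, 0 < dep n
  hu : 0 < u
  hΛ : ∀ n, lam r (dep n) * u = Λ n
  hC : ∀ n, ∑ k ∈ range (dep n), r k ≤ C * (n + 1)
  hw : ∀ n, m * J n * wt r s (dep n) 0 + ∑ k ∈ range (dep n), (r k - 1) * wt r s (dep n) k
    < (T₀ + 1) * lam r (dep n)
  fin : ∀ n (c : Idx r (dep n) → ℂ[X]), c ≠ 0 →
    {x | ∑ l, (c l).eval (P x (dep n) : ℂ) * bas l (fun k => (P x k : ℂ)) = 0}.Finite
  hR : 1 ≤ R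
  bdP : ∀ φ ∈ σ.Φ, ∀ x k, ‖φ (P x k)‖ ≤ R
  bdL : ∀ φ ∈ σ.Φ, ∀ n v, IsPath r s (fun k => φ (α k)) (fun k => φ (β k)) (dep n) v →
    ‖v (dep n)‖ ≤ 1 → ‖v 0‖ ≤ R

namespace Side

variable {σ : SpecData} {S : Type} {Λ J : ℕ → ℕ} (A : Side σ S Λ J)

theorem card_eq (K T n : ℕ) :
    Fintype.card (Fin (K * (T * A.u) + T * A.u) × Idx A.r (A.dep n)) = (K + 1) * (T * Λ n) := by
  rw [Fintype.card_prod, Fintype.card_fin, card_Idx, ← A.hΛ n]
  ring

noncomputable def eqv (K T n : ℕ) :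
    Fin (K * (T * A.u) + T * A.u) × Idx A.r (A.dep n) ≃ Fin ((K + 1) * (T * Λ n)) :=
  Fintype.equivFinOfCardEq (A.card_eq K T n)

noncomputable def dt (K T n : ℕ) (pts : Fin ((K + 1) * (T * Λ n)) → S) : σ.O :=
  (evMat A.r (A.dep n) _ fun i => A.P (pts (A.eqv K T n i))).det

noncomputable def fn (K T n : ℕ) (k : Fin ((K + 1) * (T * Λ n))) (x : S) : ℂ :=
  (A.P x (A.dep n) : ℂ) ^ (((A.eqv K T n).symm k).1 : ℕ)
    * bas ((A.eqv K T n).symm k).2 (fun j => (A.P x j : ℂ))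

theorem dt_ne_zero (K T n : ℕ) (pts : Fin ((K + 1) * (T * Λ n)) → S)
    (h : (Matrix.of fun k i => A.fn K T n k (pts i)).det ≠ 0) : A.dt K T n pts ≠ 0 := by
  classical
  intro h0
  apply h
  have h1 := map_evMat_det σ.O.subtype A.r (A.dep n) _ fun i => A.P (pts (A.eqv K T n i))
  have h2 : σ.O.subtype (A.dt K T n pts) = 0 := by rw [h0, map_zero]
  unfold dt at h2
  rw [h1] at h2
  rw [← Matrix.det_submatrix_equiv_self (A.eqv K T n), ← h2]
  congr 1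
  ext k i
  simp [fn, evMat]

theorem fn_fin (K T n : ℕ) (g : Fin ((K + 1) * (T * Λ n)) → ℂ) (hg : g ≠ 0) :
    {x | ∑ k, g k * A.fn K T n k x = 0}.Finite := by
  classical
  let c : Idx A.r (A.dep n) → ℂ[X] := fun l =>
    ∑ i : Fin (K * (T * A.u) + T * A.u), monomial (i : ℕ) (g (A.eqv K T n (i, l)))
  have hc : c ≠ 0 := by
    intro h0
    apply hg
    funext k
    obtain ⟨⟨i, l⟩, rfl⟩ := (A.eqv K T n).surjective k
    have := congrArg (fun F => coeff F i) (congrFun h0 l)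
    simp only [c, finsetSum_coeff, coeff_monomial, Pi.zero_apply, coeff_zero] at this
    rw [sum_eq_single i] at this
    · simpa using this
    · intro j _ hj
      rw [if_neg (fun h => hj (Fin.ext h))]
    · simp
  refine (A.fin n c hc).subset fun x hx => ?_
  simp only [Set.mem_ofPred_eq] at hx ⊢
  rw [← (A.eqv K T n).sum_comp, Fintype.sum_prod_type_right] at hx
  rw [← hx]
  refine sum_congr rfl fun l _ => ?_
  simp only [c, eval_finsetSum, eval_monomial, fn, Equiv.symm_apply_apply, sum_mul]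
  exact sum_congr rfl fun i _ => by ring

theorem bounds {C₀ : ℕ} (hΛC : ∀ n, Λ n ≤ C₀ ^ (n + 1)) (K T : ℕ) (hT : A.T₀ ≤ T) :
    ∃ G : ℝ, 1 ≤ G ∧ ∀ n, ∀ φ ∈ σ.Φ, ∀ pts : Fin ((K + 1) * (T * Λ n)) → S,
      ‖φ (A.dt K T n pts)‖ ≤ G ^ ((n + 1) * ((K + 1) * (T * Λ n))) ∧
      ((∀ k, φ (A.α k) ≠ 0) → ∀ (μ : ℂ) (ε : ℝ), ε < 1 → ‖μ‖ * A.R ^ A.m ≤ ε →
        ‖φ (A.dt K T n pts)‖ * ((1 - ε ^ 2) ^ K * (1 - ε)) ^ (J n * (T * Λ n))
          ≤ (∏ i, ‖μ * φ (A.P (pts i) 0) ^ A.m + 1‖) ^ J n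
            * G ^ ((n + 1) * ((K + 1) * (T * Λ n)))) := by
  classical
  have hR0 : 0 ≤ A.R := by linarith [A.hR]
  let G : ℝ := (((K + 1) * T * C₀ + 1 : ℕ) : ℝ) * A.R ^ (K * (T * A.u) + T * A.u + A.C)
  have hG1 : (1 : ℝ) ≤ (((K + 1) * T * C₀ + 1 : ℕ) : ℝ) := by exact_mod_cast Nat.le_add_left _ _
  refine ⟨G, one_le_mul_of_one_le_of_one_le hG1 (one_le_pow₀ A.hR), fun n φ hφ pts => ?_⟩
  obtain ⟨N, hN⟩ : ∃ N, N = (K + 1) * (T * Λ n) := ⟨_, rfl⟩
  let B : ℝ := (A.R ^ (K * (T * A.u) + T * A.u + A.C)) ^ (n + 1)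
  let Q : Fin (K * (T * A.u) + T * A.u) × Idx A.r (A.dep n) → ℕ → ℂ :=
    fun i k => φ (A.P (pts (A.eqv K T n i)) k)
  have hB : ∀ k i, ‖evMat A.r (A.dep n) _ Q k i‖ ≤ B := by
    intro k i
    simp only [evMat, Matrix.of_apply, bas, norm_mul, norm_pow, norm_prod]
    have h1 : ‖Q i (A.dep n)‖ ^ (k.1 : ℕ) ≤ A.R ^ (K * (T * A.u) + T * A.u) :=
      (pow_le_pow_left₀ (norm_nonneg _) (A.bdP φ hφ _ _) _).trans
        (pow_le_pow_right₀ A.hR k.1.2.le)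
    have h2 : ∏ j : Fin (A.dep n), ‖Q i j‖ ^ (k.2 j : ℕ) ≤ A.R ^ (A.C * (n + 1)) := by
      refine (prod_le_prod (g := fun j : Fin (A.dep n) => A.R ^ A.r j)
        (fun _ _ => by positivity) fun j _ => ?_).trans ?_
      · exact (pow_le_pow_left₀ (norm_nonneg _) (A.bdP φ hφ _ _) _).trans
          (pow_le_pow_right₀ A.hR (k.2 j).2.le)
      · rw [prod_pow_eq_pow_sum, Fin.sum_univ_eq_sum_range A.r]
        exact pow_le_pow_right₀ A.hR (A.hC n)
    refine (mul_le_mul h1 h2 (by positivity) (by positivity)).trans ?_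
    simp only [B]
    rw [← pow_add, ← pow_mul]
    refine pow_le_pow_right₀ A.hR ?_
    nlinarith [Nat.zero_le (n * (K * (T * A.u) + T * A.u))]
  have hfac : (N.factorial : ℝ) * B ^ N ≤ G ^ ((n + 1) * N) := by
    have h1 : N ≤ ((K + 1) * T * C₀ + 1) ^ (n + 1) := by
      calc N = (K + 1) * T * Λ n := by rw [hN]; ring
        _ ≤ ((K + 1) * T) ^ (n + 1) * C₀ ^ (n + 1) :=
          Nat.mul_le_mul (Nat.le_self_pow (by omega) _) (hΛC n)
        _ = ((K + 1) * T * C₀) ^ (n + 1) := by rw [← mul_pow]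
        _ ≤ _ := Nat.pow_le_pow_left (by omega) _
    have h2 : N.factorial ≤ (((K + 1) * T * C₀ + 1) ^ (n + 1)) ^ N :=
      (Nat.factorial_le_pow N).trans (Nat.pow_le_pow_left h1 _)
    have h3 : (N.factorial : ℝ) ≤ ((((K + 1) * T * C₀ + 1 : ℕ) : ℝ) ^ (n + 1)) ^ N := by
      exact_mod_cast h2
    simp only [G, B]
    rw [pow_mul _ (n + 1) N, mul_pow _ _ (n + 1), mul_pow _ _ N]
    gcongr
  have hdt : φ (A.dt K T n pts) = (evMat A.r (A.dep n) _ Q).det := map_evMat_det φ _ _ _ _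
  have hcard : (K * (T * A.u) + T * A.u) * lam A.r (A.dep n) = N := by
    rw [hN, ← A.hΛ n]; ring
  subst hN
  refine ⟨?_, fun hα μ ε hε hμ => ?_⟩
  · rw [hdt]
    refine (norm_det_le _ B hB).trans ?_
    rw [A.card_eq]
    exact hfac
  · have hε0 : 0 ≤ ε := le_trans (by positivity) hμ
    have hb : ∀ z : ℂ, ‖z‖ ≤ A.R → ‖μ * z ^ A.m‖ ≤ ε := fun z hz => by
      rw [norm_mul, norm_pow]
      exact le_trans (by gcongr) hμ
    have hTu : A.T₀ ≤ T * A.u := hT.trans (Nat.le_mul_of_pos_right _ A.hu)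
    have := one_side A.hr A.hs hα (A.hdep n) A.hr2 (J := J n) (T₁ := K * (T * A.u))
      (T' := T * A.u) A.hm
      ((A.hw n).trans_le (Nat.mul_le_mul_right _ (by omega))) μ hε0 hε
      (fun v hv h1 => hb _ (A.bdL φ hφ _ v hv h1)) Q
      (fun i => (A.path _ _).map φ) (fun i => hb _ (A.bdP φ hφ _ _)) hB
    rw [hcard, ← hdt] at this
    have hp : ∏ i, ‖μ * Q i 0 ^ A.m + 1‖ = ∏ i, ‖μ * φ (A.P (pts i) 0) ^ A.m + 1‖ :=
      (A.eqv K T n).prod_comp fun i => ‖μ * φ (A.P (pts i) 0) ^ A.m + 1‖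
    rw [hp] at this
    refine le_trans (le_of_eq ?_) (this.trans (by gcongr))
    have e1 : K * (J n * (T * Λ n)) = lam A.r (A.dep n) * J n * (K * (T * A.u)) := by
      rw [← A.hΛ n]; ring
    have e2 : J n * (T * Λ n) = J n * lam A.r (A.dep n) * (T * A.u) := by
      rw [← A.hΛ n]; ring
    rw [mul_pow, ← pow_mul, e1, e2]
    simp only [← pow_mul]
    rw [mul_assoc ‖φ (A.dt K T n pts)‖]

end Side

theorem main_lemma {σ : SpecData} {S : Type} [Infinite S] {Λ J : ℕ → ℕ} (A B : Side σ S Λ J)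
    {C₀ : ℕ} (hΛC : ∀ n, Λ n ≤ C₀ ^ (n + 1)) (hJ : ∀ h, ∃ n, h * (n + 1) ≤ J n)
    (κ d θ : σ.O) (hκ : ∀ φ ∈ σ.Φ, ‖φ κ‖ = 1) (hθ : θ ≠ 0)
    (hA : ∀ φ ∈ σ.Φ, φ θ ≠ 0 → ∀ k, φ (A.α k) ≠ 0)
    (hB : ∀ φ ∈ σ.Φ, φ θ ≠ 0 → ∀ k, φ (B.α k) ≠ 0)
    (hrel : ∀ x, B.P x 0 ^ B.m = κ * A.P x 0 ^ A.m + d) : d = 0 := by
  classical
  by_contra hd
  obtain ⟨Rθ, hRθ⟩ := σ.bdd θ
  obtain ⟨Rd, hRd⟩ := σ.bdd d
  obtain ⟨Rω, hRω⟩ := σ.bdd (θ * d)
  have hAR := A.hR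
  have hBR := B.hR
  set ρ : ℝ := max (max (A.R ^ A.m) (B.R ^ B.m)) (max Rd 1) with hρ
  have hρ1 : 1 ≤ ρ := le_max_of_le_right (le_max_right _ _)
  have hρA : A.R ^ A.m ≤ ρ := le_max_of_le_left (le_max_left _ _)
  have hρB : B.R ^ B.m ≤ ρ := le_max_of_le_left (le_max_right _ _)
  have hρd : Rd ≤ ρ := le_max_of_le_right (le_max_left _ _)
  set R₁ : ℝ := max Rθ 1 with hR₁
  have hR₁1 : 1 ≤ R₁ := le_max_right _ _
  set t : ℝ := 1 / (20 * R₁ * ρ) with ht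
  have ht0 : 0 < t := by positivity
  have ht1 : t ≤ 1 / 20 := by
    rw [ht]
    apply one_div_le_one_div_of_le (by norm_num)
    nlinarith [mul_le_mul hR₁1 hρ1 zero_le_one (by linarith)]
  obtain ⟨K, hK⟩ := exists_pow_lt_of_lt_one (x := (1 - t) ^ 2 / 2) (y := 1 - 7 * t ^ 2)
    (by have : 0 < 1 - t := by linarith
        positivity) (by nlinarith)
  set T := max (max A.T₀ B.T₀) 1 with hT
  have hT1 : 1 ≤ T := le_max_right _ _
  obtain ⟨GA, hGA, hA'⟩ := A.bounds hΛC K T (le_max_of_le_left (le_max_left _ _))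
  obtain ⟨GB, hGB, hB'⟩ := B.bounds hΛC K T (le_max_of_le_left (le_max_right _ _))
  obtain ⟨g, hg⟩ := pow_unbounded_of_one_lt (GA * GB) (y := (2 : ℝ)) one_lt_two
  set R₂ : ℝ := max Rω 1 with hR₂
  have hR₂1 : 1 ≤ R₂ := le_max_right _ _
  obtain ⟨h, hh⟩ := pow_unbounded_of_one_lt ((GA * GB * R₂ ^ g) ^ (K + 1)) (y := (2 : ℝ)) one_lt_two
  obtain ⟨n, hn⟩ := hJ h
  have hΛ0 : 0 < Λ n := by
    rw [← A.hΛ n]; exact Nat.mul_pos (prod_pos fun j _ => A.hr j) A.hu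
  have hN' : 0 < T * Λ n := Nat.mul_pos hT1 hΛ0
  set N' := T * Λ n with hN'def
  obtain ⟨pts, h1, h2⟩ := select _ (A.fn K T n) (B.fn K T n) (A.fn_fin K T n) (B.fn_fin K T n)
  have hne : A.dt K T n pts * B.dt K T n pts * (θ * d) ^ (g * ((n + 1) * ((K + 1) * N'))) ≠ 0 :=
    mul_ne_zero (mul_ne_zero (A.dt_ne_zero K T n pts h1) (B.dt_ne_zero K T n pts h2))
      (pow_ne_zero _ (mul_ne_zero hθ hd))
  obtain ⟨φ, hφ, hbig⟩ := σ.big _ hne
  obtain ⟨hA1, hA2⟩ := hA' n φ hφ pts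
  obtain ⟨hB1, hB2⟩ := hB' n φ hφ pts
  rw [map_mul, map_mul, map_pow, norm_mul, norm_mul, norm_pow] at hbig
  set E := (n + 1) * ((K + 1) * N') with hE
  have hE0 : E ≠ 0 := by positivity
  by_cases hsm : ‖φ (θ * d)‖ ≤ 1 / 2
  · have h3 : ‖φ (A.dt K T n pts)‖ * ‖φ (B.dt K T n pts)‖ * ‖φ (θ * d)‖ ^ (g * E)
        ≤ GA ^ E * GB ^ E * (1 / 2) ^ (g * E) := by gcongr
    have h4 : GA ^ E * GB ^ E * (1 / 2) ^ (g * E) = (GA * GB / 2 ^ g) ^ E := by
      rw [pow_mul _ g E, ← mul_pow, ← mul_pow, one_div, inv_pow, div_eq_mul_inv]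
    have h5 : (GA * GB / 2 ^ g) ^ E < 1 :=
      pow_lt_one₀ (by positivity) ((div_lt_one (by positivity)).2 hg) hE0
    linarith
  · push Not at hsm
    rw [map_mul, norm_mul] at hsm
    have hθ0 : φ θ ≠ 0 := by
      intro h0; rw [h0, norm_zero, zero_mul] at hsm; linarith
    have hd0 : φ d ≠ 0 := by
      intro h0; rw [h0, norm_zero, mul_zero] at hsm; linarith
    have hdn : 0 < ‖φ d‖ := norm_pos_iff.2 hd0
    have hdl : 1 / 2 ≤ R₁ * ‖φ d‖ :=
      hsm.le.trans (mul_le_mul_of_nonneg_right ((hRθ φ hφ).trans (le_max_left _ _)) hdn.le)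
    let μ : ℂ := -((t / ρ * ‖φ d‖ : ℝ) : ℂ) / φ d
    have hμn : ‖μ‖ = t / ρ := by
      simp only [μ]
      rw [norm_div, norm_neg, Complex.norm_real, Real.norm_of_nonneg (by positivity)]
      field_simp
    have hμd : μ * φ d = -((t / ρ * ‖φ d‖ : ℝ) : ℂ) := by
      simp only [μ]; field_simp
    have hμA : ‖-μ * φ κ‖ * A.R ^ A.m ≤ t := by
      rw [norm_mul, norm_neg, hμn, hκ φ hφ, mul_one, div_mul_eq_mul_div, div_le_iff₀ (by linarith)]
      gcongr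
    have hμB : ‖μ‖ * B.R ^ B.m ≤ t := by
      rw [hμn, div_mul_eq_mul_div, div_le_iff₀ (by linarith)]
      gcongr
    have hA3 := hA2 (hA φ hφ hθ0) _ t (by linarith) hμA
    have hB3 := hB2 (hB φ hφ hθ0) _ t (by linarith) hμB
    have hpt : ∀ i, ‖-μ * φ κ * φ (A.P (pts i) 0) ^ A.m + 1‖ * ‖μ * φ (B.P (pts i) 0) ^ B.m + 1‖
        ≤ 1 - 9 * t ^ 2 := by
      intro i
      have hr := congrArg φ (hrel (pts i))
      rw [map_add, map_mul, map_pow, map_pow] at hr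
      have ha : ‖-μ * φ κ * φ (A.P (pts i) 0) ^ A.m‖ ≤ t := by
        rw [norm_mul, norm_pow]
        exact le_trans (by gcongr; exact A.bdP φ hφ _ _) hμA
      have hb : ‖μ * φ (B.P (pts i) 0) ^ B.m‖ ≤ t := by
        rw [norm_mul, norm_pow]
        exact le_trans (by gcongr; exact B.bdP φ hφ _ _) hμB
      rw [← norm_mul]
      have he : (-μ * φ κ * φ (A.P (pts i) 0) ^ A.m + 1) * (μ * φ (B.P (pts i) 0) ^ B.m + 1)
          = ((1 - t / ρ * ‖φ d‖ : ℝ) : ℂ)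
            + (-μ * φ κ * φ (A.P (pts i) 0) ^ A.m) * (μ * φ (B.P (pts i) 0) ^ B.m) := by
        rw [Complex.ofReal_sub, sub_eq_add_neg, ← hμd, hr, Complex.ofReal_one]
        ring
      rw [he]
      refine (norm_add_le _ _).trans ?_
      have hdu : t / ρ * ‖φ d‖ ≤ t := by
        rw [div_mul_eq_mul_div, div_le_iff₀ (by linarith)]
        gcongr
        exact (hRd φ hφ).trans hρd
      have hdl' : 10 * t ^ 2 ≤ t / ρ * ‖φ d‖ := by
        have : 10 * t ≤ ‖φ d‖ / ρ := by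
          rw [le_div_iff₀ (by linarith), ht]
          have : 10 * (1 / (20 * R₁ * ρ)) * ρ = 1 / 2 / R₁ := by field_simp; ring
          rw [this, div_le_iff₀ (by linarith)]
          linarith
        calc 10 * t ^ 2 = t * (10 * t) := by ring
          _ ≤ t * (‖φ d‖ / ρ) := by gcongr
          _ = _ := by ring
      rw [Complex.norm_real, Real.norm_of_nonneg (by linarith), norm_mul]
      nlinarith [mul_le_mul ha hb (norm_nonneg _) ht0.le]
    have hprod : (∏ i, ‖-μ * φ κ * φ (A.P (pts i) 0) ^ A.m + 1‖)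
        * (∏ i, ‖μ * φ (B.P (pts i) 0) ^ B.m + 1‖) ≤ (1 - 9 * t ^ 2) ^ ((K + 1) * N') := by
      rw [← prod_mul_distrib]
      refine (prod_le_prod (fun _ _ => by positivity) fun i _ => hpt i).trans (le_of_eq ?_)
      rw [prod_const, card_univ, Fintype.card_fin]
    set γ : ℝ := (1 - t ^ 2) ^ K * (1 - t) with hγ
    have hγ0 : 0 < γ := by
      have : 0 < 1 - t ^ 2 := by nlinarith
      have : 0 < 1 - t := by linarith
      positivity
    have h9 : 0 ≤ 1 - 9 * t ^ 2 := by nlinarith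
    have hγ1 : (1 - 9 * t ^ 2) ^ (K + 1) ≤ γ ^ 2 / 2 := by
      have h7 : 1 - 9 * t ^ 2 ≤ (1 - t ^ 2) ^ 2 * (1 - 7 * t ^ 2) := by
        have : 0 ≤ t ^ 4 * (15 - 7 * t ^ 2) := mul_nonneg (by positivity) (by nlinarith)
        nlinarith
      calc (1 - 9 * t ^ 2) ^ (K + 1) ≤ (1 - 9 * t ^ 2) ^ K :=
            pow_le_pow_of_le_one h9 (by nlinarith) (by omega)
        _ ≤ ((1 - t ^ 2) ^ 2 * (1 - 7 * t ^ 2)) ^ K := pow_le_pow_left₀ h9 h7 K
        _ = ((1 - t ^ 2) ^ K) ^ 2 * (1 - 7 * t ^ 2) ^ K := by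
            rw [mul_pow, ← pow_mul, ← pow_mul, mul_comm 2 K]
        _ ≤ ((1 - t ^ 2) ^ K) ^ 2 * ((1 - t) ^ 2 / 2) := by gcongr
        _ = γ ^ 2 / 2 := by rw [hγ]; ring
    have hD : ‖φ (A.dt K T n pts)‖ * ‖φ (B.dt K T n pts)‖
        ≤ (1 / 2) ^ (J n * N') * (GA * GB) ^ E := by
      have h3 := mul_le_mul hA3 hB3 (by positivity) (by positivity)
      have h4 : (∏ i, ‖-μ * φ κ * φ (A.P (pts i) 0) ^ A.m + 1‖) ^ J n
          * (∏ i, ‖μ * φ (B.P (pts i) 0) ^ B.m + 1‖) ^ J n ≤ (γ ^ 2 / 2) ^ (J n * N') := by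
        rw [← mul_pow]
        refine (pow_le_pow_left₀ (by positivity) hprod _).trans ?_
        rw [← pow_mul, mul_assoc, pow_mul, mul_comm N']
        exact pow_le_pow_left₀ (by positivity) hγ1 _
      have h5 : (‖φ (A.dt K T n pts)‖ * ‖φ (B.dt K T n pts)‖) * (γ ^ 2) ^ (J n * N')
          ≤ ((1 / 2) ^ (J n * N') * (GA * GB) ^ E) * (γ ^ 2) ^ (J n * N') := by
        calc _ = ‖φ (A.dt K T n pts)‖ * γ ^ (J n * N') * (‖φ (B.dt K T n pts)‖ * γ ^ (J n * N')) := by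
              rw [← pow_mul, mul_comm 2, pow_mul]; ring
          _ ≤ _ := h3
          _ = ((∏ i, ‖-μ * φ κ * φ (A.P (pts i) 0) ^ A.m + 1‖) ^ J n
              * (∏ i, ‖μ * φ (B.P (pts i) 0) ^ B.m + 1‖) ^ J n) * (GA * GB) ^ E := by
              rw [mul_pow GA]; ring
          _ ≤ (γ ^ 2 / 2) ^ (J n * N') * (GA * GB) ^ E := by gcongr
          _ = _ := by rw [div_eq_mul_one_div, mul_pow]; ring
      exact le_of_mul_le_mul_right h5 (by positivity)
    have hω : ‖φ (θ * d)‖ ^ (g * E) ≤ R₂ ^ (g * E) :=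
      pow_le_pow_left₀ (norm_nonneg _) ((hRω φ hφ).trans (le_max_left _ _)) _
    have h6 := mul_le_mul hD hω (by positivity) (by positivity)
    have h7 : (1 / 2 : ℝ) ^ (J n * N') * (GA * GB) ^ E * R₂ ^ (g * E)
        = (((GA * GB * R₂ ^ g) ^ (K + 1)) ^ (n + 1) / 2 ^ J n) ^ N' := by
      rw [mul_assoc, pow_mul R₂, ← mul_pow, div_pow, div_pow, one_pow, ← pow_mul, ← pow_mul,
        ← pow_mul, hE]
      rw [one_div, mul_comm, ← div_eq_mul_inv]
      congr 2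
      ring
    have h8 : ((GA * GB * R₂ ^ g) ^ (K + 1)) ^ (n + 1) < 2 ^ J n := by
      calc _ < ((2 : ℝ) ^ h) ^ (n + 1) := pow_lt_pow_left₀ hh (by positivity) (by omega)
        _ = 2 ^ (h * (n + 1)) := by rw [← pow_mul]
        _ ≤ _ := pow_le_pow_right₀ one_le_two hn
    have h9' : (((GA * GB * R₂ ^ g) ^ (K + 1)) ^ (n + 1) / 2 ^ J n) ^ N' < 1 :=
      pow_lt_one₀ (by positivity) ((div_lt_one (by positivity)).2 h8) hN'.ne'
    linarith

end Pool.Agent.MP_09973c_nt.H31
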