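import Pool.Agent.MP_09973c_nt.H31.Wrap

/-!
Irreducibility of the towers without tail.
-/

set_option autoImplicit false

namespace Pool.Agent.MP_09973c_nt.H31

open Polynomial Finset

def Indep (r : ℕ → ℕ) (n : ℕ) {B : Type} [CommRing B] [Algebra ℂ B] (g : ℕ → B) : Prop :=
  ∀ c : Idx r n → ℂ[X], ∑ l, aeval (g n) (c l) * bas l g = 0 → c = 0

theorem irr_of_indep {r s : ℕ → ℕ} {α β : ℕ → ℂ} {n : ℕ} (hr : ∀ k, 0 < r k) {B : Type}
    [CommRing B] [IsDomain B] [Algebra ℂ B] (g : ℕ → B) (hg : IsPathA r s α β n g)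
    (h : Indep r n g) : Irr r s α β n := by
  intro c hc
  obtain ⟨D, hD, hz⟩ := exists_norm hr g hg h c hc
  refine (finite_back (s := s) (α := α) (β := β) (n := n) hr (D.rootSet_finite ℂ)).subset ?_
  rintro _ ⟨v, hv, rfl, h0⟩
  refine ⟨v, hv, mem_rootSet.2 ⟨hD, hz ℂ v hv ?_⟩, rfl⟩
  simpa using h0

theorem indep_transfer {r s : ℕ → ℕ} {α β : ℕ → ℂ} {n : ℕ} (hr : ∀ k, 0 < r k) {B : Type}
    [CommRing B] [IsDomain B] [Algebra ℂ B] (g : ℕ → B) (hg : IsPathA r s α β n g)
    (h : Indep r n g) {A : Type} [CommRing A] [IsDomain A] [Algebra ℂ A] (v : ℕ → A)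
    (hv : IsPathA r s α β n v) (ht : Transcendental ℂ (v n)) : Indep r n v := by
  intro c h0
  by_contra hc
  obtain ⟨D, hD, hz⟩ := exists_norm hr g hg h c hc
  exact ht ⟨D, hD, hz A v hv h0⟩

theorem exists_path {F : Type} [Field F] [IsAlgClosed F] (n : ℕ) (x : F) :
    ∀ (r s : ℕ → ℕ) (α β : ℕ → F), (∀ k, 0 < r k) → ∃ v, IsPath r s α β n v ∧ v n = x := by
  induction n with
  | zero => exact fun _ _ _ _ _ => ⟨fun _ => x, fun k hk => absurd hk (by omega), rfl⟩
  | succ n ih =>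
    intro r s α β hr
    obtain ⟨v, hv, hvn⟩ := ih (fun k => r (k + 1)) (fun k => s (k + 1))
      (fun k => α (k + 1)) (fun k => β (k + 1)) (fun k => hr (k + 1))
    obtain ⟨z, hz⟩ := IsAlgClosed.exists_pow_nat_eq (α 0 * v 0 ^ s 0 + β 0) (hr 0)
    exact ⟨cons0 z v, isPath_cons0 hz hv, hvn⟩

theorem wt_succ_succ (r s : ℕ → ℕ) (n k : ℕ) :
    wt r s (n + 1) (k + 1) = r 0 * wt (fun j => r (j + 1)) (fun j => s (j + 1)) n k := by
  unfold wt
  rw [prod_range_succ', ← prod_Ico_add' s k n 1]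
  ring

theorem weight_inj {P : ℕ} (n : ℕ) : ∀ s : ℕ → ℕ, (∀ k, P.Coprime (s k)) → ∀ e e' : ℕ → ℕ,
    (∀ k < n, e k < P) → (∀ k < n, e' k < P) →
    lin n (wt (fun _ => P) s n) e = lin n (wt (fun _ => P) s n) e' → ∀ k ≤ n, e k = e' k := by
  induction n with
  | zero =>
    intro s _ e e' _ _ hs k hk
    obtain rfl : k = 0 := by omega
    simpa [lin, wt] using hs
  | succ n ih =>
    intro s h e e' he he' hs
    have key : ∀ e : ℕ → ℕ, lin (n + 1) (wt (fun _ => P) s (n + 1)) e
        = P * lin n (wt (fun _ => P) (fun j => s (j + 1)) n) (fun k => e (k + 1))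
          + e 0 * wt (fun _ => P) s (n + 1) 0 := by
      intro e
      unfold lin
      rw [sum_range_succ', mul_sum]
      congr 1
      exact sum_congr rfl fun k _ => by rw [wt_succ_succ]; ring
    rw [key, key] at hs
    have hP : 0 < P := by have := he 0 (by omega); omega
    have h0 : e 0 = e' 0 := by
      have h1 : e 0 * wt (fun _ => P) s (n + 1) 0 ≡ e' 0 * wt (fun _ => P) s (n + 1) 0 [MOD P] := by
        have := congrArg (· % P) hs
        simpa [Nat.ModEq] using this
      have hc : P.Coprime (wt (fun _ => P) s (n + 1) 0) := by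
        unfold wt
        rw [range_zero, prod_empty, one_mul]
        exact Nat.Coprime.prod_right fun j _ => h j
      have h2 := Nat.ModEq.cancel_right_of_coprime hc h1
      exact Nat.ModEq.eq_of_lt_of_lt h2 (he 0 (by omega)) (he' 0 (by omega))
    rw [h0] at hs
    have h3 := ih _ (fun k => h (k + 1)) (fun k => e (k + 1)) (fun k => e' (k + 1))
      (fun k hk => he _ (by omega))
      (fun k hk => he' _ (by omega)) (Nat.eq_of_mul_eq_mul_left hP (Nat.add_right_cancel hs))
    intro k hk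
    cases k with
    | zero => exact h0
    | succ k => exact h3 k (by omega)

section Val

variable {F Γ : Type} [Field F] [Algebra ℂ F] [LinearOrderedCommGroupWithZero Γ]

theorem val_const (ν : Valuation F Γ) (hν : ∀ c : ℂ, ν (algebraMap ℂ F c) ≤ 1) {c : ℂ}
    (hc : c ≠ 0) : ν (algebraMap ℂ F c) = 1 := by
  refine le_antisymm (hν c) ?_
  have h1 : ν (algebraMap ℂ F c) * ν (algebraMap ℂ F c⁻¹) = 1 := by
    rw [← map_mul, ← map_mul, mul_inv_cancel₀ hc, map_one, map_one]
  calc 1 = _ := h1.symm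
    _ ≤ ν (algebraMap ℂ F c) * 1 := mul_le_mul_right (hν _) _
    _ = _ := mul_one _

theorem indep_of_val (ν : Valuation F Γ) (hν : ∀ c : ℂ, ν (algebraMap ℂ F c) ≤ 1) {P : ℕ}
    {s : ℕ → ℕ} (hP : 0 < P) (hQ : ∀ k, 0 < s k) (hPQ : ∀ k, P.Coprime (s k)) {α β : ℕ → ℂ}
    (hα : ∀ k, α k ≠ 0) {n : ℕ}
    (g : ℕ → F) (hg : IsPathA (fun _ => P) s α β n g) (hgn : 1 < ν (g n)) :
    Indep (fun _ => P) n g := by
  classical
  have hval : ∀ j ≤ n, 1 < ν (g (n - j)) ∧
      ν (g (n - j)) ^ (P ^ n) = ν (g n) ^ (wt (fun _ => P) s n (n - j)) := by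
    intro j
    induction j with
    | zero => intro _; simpa [wt_self, lam] using hgn
    | succ j ih =>
      intro hj
      obtain ⟨h1, h2⟩ := ih (by omega)
      have h3 := congrArg ν (hg (n - (j + 1)) (by omega))
      have e : n - (j + 1) + 1 = n - j := by omega
      have h4 : 1 < ν (g (n - j)) ^ s (n - (j + 1)) := one_lt_pow₀ h1 (hQ _).ne'
      rw [e, map_pow, ν.map_add_eq_of_lt_left (by
        rw [map_mul, val_const ν hν (hα _), one_mul, map_pow]; exact (hν _).trans_lt h4),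
        map_mul, val_const ν hν (hα _), one_mul, map_pow] at h3
      refine ⟨?_, ?_⟩
      · by_contra hle
        have := pow_le_one' (not_lt.1 hle) P
        rw [h3] at this
        exact absurd h4 (not_lt.2 this)
      · refine (pow_left_inj₀ zero_le zero_le hP.ne').1 ?_
        have h5 := wt_step (fun _ => P) s (n := n) (k := n - (j + 1)) (by omega)
        rw [e] at h5
        rw [← pow_mul, mul_comm, pow_mul, h3, ← pow_mul, mul_comm, pow_mul, h2, ← pow_mul,
          ← pow_mul, mul_comm _ P, h5, mul_comm]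
  have hval' : ∀ k ≤ n, ν (g k) ^ (P ^ n) = ν (g n) ^ (wt (fun _ => P) s n k) := fun k hk => by
    have := (hval (n - k) (by omega)).2
    rwa [Nat.sub_sub_self hk] at this
  intro c hc
  let N := univ.sup fun l => (c l).natDegree
  let W : Idx (fun _ => P) n × ℕ → ℕ := fun x =>
    lin n (wt (fun _ => P) s n) (expo x.1 + Pi.single n x.2)
  let f : Idx (fun _ => P) n × ℕ → F := fun x =>
    algebraMap ℂ F ((c x.1).coeff x.2) * monE n (expo x.1 + Pi.single n x.2) g
  have hW : Function.Injective W := by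
    rintro ⟨l, i⟩ ⟨l', i'⟩ h
    have hlt : ∀ (l : Idx (fun _ => P) n) (i : ℕ), ∀ k < n,
        (expo l + Pi.single n i : ℕ → ℕ) k < P := fun l i k hk => by
      simp [expo, hk, Pi.single_eq_of_ne hk.ne]
    have := weight_inj n s hPQ _ _ (hlt l i) (hlt l' i') h
    refine Prod.ext (funext fun k => Fin.ext ?_) ?_
    · simpa [expo, Pi.single_eq_of_ne k.2.ne] using this k k.2.le
    · simpa [expo] using this n le_rfl
  have hf : ∀ x, (c x.1).coeff x.2 ≠ 0 → ν (f x) ^ (P ^ n) = ν (g n) ^ W x := by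
    intro x hx
    simp only [f, W, monE, lin]
    rw [map_mul, val_const ν hν hx, one_mul, map_prod, ← prod_pow, ← prod_pow_eq_pow_sum]
    refine prod_congr rfl fun k hk => ?_
    rw [map_pow, ← pow_mul, mul_comm, pow_mul, hval' k (by have := mem_range.1 hk; omega),
      ← pow_mul, mul_comm]
  let T := (univ ×ˢ range (N + 1)).filter fun x : Idx (fun _ => P) n × ℕ => (c x.1).coeff x.2 ≠ 0
  have hsum : ∑ x ∈ T, f x = 0 := by
    have h1 : ∑ x ∈ T, f x = ∑ x ∈ univ ×ˢ range (N + 1), f x :=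
      sum_filter_of_ne fun x _ hx h0 => hx (by simp [f, h0])
    rw [h1, sum_product, ← hc]
    refine sum_congr rfl fun l _ => ?_
    rw [aeval_eq_sum_range' (n := N + 1)
      (Nat.lt_succ_of_le (le_sup (f := fun l => (c l).natDegree) (mem_univ l))), sum_mul]
    refine sum_congr rfl fun i _ => ?_
    simp only [f]
    rw [monE_add, monE_expo, monE_single le_rfl, Algebra.smul_def]
    ring
  rcases T.eq_empty_or_nonempty with hT | hT
  · funext l
    ext i
    by_contra hne
    have : (l, i) ∈ T := by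
      refine mem_filter.2 ⟨mem_product.2 ⟨mem_univ _, mem_range.2 (Nat.lt_succ_of_le ?_)⟩, hne⟩
      exact (le_natDegree_of_ne_zero hne).trans
        (le_sup (f := fun l => (c l).natDegree) (mem_univ l))
    rw [hT] at this
    exact notMem_empty _ this
  · exfalso
    obtain ⟨x, hx, hmax⟩ := exists_max_image T W hT
    have h1 := ν.map_sum_eq_of_lt (f := f) hx fun y hy => by
      obtain ⟨hy1, hy2⟩ := mem_sdiff.1 hy
      have hlt : W y < W x :=
        lt_of_le_of_ne (hmax y hy1) fun h => hy2 (mem_singleton.2 (hW h))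
      refine lt_of_pow_lt_pow_left₀ (P ^ n) zero_le ?_
      rw [hf y (mem_filter.1 hy1).2, hf x (mem_filter.1 hx).2]
      exact pow_lt_pow_right₀ hgn hlt
    have h2 := hf x (mem_filter.1 hx).2
    rw [← h1, hsum, map_zero, zero_pow (pow_pos hP n).ne'] at h2
    exact pow_ne_zero _ (zero_lt_one.trans hgn).ne' h2.symm

end Val

/-- An algebraically closed field containing the rational functions. -/
abbrev FF : Type := AlgebraicClosure (FractionRing ℂ[X])

noncomputable def tt : FF := algebraMap ℂ[X] FF X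

theorem tt_transcendental : Transcendental ℂ tt := by
  unfold tt
  have hinj : Function.Injective (algebraMap ℂ[X] FF) := by
    rw [IsScalarTower.algebraMap_eq ℂ[X] (FractionRing ℂ[X]) FF]
    exact (algebraMap (FractionRing ℂ[X]) FF).injective.comp
      (IsFractionRing.injective ℂ[X] (FractionRing ℂ[X]))
  rw [transcendental_algebraMap_iff hinj]
  exact transcendental_X ℂ

theorem exists_val {x : FF} (hx : Transcendental ℂ x) :
    ∃ V : ValuationSubring FF, (∀ c : ℂ, V.valuation (algebraMap ℂ FF c) ≤ 1) ∧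
      1 < V.valuation x := by
  obtain ⟨V, hV, hxV⟩ := Subring.exists_le_valuationSubring_of_isIntegrallyClosedIn
    (x := x) (R := (integralClosure ℂ FF).toSubring) (fun h => hx (IsIntegral.isAlgebraic h))
  refine ⟨V, fun c => (V.valuation_le_one_iff _).2 (hV ((integralClosure ℂ FF).algebraMap_mem c)),
    not_le.1 fun h => hxV ((V.valuation_le_one_iff _).1 h)⟩

theorem pure_indep {P : ℕ} {s : ℕ → ℕ} (hP : 0 < P) (hQ : ∀ k, 0 < s k)
    (hPQ : ∀ k, P.Coprime (s k)) {α β : ℕ → ℂ} (hα : ∀ k, α k ≠ 0) (n : ℕ) :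
    ∃ g : ℕ → FF, IsPathA (fun _ => P) s α β n g ∧ Indep (fun _ => P) n g := by
  obtain ⟨V, hV, hx⟩ := exists_val tt_transcendental
  obtain ⟨g, hg, hgn⟩ := exists_path n tt (fun _ => P) s
    (fun k => algebraMap ℂ FF (α k)) (fun k => algebraMap ℂ FF (β k)) (fun _ => hP)
  exact ⟨g, hg, indep_of_val V.valuation hV hP hQ hPQ hα g hg (hgn ▸ hx)⟩

/-- The tower `v k ^ P = v (k+1) ^ Q + c`. -/
noncomputable def pureTW {P Q : ℕ} (hQ : 0 < Q) (hPQ : Q < P) (h : P.Coprime Q) (c : ℂ) :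
    TW P Q where
  r := fun _ => P
  s := fun _ => Q
  α := fun _ => 1
  β := fun _ => c
  t := 0
  m := Q
  hr := fun _ => by omega
  hs := fun _ => hQ
  hr2 := by omega
  hm0 := hQ
  hm := h.symm
  hrP := fun _ _ => rfl
  hsQ := fun _ _ => rfl
  hα := fun _ => ⟨1, one_pos, one_pow _⟩
  hαt := fun _ _ => rfl
  hβt := fun _ _ => rfl
  irr := fun n => by
    obtain ⟨g, hg, hi⟩ := pure_indep (P := P) (by omega) (fun _ => hQ) (fun _ => h)
      (α := fun _ => 1) (β := fun _ => c)
      (fun _ => one_ne_zero) (0 + (n + 1))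
    exact irr_of_indep (fun _ => by omega) g hg hi

/-- Bounded chains of the pure tower. -/
def Chain {F : Type} [Field F] (P Q : ℕ) (c : F) (v : ℕ → F) : Prop :=
  (∀ k, v k ^ P = v (k + 1) ^ Q + c) ∧ (Set.range v).Finite

theorem mem_pure_good {P Q : ℕ} (hQ : 0 < Q) (hPQ : Q < P) (h : P.Coprime Q) (c w : ℂ) :
    w ∈ (pureTW hQ hPQ h c).Good ↔ ∃ v, Chain P Q c v ∧ v 0 ^ Q = w := by
  constructor
  · rintro ⟨v, hv, hf, h0⟩
    exact ⟨v, ⟨fun k => by simpa [pureTW] using hv (k + 1) k (by omega), hf⟩, h0⟩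
  · rintro ⟨v, ⟨hv, hf⟩, h0⟩
    exact ⟨v, fun n k _ => by simpa [pureTW] using hv k, hf, h0⟩

theorem pure_lemma {P Q : ℕ} (hQ : 0 < Q) (hPQ : Q < P) (h : P.Coprime Q) (a b : ℂ) {κ d : ℂ}
    {M : ℕ} (hM : 0 < M) (hκ : κ ^ M = 1)
    (hinf : {w | (∃ v, Chain P Q a v ∧ v 0 ^ Q = w) ∧
      ∃ v, Chain P Q b v ∧ v 0 ^ Q = κ * w + d}.Infinite) : d = 0 := by
  refine main_lemma' hQ hPQ (pureTW hQ hPQ h a) (pureTW hQ hPQ h b) hM hκ ?_
  simpa only [mem_pure_good] using hinf

end Pool.Agent.MP_09973c_nt.H31
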