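import Pool.Agent.MP_09973c_nt.H58.SpecT
import Pool.Agent.MP_09973c_nt.H21.Deg

/-!
No proportional chains, separation of levels, the top levels, and the Runge type theorem.
-/

set_option autoImplicit false

namespace Pool.Agent.MP_09973c_nt.H31

open Finset Pool.Agent.MP_09973c_nt.H58

theorem one_lt_theta {p q : ℕ} (hp : 0 < p) (hpq : p < q) : 1 < (q : ℝ) / p :=
  (one_lt_div (by exact_mod_cast hp)).2 (by exact_mod_cast hpq)

theorem fwd_step {F : Type} [NormedField F] {p q : ℕ} (hp : 0 < p) (hpq : p < q) {c x y : F}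
    {Ca : ℝ} (hc : ‖c‖ ≤ Ca) (h : x ^ p + c = y ^ q) :
    (q : ℝ) / p * (lp y - Real.log (1 + Ca)) ≤ lp x - Real.log (1 + Ca) := by
  have h1 := (abs_le.1 (lp_step hc h)).2
  have h2 := log_one_add_nonneg ((norm_nonneg c).trans hc)
  have h3 : (p : ℝ) + 1 ≤ q := by exact_mod_cast hpq
  rw [div_mul_eq_mul_div, div_le_iff₀ (by exact_mod_cast hp)]
  nlinarith

/-- A geometrically decreasing sequence is decreasing with gaps. -/
theorem lev_gap {θ Λ M : ℝ} (hθ : 1 < θ) {y : ℕ → ℝ} {n : ℕ}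
    (h : ∀ i < n, θ * (y (i + 1) - Λ) ≤ y i - Λ) (hM : 0 ≤ M) (hn : M ≤ (θ - 1) * (y n - Λ)) :
    ∀ i j, i < j → j ≤ n → y j + M ≤ y i := by
  have h0 : 0 ≤ y n - Λ := by
    by_contra h1
    nlinarith
  have h1 : ∀ s ≤ n, y n ≤ y (n - s) := by
    intro s
    induction s with
    | zero => exact fun _ => le_rfl
    | succ s ih =>
      intro hs
      have h2 := h (n - (s + 1)) (by omega)
      rw [show n - (s + 1) + 1 = n - s by omega] at h2
      have := ih (by omega)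
      nlinarith
  have h2 : ∀ i < n, y (i + 1) + M ≤ y i := fun i hi => by
    have h3 := h1 (n - (i + 1)) (by omega)
    rw [show n - (n - (i + 1)) = i + 1 by omega] at h3
    have := h i hi
    nlinarith
  intro i j hij
  induction j, hij using Nat.le_induction with
  | base => exact fun hi => h2 i hi
  | succ j _ ih => exact fun hj => by linarith [ih (by omega), h2 j hj]

theorem lev_sep {θ Λ M : ℝ} (hθ : 1 < θ) {y : ℕ → ℝ} {n : ℕ}
    (h : ∀ i < n, θ * (y (i + 1) - Λ) ≤ y i - Λ) (hM : 0 ≤ M)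
    (hn : M + 1 ≤ (θ - 1) * (y n - Λ)) {j t : ℕ} (hj : j ≤ n) (ht : t ≤ n)
    (hjt : |y j - y t| ≤ M) : j = t := by
  rw [abs_le] at hjt
  rcases lt_trichotomy j t with h1 | h1 | h1
  · linarith [lev_gap hθ h (by linarith) hn j t h1 ht]
  · exact h1
  · linarith [lev_gap hθ h (by linarith) hn t j h1 hj]

theorem fwd_anti {F : Type} [NormedField F] {p q n : ℕ} (hp : 0 < p) (hpq : p < q) {c : F}
    {Ca : ℝ} (hc : ‖c‖ ≤ Ca) {x : ℕ → F} (hx : Fwd p q c n x)
    (hn : Real.log (1 + Ca) ≤ lp (x n)) {i : ℕ} (hi : i ≤ n) : lp (x n) ≤ lp (x i) := by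
  rcases hi.eq_or_lt with rfl | hi
  · exact le_rfl
  · have hθ := one_lt_theta hp hpq
    simpa using lev_gap hθ (y := fun i => lp (x i)) (fun i hi => fwd_step hp hpq hc (hx i hi))
      le_rfl (mul_nonneg (by linarith) (by linarith)) i n hi le_rfl

theorem match_top {F : Type} [NormedField F] {p q n : ℕ} (hpq : p < q) {a b : F} {Ca : ℝ}
    (ha : ‖a‖ ≤ Ca) (hb : ‖b‖ ≤ Ca) {x x' : ℕ → F} (hx : Fwd p q a n x) (hx' : Fwd p q b n x')
    (h0 : x' 0 ^ q = x 0 ^ q) : ∀ k ≤ n, |lp (x k) - lp (x' k)| ≤ 2 * Real.log (1 + Ca) := by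
  refine match_fwd hpq ha hb hx hx' le_rfl ?_
  have h4 := congrArg lp h0
  rw [lp_pow, lp_pow] at h4
  rw [mul_left_cancel₀ (by exact_mod_cast (by omega : q ≠ 0)) h4, sub_self, abs_zero]
  linarith [log_one_add_nonneg ((norm_nonneg a).trans ha)]

theorem pow_sub_eq_one {F : Type} [Field F] {p q : ℕ} (hpq : p < q) {μ a b : F} (hb : b ≠ 0)
    (hp : 0 < p) (h1 : μ ^ p * a = b) (h2 : μ ^ q * a = b) : μ ^ (q - p) = 1 := by
  have ha : a ≠ 0 := right_ne_zero_of_mul (h1 ▸ hb)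
  have h0 : μ ^ p ≠ 0 := left_ne_zero_of_mul (h1 ▸ hb)
  refine mul_right_cancel₀ h0 ?_
  rw [← pow_add, Nat.sub_add_cancel hpq.le, one_mul]
  exact mul_right_cancel₀ ha (h2.trans h1.symm)

theorem noEdge (hW : W2Stmt) : NoEdgeStmt := by
  intro p q a b hp hpq hc ha hb hab
  have hp0 : 0 < p := by omega
  have hq0 : 0 < q := by omega
  have hθ := one_lt_theta hp0 hpq
  obtain ⟨A, C, hA, hC, hW⟩ := hW p q (max ‖a‖ ‖b‖) hp hpq hc
  have ha' := le_max_left ‖a‖ ‖b‖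
  have hb' := le_max_right ‖a‖ ‖b‖
  have hΛ := log_one_add_nonneg ((norm_nonneg a).trans ha')
  set Λ := Real.log (1 + max ‖a‖ ‖b‖) with hΛd
  have hq1 : (1 : ℝ) ≤ q := by exact_mod_cast hq0
  have b1 : 0 ≤ (2 * Λ + 1) / ((q : ℝ) / p - 1) := div_nonneg (by linarith) (by linarith)
  have b2 : 1 ≤ C * (q : ℝ) ^ 6 := one_le_mul_of_one_le_of_one_le hC (one_le_pow₀ hq1)
  refine ⟨A + Λ + (2 * Λ + 1) / ((q : ℝ) / p - 1) + C * (q : ℝ) ^ 6, fun n x x' hx hx' h0 hn => ?_⟩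
  have hn0 : (0 : ℝ) ≤ n := Nat.cast_nonneg n
  have b3 : A + Λ + (2 * Λ + 1) / ((q : ℝ) / p - 1) + C * (q : ℝ) ^ 6 ≤ lp (x n) :=
    le_trans (le_mul_of_one_le_right (by linarith) (by linarith)) hn
  have key : ∀ j ≤ n, ∀ t ≤ n, ∀ μ : Qb, μ ^ (q - p) = 1 → x' j = μ * x t → μ = 1 := by
    intro j hj t ht μ hμ he
    have h1 := match_top hpq ha' hb' hx hx' h0 j hj
    rw [he, lp_unit_mul (norm_root (by omega) hμ)] at h1
    obtain rfl : j = t := lev_sep hθ (y := fun i => lp (x i))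
      (fun i hi => fwd_step hp0 hpq ha' (hx i hi)) (by linarith) (by
        rw [← div_le_iff₀' (by linarith)]; linarith) hj ht h1
    obtain ⟨ζ, z1, -, z2⟩ := hW Qb goodF_Qb a b n x x' ha' hb' hx hx' h0 (by linarith)
    have h2 : μ = ζ j := by
      by_contra hne
      have h3 := sep' goodF_Qb (M := (q - p) * q ^ (j + 1)) (mul_pos (by omega) (by positivity))
        (ζ := μ) (η := ζ j) (by rw [pow_mul, hμ, one_pow])
        (by rw [mul_comm, pow_mul, z1 j hj, one_pow]) hne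
      have h4 := z2 j hj
      have h5 := fwd_anti hp0 hpq ha' hx (by linarith) hj
      have h6 : ‖x j‖ = Real.exp (lp (x j)) := norm_eq_exp_lp (by linarith)
      have h7 : 1 ≤ ‖x j‖ := by rw [h6]; exact Real.one_le_exp (lp_nonneg _)
      rw [he, ← sub_mul, norm_mul] at h4
      have h8 : ‖μ - ζ j‖ * ‖x j‖ ≤ C :=
        (le_mul_of_one_le_right (by positivity) (one_le_pow₀ h7)).trans h4
      have h9 : (((q - p) * q ^ (j + 1) : ℕ) : ℝ) ^ 3 ≤ ((q : ℝ) ^ 6) ^ (n + 1) := by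
        have : (q - p) * q ^ (j + 1) ≤ q ^ (2 * (n + 1)) :=
          (Nat.mul_le_mul_right _ (Nat.sub_le q p)).trans (by
            rw [← pow_succ']; exact Nat.pow_le_pow_right hq0 (by omega))
        calc _ ≤ ((q : ℝ) ^ (2 * (n + 1))) ^ 3 := by gcongr; exact_mod_cast this
          _ = _ := by ring
      have h10 : (C * (q : ℝ) ^ 6) ^ (n + 1) < ‖x j‖ := by
        rw [h6]
        refine (pow_lt_pow_left₀ (show _ < Real.exp (C * (q : ℝ) ^ 6) by
          linarith [Real.add_one_le_exp (C * (q : ℝ) ^ 6)]) (by linarith) (by omega)).trans_le ?_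
        rw [← Real.exp_nat_mul, Real.exp_le_exp]
        push_cast
        nlinarith
      have h11 : (0 : ℝ) < (((q - p) * q ^ (j + 1) : ℕ) : ℝ) ^ 3 :=
        pow_pos (by exact_mod_cast mul_pos (by omega : 0 < q - p) (pow_pos hq0 _)) _
      rw [div_le_iff₀ h11] at h3
      have h12 : C ≤ C ^ (n + 1) := le_self_pow₀ hC (by omega)
      have h13 : ‖x j‖ ≤ C * (((q - p) * q ^ (j + 1) : ℕ) : ℝ) ^ 3 := by nlinarith
      have h14 := mul_le_mul h12 h9 h11.le (by positivity)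
      rw [mul_pow] at h10
      linarith
    exact eq_one_of_coprime (((Nat.coprime_self_sub_left hpq.le).2 hc).pow_right (j + 1)) hμ
      (h2 ▸ z1 j hj)
  refine fun j hj t ht μ => ⟨fun h1 h2 he => hab ?_, fun h1 h2 he => hab ?_⟩
  · rw [← h1, key j hj t ht μ (pow_sub_eq_one hpq hb hp0 h1 h2) he, one_pow, one_mul]
  · have h3 := pow_sub_eq_one hpq ha hp0 h1 h2
    have h4 : μ ≠ 0 := ne_zero_of_pow_eq_one (by omega) h3
    have h5 := key t ht j hj μ⁻¹ (by rw [inv_pow, h3, inv_one])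
      (by rw [he, inv_mul_cancel_left₀ h4])
    rw [← h1, inv_eq_one.1 h5, one_pow, one_mul]

theorem lev : LevStmt := by
  intro p q a b hp hpq
  have hp0 : 0 < p := by omega
  have hθ := one_lt_theta hp0 hpq
  obtain ⟨d, -, Ca, hCa, hS⟩ := exists_Sz_finset {a, b}
  have ha := (hS a (by simp)).2
  have hb := (hS b (by simp)).2
  have hΛ := log_one_add_nonneg (zero_le_one.trans hCa)
  choose m _ hm using exists_max_orb ⊤
  have hle : ∀ (g : Gal) (x : Qb), lp (g x) ≤ lp (m x x) := fun g x => lp_mono (hm x g trivial)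
  have hrt : ∀ (σ τ : Gal) (μ y y' : Qb) (M : ℕ), 0 < M → μ ^ M = 1 → σ y = μ * τ y' →
      lp (m y y) ≤ lp (m y' y') := by
    intro σ τ μ y y' M hM hμ he
    have h1 : m y y = (m y * σ⁻¹) μ * (m y * σ⁻¹ * τ) y' := by
      rw [AlgEquiv.mul_apply (m y * σ⁻¹) τ, ← map_mul, ← he]; simp
    rw [h1, lp_unit_mul (norm_root hM (by rw [← map_pow, hμ, map_one]))]
    exact hle _ _
  refine ⟨Real.log (1 + Ca) + (4 * Real.log (1 + Ca) + 1) / ((q : ℝ) / p - 1),
    fun n x x' hx hx' h0 hn z z' hz hz' σ τ μ M hM hμ j hj t ht he => ?_⟩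
  have hmt : ∀ (g : Gal), ∀ k ≤ n, |lp (g (x k)) - lp (g (x' k))| ≤ 2 * Real.log (1 + Ca) :=
    fun g => match_top hpq (ha g) (hb g) (hx.map (g : Qb →+* Qb)) (hx'.map (g : Qb →+* Qb))
      (by simpa using congrArg g h0)
  have h1 : ∀ w : ℕ → Qb, (w = x ∨ w = x') → ∀ k ≤ n,
      |lp (m (x k) (x k)) - lp (m (w k) (w k))| ≤ 2 * Real.log (1 + Ca) := by
    rintro w (rfl | rfl) k hk
    · rw [sub_self, abs_zero]; linarith
    · have a1 := abs_le.1 (hmt (m (x k)) k hk)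
      have a2 := abs_le.1 (hmt (m (w k)) k hk)
      rw [abs_le]
      constructor <;> linarith [hle (m (x k)) (w k), hle (m (w k)) (x k)]
  have h2 := hrt σ τ μ _ _ M hM hμ he
  have h3 := hrt τ σ μ⁻¹ _ _ M hM (by rw [inv_pow, hμ, inv_one])
    (by rw [he, inv_mul_cancel_left₀ (ne_zero_of_pow_eq_one hM hμ)])
  refine lev_sep hθ (y := fun i => lp (m (x i) (x i))) (Λ := Real.log (1 + Ca))
    (M := 4 * Real.log (1 + Ca)) (fun i hi => ?_) (by linarith) ?_ hj ht ?_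
  · refine (fwd_step hp0 hpq (ha (m (x (i + 1))))
      ((hx.map (m (x (i + 1)) : Qb →+* Qb)) i hi)).trans ?_
    exact sub_le_sub_right (hle _ _) _
  · rw [← div_le_iff₀' (by linarith)]
    have := hle 1 (x n)
    rw [AlgEquiv.one_apply] at this
    linarith
  · have a1 := abs_le.1 (h1 z hz j hj)
    have a2 := abs_le.1 (h1 z' hz' t ht)
    rw [abs_le]
    constructor <;> linarith

theorem HL_run {p q : ℕ} {a b : Qb} (D : Dat p q a) (D' : Dat p q b) (i j : ℕ) (hij : i ≤ j)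
    (h : ∀ l, i ≤ l → l < j → HL D D' (l + 1) ≤ HL D D' l) : HL D D' i = HL D D' j := by
  induction j, hij using Nat.le_induction with
  | base => rfl
  | succ j hj ih =>
    rw [ih fun l h1 h2 => h l h1 (by omega)]
    exact le_antisymm (HL_mono D D' j.le_succ) (h j hj (by omega))

theorem HL_step' {p q : ℕ} (hp : 0 < p) {a b : Qb} (D : Dat p q a) (D' : Dat p q b) (l : ℕ) :
    (HL D D' l).index ≤ (HL D D' (l + 1)).index * p ^ 2 := by
  rw [← Subgroup.relIndex_mul_index (HL_mono D D' l.le_succ), mul_comm]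
  exact Nat.mul_le_mul_left _ (HL_step D D' hp l)

theorem deg2 (hW : WdStmt) : Deg2Stmt := by
  intro p q a b hp hpq hc ha hb hab
  have hp0 : 0 < p := by omega
  have hq0 : 0 < q := by omega
  obtain ⟨A, C, hA, hC, hW⟩ := hW p q (max ‖a‖ ‖b‖) hp hpq hc
  have ha' := le_max_left ‖a‖ ‖b‖
  have hb' := le_max_right ‖a‖ ‖b‖
  have hΛ := log_one_add_nonneg ((norm_nonneg a).trans ha')
  have ha0 : 0 < ‖a‖ := norm_pos_iff.2 ha
  obtain ⟨C₁, C₂, hC₁, hgap⟩ := H21.gap hp hpq hc (lam := b / a) (div_ne_zero hb ha)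
    (fun h => hab ((div_eq_one_iff_eq ha).1 h).symm) (C / ‖a‖) (by positivity)
  refine ⟨A + Real.log (1 + max ‖a‖ ‖b‖) + 2 * (C + C₁) + |C₂|, fun D D' k h0 hk hk' hn => ?_⟩
  have hq1 : (1 : ℝ) ≤ (q : ℝ) ^ k := one_le_pow₀ (by exact_mod_cast hq0)
  have hk2 : (k : ℝ) + 2 ≤ 2 * (q : ℝ) ^ k := by
    have : k + 2 ≤ 2 * q ^ k := by
      have := Nat.lt_pow_self (n := k) (show 1 < q by omega)
      omega
    exact_mod_cast this
  have hk0 : (0 : ℝ) ≤ k := Nat.cast_nonneg k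
  have hC2 := abs_nonneg C₂
  have b1 : A + Real.log (1 + max ‖a‖ ‖b‖) ≤ lp (D.lev k) := by nlinarith
  have b2 : (C + C₁) * (k + 2) ≤ lp (D.lev k) := by nlinarith
  have b3 : |C₂| * (q : ℝ) ^ k < lp (D.lev k) := by nlinarith
  have low : ∀ l ≤ k, lp (D.lev k) ≤ lp (D.lev l) := fun l hl =>
    fwd_anti hp0 hpq ha' (D.fwd_lev hk) (by linarith) hl
  have h00 : D'.lev 0 ^ q = D.lev 0 ^ q := by rw [D.lev_zero, D'.lev_zero, h0]
  obtain ⟨ζ, hζ, hwd⟩ := hW Qb goodF_Qb a b k D.lev D'.lev ha' hb' (D.fwd_lev hk) (D'.fwd_lev hk')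
    h00 (by linarith)
  have close : ∀ l, 1 ≤ l → l ≤ k → ¬ HL D D' (l + 1) ≤ HL D D' l →
      ‖RingHom.id Qb (b / a) - ζ (l - 1) ^ p‖ * Real.exp (lp (D.lev l)) ≤ C / ‖a‖ := by
    intro l l1 l2 hex
    obtain ⟨g, hg, ω, ω', o1, o2, o3, o4, o5⟩ := H21.rot hp0 D D' hex
    have f1 := (D.fwd_lev (m := l) (by omega)).map (g : Qb →+* Qb)
    have f2 := (D'.fwd_lev (m := l) (by omega)).map (g : Qb →+* Qb)
    simp only [RingHom.coe_coe, GK_left hg, GK_right hg] at f1 f2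
    have hl : (l : ℝ) ≤ k := by exact_mod_cast l2
    have h1 := hwd l l1 l2 _ _ ω ω' f1 f2 (by simpa using congrArg g h00) o1 o2 o3 o4 o5
      (by nlinarith [low l l2])
    rw [← norm_eq_exp_lp (by linarith [low l l2]), le_div_iff₀ ha0, RingHom.id_apply]
    have e : b - ζ (l - 1) ^ p * a = (b / a - ζ (l - 1) ^ p) * a := by field_simp
    rw [e, norm_mul] at h1
    linarith
  have rel : ∀ i s, i + s ≤ k → ζ (i + s) ^ q ^ s = ζ i ^ p ^ s := by
    intro i s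
    induction s with
    | zero => simp
    | succ s ih =>
      intro h
      rw [pow_succ', pow_mul, ← add_assoc, hζ.2.1 (i + s) (by omega), ← pow_mul, mul_comm,
        pow_mul, ih (by omega), ← pow_mul, ← pow_succ]
  have uniq : ∀ i l, 1 ≤ i → i < l → l ≤ k → ¬ HL D D' (i + 1) ≤ HL D D' i →
      HL D D' (l + 1) ≤ HL D D' l := by
    intro i l i1 hil hl i2
    by_contra l2
    obtain ⟨s, rfl⟩ := Nat.exists_eq_add_of_le hil.le
    have hb : C₁ * (k + 2) ≤ lp (D.lev k) := by nlinarith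
    have h1 := hgap Qb goodF_Qb _ liP_id k i s (ζ (i - 1) ^ p) (ζ (i + s - 1) ^ p) _ _
      (lp (D.lev k)) (by omega) (by omega)
      (by
        have := hζ.1 (i - 1) (by omega)
        rw [show i - 1 + 1 = i by omega] at this
        rw [← pow_mul, mul_comm, pow_mul, this, one_pow])
      (by rw [norm_pow, norm_root (pow_pos hq0 _) (hζ.1 (i + s - 1) (by omega)), one_pow])
      (by
        rw [← pow_mul, mul_comm, pow_mul, show i + s - 1 = i - 1 + s by omega,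
          rel (i - 1) s (by omega), ← pow_mul, mul_comm, pow_mul])
      (close i i1 (by omega) i2) (close _ (by omega) hl l2) (hb.trans (low i (by omega)))
      (hb.trans (low _ hl)) (low i (by omega)) (low _ hl)
    have h2 : C₂ * (q : ℝ) ^ s ≤ |C₂| * (q : ℝ) ^ k :=
      mul_le_mul (le_abs_self _) (pow_le_pow_right₀ (by exact_mod_cast hq0) (by omega))
        (by positivity) hC2
    linarith
  refine (HL_step' hp0 D D' 0).trans ?_
  rw [show p ^ 4 = p ^ 2 * p ^ 2 by ring, ← mul_assoc]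
  refine Nat.mul_le_mul_right _ ?_
  by_cases hex : ∃ i, 1 ≤ i ∧ i ≤ k ∧ ¬ HL D D' (i + 1) ≤ HL D D' i
  · obtain ⟨i, i1, i2, i3⟩ := hex
    rw [HL_run D D' (0 + 1) i i1 fun l l1 l2 => by
        by_contra l3
        exact i3 (uniq l i l1 l2 i2 l3),
      ← HL_run D D' (i + 1) (k + 1) (by omega) fun l l1 l2 => uniq i l i1 l1 (by omega) i3]
    exact HL_step' hp0 D D' i
  · rw [HL_run D D' (0 + 1) (k + 1) (by omega) fun l l1 l2 => by
      by_contra l3
      exact hex ⟨l, l1, by omega, l3⟩]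
    exact Nat.le_mul_of_pos_right _ (by positivity)

theorem td (hT1 : T1Stmt) (hT2 : T2Stmt) : TDStmt := by
  intro p q a b c e hp hpq hc ha hb hab hc0
  have hp0 : 0 < p := by omega
  have hq0 : 0 < q := by omega
  have hθ := one_lt_theta hp0 hpq
  obtain ⟨d, hd, Ca, hCa, hS⟩ := exists_Sz_finset {a, b}
  have hSa := hS a (by simp)
  have hSb := hS b (by simp)
  have hΛ := log_one_add_nonneg (zero_le_one.trans hCa)
  have hld := Real.log_natCast_nonneg d
  obtain ⟨B, hB⟩ : ∃ B : ℝ, B = ((q : ℝ) / p) ^ e *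
    ((p + 1) * Real.log d + 2 * Real.log (1 + Ca)) / c := ⟨_, rfl⟩
  obtain ⟨C₁, h1⟩ := hT1 p q a b B hp hpq hc ha hb hab
  obtain ⟨C₂, h2⟩ := hT2 p q a b B hp hpq hc ha hb hab
  obtain ⟨r, hr⟩ := pow_unbounded_of_one_lt (2 + 1 / c) hθ
  obtain ⟨C, c1, c2, c3, c4, c5, c6⟩ : ∃ C, 2 * C₁ ≤ C ∧ C₂ ≤ C ∧ (C₁ + 3) * C₂ + C₁ ≤ C ∧
      2 ≤ C ∧ e + 1 ≤ C ∧ r ≤ C :=
    ⟨2 * C₁ + C₂ + ((C₁ + 3) * C₂ + C₁) + 2 + (e + 1) + r, by omega, by omega, by omega, by omega,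
      by omega, by omega⟩
  refine ⟨C, fun D D' L k g g' h0 hn hn' hI hk hkn hg hg' hbig hbig' => ?_⟩
  have hkD : k + e < D.n := by nlinarith
  have hσ : ∀ y, (g' * g⁻¹) (g y) = g' y := fun y => by simp
  have hG : g' * g⁻¹ ∈ GK p q a b := mul_mem hg' (inv_mem hg)
  have h00 : D'.lev 0 ^ q = D.lev 0 ^ q := by rw [D.lev_zero, D'.lev_zero, h0]
  have hf : ∀ γ ∈ GK p q a b, Fwd p q a k (fun i => γ (D.lev i)) ∧
      Fwd p q b k fun i => γ (D'.lev i) := fun γ hγ => by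
    have f1 := (D.fwd_lev (m := k) (by omega)).map (γ : Qb →+* Qb)
    have f2 := (D'.fwd_lev (m := k) (by omega)).map (γ : Qb →+* Qb)
    simp only [RingHom.coe_coe, GK_left hγ, GK_right hγ] at f1 f2
    exact ⟨f1, f2⟩
  have hfix : ∀ γ : Gal, ∀ x ∈ (HL D D' 0).map (MulAut.conj γ).toMonoidHom, ∀ i ≤ k,
      x (γ (D.lev i)) = γ (D.lev i) ∧ x (γ (D'.lev i)) = γ (D'.lev i) := by
    rintro γ x ⟨y, hy, rfl⟩ i hi
    have hy' := (mem_HL D D').1 hy
    simp [hy'.2.2.2.1 i (by omega) (by omega), hy'.2.2.2.2 i (by omega) (by omega)]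
  have hBh : B * (c * ((q : ℝ) / p) ^ D.n) = ((q : ℝ) / p) ^ (D.n + e) *
      ((p + 1) * Real.log d + 2 * Real.log (1 + Ca)) := by
    rw [hB, pow_add]; field_simp
  have hθn : (0 : ℝ) < ((q : ℝ) / p) ^ (D.n + e) := by positivity
  have hsz : ∀ (c' : Qb), Sz c' d Ca → ∀ (E : Dat p q c'), E.n ≤ D.n + e → ∀ (γ : Gal) (i : ℕ),
      Sz (γ (E.lev i)) (d ^ dn p q (D.n + e)) (Real.exp (B * (c * ((q : ℝ) / p) ^ D.n))) := by
    intro c' hc' E hE γ i
    refine ((E.t_Sz hp0 hpq hc' (Nat.sub_le _ i)).mono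
      (pow_dvd_pow _ (dn_mono hp0 hpq (by omega))) (Real.exp_le_exp.2 ?_)).map γ
    rw [hBh]
    exact mul_le_mul (pow_le_pow_right₀ hθ.le (by omega)) (le_add_of_nonneg_left (by positivity))
      (by positivity) hθn.le
  have hQ : Quad p q a b B (2 * L) k (c * ((q : ℝ) / p) ^ D.n) ![fun i => g (D.lev i),
      fun i => g (D'.lev i), fun i => g' (D.lev i), fun i => g' (D'.lev i)] := by
    refine ⟨fun m => ?_, by simpa using congrArg g h00, by simpa using congrArg g' h00,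
      ⟨(HL D D' 0).map (MulAut.conj g).toMonoidHom ⊓ (HL D D' 0).map (MulAut.conj g').toMonoidHom,
        ?_, ?_, fun x hx m i hi => ?_⟩, ⟨d ^ dn p q (D.n + e), pow_pos hd _, ?_, fun m i _ => ?_⟩,
      hbig, hbig'⟩
    · fin_cases m
      exacts [(hf g hg).1, (hf g hg).2, (hf g' hg').1, (hf g' hg').2]
    · refine Subgroup.index_inf_ne_zero ?_ ?_ <;> rw [index_conj] <;>
        exact HL_index D D' (mul_pos hp0 hq0) 0
    · refine Subgroup.index_inf_le.trans ?_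
      rw [index_conj, index_conj, two_mul, pow_add]
      exact Nat.mul_le_mul hI hI
    · fin_cases m
      exacts [(hfix g x hx.1 i hi).1, (hfix g x hx.1 i hi).2, (hfix g' x hx.2 i hi).1,
        (hfix g' x hx.2 i hi).2]
    · rw [hBh, Nat.cast_pow, Real.log_pow]
      have a1 := dn_le hp0 hpq (D.n + e)
      have a2 : (0 : ℝ) ≤ p := Nat.cast_nonneg p
      nlinarith [mul_nonneg hθn.le hΛ]
    · fin_cases m
      exacts [hsz a hSa D (by omega) g i, hsz b hSb D' hn' g i, hsz a hSa D (by omega) g' i,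
        hsz b hSb D' hn' g' i]
  have hh : (2 : ℝ) ^ k ≤ c * ((q : ℝ) / p) ^ D.n := by
    have a1 : (((q : ℝ) / p) ^ r) ^ (k + 1) ≤ ((q : ℝ) / p) ^ D.n := by
      rw [← pow_mul]
      exact pow_le_pow_right₀ hθ.le ((Nat.mul_le_mul_right _ c6).trans hkn)
    have a0 : 0 < 1 / c := by positivity
    have a2 : (2 : ℝ) ^ k ≤ (((q : ℝ) / p) ^ r) ^ k := pow_le_pow_left₀ (by norm_num) (by linarith) k
    have a3 : 1 ≤ c * ((q : ℝ) / p) ^ r := by
      rw [← div_le_iff₀' hc0]; linarith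
    calc (2 : ℝ) ^ k ≤ (c * ((q : ℝ) / p) ^ r) * (((q : ℝ) / p) ^ r) ^ k :=
        a2.trans (le_mul_of_one_le_left (by positivity) a3)
      _ = c * (((q : ℝ) / p) ^ r) ^ (k + 1) := by ring
      _ ≤ _ := mul_le_mul_of_nonneg_left a1 hc0.le
  obtain ⟨z, hz⟩ : ∃ z, z = C * (L + 1) := ⟨_, rfl⟩
  have z1 : C ≤ z := by rw [hz]; nlinarith
  have z2 : 2 * L + 1 ≤ z := by rw [hz]; nlinarith
  have z3 : (C₁ * (2 * L + 1)) ^ C₁ ≤ z ^ C₁ := Nat.pow_le_pow_left (by rw [hz]; nlinarith) _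
  have z0 : 0 < z := by omega
  rw [← hz] at hk
  have hP := h1 (2 * L) k _ _ hQ (z3.trans ((Nat.pow_le_pow_right z0 (by omega)).trans hk)) hh
  have := h2 (2 * L) ((C₁ * (2 * L + 1)) ^ C₁) k (c * ((q : ℝ) / p) ^ D.n) (fun i => g (D.lev i))
    (fun i => g (D'.lev i)) (g' * g⁻¹) (by simpa only [hσ] using hQ)
    (by rw [hσ]; exact hP) (le_trans ?_ hk) hh
  · simpa only [hσ] using this
  · have a1 : z ≤ z ^ (C₁ + 1) := Nat.le_self_pow (by omega) z
    have a2 : z ^ C₁ ≤ z ^ (C₁ + 1) := Nat.pow_le_pow_right z0 (by omega)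
    have a3 : 2 * L + (C₁ * (2 * L + 1)) ^ C₁ + 1 ≤ z ^ (C₁ + 1) * z := by nlinarith
    calc _ ≤ (z * (z ^ (C₁ + 1) * z)) ^ C₂ := Nat.pow_le_pow_left (Nat.mul_le_mul (by omega) a3) _
      _ = z ^ ((C₁ + 3) * C₂) := by ring
      _ ≤ _ := Nat.pow_le_pow_right z0 (by omega)

end Pool.Agent.MP_09973c_nt.H31
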