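import Pool.Agent.MP_09973c_nt.H31.Expand

/-!
Irreducibility of the towers with a tail.
-/

set_option autoImplicit false

namespace Pool.Agent.MP_09973c_nt.H31

open Polynomial Finset

def UInd (r s : ℕ → ℕ) (α β : ℕ → ℂ) (n : ℕ) : Prop :=
  ∀ (A : Type) [CommRing A] [IsDomain A] [Algebra ℂ A] (v : ℕ → A), IsPathA r s α β n v →
    Transcendental ℂ (v n) → Indep r n v

theorem uind_of_indep {r s : ℕ → ℕ} {α β : ℕ → ℂ} {n : ℕ} (hr : ∀ k, 0 < r k) {B : Type}
    [CommRing B] [IsDomain B] [Algebra ℂ B] (g : ℕ → B) (hg : IsPathA r s α β n g)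
    (h : Indep r n g) : UInd r s α β n :=
  fun _ _ _ _ v hv ht => indep_transfer hr g hg h v hv ht

theorem UInd.irr {r s : ℕ → ℕ} {α β : ℕ → ℂ} {n : ℕ} (hr : ∀ k, 0 < r k) (h : UInd r s α β n) :
    Irr r s α β n := by
  obtain ⟨g, hg, hgn⟩ := exists_path n tt r s
    (fun k => algebraMap ℂ FF (α k)) (fun k => algebraMap ℂ FF (β k)) hr
  exact irr_of_indep hr g hg (h FF g hg (hgn ▸ tt_transcendental))

theorem ps_root {s : ℕ} (hs : 0 < s) (w : PowerSeries ℂ) {A : ℂ} (hA : A ≠ 0)
    (h : PowerSeries.constantCoeff w = A ^ s) :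
    ∃ z : PowerSeries ℂ, z ^ s = w ∧ PowerSeries.constantCoeff z = A := by
  obtain ⟨z, hz1, hz2⟩ := HenselianRing.is_henselian (R := PowerSeries ℂ)
    (I := Ideal.span {PowerSeries.X}) (X ^ s - C w) (monic_X_pow_sub_C _ hs.ne')
    (PowerSeries.C A) (by
      rw [Ideal.mem_span_singleton, PowerSeries.X_dvd_iff]
      simp [h]) (by
      refine IsUnit.map _ ?_
      rw [PowerSeries.isUnit_iff_constantCoeff]
      simp [derivative_X_pow, hA, hs.ne'])
  refine ⟨z, ?_, ?_⟩
  · simpa [sub_eq_zero] using hz1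
  · rw [Ideal.mem_span_singleton, PowerSeries.X_dvd_iff] at hz2
    simpa [sub_eq_zero] using hz2

theorem ps_X_not_integral : ¬ IsIntegral ℂ (PowerSeries.X : PowerSeries ℂ) := by
  rintro ⟨F, hF, h0⟩
  have h1 : aeval (PowerSeries.X : PowerSeries ℂ) F = (F : PowerSeries ℂ) := by
    have := aeval_algHom_apply (coeToPowerSeries.algHom (R := ℂ) ℂ) X F
    simpa using this
  have h2 : (F : PowerSeries ℂ) = 0 := h1.symm.trans h0
  exact hF.ne_zero (Polynomial.coe_eq_zero_iff.1 h2)

theorem path_integral_back {A : Type} [CommRing A] [Algebra ℂ A] {r s : ℕ → ℕ} {α β : ℕ → ℂ}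
    {n : ℕ} (hr : ∀ k, 0 < r k) {v : ℕ → A} (hv : IsPathA r s α β n v) (h : IsIntegral ℂ (v n)) :
    IsIntegral ℂ (v 0) := by
  have : ∀ j ≤ n, IsIntegral ℂ (v (n - j)) := by
    intro j
    induction j with
    | zero => exact fun _ => h
    | succ j ih =>
      intro hj
      refine IsIntegral.of_pow (hr (n - (j + 1))) ?_
      rw [hv _ (by omega)]
      have e : n - (j + 1) + 1 = n - j := by omega
      rw [e]
      exact (isIntegral_algebraMap.mul ((ih (by omega)).pow _)).add isIntegral_algebraMap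
  simpa using this n le_rfl

theorem eq_zero_of_sum_expand {p : ℕ} (hp : p ≠ 0) (F : Fin p → PowerSeries ℂ)
    (h : ∑ a : Fin p, PowerSeries.X ^ (a : ℕ) * PowerSeries.expand p hp (F a) = 0) (a : Fin p) :
    F a = 0 := by
  ext m
  have := congrArg (PowerSeries.coeff (p * m + a)) h
  rw [map_sum, map_zero, sum_eq_single a] at this
  · rwa [PowerSeries.coeff_X_pow_mul, PowerSeries.coeff_expand_mul] at this
  · intro b _ hb
    rw [PowerSeries.coeff_X_pow_mul']
    split_ifs with hle
    · refine PowerSeries.coeff_expand_of_not_dvd _ _ _ fun hd => hb (Fin.ext ?_)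
      have h1 : (b : ℕ) ≡ p * m + a [MOD p] := (Nat.modEq_iff_dvd' hle).2 hd
      have h2 : p * m + a ≡ a [MOD p] := by simp [Nat.ModEq]
      exact Nat.ModEq.eq_of_lt_of_lt (h1.trans h2) b.2 a.2
    · rfl
  · simp

theorem UInd.step {r s : ℕ → ℕ} {α β : ℕ → ℂ} {n : ℕ} (hr : ∀ k, 0 < r k) (hs : ∀ k, 0 < s k)
    (hα : ∀ k, α k ≠ 0)
    (h : UInd (fun k => r (k + 1)) (fun k => s (k + 1)) (fun k => α (k + 1))
      (fun k => β (k + 1)) n)
    (A : ℕ → ℂ) (hA : IsPath (fun k => r (k + 1)) (fun k => s (k + 1)) (fun k => α (k + 1))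
      (fun k => β (k + 1)) n A) (hA0 : ∀ k ≤ n, A k ≠ 0) (h0 : α 0 * A 0 ^ s 0 + β 0 = 0) :
    UInd r s α β (n + 1) := by
  classical
  have hC : ∀ c : ℂ, algebraMap ℂ (PowerSeries ℂ) c = PowerSeries.C c := fun c => rfl
  have hex : ∀ k ≤ n, ∃ g : ℕ → PowerSeries ℂ,
      IsPathA (fun k => r (k + 1)) (fun k => s (k + 1)) (fun k => α (k + 1))
        (fun k => β (k + 1)) k g ∧
      PowerSeries.X = algebraMap ℂ _ (α 0) * g 0 ^ s 0 + algebraMap ℂ _ (β 0) ∧
      PowerSeries.constantCoeff (g k) = A k := by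
    intro k
    induction k with
    | zero =>
      intro _
      obtain ⟨z, hz1, hz2⟩ := ps_root (hs 0)
        (PowerSeries.C (α 0)⁻¹ * (PowerSeries.X - PowerSeries.C (β 0))) (hA0 0 (Nat.zero_le _)) (by
          simp only [map_mul, map_sub, PowerSeries.constantCoeff_C, PowerSeries.constantCoeff_X]
          field_simp [hα 0]
          linear_combination -h0)
      refine ⟨fun _ => z, fun j hj => absurd hj (by omega), ?_, hz2⟩
      rw [hz1, hC, hC, ← mul_assoc, ← map_mul, mul_inv_cancel₀ (hα 0), map_one]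
      ring
    | succ k ih =>
      intro hk
      obtain ⟨g, hg, hg0, hgk⟩ := ih (by omega)
      obtain ⟨z, hz1, hz2⟩ := ps_root (hs (k + 1))
        (PowerSeries.C (α (k + 1))⁻¹ * (g k ^ r (k + 1) - PowerSeries.C (β (k + 1))))
        (hA0 (k + 1) hk) (by
          simp only [map_mul, map_sub, map_pow, PowerSeries.constantCoeff_C, hgk]
          rw [hA k (by omega)]
          field_simp [hα (k + 1)]
          ring)
      refine ⟨Function.update g (k + 1) z, fun j hj => ?_, ?_, by simpa using hz2⟩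
      · rcases Nat.eq_or_lt_of_le (Nat.lt_succ_iff.1 hj) with rfl | hj'
        · beta_reduce
          rw [Function.update_of_ne (by omega), Function.update_self, hz1, hC, hC, ← mul_assoc,
            ← map_mul, mul_inv_cancel₀ (hα _), map_one]
          ring
        · rw [Function.update_of_ne (by omega), Function.update_of_ne (by omega)]
          exact hg j hj'
      · rw [Function.update_of_ne (by omega)]; exact hg0
  obtain ⟨g, hg, hg0, -⟩ := hex n le_rfl
  have ht : Transcendental ℂ (g n) := fun halg => ps_X_not_integral (by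
    rw [hg0]
    exact (isIntegral_algebraMap.mul
      ((path_integral_back (fun k => hr (k + 1)) hg halg.isIntegral).pow _)).add
      isIntegral_algebraMap)
  have hind := h _ g hg ht
  let ε := PowerSeries.expand (R := ℂ) (r 0) (hr 0).ne'
  refine uind_of_indep hr (cons0 PowerSeries.X fun k => ε (g k)) (isPath_cons0 ?_ ?_) ?_
  · have := congrArg ε hg0
    rw [PowerSeries.expand_X] at this
    rw [this]
    simp only [map_add, map_mul, map_pow, AlgHom.commutes]
  · intro k hk
    have := congrArg ε (hg k hk)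
    simpa only [map_add, map_mul, map_pow, AlgHom.commutes] using this
  · intro c hc
    rw [sum_Idx_succ] at hc
    have h1 := eq_zero_of_sum_expand (hr 0).ne' (fun a => ∑ l : Idx (fun k => r (k + 1)) n,
      aeval (g n) (c (Fin.consEquiv (fun k : Fin (n + 1) => Fin (r k)) (a, l))) * bas l g) (by
        rw [← hc]
        refine sum_congr rfl fun a _ => ?_
        rw [map_sum, mul_sum]
        refine sum_congr rfl fun l _ => ?_
        rw [bas_cons, map_mul, cons0_succ, aeval_algHom_apply]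
        have := map_bas ε.toRingHom l g
        simp only [AlgHom.toRingHom_eq_coe, RingHom.coe_coe] at this
        rw [← this]
        ring)
    funext l
    obtain ⟨⟨a, l'⟩, rfl⟩ := (Fin.consEquiv (fun k : Fin (n + 1) => Fin (r k))).surjective l
    exact congrFun (hind _ (h1 a)) l'

theorem avoid {r m : ℕ} (hr : 0 < r) (hm : m.Coprime r) {w : ℂ} (hw : w ≠ 0) (Z : Finset ℂ)
    (hZ : Z.card < r) : ∃ z, z ^ r = w ∧ z ^ m ∉ Z := by
  classical
  obtain ⟨z, hz⟩ := IsAlgClosed.exists_pow_nat_eq w hr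
  have hz0 : z ≠ 0 := by rintro rfl; rw [zero_pow hr.ne'] at hz; exact hw hz.symm
  have hω := Complex.isPrimitiveRoot_exp r hr.ne'
  set ω := Complex.exp (2 * Real.pi * Complex.I / r)
  have hω' := hω.pow_of_coprime m hm
  have hcard : ((range r).image fun i => (ω ^ m) ^ i * z ^ m).card = r := by
    rw [card_image_of_injOn, card_range]
    intro i hi j hj h
    exact hω'.pow_inj (mem_range.1 hi) (mem_range.1 hj) (mul_right_cancel₀ (pow_ne_zero _ hz0) h)
  obtain ⟨_, h1, h2⟩ := exists_mem_notMem_of_card_lt_card (hZ.trans_eq hcard.symm)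
  obtain ⟨i, -, rfl⟩ := mem_image.1 h1
  refine ⟨ω ^ i * z, ?_, ?_⟩
  · rw [mul_pow, ← pow_mul, mul_comm i, pow_mul, hω.pow_eq_one, one_pow, one_mul, hz]
  · rwa [mul_pow, ← pow_mul, mul_comm i, pow_mul]

def tr (p q : ℕ) : ℕ → ℕ → ℕ
  | 0 => fun _ => q
  | t + 1 => cons0 p (tr p q t)

noncomputable def top {F : Type} [Field F] (ξ : F) (t : ℕ) : F := if t = 0 then ξ else 1

noncomputable def tα (ξ : ℂ) : ℕ → ℕ → ℂ
  | 0 => fun _ => 1
  | t + 1 => cons0 (top ξ t) (tα ξ t)

noncomputable def tβ (c : ℂ) : ℕ → ℕ → ℂ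
  | 0 => fun _ => c
  | t + 1 => cons0 (-c) (tβ c t)

theorem tr_pos {p q : ℕ} (hp : 0 < p) (hq : 0 < q) (t : ℕ) : ∀ k, 0 < tr p q t k := by
  induction t with
  | zero => exact fun _ => hq
  | succ t ih => intro k; cases k; exacts [hp, ih _]

theorem tr_of_le (p q t : ℕ) : ∀ k, t ≤ k → tr p q t k = q := by
  induction t with
  | zero => exact fun _ _ => rfl
  | succ t ih =>
    intro k hk
    cases k with
    | zero => omega
    | succ k => exact ih k (by omega)

theorem tα_of_le (ξ : ℂ) (t : ℕ) : ∀ k, t ≤ k → tα ξ t k = 1 := by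
  induction t with
  | zero => exact fun _ _ => rfl
  | succ t ih =>
    intro k hk
    cases k with
    | zero => omega
    | succ k => exact ih k (by omega)

theorem tβ_of_le (c : ℂ) (t : ℕ) : ∀ k, t ≤ k → tβ c t k = c := by
  induction t with
  | zero => exact fun _ _ => rfl
  | succ t ih =>
    intro k hk
    cases k with
    | zero => omega
    | succ k => exact ih k (by omega)

theorem top_pow {F : Type} [Field F] {ξ : F} {p : ℕ} (h : ξ ^ p = 1) (t : ℕ) : top ξ t ^ p = 1 := by
  unfold top; split_ifs <;> simp [h]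

theorem tα_pow {ξ : ℂ} {p : ℕ} (h : ξ ^ p = 1) (t : ℕ) : ∀ k, tα ξ t k ^ p = 1 := by
  induction t with
  | zero => exact fun _ => one_pow _
  | succ t ih => intro k; cases k; exacts [top_pow h t, ih _]

theorem ne_zero_of_pow_eq_one {F : Type} [Field F] {ξ : F} {p : ℕ} (hp : 0 < p) (h : ξ ^ p = 1) :
    ξ ≠ 0 := by
  rintro rfl; rw [zero_pow hp.ne'] at h; exact zero_ne_one h

section

variable {p q : ℕ} (hp : 2 ≤ p) (hpq : p < q) (h : p.Coprime q) {c ξ : ℂ} (hξ : ξ ^ p = 1)
  (hξ1 : ξ ≠ 1) (hc : c ≠ 0)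

include hp h in
theorem exists_cycle_path (c : ℂ) {z : ℂ} (hz0 : z ≠ 0) (hz : z ^ q ≠ c) :
    ∃ A : ℕ → ℂ, A 0 = z ∧ (∀ k, A k ≠ 0) ∧ ∀ k, A k ^ q = A (k + 1) ^ p + c := by
  have hstep : ∀ z : ℂ, z ≠ 0 ∧ z ^ q ≠ c → ∃ z', (z' ≠ 0 ∧ z' ^ q ≠ c) ∧ z ^ q = z' ^ p + c := by
    rintro z ⟨-, hz⟩
    obtain ⟨z', h1, h2⟩ := avoid (r := p) (m := q) (by omega) h.symm (sub_ne_zero.2 hz) {c}
      (by simp; omega)
    refine ⟨z', ⟨?_, by simpa using h2⟩, by rw [h1]; ring⟩
    rintro rfl
    rw [zero_pow (by omega)] at h1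
    exact sub_ne_zero.2 hz h1.symm
  choose! f hf1 hf2 using hstep
  have hm : ∀ k, f^[k] z ≠ 0 ∧ (f^[k] z) ^ q ≠ c := by
    intro k
    induction k with
    | zero => exact ⟨hz0, hz⟩
    | succ k ih => rw [Function.iterate_succ_apply']; exact hf1 _ ih
  refine ⟨fun k => f^[k] z, rfl, fun k => (hm k).1, fun k => ?_⟩
  simp only [Function.iterate_succ_apply']
  exact hf2 _ (hm k)

include hp hpq h hξ in
theorem exists_tail_path (t : ℕ) : ∀ w : ℂ, w ≠ 0 → (t = 0 → w ≠ c) →
    ∃ A : ℕ → ℂ, A 0 ^ q = w ∧ (∀ k, A k ≠ 0) ∧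
      ∀ n, IsPath (tr p q t) (tr q p t) (tα ξ t) (tβ c t) n A := by
  classical
  induction t with
  | zero =>
    intro w hw hwc
    obtain ⟨z, hz⟩ := IsAlgClosed.exists_pow_nat_eq w (n := q) (by omega)
    obtain ⟨A, h1, h2, h3⟩ := exists_cycle_path hp h c (z := z)
      (by rintro rfl; rw [zero_pow (by omega)] at hz; exact hw hz.symm) (hz ▸ hwc rfl)
    exact ⟨A, h1 ▸ hz, h2, fun n k _ => by simpa [tr, tα, tβ] using h3 k⟩
  | succ t ih =>
    intro w hw _
    have ht : top ξ t ≠ 0 := ne_zero_of_pow_eq_one (by omega) (top_pow hξ t)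
    obtain ⟨z, hz1, hz2⟩ := avoid (r := q) (m := p) (by omega) h hw {-c, top ξ t * c - c}
      (card_le_two.trans_lt (by omega))
    simp only [mem_insert, mem_singleton, not_or] at hz2
    obtain ⟨A, h1, h2, h3⟩ := ih ((z ^ p + c) / top ξ t)
      (div_ne_zero (fun h0 => hz2.1 (by linear_combination h0)) ht)
      (fun _ h0 => hz2.2 (by rw [div_eq_iff ht] at h0; linear_combination h0))
    refine ⟨cons0 z A, hz1, fun k => ?_, fun n => ?_⟩
    · cases k with
      | zero => rintro (rfl : z = 0); rw [zero_pow (by omega)] at hz1; exact hw hz1.symm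
      | succ k => exact h2 k
    · cases n with
      | zero => exact fun k hk => absurd hk (by omega)
      | succ n =>
        refine isPath_cons0 ?_ (h3 n)
        change z ^ p = top ξ t * A 0 ^ q + -c
        rw [h1]
        field_simp
        ring

include hp hpq h hξ hξ1 hc in
theorem tail_uind (N t : ℕ) : UInd (tr p q t) (tr q p t) (tα ξ t) (tβ c t) (N + t) := by
  induction t with
  | zero =>
    obtain ⟨g, hg, hi⟩ := pure_indep (P := q) (s := fun _ => p) (by omega) (fun _ => by omega)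
      (fun _ => h.symm) (α := fun _ => 1) (β := fun _ => c) (fun _ => one_ne_zero) N
    exact uind_of_indep (fun _ => show 0 < q by omega) g hg hi
  | succ t ih =>
    have ht : top ξ t ≠ 0 := ne_zero_of_pow_eq_one (by omega) (top_pow hξ t)
    obtain ⟨A, h1, h2, h3⟩ := exists_tail_path hp hpq h hξ (c := c) t (c / top ξ t)
      (div_ne_zero hc ht) (by
        rintro rfl h0
        rw [div_eq_iff ht] at h0
        exact hξ1 (mul_left_cancel₀ hc (h0.symm.trans (mul_one c).symm)))
    refine UInd.step (tr_pos (by omega) (by omega) _) (tr_pos (by omega) (by omega) _)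
      (fun k => ne_zero_of_pow_eq_one (by omega) (tα_pow hξ _ k)) ih A (h3 _) (fun k _ => h2 k) ?_
    change top ξ t * A 0 ^ q + -c = 0
    rw [h1]
    field_simp
    ring

/-- The tower with a tail of length `t + 1`. -/
noncomputable def tailTW (t : ℕ) : TW q p where
  r := tr p q (t + 1)
  s := tr q p (t + 1)
  α := tα ξ (t + 1)
  β := tβ c (t + 1)
  t := t + 1
  m := q
  hr := tr_pos (by omega) (by omega) _
  hs := tr_pos (by omega) (by omega) _
  hr2 := hp
  hm0 := by omega
  hm := h.symm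
  hrP := tr_of_le _ _ _
  hsQ := tr_of_le _ _ _
  hα := fun k => ⟨p, by omega, tα_pow hξ _ k⟩
  hαt := fun k hk => by rw [tα_of_le _ _ _ hk, tα_of_le _ _ _ le_rfl]
  hβt := fun k hk => by rw [tβ_of_le _ _ _ hk, tβ_of_le _ _ _ le_rfl]
  irr := fun n => by
    have := (tail_uind hp hpq h hξ hξ1 hc (n + 1) (t + 1)).irr (tr_pos (by omega) (by omega) _)
    rwa [add_comm (n + 1)] at this

/-- The pure tower with one more root on top. -/
noncomputable def rootTW (c : ℂ) {η : ℂ} {M : ℕ} (hM : 0 < M) (hη : η ^ M = 1) : TW q p where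
  r := fun _ => q
  s := cons0 1 fun _ => p
  α := cons0 η fun _ => 1
  β := cons0 0 fun _ => c
  t := 1
  m := p * p
  hr := fun _ => by omega
  hs := fun k => by cases k; exacts [one_pos, show 0 < p by omega]
  hr2 := by omega
  hm0 := by positivity
  hm := Nat.Coprime.mul_left h h
  hrP := fun _ _ => rfl
  hsQ := fun k hk => by cases k; exacts [absurd hk (by omega), rfl]
  hα := fun k => by cases k; exacts [⟨M, hM, hη⟩, ⟨1, one_pos, one_pow _⟩]
  hαt := fun k hk => by cases k; exacts [absurd hk (by omega), rfl]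
  hβt := fun k hk => by cases k; exacts [absurd hk (by omega), rfl]
  irr := fun n => by
    obtain ⟨g, hg, hi⟩ := pure_indep (P := q) (s := cons0 1 fun _ => p) (by omega)
      (fun k => by cases k; exacts [one_pos, show 0 < p by omega])
      (fun k => by cases k; exacts [Nat.coprime_one_right _, h.symm])
      (α := cons0 η fun _ => 1) (β := cons0 0 fun _ => c)
      (fun k => by cases k; exacts [ne_zero_of_pow_eq_one hM hη, one_ne_zero]) (1 + (n + 1))
    exact irr_of_indep (fun _ => by omega) g hg hi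

end

end Pool.Agent.MP_09973c_nt.H31
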