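import Pool.Agent.MP_09973c_nt.H31.TailIrr

/-!
Common constrained points with tails of bounded length, `2 ≤ p < q`.
-/

set_option autoImplicit false

namespace Pool.Agent.MP_09973c_nt.H31

open Polynomial Finset

/-- Points whose path enters a bounded backward chain through the root of unity `ξ`. -/
def WS {F : Type} [Field F] (p q : ℕ) (c ξ : F) : ℕ → Set F
  | 0 => {y | ∃ u, Chain q p c u ∧ y = ξ * (u 0 ^ p + c)}
  | t + 1 => {y | ∃ x, x ^ q = y ∧ x ^ p + c ∈ WS p q c ξ t}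

theorem finite_range_cons0 {X : Type} (x : X) {v : ℕ → X} (h : (Set.range v).Finite) :
    (Set.range (cons0 x v)).Finite := by
  refine (h.insert x).subset ?_
  rintro _ ⟨k, rfl⟩
  cases k with
  | zero => exact Set.mem_insert _ _
  | succ k => exact Set.mem_insert_of_mem _ ⟨k, rfl⟩

theorem isPath_cons0_all {A : Type} [CommRing A] {r s : ℕ → ℕ} {α β : ℕ → A} {x : A}
    {v : ℕ → A} (hx : x ^ r 0 = α 0 * v 0 ^ s 0 + β 0)
    (hv : ∀ n, IsPath (fun k => r (k + 1)) (fun k => s (k + 1)) (fun k => α (k + 1))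
      (fun k => β (k + 1)) n v) (n : ℕ) : IsPath r s α β n (cons0 x v) :=
  fun k hk => isPath_cons0 hx (hv n) k (by omega)

theorem WS_path {p q : ℕ} (hq : 0 < q) {c ξ : ℂ} (t : ℕ) : ∀ y ∈ WS p q c ξ t,
    ∃ v : ℕ → ℂ, (∀ n, IsPath (tr p q t) (tr q p t) (tα ξ t) (tβ c t) n v) ∧
      (Set.range v).Finite ∧ y = top ξ t * v 0 ^ q := by
  induction t with
  | zero =>
    rintro y ⟨u, hu, rfl⟩
    obtain ⟨z, hz⟩ := IsAlgClosed.exists_pow_nat_eq (u 0 ^ p + c) hq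
    refine ⟨cons0 z u, isPath_cons0_all (by simpa [tr, tα, tβ] using hz)
      (fun n k _ => by simpa [tr, tα, tβ] using hu.1 k), finite_range_cons0 _ hu.2, ?_⟩
    simp [top, hz]
  | succ t ih =>
    rintro y ⟨x, rfl, hx⟩
    obtain ⟨v, hv, hf, h0⟩ := ih _ hx
    refine ⟨cons0 x v, isPath_cons0_all ?_ hv, finite_range_cons0 _ hf, by simp [top]⟩
    change x ^ p = top ξ t * v 0 ^ q + -c
    linear_combination h0

def Ru {F : Type} [Field F] (p q : ℕ) (κ : F) : Prop := ∃ k, κ ^ ((p * q) ^ k) = 1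

theorem Ru.mul {F : Type} [Field F] {p q : ℕ} {κ κ' : F} (h : Ru p q κ) (h' : Ru p q κ') :
    Ru p q (κ * κ') := by
  obtain ⟨k, h⟩ := h
  obtain ⟨k', h'⟩ := h'
  refine ⟨k + k', ?_⟩
  rw [mul_pow, pow_add, pow_mul κ, h, mul_comm ((p * q) ^ k), pow_mul κ', h']
  simp

theorem Ru.inv {F : Type} [Field F] {p q : ℕ} {κ : F} (h : Ru p q κ) : Ru p q κ⁻¹ := by
  obtain ⟨k, h⟩ := h
  exact ⟨k, by rw [inv_pow, h, inv_one]⟩

theorem Ru.pow {F : Type} [Field F] {p q : ℕ} {κ : F} (h : Ru p q κ) (n : ℕ) : Ru p q (κ ^ n) := by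
  obtain ⟨k, h⟩ := h
  exact ⟨k, by rw [← pow_mul, mul_comm, pow_mul, h, one_pow]⟩

theorem Ru.one {F : Type} [Field F] {p q : ℕ} : Ru p q (1 : F) := ⟨0, one_pow _⟩

theorem Ru.of_pow_left {F : Type} [Field F] {p q : ℕ} {η : F} (h : Ru p q (η ^ p)) : Ru p q η := by
  obtain ⟨k, h⟩ := h
  refine ⟨k + 1, ?_⟩
  have : (p * q) ^ (k + 1) = p * (p * q) ^ k * q := by ring
  rw [this, pow_mul, pow_mul, h, one_pow]

theorem Ru.of_pow_right {F : Type} [Field F] {p q : ℕ} {η : F} (h : Ru p q (η ^ q)) :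
    Ru p q η := by
  obtain ⟨k, h⟩ := h
  refine ⟨k + 1, ?_⟩
  have : (p * q) ^ (k + 1) = q * (p * q) ^ k * p := by ring
  rw [this, pow_mul, pow_mul, h, one_pow]

theorem Ru.ne_zero {F : Type} [Field F] {p q : ℕ} (hp : 0 < p) (hq : 0 < q) {κ : F}
    (h : Ru p q κ) : κ ≠ 0 := by
  obtain ⟨k, h⟩ := h
  exact ne_zero_of_pow_eq_one (by positivity) h

theorem main_lemma_ru {p q : ℕ} (hp : 0 < p) (hpq : p < q) (A B : TW q p) {κ d : ℂ}
    (hκ : Ru p q κ) (hinf : {w | w ∈ A.Good ∧ κ * w + d ∈ B.Good}.Infinite) : d = 0 := by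
  obtain ⟨k, hk⟩ := hκ
  exact main_lemma' hp hpq A B (pow_pos (Nat.mul_pos hp (by omega)) k) hk hinf

def Rel (A B : Set ℂ) (κ d : ℂ) : Prop := {y | y ∈ A ∧ κ * y + d ∈ B}.Infinite

theorem Rel.symm {A B : Set ℂ} {κ d : ℂ} (hκ : κ ≠ 0) (h : Rel A B κ d) :
    Rel B A κ⁻¹ (-(κ⁻¹ * d)) := by
  refine Set.Infinite.mono ?_ (Set.Infinite.image (f := fun y => κ * y + d)
    (fun x _ y _ h => mul_left_cancel₀ hκ (add_right_cancel h)) h)
  rintro _ ⟨y, ⟨h1, h2⟩, rfl⟩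
  refine ⟨h2, ?_⟩
  have : κ⁻¹ * (κ * y + d) + -(κ⁻¹ * d) = y := by field_simp; ring
  simp only
  rwa [this]

section

variable {p q : ℕ} (hp : 2 ≤ p) (hpq : p < q) (h : p.Coprime q)

include hp hpq h

theorem mem_tail_good {c ξ : ℂ} (hξ : ξ ^ p = 1) (hξ1 : ξ ≠ 1) (hc : c ≠ 0) {t : ℕ} {y : ℂ}
    (hy : y ∈ WS p q c ξ (t + 1)) : y ∈ (tailTW hp hpq h hξ hξ1 hc t).Good := by
  obtain ⟨v, hv, hf, h0⟩ := WS_path (by omega) _ y hy
  exact ⟨v, hv, hf, by rw [h0]; simp [top, tailTW]⟩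

theorem rel_pp {a b lam lam' κ d : ℂ} (h1 : Ru p q lam) (h2 : Ru p q lam') (hκ : Ru p q κ)
    (hrel : Rel (WS p q a lam 0) (WS p q b lam' 0) κ d) : a = b := by
  have hp0 : 0 < p := by omega
  have hq0 : 0 < q := by omega
  have hl := h1.ne_zero hp0 hq0
  have hl' := h2.ne_zero hp0 hq0
  obtain ⟨k, hk⟩ := (hκ.mul h1).mul h2.inv
  have hi : {w | (∃ v, Chain q p a v ∧ v 0 ^ p = w) ∧ ∃ v, Chain q p b v ∧
      v 0 ^ p = κ * lam * lam'⁻¹ * w + ((κ * lam * a + d) * lam'⁻¹ - b)}.Infinite := by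
    refine Set.Infinite.mono ?_ (Set.Infinite.image (f := fun y => lam⁻¹ * y - a)
      (fun x _ y _ h => mul_left_cancel₀ (inv_ne_zero hl) (sub_left_injective h)) hrel)
    rintro _ ⟨y, ⟨⟨u, hu, rfl⟩, u', hu', h3⟩, rfl⟩
    refine ⟨⟨u, hu, by field_simp; ring⟩, u', hu', ?_⟩
    field_simp
    linear_combination -h3
  have hM : 0 < (p * q) ^ k := by positivity
  have hd := pure_lemma hp0 hpq h.symm a b hM hk hi
  rw [hd] at hi
  simp only [add_zero] at hi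
  refine pure_pure hp0 hpq h.symm a b hM hk ?_ hi
  refine Nat.Coprime.pow_right _ (Nat.Coprime.mul_right ?_ ?_)
  · exact (Nat.coprime_sub_self_left hpq.le).2 h.symm
  · exact ((Nat.coprime_self_sub_right hpq.le).2 h.symm).symm

theorem rel_tp {a b ξ lam' κ d : ℂ} (hξ : ξ ^ p = 1) (hξ1 : ξ ≠ 1) (ha : a ≠ 0)
    (h2 : Ru p q lam') (hκ : Ru p q κ) (t : ℕ) :
    ¬ Rel (WS p q a ξ (t + 1)) (WS p q b lam' 0) κ d := by
  intro hrel
  have hp0 : 0 < p := by omega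
  have hq0 : 0 < q := by omega
  have hl' := h2.ne_zero hp0 hq0
  have hκ0 := hκ.ne_zero hp0 hq0
  have hd : d * lam'⁻¹ - b = 0 := by
    refine main_lemma_ru hp0 hpq (tailTW hp hpq h hξ hξ1 ha t) (pureTW hp0 hpq h.symm b)
      (hκ.mul h2.inv) (Set.Infinite.mono ?_ hrel)
    rintro y ⟨h3, u, hu, h4⟩
    refine ⟨mem_tail_good hp hpq h hξ hξ1 ha h3, (mem_pure_good _ _ _ _ _).2 ⟨u, hu, ?_⟩⟩
    field_simp
    linear_combination -h4
  obtain ⟨η, hη, hi⟩ := exists_fiber_infinite hrel (finite_root_set hp0 (lam' * κ⁻¹))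
    (fun y η => ∃ x ω u, x ^ q = y ∧ x ^ p + a ∈ WS p q a ξ t ∧ ω ^ p = x ∧ Chain q p b u ∧
      ω ^ q = η * u 0) (by
      rintro y ⟨⟨x, hx1, hx2⟩, u, hu, h4⟩
      obtain ⟨ω, hω⟩ := IsAlgClosed.exists_pow_nat_eq x hp0
      obtain ⟨η, h5, h6⟩ := exists_ratio (r := p) hp0 (w := ω ^ q) (x := u 0) (κ := lam' * κ⁻¹) (by
        rw [← pow_mul, mul_comm, pow_mul, hω, hx1]
        field_simp at hd ⊢
        linear_combination h4 - hd)
      exact ⟨η, h5, x, ω, u, hx1, hx2, hω, hu, h6⟩)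
  have hη' : Ru p q η := Ru.of_pow_left (by rw [show η ^ p = _ from hη]; exact h2.mul hκ.inv)
  obtain ⟨k, hk⟩ := hη'
  have hM : 0 < (p * q) ^ k := by positivity
  have hi2 : {w | w ∈ (rootTW hp hpq h b hM hk).Good ∧ w + a ∈ WS p q a ξ t}.Infinite := by
    refine infinite_step (p := p) (q := q) hp0 hi 0 ?_
    rintro y ⟨-, x, ω, u, h3, h4, h5, hu, h6⟩
    refine ⟨x, h3, ⟨cons0 ω u, isPath_cons0_all (by simpa [rootTW] using h6)
      (fun n j _ => by simpa [rootTW] using hu.1 j), finite_range_cons0 _ hu.2, ?_⟩, by simpa⟩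
    simp only [rootTW, cons0_zero, pow_mul, h5, add_zero]
  cases t with
  | zero =>
    have hξ0 := ne_zero_of_pow_eq_one hp0 hξ
    have h7 : ξ⁻¹ * a - a = 0 := by
      refine main_lemma_ru hp0 hpq (rootTW hp hpq h b hM hk) (pureTW hp0 hpq h.symm a)
        (κ := ξ⁻¹) (Ru.inv (Ru.of_pow_left (hξ ▸ Ru.one))) (Set.Infinite.mono ?_ hi2)
      rintro w ⟨h3, u, hu, h4⟩
      refine ⟨h3, (mem_pure_good _ _ _ _ _).2 ⟨u, hu, ?_⟩⟩
      field_simp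
      linear_combination -h4
    apply hξ1
    field_simp at h7
    exact mul_left_cancel₀ ha (by linear_combination -h7)
  | succ t =>
    refine ha (main_lemma_ru hp0 hpq (rootTW hp hpq h b hM hk) (tailTW hp hpq h hξ hξ1 ha t)
      (κ := 1) Ru.one (Set.Infinite.mono ?_ hi2))
    rintro w ⟨h3, h4⟩
    exact ⟨h3, mem_tail_good hp hpq h hξ hξ1 ha (by rwa [one_mul])⟩

theorem rel_tt {a b ξ ξ' : ℂ} (hξ : ξ ^ p = 1) (hξ' : ξ' ^ p = 1) (hξ1 : ξ ≠ 1) (hξ1' : ξ' ≠ 1)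
    (ha : a ≠ 0) (hb : b ≠ 0) (t : ℕ) : ∀ (t' : ℕ) (κ d : ℂ), Ru p q κ →
    Rel (WS p q a ξ t) (WS p q b ξ' t') κ d → a = b := by
  have hp0 : 0 < p := by omega
  have hq0 : 0 < q := by omega
  have r1 : Ru p q ξ := Ru.of_pow_left (hξ ▸ Ru.one)
  have r2 : Ru p q ξ' := Ru.of_pow_left (hξ' ▸ Ru.one)
  induction t with
  | zero =>
    intro t' κ d hκ hrel
    cases t' with
    | zero => exact rel_pp hp hpq h r1 r2 hκ hrel
    | succ t' =>
      exact absurd (hrel.symm (hκ.ne_zero hp0 hq0)) (rel_tp hp hpq h hξ' hξ1' hb r1 hκ.inv t')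
  | succ t ih =>
    intro t' κ d hκ hrel
    cases t' with
    | zero => exact absurd hrel (rel_tp hp hpq h hξ hξ1 ha r2 hκ t)
    | succ t' =>
      have hd : d = 0 := by
        refine main_lemma_ru hp0 hpq (tailTW hp hpq h hξ hξ1 ha t) (tailTW hp hpq h hξ' hξ1' hb t')
          hκ (Set.Infinite.mono ?_ hrel)
        rintro y ⟨h3, h4⟩
        exact ⟨mem_tail_good hp hpq h hξ hξ1 ha h3, mem_tail_good hp hpq h hξ' hξ1' hb h4⟩
      obtain ⟨η, hη, hi⟩ := exists_fiber_infinite hrel (finite_root_set hq0 κ)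
        (fun y η => ∃ x, x ^ q = y ∧ x ^ p + a ∈ WS p q a ξ t ∧
          (η * x) ^ p + b ∈ WS p q b ξ' t') (by
          rintro y ⟨⟨x, hx1, hx2⟩, w, hw1, hw2⟩
          obtain ⟨η, h5, h6⟩ := exists_ratio (r := q) hq0 (w := w) (x := x) (κ := κ)
            (by rw [hw1, hx1, hd, add_zero])
          exact ⟨η, h5, x, hx1, hx2, h6 ▸ hw2⟩)
      have hη' : Ru p q η := Ru.of_pow_right (by rw [show η ^ q = _ from hη]; exact hκ)
      refine ih t' (η ^ p) (b - η ^ p * a) (hη'.pow p)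
        (infinite_step (p := p) (q := q) hp0 hi a ?_)
      rintro y ⟨-, x, h3, h4, h5⟩
      refine ⟨x, h3, h4, ?_⟩
      have : η ^ p * (x ^ p + a) + (b - η ^ p * a) = (η * x) ^ p + b := by ring
      rwa [this]

omit hpq h in
theorem WS_zero {ξ : ℂ} (hξ : ξ ^ p = 1) (t : ℕ) : ∀ y ∈ WS p q 0 ξ t,
    ∃ lam : ℂ, lam ^ (p ^ (t + 1)) = 1 ∧ y ∈ WS p q 0 lam 0 := by
  induction t with
  | zero => exact fun y hy => ⟨ξ, by simpa using hξ, hy⟩
  | succ t ih =>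
    rintro y ⟨x, rfl, hx⟩
    obtain ⟨lam, h1, u, hu, h2⟩ := ih _ hx
    obtain ⟨η, h3, h4⟩ := exists_ratio (r := p) (by omega) (w := x) (x := u 0) (κ := lam)
      (by simpa using h2)
    refine ⟨η ^ q, ?_, _, hu.shift, by rw [h4, mul_pow, hu.1 0]⟩
    rw [← pow_mul, mul_comm, pow_mul, pow_succ' p, pow_mul, h3, h1, one_pow]

theorem rel_zero {b ξ ξ' : ℂ} (hξ : ξ ^ p = 1) (hξ' : ξ' ^ p = 1) (hb : b ≠ 0) {t t' : ℕ}
    (h1 : ξ' ≠ 1 ∨ t' = 0) : ¬ Rel (WS p q 0 ξ t) (WS p q b ξ' t') 1 0 := by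
  intro hrel
  have hp0 : 0 < p := by omega
  have hq0 : 0 < q := by omega
  obtain ⟨lam, hl, hi⟩ := exists_fiber_infinite hrel
    (finite_root_set (pow_pos hp0 (t + 1)) 1) (fun y lam => y ∈ WS p q 0 lam 0)
    (fun y hy => WS_zero hp hξ t y hy.1)
  have r1 : Ru p q lam := ⟨t + 1, by rw [mul_pow, pow_mul, show lam ^ _ = 1 from hl, one_pow]⟩
  have r2 : Ru p q ξ' := Ru.of_pow_left (hξ' ▸ Ru.one)
  have hrel' : Rel (WS p q 0 lam 0) (WS p q b ξ' t') 1 0 :=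
    Set.Infinite.mono (fun y hy => ⟨hy.2, hy.1.2⟩) hi
  cases t' with
  | zero => exact hb (rel_pp hp hpq h r1 r2 Ru.one hrel').symm
  | succ t' =>
    exact rel_tp hp hpq h hξ' (h1.resolve_right (by omega)) hb r1 Ru.one.inv t'
      (hrel'.symm one_ne_zero)

theorem WS_inter_finite {a b ξ ξ' : ℂ} (hab : a ≠ b) (hξ : ξ ^ p = 1) (hξ' : ξ' ^ p = 1)
    {t t' : ℕ} (h1 : ξ ≠ 1 ∨ t = 0) (h2 : ξ' ≠ 1 ∨ t' = 0) :
    (WS p q a ξ t ∩ WS p q b ξ' t').Finite := by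
  have hp0 : 0 < p := by omega
  have hq0 : 0 < q := by omega
  by_contra hinf
  have hrel : Rel (WS p q a ξ t) (WS p q b ξ' t') 1 0 := by
    simpa [Rel] using hinf
  have hrel' : Rel (WS p q b ξ' t') (WS p q a ξ t) 1 0 := by
    simpa using hrel.symm one_ne_zero
  have r1 : Ru p q ξ := Ru.of_pow_left (hξ ▸ Ru.one)
  have r2 : Ru p q ξ' := Ru.of_pow_left (hξ' ▸ Ru.one)
  by_cases ha : a = 0
  · subst ha; exact rel_zero hp hpq h hξ hξ' hab.symm h2 hrel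
  by_cases hb : b = 0
  · subst hb; exact rel_zero hp hpq h hξ' hξ hab h1 hrel'
  cases t with
  | zero =>
    cases t' with
    | zero => exact hab (rel_pp hp hpq h r1 r2 Ru.one hrel)
    | succ t' => exact rel_tp hp hpq h hξ' (h2.resolve_right (by omega)) hb r1 Ru.one t' hrel'
  | succ t =>
    cases t' with
    | zero => exact rel_tp hp hpq h hξ (h1.resolve_right (by omega)) ha r2 Ru.one t hrel
    | succ t' =>
      exact hab (rel_tt hp hpq h hξ hξ' (h1.resolve_right (by omega))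
        (h2.resolve_right (by omega)) ha hb _ _ 1 0 Ru.one hrel)

end

/-- Points with a tail of length at most `n`. -/
def Ty (p q : ℕ) (c : ℂ) (n : ℕ) : Set ℂ :=
  {y | ∃ ξ : ℂ, ∃ t, ξ ^ p = 1 ∧ (ξ ≠ 1 ∨ t = 0) ∧ t ≤ n ∧ y ∈ WS p q c ξ t}

theorem Ty_step {p q : ℕ} (hp : 0 < p) {c x : ℂ} {n : ℕ} (hx : x ^ p + c ∈ Ty p q c n) :
    x ^ q ∈ Ty p q c (n + 1) := by
  obtain ⟨ξ, t, h1, h2, h3, h4⟩ := hx
  by_cases hξ : ξ = 1
  · obtain rfl : t = 0 := h2.resolve_left (not_not.2 hξ)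
    obtain ⟨u, hu, h5⟩ := h4
    obtain ⟨η, h6, h7⟩ := exists_ratio (r := p) hp (w := x) (x := u 0) (κ := 1)
      (by rw [hξ] at h5; linear_combination h5)
    refine ⟨η ^ q, 0, by rw [← pow_mul, mul_comm, pow_mul, h6, one_pow], Or.inr rfl, by omega,
      _, hu.shift, by rw [h7, mul_pow, hu.1 0]⟩
  · exact ⟨ξ, t + 1, h1, Or.inl hξ, by omega, x, rfl, h4⟩

theorem mem_Ty {p q : ℕ} (hp : 0 < p) {c : ℂ} (i : ℕ) : ∀ x : ℕ → ℂ,
    (∀ k, x k ^ p + c = x (k + 1) ^ q) → x i ^ q ∈ Back p q c → x 0 ^ q ∈ Ty p q c i := by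
  induction i with
  | zero =>
    rintro x - ⟨u, hu, h⟩
    exact ⟨1, 0, one_pow _, Or.inr rfl, le_rfl, u, hu, by rw [h, one_mul]⟩
  | succ i ih =>
    intro x hx h
    refine Ty_step hp ?_
    rw [hx 0]
    exact ih (fun k => x (k + 1)) (fun k => hx (k + 1)) h

theorem Ty_mono {p q : ℕ} {c : ℂ} {n m : ℕ} (h : n ≤ m) : Ty p q c n ⊆ Ty p q c m := by
  rintro y ⟨ξ, t, h1, h2, h3, h4⟩
  exact ⟨ξ, t, h1, h2, h3.trans h, h4⟩

theorem Ty_inter_finite {p q : ℕ} (hp : 2 ≤ p) (hpq : p < q) (h : p.Coprime q) {a b : ℂ}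
    (hab : a ≠ b) (n : ℕ) : (Ty p q a n ∩ Ty p q b n).Finite := by
  have hT : {x : ℂ × ℕ | x.1 ^ p = 1 ∧ (x.1 ≠ 1 ∨ x.2 = 0) ∧ x.2 ≤ n}.Finite :=
    ((finite_root_set (by omega) 1).prod (Set.finite_le_nat n)).subset fun x hx => ⟨hx.1, hx.2.2⟩
  refine (hT.biUnion fun x hx => hT.biUnion fun x' hx' =>
    WS_inter_finite hp hpq h hab hx.1 hx'.1 hx.2.1 hx'.2.1).subset ?_
  rintro y ⟨⟨ξ, t, h1, h2, h3, h4⟩, ξ', t', h1', h2', h3', h4'⟩
  exact Set.mem_biUnion (x := (ξ, t)) ⟨h1, h2, h3⟩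
    (Set.mem_biUnion (x := (ξ', t')) ⟨h1', h2', h3'⟩ ⟨h4, h4'⟩)

theorem mem_Ty_of_reaches {p q : ℕ} (hp : 0 < p) {c y : ℂ} {n : ℕ}
    (h : ReachesCycleWithin p q c n y) : y ∈ Ty p q c n := by
  obtain ⟨path, h0, he, i, j, hi, hij, hc⟩ := h
  obtain ⟨x, hx1, hx2⟩ := lift_path path h0 he
  have h1 : x 0 ^ q = y := OnePoint.coe_injective ((hx1 0).symm.trans h0)
  rw [← h1]
  exact Ty_mono hi (mem_Ty hp i x hx2 (mem_back_of_cycle hx2 hij
    (OnePoint.coe_injective ((hx1 i).symm.trans (hc.trans (hx1 j))))))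

theorem exists_mem_Ty {p q : ℕ} (hp : 0 < p) (hq : 0 < q) {c y : ℂ} (h : Constrained p q c y) :
    ∃ n, y ∈ Ty p q c n := by
  obtain ⟨path, h0, he, hf⟩ := h
  obtain ⟨i, j, hij, hc⟩ := exists_repeat hf
  exact ⟨i, mem_Ty_of_reaches hp ⟨path, h0, he, i, j, le_rfl, hij, hc⟩⟩

theorem reaches_finite {p q : ℕ} (hp : 2 ≤ p) (hpq : p < q) (h : p.Coprime q) {a b : ℂ}
    (hab : a ≠ b) (n : ℕ) :
    {y | ReachesCycleWithin p q a n y ∧ ReachesCycleWithin p q b n y}.Finite := by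
  refine finite_of_finite_coe ((Ty_inter_finite hp hpq h hab n).subset ?_)
  rintro y ⟨h1, h2⟩
  exact ⟨mem_Ty_of_reaches (by omega) h1, mem_Ty_of_reaches (by omega) h2⟩

end Pool.Agent.MP_09973c_nt.H31
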