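import Mathlib

/-!
Towers of curves `v k ^ r k = α k * v (k+1) ^ s k + β k`, normal forms of polynomial functions.
-/

set_option autoImplicit false

namespace Pool.Agent.MP_09973c_nt.H31

open Polynomial Finset

def IsPath {A : Type} [CommRing A] (r s : ℕ → ℕ) (α β : ℕ → A) (n : ℕ) (v : ℕ → A) : Prop :=
  ∀ k < n, v k ^ r k = α k * v (k + 1) ^ s k + β k

abbrev Idx (r : ℕ → ℕ) (n : ℕ) : Type := (k : Fin n) → Fin (r k)

def bas {A : Type} [CommRing A] {r : ℕ → ℕ} {n : ℕ} (l : Idx r n) (v : ℕ → A) : A :=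
  ∏ k : Fin n, v k ^ (l k : ℕ)

def wt (r s : ℕ → ℕ) (n k : ℕ) : ℕ := (∏ j ∈ range k, r j) * ∏ j ∈ Ico k n, s j

def lam (r : ℕ → ℕ) (n : ℕ) : ℕ := ∏ j ∈ range n, r j

theorem card_Idx (r : ℕ → ℕ) (n : ℕ) : Fintype.card (Idx r n) = lam r n := by
  simp only [Fintype.card_pi, Fintype.card_fin, lam]
  exact Fin.prod_univ_eq_prod_range r n

theorem wt_self (r s : ℕ → ℕ) (n : ℕ) : wt r s n n = lam r n := by simp [wt, lam]

theorem wt_step (r s : ℕ → ℕ) {n k : ℕ} (hk : k < n) :
    r k * wt r s n k = s k * wt r s n (k + 1) := by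
  unfold wt
  rw [prod_range_succ, prod_eq_prod_Ico_succ_bot hk]
  ring

def monE {A : Type} [CommRing A] (n : ℕ) (e : ℕ → ℕ) (v : ℕ → A) : A :=
  ∏ k ∈ range (n + 1), v k ^ e k

theorem monE_add {A : Type} [CommRing A] (n : ℕ) (e e' : ℕ → ℕ) (v : ℕ → A) :
    monE n (e + e') v = monE n e v * monE n e' v := by
  simp [monE, pow_add, prod_mul_distrib]

theorem monE_single {A : Type} [CommRing A] {n k : ℕ} (hk : k ≤ n) (m : ℕ) (v : ℕ → A) :
    monE n (Pi.single k m) v = v k ^ m := by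
  unfold monE
  rw [prod_eq_single k]
  · simp
  · intro j _ hj; simp [Pi.single_eq_of_ne hj]
  · intro h; exact absurd (mem_range.2 (by omega)) h

theorem aeval_monE {A : Type} [CommRing A] [Algebra ℂ A] (n : ℕ) (e : ℕ → ℕ) (v : ℕ → A) :
    MvPolynomial.aeval v (monE n e (MvPolynomial.X : ℕ → MvPolynomial ℕ ℂ)) = monE n e v := by
  simp [monE]

theorem aeval_bas {A : Type} [CommRing A] [Algebra ℂ A] {r : ℕ → ℕ} {n : ℕ} (l : Idx r n)
    (v : ℕ → A) :
    MvPolynomial.aeval v (bas l (MvPolynomial.X : ℕ → MvPolynomial ℕ ℂ)) = bas l v := by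
  simp [bas]

def lin (n : ℕ) (w e : ℕ → ℕ) : ℕ := ∑ k ∈ range (n + 1), e k * w k

theorem lin_add (n : ℕ) (w e e' : ℕ → ℕ) : lin n w (e + e') = lin n w e + lin n w e' := by
  simp [lin, add_mul, sum_add_distrib]

theorem lin_single {n k : ℕ} (hk : k ≤ n) (w : ℕ → ℕ) (m : ℕ) :
    lin n w (Pi.single k m) = m * w k := by
  unfold lin
  rw [sum_eq_single k]
  · simp
  · intro j _ hj; simp [Pi.single_eq_of_ne hj]
  · intro h; exact absurd (mem_range.2 (by omega)) h

def expo {r : ℕ → ℕ} {n : ℕ} (l : Idx r n) : ℕ → ℕ :=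
  fun k => if h : k < n then (l ⟨k, h⟩ : ℕ) else 0

theorem monE_expo {A : Type} [CommRing A] {r : ℕ → ℕ} {n : ℕ} (l : Idx r n) (v : ℕ → A) :
    monE n (expo l) v = bas l v := by
  unfold monE bas
  rw [prod_range_succ, ← Fin.prod_univ_eq_prod_range (fun k => v k ^ expo l k) n]
  simp [expo]

theorem lin_expo {r : ℕ → ℕ} {n : ℕ} (l : Idx r n) (w : ℕ → ℕ) :
    lin n w (expo l) = ∑ k : Fin n, (l k : ℕ) * w k := by
  unfold lin
  rw [sum_range_succ, ← Fin.sum_univ_eq_sum_range (fun k => expo l k * w k) n]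
  simp [expo]

theorem lin_expo_le {r : ℕ → ℕ} {n : ℕ} (l : Idx r n) (w : ℕ → ℕ) :
    lin n w (expo l) ≤ ∑ k ∈ range n, (r k - 1) * w k := by
  rw [lin_expo, ← Fin.sum_univ_eq_sum_range (fun k => (r k - 1) * w k) n]
  refine sum_le_sum fun k _ => Nat.mul_le_mul_right _ ?_
  have := (l k).2
  omega

section NF

variable (r s : ℕ → ℕ) (α β : ℕ → ℂ) (n : ℕ)

/-- Paths with values in a complex algebra. -/
abbrev IsPathA {A : Type} [CommRing A] [Algebra ℂ A] (v : ℕ → A) : Prop :=
  IsPath r s (fun k => algebraMap ℂ A (α k)) (fun k => algebraMap ℂ A (β k)) n v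

def NF (T : ℕ) (F : MvPolynomial ℕ ℂ) : Prop :=
  ∃ c : Idx r n → ℂ[X], (∀ l, (c l).natDegree ≤ T) ∧
    ∀ (A : Type) [CommRing A] [Algebra ℂ A] (v : ℕ → A), IsPathA r s α β n v →
      MvPolynomial.aeval v F = ∑ l, aeval (v n) (c l) * bas l v

variable {r s α β n}

theorem NF.congr {T : ℕ} {F G : MvPolynomial ℕ ℂ} (h : NF r s α β n T G)
    (hFG : ∀ (A : Type) [CommRing A] [Algebra ℂ A] (v : ℕ → A), IsPathA r s α β n v →
      MvPolynomial.aeval v F = MvPolynomial.aeval v G) : NF r s α β n T F := by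
  obtain ⟨c, hc, h⟩ := h
  exact ⟨c, hc, fun A _ _ v hv => (hFG A v hv).trans (h A v hv)⟩

theorem NF.mono {T T' : ℕ} {F : MvPolynomial ℕ ℂ} (h : NF r s α β n T F) (hT : T ≤ T') :
    NF r s α β n T' F := by
  obtain ⟨c, hc, h⟩ := h
  exact ⟨c, fun l => (hc l).trans hT, h⟩

theorem NF.zero (T : ℕ) : NF r s α β n T 0 :=
  ⟨0, by simp, by simp⟩

theorem NF.add {T : ℕ} {F G : MvPolynomial ℕ ℂ} (h : NF r s α β n T F) (h' : NF r s α β n T G) :
    NF r s α β n T (F + G) := by
  obtain ⟨c, hc, h⟩ := h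
  obtain ⟨c', hc', h'⟩ := h'
  refine ⟨c + c', fun l => natDegree_add_le_of_degree_le (hc l) (hc' l), fun A _ _ v hv => ?_⟩
  rw [map_add, h A v hv, h' A v hv, ← sum_add_distrib]
  simp [add_mul]

theorem NF.smul {T : ℕ} {F : MvPolynomial ℕ ℂ} (a : ℂ) (h : NF r s α β n T F) :
    NF r s α β n T (a • F) := by
  obtain ⟨c, hc, h⟩ := h
  refine ⟨fun l => a • c l, fun l => (natDegree_smul_le _ _).trans (hc l), fun A _ _ v hv => ?_⟩
  rw [map_smul, h A v hv, smul_sum]
  simp

theorem NF.sum {ι : Type} {T : ℕ} (S : Finset ι) {F : ι → MvPolynomial ℕ ℂ}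
    (h : ∀ i ∈ S, NF r s α β n T (F i)) : NF r s α β n T (∑ i ∈ S, F i) := by
  classical
  induction S using Finset.induction_on with
  | empty => simpa using NF.zero T
  | insert a S ha ih =>
    rw [sum_insert ha]
    exact (h a (by simp)).add (ih fun i hi => h i (by simp [hi]))

theorem NF_monE (hr : ∀ k, 0 < r k) (T : ℕ) (e : ℕ → ℕ)
    (he : lin n (wt r s n) e < (T + 1) * lam r n) :
    NF r s α β n T (monE n e MvPolynomial.X) := by
  classical
  set M := 1 + ∑ k ∈ range n, s k with hM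
  have hMs : ∀ k < n, s k < M := fun k hk => by
    have := single_le_sum (f := s) (fun _ _ => Nat.zero_le _) (mem_range.2 hk)
    omega
  induction hμ : lin n (fun k => M ^ (n - k)) e using Nat.strong_induction_on generalizing e with
  | _ μ ih =>
  by_cases hn : ∀ k < n, e k < r k
  · let l : Idx r n := fun k => ⟨e k, hn k k.2⟩
    have hdec : ∀ (A : Type) [CommRing A] (v : ℕ → A), monE n e v = v n ^ e n * bas l v := by
      intro A _ v
      unfold monE bas
      rw [prod_range_succ, ← Fin.prod_univ_eq_prod_range (fun k => v k ^ e k) n, mul_comm]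
    have hen : e n ≤ T := by
      have h1 : e n * lam r n ≤ lin n (wt r s n) e := by
        rw [← wt_self r s n]
        exact single_le_sum (f := fun k => e k * wt r s n k) (fun _ _ => Nat.zero_le _)
          (mem_range.2 (by omega))
      have := Nat.lt_of_mul_lt_mul_right (h1.trans_lt he)
      omega
    refine ⟨Pi.single l (X ^ e n), fun l' => ?_, fun A _ _ v _ => ?_⟩
    · by_cases h : l' = l
      · subst h; simpa using hen
      · simp [Pi.single_eq_of_ne h]
    · rw [aeval_monE, hdec, sum_eq_single l]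
      · simp
      · intro j _ hj; simp [Pi.single_eq_of_ne hj]
      · simp
  · push Not at hn
    obtain ⟨k, hk, hek⟩ := hn
    obtain ⟨e₀, rfl⟩ : ∃ e₀ : ℕ → ℕ, e = e₀ + (Pi.single k (r k) : ℕ → ℕ) := by
      refine ⟨fun j => e j - (Pi.single k (r k) : ℕ → ℕ) j, funext fun j => ?_⟩
      change e j = e j - (Pi.single k (r k) : ℕ → ℕ) j + (Pi.single k (r k) : ℕ → ℕ) j
      by_cases h : j = k
      · subst h; rw [Pi.single_eq_same]; omega
      · rw [Pi.single_eq_of_ne h]; omega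
    have hk1 : k + 1 ≤ n := hk
    rw [lin_add, lin_single hk.le] at he hμ
    have hpos : 0 < M ^ (n - (k + 1)) := pow_pos (by omega) _
    have hpw : M ^ (n - k) = M * M ^ (n - (k + 1)) := by
      rw [← pow_succ']; congr 1; omega
    have h1 := ih _ (by
        rw [← hμ, lin_add, lin_single hk1, hpw]
        have := hMs k hk
        have h3 : s k * M ^ (n - (k + 1)) < M * M ^ (n - (k + 1)) :=
          Nat.mul_lt_mul_of_pos_right this hpos
        have h4 : M * M ^ (n - (k + 1)) ≤ r k * (M * M ^ (n - (k + 1))) :=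
          Nat.le_mul_of_pos_left _ (hr k)
        omega)
      (e₀ + Pi.single (k + 1) (s k))
      (by rw [lin_add, lin_single hk1, ← wt_step r s hk]; exact he) rfl
    have h2 := ih _ (by
        rw [← hμ]
        have : 0 < r k * M ^ (n - k) := Nat.mul_pos (hr k) (pow_pos (by omega) _)
        omega) e₀ (by omega) rfl
    refine ((h1.smul (α k)).add (h2.smul (β k))).congr fun A _ _ v hv => ?_
    rw [map_add, map_smul, map_smul, aeval_monE, aeval_monE, aeval_monE, monE_add, monE_add,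
      monE_single hk.le, monE_single hk1, hv k hk, Algebra.smul_def, Algebra.smul_def]
    ring

theorem NF_psi (hr : ∀ k, 0 < r k) (T m J : ℕ) (μ : ℂ)
    (h : m * J * wt r s n 0 + ∑ k ∈ range n, (r k - 1) * wt r s n k < (T + 1) * lam r n)
    (l : Idx r n) :
    NF r s α β n T ((μ • MvPolynomial.X 0 ^ m + 1) ^ J * bas l MvPolynomial.X) := by
  rw [add_pow, sum_mul]
  refine NF.sum _ fun j hj => ?_
  have hj' : j ≤ J := by have := mem_range.1 hj; omega
  have h1 := NF_monE (s := s) (α := α) (β := β) (n := n) hr T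
      (Pi.single 0 (m * j) + expo l) (by
    rw [lin_add, lin_single (Nat.zero_le _)]
    have := lin_expo_le l (wt r s n)
    have h2 : m * j * wt r s n 0 ≤ m * J * wt r s n 0 :=
      Nat.mul_le_mul_right _ (Nat.mul_le_mul_left _ hj')
    omega)
  refine (h1.smul (μ ^ j * (J.choose j : ℂ))).congr fun A _ _ v _ => ?_
  simp only [map_mul, map_pow, map_smul, MvPolynomial.aeval_X, one_pow, mul_one, map_natCast,
    aeval_bas, aeval_monE, monE_add, monE_single (Nat.zero_le n), monE_expo, Algebra.smul_def,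
    pow_mul, mul_pow]
  ring

theorem NF_exists_monE (hr : ∀ k, 0 < r k) (e : ℕ → ℕ) :
    ∃ T, NF r s α β n T (monE n e MvPolynomial.X) := by
  refine ⟨lin n (wt r s n) e, NF_monE hr _ _ ?_⟩
  have : 0 < lam r n := prod_pos fun j _ => hr j
  nlinarith

theorem NF_exists_sum {ι : Type} (S : Finset ι) {F : ι → MvPolynomial ℕ ℂ}
    (h : ∀ i ∈ S, ∃ T, NF r s α β n T (F i)) : ∃ T, NF r s α β n T (∑ i ∈ S, F i) := by
  classical
  choose! T hT using h
  exact ⟨S.sup T, NF.sum S fun i hi => (hT i hi).mono (le_sup hi)⟩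

theorem NF_exists_mul (hr : ∀ k, 0 < r k) (c : Idx r n → ℂ[X]) (l' : Idx r n) :
    ∃ T, NF r s α β n T ((∑ l, aeval (MvPolynomial.X n) (c l) * bas l MvPolynomial.X)
      * bas l' MvPolynomial.X) := by
  rw [sum_mul]
  refine NF_exists_sum _ fun l _ => ?_
  rw [aeval_eq_sum_range, sum_mul, sum_mul]
  refine NF_exists_sum _ fun i _ => ?_
  obtain ⟨T, hT⟩ := NF_exists_monE (s := s) (α := α) (β := β) (n := n) hr
    (Pi.single n i + expo l + expo l')
  refine ⟨T, (hT.smul ((c l).coeff i)).congr fun A _ _ v _ => ?_⟩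
  simp only [map_mul, map_pow, map_smul, MvPolynomial.aeval_X,
    aeval_bas, aeval_monE, monE_add, monE_single le_rfl, monE_expo, Algebra.smul_def]
  ring

/-- If the normal monomials are independent on one path, every nonzero normal form divides a
nonzero polynomial in the last variable. -/
theorem exists_norm (hr : ∀ k, 0 < r k) {B : Type} [CommRing B] [IsDomain B] [Algebra ℂ B]
    (g : ℕ → B) (hg : IsPathA r s α β n g)
    (hind : ∀ c : Idx r n → ℂ[X], ∑ l, aeval (g n) (c l) * bas l g = 0 → c = 0)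
    (c : Idx r n → ℂ[X]) (hc : c ≠ 0) :
    ∃ D : ℂ[X], D ≠ 0 ∧ ∀ (A : Type) [CommRing A] [IsDomain A] [Algebra ℂ A] (v : ℕ → A),
      IsPathA r s α β n v → ∑ l, aeval (v n) (c l) * bas l v = 0 → aeval (v n) D = 0 := by
  classical
  choose T M _ hM using fun l' => NF_exists_mul (s := s) (α := α) (β := β) hr c l'
  have hM' : ∀ (A : Type) [CommRing A] [Algebra ℂ A] (v : ℕ → A), IsPathA r s α β n v →
      ∀ l', (∑ l, aeval (v n) (c l) * bas l v) * bas l' v
        = ∑ l, aeval (v n) (M l' l) * bas l v := by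
    intro A _ _ v hv l'
    rw [← hM l' A v hv]
    simp only [map_mul, map_sum, aeval_bas]
    congr 1
    refine sum_congr rfl fun l _ => ?_
    rw [← aeval_algHom_apply, MvPolynomial.aeval_X]
  refine ⟨(Matrix.of M).det, fun h0 => ?_, fun A _ _ _ v hv h0 => ?_⟩
  · obtain ⟨w, hw, hwM⟩ := Matrix.exists_vecMul_eq_zero_iff.2 h0
    have h1 : (∑ l, aeval (g n) (c l) * bas l g) * (∑ l', aeval (g n) (w l') * bas l' g) = 0 := by
      rw [mul_sum]
      simp_rw [mul_left_comm _ (aeval (g n) (w _)), hM' B g hg, mul_sum]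
      rw [sum_comm]
      refine sum_eq_zero fun l _ => ?_
      have := congrFun hwM l
      simp only [Matrix.vecMul, dotProduct, Matrix.of_apply, Pi.zero_apply] at this
      have h2 := congrArg (aeval (g n)) this
      rw [map_sum, map_zero] at h2
      simp_rw [← mul_assoc, ← sum_mul, ← map_mul]
      rw [h2, zero_mul]
    rcases mul_eq_zero.1 h1 with h | h
    · exact hc (hind c h)
    · exact hw (hind w h)
  · have h1 : ((aeval (v n) : ℂ[X] →ₐ[ℂ] A).toRingHom.mapMatrix (Matrix.of M)).det = 0 := by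
      refine Matrix.exists_mulVec_eq_zero_iff.1 ⟨fun l => bas l v, fun h => ?_, ?_⟩
      · have := congrFun h (fun k => ⟨0, hr k⟩)
        simp [bas] at this
      · funext l'
        have := hM' A v hv l'
        rw [h0, zero_mul] at this
        simpa [Matrix.mulVec, dotProduct] using this.symm
    rw [← RingHom.map_det] at h1
    exact h1

end NF

theorem finite_roots {r : ℕ} (hr : 0 < r) {Z : Set ℂ} (hZ : Z.Finite) :
    {z : ℂ | z ^ r ∈ Z}.Finite := by
  refine (hZ.biUnion (t := fun u => ((nthRoots r u).toFinset : Set ℂ))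
    fun _ _ => Finset.finite_toSet _).subset fun z hz => ?_
  simp only [Set.mem_iUnion, mem_coe, Multiset.mem_toFinset, mem_nthRoots hr]
  exact ⟨_, hz, rfl⟩

theorem finite_back {r s : ℕ → ℕ} {α β : ℕ → ℂ} {n : ℕ} (hr : ∀ k, 0 < r k) {Z : Set ℂ}
    (hZ : Z.Finite) : {z | ∃ v, IsPath r s α β n v ∧ v n ∈ Z ∧ v 0 = z}.Finite := by
  have : ∀ j ≤ n, {z | ∃ v, IsPath r s α β n v ∧ v n ∈ Z ∧ v (n - j) = z}.Finite := by
    intro j
    induction j with
    | zero => intro _; exact hZ.subset (by rintro _ ⟨v, -, h, rfl⟩; exact h)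
    | succ j ih =>
      intro hj
      refine (finite_roots (hr (n - (j + 1)))
        ((ih (by omega)).image fun w => α (n - (j + 1)) * w ^ s (n - (j + 1))
          + β (n - (j + 1)))).subset ?_
      rintro _ ⟨v, hv, h, rfl⟩
      refine ⟨v (n - j), ⟨v, hv, h, rfl⟩, ?_⟩
      rw [hv _ (by omega)]
      have : n - (j + 1) + 1 = n - j := by omega
      rw [this]
  simpa using this n le_rfl

theorem finite_fwd {r s : ℕ → ℕ} {α β : ℕ → ℂ} (hs : ∀ k, 0 < s k) (hα : ∀ k, α k ≠ 0)
    (k n : ℕ) (hk : k ≤ n) : {c | ∃ v, IsPath r s α β n v ∧ v k = 0 ∧ v n = c}.Finite := by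
  induction n, hk using Nat.le_induction with
  | base => exact (Set.finite_singleton 0).subset (by rintro _ ⟨v, -, h, rfl⟩; exact h)
  | succ n hn ih =>
    refine (finite_roots (hs n) (ih.image fun w => (w ^ r n - β n) / α n)).subset ?_
    rintro _ ⟨v, hv, h, rfl⟩
    refine ⟨v n, ⟨v, fun j hj => hv j (by omega), h, rfl⟩, ?_⟩
    simp only
    rw [hv n (by omega)]
    field_simp [hα n]
    ring

theorem finite_bad {r s : ℕ → ℕ} {α β : ℕ → ℂ} (hs : ∀ k, 0 < s k) (hα : ∀ k, α k ≠ 0) (n : ℕ) :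
    {c | ¬ ∀ v, IsPath r s α β n v → v n = c → ∀ k < n, v k ≠ 0}.Finite := by
  refine ((Set.finite_lt_nat n).biUnion fun k hk =>
    finite_fwd (r := r) (β := β) hs hα k n (le_of_lt hk)).subset fun c hc => ?_
  simp only [Set.mem_ofPred_eq] at hc
  push Not at hc
  obtain ⟨v, hv, hn, k, hk, h0⟩ := hc
  simp only [Set.mem_iUnion]
  exact ⟨k, hk, v, hv, h0, hn⟩

end Pool.Agent.MP_09973c_nt.H31
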