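import Pool.Agent.MP_09973c_nt.H31.ML

/-!
The main lemma for towers with complex coefficients.
-/

set_option autoImplicit false

namespace Pool.Agent.MP_09973c_nt.H31

open Polynomial Finset

def Irr (r s : ℕ → ℕ) (α β : ℕ → ℂ) (n : ℕ) : Prop :=
  ∀ c : Idx r n → ℂ[X], c ≠ 0 →
    {z | ∃ v, IsPath r s α β n v ∧ v 0 = z ∧ ∑ l, (c l).eval (v n) * bas l v = 0}.Finite

structure TW (P Q : ℕ) where
  r : ℕ → ℕ
  s : ℕ → ℕ
  α : ℕ → ℂ
  β : ℕ → ℂ
  t : ℕ
  m : ℕ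
  hr : ∀ k, 0 < r k
  hs : ∀ k, 0 < s k
  hr2 : 2 ≤ r 0
  hm0 : 0 < m
  hm : m.Coprime (r 0)
  hrP : ∀ k, t ≤ k → r k = P
  hsQ : ∀ k, t ≤ k → s k = Q
  hα : ∀ k, ∃ M, 0 < M ∧ α k ^ M = 1
  hαt : ∀ k, t ≤ k → α k = α t
  hβt : ∀ k, t ≤ k → β k = β t
  irr : ∀ n, Irr r s α β (t + (n + 1))

def TW.Good {P Q : ℕ} (A : TW P Q) : Set ℂ :=
  {w | ∃ v : ℕ → ℂ, (∀ n, IsPath A.r A.s A.α A.β n v) ∧ (Set.range v).Finite ∧ v 0 ^ A.m = w}

namespace SpecData

variable (σ : SpecData)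

theorem mem_of_pow {z : ℂ} {r : ℕ} (hr : 0 < r) (h : z ^ r ∈ σ.O) : z ∈ σ.O :=
  σ.closed z (IsIntegral.of_pow hr (isIntegral_algebraMap (R := σ.O) (A := ℂ) (x := ⟨_, h⟩)))

theorem mem_of_val {z : ℂ} (h : ∀ V : ValuationSubring ℂ, σ.O ≤ V.toSubring → z ∈ V) :
    z ∈ σ.O := by
  by_contra hz
  have : IsIntegrallyClosedIn σ.O ℂ := Subring.isIntegrallyClosedIn_iff.2 fun x hx => σ.closed x hx
  obtain ⟨V, hV, hzV⟩ := Subring.exists_le_valuationSubring_of_isIntegrallyClosedIn hz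
  exact hzV (h V hV)

theorem bdd_range (f : ℕ → σ.O) (t : ℕ) (h : ∀ k, t ≤ k → f k = f t) :
    ∃ R : ℝ, 0 ≤ R ∧ ∀ φ ∈ σ.Φ, ∀ k, ‖φ (f k)‖ ≤ R := by
  choose R hR using σ.bdd
  refine ⟨∑ k ∈ range (t + 1), |R (f k)|, by positivity, fun φ hφ k => ?_⟩
  have : ∀ k ≤ t, ‖φ (f k)‖ ≤ ∑ k ∈ range (t + 1), |R (f k)| := fun k hk =>
    (hR _ φ hφ).trans ((le_abs_self _).trans (single_le_sum (f := fun k => |R (f k)|)
      (fun _ _ => abs_nonneg _) (mem_range.2 (by omega))))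
  rcases le_total k t with hk | hk
  · exact this k hk
  · rw [h k hk]; exact this t le_rfl

theorem denom_finset (Z : Finset ℂ) : ∃ D : σ.O, D ≠ 0 ∧ ∀ z ∈ Z, (D : ℂ) * z ∈ σ.O := by
  classical
  induction Z using Finset.induction_on with
  | empty => exact ⟨1, one_ne_zero, by simp⟩
  | insert a Z _ ih =>
    obtain ⟨D, hD, h⟩ := ih
    obtain ⟨D', hD', h'⟩ := σ.denom a
    refine ⟨D * D', mul_ne_zero hD hD', fun z hz => ?_⟩
    rcases mem_insert.1 hz with rfl | hz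
    · rw [Subring.coe_mul, mul_assoc]; exact σ.O.mul_mem D.2 h'
    · rw [Subring.coe_mul, mul_comm (D : ℂ), mul_assoc]; exact σ.O.mul_mem D'.2 (h z hz)

end SpecData

theorem exists_max_tail {X Y : Type} [LinearOrder Y] (v : ℕ → X) (hv : (Set.range v).Finite)
    (f : X → Y) (t : ℕ) : ∃ k, t ≤ k ∧ ∀ j, t ≤ j → f (v j) ≤ f (v k) := by
  obtain ⟨_, ⟨k, hk, rfl⟩, h⟩ := Set.exists_max_image (v '' Set.Ici t) f
    (hv.subset (Set.image_subset_range _ _)) ⟨v t, t, Set.self_mem_Ici, rfl⟩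
  exact ⟨k, hk, fun j hj => h _ ⟨j, hj, rfl⟩⟩

theorem le_of_pow_le {P Q : ℕ} (hPQ : Q < P) {A B x y : ℝ} (hA : 0 ≤ A) (hB : 0 ≤ B)
    (hy0 : 0 ≤ y) (h : x ^ P ≤ A * y ^ Q + B) (hy : y ≤ max x (A + B + 1)) : x ≤ A + B + 1 := by
  by_contra hx
  push Not at hx
  rw [max_eq_left hx.le] at hy
  have h1 : 1 ≤ x ^ Q := one_le_pow₀ (by linarith)
  have h2 : x ^ (Q + 1) ≤ x ^ P := pow_le_pow_right₀ (by linarith) hPQ
  have h3 : y ^ Q ≤ x ^ Q := pow_le_pow_left₀ hy0 hy Q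
  rw [pow_succ] at h2
  nlinarith [mul_le_mul_of_nonneg_left h3 hA]

theorem norm_step {r s : ℕ} {α β x y : ℂ} {A B : ℝ} (h : x ^ r = α * y ^ s + β) (hα : ‖α‖ ≤ A)
    (hβ : ‖β‖ ≤ B) : ‖x‖ ^ r ≤ A * ‖y‖ ^ s + B := by
  rw [← norm_pow, h]
  refine (norm_add_le _ _).trans (add_le_add ?_ hβ)
  rw [norm_mul, norm_pow]
  gcongr

theorem head_bound {r s : ℕ → ℕ} (hr : ∀ k, 0 < r k) (t : ℕ) {A B R₁ : ℝ} (hA : 0 ≤ A)
    (hB : 0 ≤ B) (hR₁ : 1 ≤ R₁) :
    ∃ R : ℝ, R₁ ≤ R ∧ ∀ (α β : ℕ → ℂ), (∀ k, ‖α k‖ ≤ A) → (∀ k, ‖β k‖ ≤ B) → ∀ v,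
      IsPath r s α β t v → ‖v t‖ ≤ R₁ → ∀ k ≤ t, ‖v k‖ ≤ R := by
  induction t generalizing R₁ with
  | zero =>
    refine ⟨R₁, le_rfl, fun α β _ _ v _ h k hk => ?_⟩
    obtain rfl : k = 0 := by omega
    exact h
  | succ t ih =>
    obtain ⟨R, hR, h⟩ := ih (R₁ := max R₁ (A * R₁ ^ s t + B)) (le_max_of_le_left hR₁)
    refine ⟨R, (le_max_left _ _).trans hR, fun α β hα hβ v hv hvt k hk => ?_⟩
    rcases Nat.eq_or_lt_of_le hk with rfl | hk
    · exact hvt.trans ((le_max_left _ _).trans hR)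
    · refine h α β hα hβ v (fun j hj => hv j (by omega)) ?_ k (by omega)
      by_cases h1 : ‖v t‖ ≤ 1
      · exact le_max_of_le_left (h1.trans hR₁)
      · refine le_max_of_le_right ?_
        have h2 := norm_step (hv t (by omega)) (hα t) (hβ t)
        have h3 : ‖v t‖ ≤ ‖v t‖ ^ r t := le_self_pow₀ (by linarith) (hr t).ne'
        have h4 : A * ‖v (t + 1)‖ ^ s t ≤ A * R₁ ^ s t := by gcongr
        linarith

namespace TW

variable {P Q : ℕ} (A : TW P Q)

theorem lam_add (n : ℕ) : lam A.r (A.t + n) = lam A.r A.t * P ^ n := by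
  induction n with
  | zero => simp
  | succ n ih =>
    unfold lam at ih ⊢
    rw [← add_assoc, prod_range_succ, ih, A.hrP _ (by omega), pow_succ, mul_assoc]

theorem lam_pos (n : ℕ) : 0 < lam A.r n := prod_pos fun j _ => A.hr j

theorem wt_zero (n : ℕ) : wt A.r A.s (A.t + n) 0 = lam A.s A.t * Q ^ n := by
  unfold wt
  rw [range_zero, prod_empty, one_mul, ← range_eq_Ico]
  induction n with
  | zero => simp [lam]
  | succ n ih => rw [← add_assoc, prod_range_succ, ih, A.hsQ _ (by omega), pow_succ, mul_assoc]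

theorem wt_sum (hPQ : Q < P) : ∃ c, ∀ n,
    ∑ k ∈ range (A.t + n), wt A.r A.s (A.t + n) k ≤ c * lam A.r (A.t + n) := by
  refine ⟨max Q (∑ k ∈ range A.t, wt A.r A.s A.t k), fun n => ?_⟩
  induction n with
  | zero => exact (le_max_right _ _).trans (Nat.le_mul_of_pos_right _ (A.lam_pos _))
  | succ n ih =>
    have h1 : ∀ k ∈ range (A.t + n + 1),
        wt A.r A.s (A.t + n + 1) k = wt A.r A.s (A.t + n) k * Q := by
      intro k hk
      unfold wt
      rw [prod_Ico_succ_top (by have := mem_range.1 hk; omega), A.hsQ _ (by omega), mul_assoc]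
    have h2 : lam A.r (A.t + n + 1) = lam A.r (A.t + n) * P := by
      unfold lam; rw [prod_range_succ, A.hrP _ (by omega)]
    rw [← add_assoc, sum_congr rfl h1, ← sum_mul, sum_range_succ, wt_self, h2]
    set c := max Q (∑ k ∈ range A.t, wt A.r A.s A.t k)
    have hc : Q ≤ c := le_max_left _ _
    set L := lam A.r (A.t + n)
    calc _ ≤ (c * L + L) * Q := by gcongr
      _ = c * L * Q + L * Q := by ring
      _ ≤ c * L * Q + L * c := by gcongr
      _ = c * (L * (Q + 1)) := by ring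
      _ ≤ _ := by gcongr; omega

theorem r_le (k : ℕ) : A.r k ≤ ∑ j ∈ range (A.t + 1), A.r j := by
  have : ∀ k ≤ A.t, A.r k ≤ ∑ j ∈ range (A.t + 1), A.r j := fun k hk =>
    single_le_sum (f := A.r) (fun _ _ => Nat.zero_le _) (mem_range.2 (by omega))
  rcases le_total k A.t with hk | hk
  · exact this k hk
  · rw [(A.hrP k hk).trans (A.hrP A.t le_rfl).symm]; exact this _ le_rfl

def ex (k : ℕ) : ℕ := ∏ j ∈ Ico k A.t, A.s j

theorem ex_pos (k : ℕ) : 0 < A.ex k := prod_pos fun j _ => A.hs j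

theorem ex_of_le {k : ℕ} (hk : A.t ≤ k) : A.ex k = 1 := by
  unfold ex; rw [Ico_eq_empty_of_le hk, prod_empty]

theorem ex_le (hPQ : Q < P) (k : ℕ) : A.ex (k + 1) * A.s k ≤ A.ex k * A.r k := by
  rcases lt_or_ge k A.t with hk | hk
  · have : A.ex k = A.ex (k + 1) * A.s k := by
      unfold ex; rw [prod_eq_prod_Ico_succ_bot hk, mul_comm]
    rw [← this]
    exact Nat.le_mul_of_pos_right _ (A.hr k)
  · rw [A.ex_of_le hk, A.ex_of_le (by omega), A.hrP k hk, A.hsQ k hk]; omega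

theorem mkSide (hPQ : Q < P) (σ : SpecData) (D : σ.O) (hD : D ≠ 0)
    (hDβ : ∀ k, (D : ℂ) * A.β k ∈ σ.O) {S : Type} (v : S → ℕ → ℂ)
    (hv : ∀ x n, IsPath A.r A.s A.α A.β n (v x)) (hfin : ∀ x, (Set.range (v x)).Finite)
    (hinj : Function.Injective fun x => v x 0) (u : ℕ) (hu : 0 < u) (Λ : ℕ → ℕ)
    (hΛ : ∀ n, lam A.r A.t * P ^ (n + 1) * u = Λ n) :
    ∃ Sd : Side σ S Λ (fun n => P ^ (n + 1) / Q ^ (n + 1)), Sd.m = A.m ∧
      (∀ x, (Sd.P x 0 : ℂ) = (D : ℂ) ^ A.ex 0 * v x 0) ∧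
      ∀ φ : σ.O →+* ℂ, φ D ≠ 0 → ∀ k, φ (Sd.α k) ≠ 0 := by
  classical
  have hD' : (D : ℂ) ≠ 0 := fun h => hD (Subtype.ext h)
  have hαO : ∀ k, A.α k ∈ σ.O := fun k => by
    obtain ⟨M, hM, h⟩ := A.hα k
    exact σ.mem_of_pow hM (by rw [h]; exact σ.O.one_mem)
  let α' : ℕ → σ.O := fun k => ⟨A.α k, hαO k⟩ * D ^ (A.ex k * A.r k - A.ex (k + 1) * A.s k)
  let β' : ℕ → σ.O := fun k => ⟨_, hDβ k⟩ * D ^ (A.ex k * A.r k - 1)
  let z : S → ℕ → ℂ := fun x k => (D : ℂ) ^ A.ex k * v x k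
  have hz : ∀ x k, z x k ^ A.r k = α' k * z x (k + 1) ^ A.s k + β' k := by
    intro x k
    simp only [z, α', β', Subring.coe_mul, SubmonoidClass.coe_pow, mul_pow, ← pow_mul]
    rw [hv x (k + 1) k (by omega)]
    have h1 : (D : ℂ) ^ (A.ex k * A.r k)
        = D ^ (A.ex k * A.r k - A.ex (k + 1) * A.s k) * D ^ (A.ex (k + 1) * A.s k) := by
      rw [← pow_add, Nat.sub_add_cancel (A.ex_le hPQ k)]
    have h2 : (D : ℂ) ^ (A.ex k * A.r k) = D * D ^ (A.ex k * A.r k - 1) := by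
      rw [← pow_succ', Nat.sub_add_cancel (Nat.mul_pos (A.ex_pos k) (A.hr k))]
    rw [mul_add]
    congr 1
    · rw [h1]; ring
    · rw [h2]; ring
  have hzt : ∀ x k, A.t ≤ k → z x k = D * v x k := fun x k hk => by
    simp only [z]; rw [A.ex_of_le hk, pow_one]
  have hzO : ∀ x k, z x k ∈ σ.O := by
    intro x
    have htail : ∀ k, A.t ≤ k → z x k ∈ σ.O := by
      intro k hk
      refine σ.mem_of_val fun V hV => ?_
      obtain ⟨j, hj, hmax⟩ := exists_max_tail (v x) (hfin x) (fun w => V.valuation (D * w)) A.t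
      have hmax' : ∀ i, A.t ≤ i → V.valuation (z x i) ≤ V.valuation (z x j) := fun i hi => by
        rw [hzt x i hi, hzt x j hj]; exact hmax i hi
      rw [← V.valuation_le_one_iff]
      refine (hmax' k hk).trans (not_lt.1 fun hlt => ?_)
      have h1 := congrArg V.valuation (hz x j)
      rw [A.hrP j hj, A.hsQ j hj, map_pow] at h1
      have hα1 : V.valuation (α' j : ℂ) ≤ 1 := (V.valuation_le_one_iff _).2 (hV (α' j).2)
      have hβ1 : V.valuation (β' j : ℂ) ≤ 1 := (V.valuation_le_one_iff _).2 (hV (β' j).2)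
      have h2 : V.valuation ((α' j : ℂ) * z x (j + 1) ^ Q + β' j) ≤ V.valuation (z x j) ^ Q := by
        refine V.valuation.map_add_le ?_ (hβ1.trans (one_le_pow_of_one_le' hlt.le _))
        rw [map_mul, map_pow]
        exact (mul_le_of_le_one_left' hα1).trans (pow_le_pow_left' (hmax' _ (by omega)) _)
      rw [← h1] at h2
      exact absurd (pow_lt_pow_right₀ hlt hPQ) (not_lt.2 h2)
    have : ∀ j k, A.t ≤ k + j → z x k ∈ σ.O := by
      intro j
      induction j with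
      | zero => exact htail
      | succ j ih =>
        intro k hk
        refine σ.mem_of_pow (A.hr k) ?_
        rw [hz]
        exact σ.O.add_mem (σ.O.mul_mem (α' k).2 (σ.O.pow_mem (ih (k + 1) (by omega)) _)) (β' k).2
    exact fun k => this A.t k (by omega)
  let Z : S → ℕ → σ.O := fun x k => ⟨z x k, hzO x k⟩
  have hZ : ∀ x n, IsPath A.r A.s α' β' n (Z x) := fun x n k _ => Subtype.ext (by
    simpa [Z] using hz x k)
  obtain ⟨a, ha0, ha⟩ := σ.bdd_range α' A.t (fun k hk => by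
    simp only [α']
    rw [A.ex_of_le hk, A.ex_of_le (k := k + 1) (by omega), A.ex_of_le le_rfl,
      A.ex_of_le (k := A.t + 1) (by omega), A.hrP k hk, A.hsQ k hk, A.hrP _ le_rfl, A.hsQ _ le_rfl]
    congr 2
    exact A.hαt k hk)
  obtain ⟨b, hb0, hb⟩ := σ.bdd_range β' A.t (fun k hk => by
    simp only [β']
    rw [A.ex_of_le hk, A.ex_of_le le_rfl, A.hrP k hk, A.hrP _ le_rfl]
    congr 2
    rw [A.hβt k hk])
  obtain ⟨R, hR, hRb⟩ := head_bound (s := A.s) A.hr A.t ha0 hb0 (R₁ := a + b + 1) (by linarith)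
  obtain ⟨c, hc⟩ := A.wt_sum hPQ
  refine ⟨⟨A.r, A.s, α', β', A.m, Z, fun n => A.t + (n + 1), u,
    (A.t + 1) * ∑ j ∈ range (A.t + 1), A.r j,
    A.m * lam A.s A.t + (∑ j ∈ range (A.t + 1), A.r j) * c, R,
    A.hr, A.hs, A.hr2, A.hm, hZ, fun n => by omega, hu, fun n => ?_, fun n => ?_, fun n => ?_,
    fun n g hg => ?_, by linarith, fun φ hφ x k => ?_, fun φ hφ n w hw hw1 => ?_⟩, rfl,
    fun x => rfl, fun φ hφ k => ?_⟩
  · rw [A.lam_add, hΛ]
  · refine (sum_le_card_nsmul _ _ _ fun k _ => A.r_le k).trans ?_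
    rw [card_range, smul_eq_mul, mul_right_comm]
    exact Nat.mul_le_mul_right _ (by nlinarith)
  · have h1 : A.m * (P ^ (n + 1) / Q ^ (n + 1)) * wt A.r A.s (A.t + (n + 1)) 0
        ≤ A.m * lam A.s A.t * lam A.r (A.t + (n + 1)) := by
      rw [A.wt_zero, A.lam_add]
      have h2 : P ^ (n + 1) / Q ^ (n + 1) * Q ^ (n + 1) ≤ lam A.r A.t * P ^ (n + 1) :=
        (Nat.div_mul_le_self _ _).trans (Nat.le_mul_of_pos_left _ (A.lam_pos _))
      calc _ = A.m * lam A.s A.t * (P ^ (n + 1) / Q ^ (n + 1) * Q ^ (n + 1)) := by ring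
        _ ≤ _ := by gcongr
    have h2 : ∑ k ∈ range (A.t + (n + 1)), (A.r k - 1) * wt A.r A.s (A.t + (n + 1)) k
        ≤ (∑ j ∈ range (A.t + 1), A.r j) * c * lam A.r (A.t + (n + 1)) := by
      rw [mul_assoc]
      refine le_trans ?_ (Nat.mul_le_mul_left _ (hc (n + 1)))
      rw [mul_sum]
      exact sum_le_sum fun k _ => Nat.mul_le_mul_right _ ((Nat.sub_le _ _).trans (A.r_le k))
    have h3 := A.lam_pos (A.t + (n + 1))
    nlinarith
  · let g' : Idx A.r (A.t + (n + 1)) → ℂ[X] := fun l =>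
      C (bas l fun k => (D : ℂ) ^ A.ex k) * (g l).comp (C (D : ℂ) * X)
    have hg' : g' ≠ 0 := by
      intro h0
      apply hg
      funext l
      have h1 := congrFun h0 l
      simp only [g', Pi.zero_apply, mul_eq_zero, C_eq_zero] at h1
      rcases h1 with h1 | h1
      · exact absurd h1 (prod_ne_zero_iff.2 fun k _ => pow_ne_zero _ (pow_ne_zero _ hD'))
      · rcases comp_eq_zero_iff.1 h1 with h2 | ⟨-, h2⟩
        · exact h2
        · have := congrArg (coeff · 1) h2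
          simp [hD'] at this
    refine ((A.irr n g' hg').preimage hinj.injOn).subset fun x hx => ⟨v x, hv x _, rfl, ?_⟩
    simp only [Set.mem_ofPred_eq] at hx
    rw [← hx]
    refine sum_congr rfl fun l _ => ?_
    simp only [g', Z, eval_mul, eval_C, eval_comp, eval_X]
    rw [hzt x _ (by omega)]
    simp only [z, bas, mul_pow, prod_mul_distrib]
    ring
  · have hp := fun n => (hZ x n).map φ
    have htail : ∀ k, A.t ≤ k → ‖φ (Z x k)‖ ≤ a + b + 1 := by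
      obtain ⟨j, hj, hmax⟩ := exists_max_tail (v x) (hfin x)
        (fun w => if h : (D : ℂ) * w ∈ σ.O then ‖φ ⟨_, h⟩‖ else 0) A.t
      have he : ∀ i, A.t ≤ i → (if h : (D : ℂ) * v x i ∈ σ.O then ‖φ ⟨_, h⟩‖ else 0)
          = ‖φ (Z x i)‖ := fun i hi => by
        rw [dif_pos (hzt x i hi ▸ hzO x i)]
        congr 2
        exact Subtype.ext (hzt x i hi).symm
      have hmax' : ∀ i, A.t ≤ i → ‖φ (Z x i)‖ ≤ ‖φ (Z x j)‖ := fun i hi => by
        rw [← he i hi, ← he j hj]; exact hmax i hi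
      intro k hk
      refine (hmax' k hk).trans ?_
      have h1 := norm_step (hp (j + 1) j (by omega)) (ha φ hφ j) (hb φ hφ j)
      rw [A.hrP j hj, A.hsQ j hj] at h1
      exact le_of_pow_le hPQ ha0 hb0 (norm_nonneg _) h1 (le_max_of_le_left (hmax' _ (by omega)))
    rcases le_total k A.t with hk | hk
    · exact hRb _ _ (ha φ hφ) (hb φ hφ) _ (hp _) (htail _ le_rfl) k hk
    · exact (htail k hk).trans hR
  · have htail : ∀ j ≤ n + 1, ‖w (A.t + (n + 1 - j))‖ ≤ a + b + 1 := by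
      intro j
      induction j with
      | zero => intro _; exact hw1.trans (by linarith)
      | succ j ih =>
        intro hj
        have h1 := norm_step (hw (A.t + (n + 1 - (j + 1))) (by omega)) (ha φ hφ _) (hb φ hφ _)
        rw [A.hrP _ (by omega), A.hsQ _ (by omega)] at h1
        refine le_of_pow_le hPQ ha0 hb0 (norm_nonneg _) h1 (le_max_of_le_right ?_)
        have : A.t + (n + 1 - (j + 1)) + 1 = A.t + (n + 1 - j) := by omega
        rw [this]
        exact ih (by omega)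
    have h0 := htail (n + 1) le_rfl
    rw [Nat.sub_self, add_zero] at h0
    exact hRb _ _ (ha φ hφ) (hb φ hφ) w (fun k hk => hw k (by omega)) h0 0 (Nat.zero_le _)
  · simp only [α', map_mul, map_pow]
    refine mul_ne_zero (fun h0 => ?_) (pow_ne_zero _ hφ)
    obtain ⟨M, hM, h⟩ := A.hα k
    have h1 : (⟨A.α k, hαO k⟩ : σ.O) ^ M = 1 := Subtype.ext (by simpa using h)
    have := congrArg φ h1
    rw [map_pow, h0, zero_pow hM.ne', map_one] at this
    exact zero_ne_one this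

end TW

theorem growth {P Q : ℕ} (hQ : 0 < Q) (hPQ : Q < P) (h : ℕ) :
    ∃ n, h * (n + 1) ≤ P ^ (n + 1) / Q ^ (n + 1) := by
  have hr : (1 : ℝ) < P / Q := by
    rw [one_lt_div (by exact_mod_cast hQ)]; exact_mod_cast hPQ
  have ht := tendsto_pow_const_div_const_pow_of_one_lt 1 hr
  have hev := (ht.eventually (gt_mem_nhds (show (0 : ℝ) < 1 / (h + 1) by positivity))).and
    (Filter.eventually_ge_atTop 1)
  obtain ⟨N, hN, hN1⟩ := hev.exists
  obtain ⟨n, rfl⟩ : ∃ n, N = n + 1 := ⟨N - 1, by omega⟩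
  refine ⟨n, (Nat.le_div_iff_mul_le (pow_pos hQ _)).2 ?_⟩
  have hQ' : (0 : ℝ) < Q := by exact_mod_cast hQ
  rw [pow_one, div_lt_div_iff₀ (by positivity) (by positivity), one_mul, div_pow,
    lt_div_iff₀ (by positivity)] at hN
  have : (h : ℝ) * ((n + 1 : ℕ) : ℝ) * (Q : ℝ) ^ (n + 1) ≤ (P : ℝ) ^ (n + 1) := by
    refine le_trans (mul_le_mul_of_nonneg_right ?_ (by positivity)) hN.le
    nlinarith [(by positivity : (0 : ℝ) ≤ ((n + 1 : ℕ) : ℝ))]
  exact_mod_cast this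

/-- The main lemma for two towers with complex coefficients. -/
theorem main_lemma' {P Q : ℕ} (hQ : 0 < Q) (hPQ : Q < P) (A B : TW P Q) {κ d : ℂ} {M : ℕ}
    (hM : 0 < M) (hκ : κ ^ M = 1) (hinf : {w | w ∈ A.Good ∧ κ * w + d ∈ B.Good}.Infinite) :
    d = 0 := by
  classical
  obtain ⟨σ⟩ := exists_spec
  have := hinf.to_subtype
  let S := {w | w ∈ A.Good ∧ κ * w + d ∈ B.Good}
  have hκ0 : κ ≠ 0 := by rintro rfl; rw [zero_pow hM.ne'] at hκ; exact zero_ne_one hκ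
  choose va hva hfa hea using fun x : S => x.2.1
  choose vb hvb hfb heb using fun x : S => x.2.2
  obtain ⟨D, hD, hDZ⟩ := σ.denom_finset
    (insert d ((range (A.t + 1)).image A.β ∪ (range (B.t + 1)).image B.β))
  have hD' : (D : ℂ) ≠ 0 := fun h => hD (Subtype.ext h)
  have hpw : ∀ (z : ℂ) (e : ℕ), 0 < e → (D : ℂ) * z ∈ σ.O → ((D ^ e : σ.O) : ℂ) * z ∈ σ.O := by
    intro z e he h
    obtain ⟨e, rfl⟩ : ∃ e', e = e' + 1 := ⟨e - 1, by omega⟩
    rw [pow_succ, Subring.coe_mul, mul_assoc]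
    exact σ.O.mul_mem (D ^ e).2 h
  have hβ : ∀ (E : TW P Q), (∀ k ≤ E.t, (D : ℂ) * E.β k ∈ σ.O) → ∀ k, (D : ℂ) * E.β k ∈ σ.O := by
    intro E h k
    rcases le_total k E.t with hk | hk
    · exact h k hk
    · rw [E.hβt k hk]; exact h _ le_rfl
  have hβA := hβ A fun k hk => hDZ _ (mem_insert_of_mem (mem_union_left _
    (mem_image_of_mem _ (mem_range.2 (by omega)))))
  have hβB := hβ B fun k hk => hDZ _ (mem_insert_of_mem (mem_union_right _
    (mem_image_of_mem _ (mem_range.2 (by omega)))))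
  have hfA : 0 < B.ex 0 * B.m := Nat.mul_pos (B.ex_pos 0) B.hm0
  have hfB : 0 < A.ex 0 * A.m := Nat.mul_pos (A.ex_pos 0) A.hm0
  obtain ⟨SA, hmA, hPA, hαA⟩ := A.mkSide hPQ σ (D ^ (B.ex 0 * B.m)) (pow_ne_zero _ hD)
    (fun k => hpw _ _ hfA (hβA k)) va hva hfa
    (fun x y h => Subtype.ext (by rw [← hea x, ← hea y]; exact congrArg (· ^ A.m) h))
    (lam B.r B.t) (B.lam_pos _) (fun n => lam A.r A.t * lam B.r B.t * P ^ (n + 1))
    (fun n => by ring)
  obtain ⟨SB, hmB, hPB, hαB⟩ := B.mkSide hPQ σ (D ^ (A.ex 0 * A.m)) (pow_ne_zero _ hD)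
    (fun k => hpw _ _ hfB (hβB k)) vb hvb hfb
    (fun x y h => Subtype.ext (by
      have h1 : κ * x + d = κ * y + d := by
        rw [← heb x, ← heb y]; exact congrArg (· ^ B.m) h
      exact mul_left_cancel₀ hκ0 (add_right_cancel h1)))
    (lam A.r A.t) (A.lam_pos _) (fun n => lam A.r A.t * lam B.r B.t * P ^ (n + 1))
    (fun n => by ring)
  have hκO : κ ∈ σ.O := σ.mem_of_pow hM (by rw [hκ]; exact σ.O.one_mem)
  have hdO := hpw d _ (Nat.mul_pos hfA hfB) (hDZ d (mem_insert_self _ _))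
  have key := main_lemma SA SB (C₀ := lam A.r A.t * lam B.r B.t * P)
    (fun n => by
      rw [mul_pow]
      exact Nat.mul_le_mul_right _ (Nat.le_self_pow (by omega) _))
    (growth hQ hPQ) ⟨κ, hκO⟩ ⟨_, hdO⟩ D
    (fun φ _ => by
      have h1 : (⟨κ, hκO⟩ : σ.O) ^ M = 1 := Subtype.ext (by simpa using hκ)
      have h2 := congrArg (fun z => ‖φ z‖) h1
      simp only [map_pow, norm_pow, map_one, norm_one] at h2
      exact (pow_eq_one_iff_of_nonneg (norm_nonneg _) hM.ne').1 h2) hD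
    (fun φ _ h => hαA φ (by rw [map_pow]; exact pow_ne_zero _ h))
    (fun φ _ h => hαB φ (by rw [map_pow]; exact pow_ne_zero _ h))
    (fun x => Subtype.ext (by
      simp only [Subring.coe_add, Subring.coe_mul, SubmonoidClass.coe_pow, hPA, hPB, hmA, hmB,
        mul_pow, hea, heb, ← pow_mul]
      ring))
  have h3 : ((D ^ (B.ex 0 * B.m * (A.ex 0 * A.m)) : σ.O) : ℂ) * d = 0 := congrArg Subtype.val key
  exact (mul_eq_zero.1 h3).resolve_left (by rw [SubmonoidClass.coe_pow]; exact pow_ne_zero _ hD')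

end Pool.Agent.MP_09973c_nt.H31
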